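import Pool.Agent.Zk11.QE.Fj

/-! Quantum ergodicity in all windows. -/

set_option autoImplicit false
set_option linter.unusedSectionVars false

open scoped BigOperators Topology ENNReal
open MeasureTheory Filter

namespace Pool.Agent.Zk11.QE

open Pool.Agent.Zk11.QD
open Pool.Agent.W788.MFP.Four (T e NN adj adj_neg e_comm e_add_left e_add e_zero e_neg e_neg_left
  e_normSq sum_e NN_pos card_T e_single)
open Pool.Agent.Zk60.LL.Det (EB)
open Pool.Agent.Zk96.QE (bx passage_loc box_bound)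

variable {d : ℕ}

/-- the number of points of a box -/
theorem bx_card {L : ℕ} [NeZero L] (y : T d L) (ℓ : Fin d → ℕ) (hℓ : ∀ i, ℓ i ≤ L) :
    ((bx y ℓ).card : ℝ) / (L : ℝ) ^ d = ∏ i, ((ℓ i : ℝ) / L) := by
  classical
  have hN : NN d L = (L : ℝ) ^ d := rfl
  have hNp := NN_pos (d := d) (L := L)
  have h1 := box_bound (fun _ : T d L => 1 / NN d L) (by
    rw [Finset.sum_const, Finset.card_univ, nsmul_eq_mul, cardT]
    field_simp) y ℓ hℓ
  have h2 : ∀ p ∈ Finset.univ.erase (0 : T d L), Pool.Agent.Zk96.QE.mm p *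
      ‖∑ x, e p x * ((1 / NN d L : ℝ) : ℂ)‖ ^ 2 = 0 := by
    intro p hp
    rw [← Finset.sum_mul, sum_e', if_neg (Finset.mem_erase.1 hp).1]
    simp
  rw [Finset.sum_eq_zero h2, mul_zero] at h1
  have h3 : ∑ x ∈ bx y ℓ, (fun _ : T d L => 1 / NN d L) x = ((bx y ℓ).card : ℝ) / (L : ℝ) ^ d := by
    simp only
    rw [Finset.sum_const, nsmul_eq_mul, hN]
    ring
  rw [h3] at h1
  have h4 : ((bx y ℓ).card : ℝ) / (L : ℝ) ^ d - ∏ i, ((ℓ i : ℝ) / L) = 0 := by
    by_contra hne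
    have := pow_pos (abs_pos.2 hne) 2
    rw [sq_abs] at this
    linarith
  linarith

/-- **quantum ergodicity** -/
theorem main (hd : 3 ≤ d) (E1 E2 : ℝ) (hE1 : 0 < E1) (hE2 : E2 < 4 * d) (b v0 β γ : ℝ)
    (hv0 : 0 < v0) (hβ : β < 9 / 4) (hγ : γ < 5 / 2) :
    ∃ c K l0 : ℝ, 0 < c ∧ 0 < K ∧ 0 < l0 ∧ l0 ≤ 1 ∧
      ∀ (μ : Measure ℝ) [IsProbabilityMeasure μ], (∀ᵐ s ∂μ, |s| ≤ b) →
      v0 ≤ ∫ s, (s - ∫ t, t ∂μ) ^ 2 ∂μ → ∀ lam : ℝ, 0 < lam → lam < l0 →
      ∀ (L : ℕ) [NeZero L], K * (1 / lam) ^ 2 * Real.log (1 / lam) ≤ L → (L : ℝ) ≤ lam ^ (-β) →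
      ∀ s t : ℝ, E1 ≤ s → t ≤ E2 → lam ^ γ ≤ t - s →
      ∃ Bad : Set (T d L → ℝ), MeasurableSet Bad ∧ (PL (T d L) μ).real Bad ≤ lam ^ c ∧
        ∀ V, V ∉ Bad → ∀ (ψ : T d L → T d L → ℂ) (E : T d L → ℝ), EB lam V ψ E →
        ∀ S : Finset (T d L), (∀ j ∈ S, (s ≤ E j ∧ E j ≤ t) ∧
          ∃ (y : T d L) (ℓ : Fin d → ℕ), (∀ i, ℓ i ≤ L) ∧
            lam ^ c < |∑ x ∈ bx y ℓ, ‖ψ j x‖ ^ 2 - ∏ i, ((ℓ i : ℝ) / L)|) →
        (S.card : ℝ) ≤ lam ^ c * (t - s) * (Fintype.card (T d L) : ℝ) := by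
  classical
  obtain ⟨c, K, w0, l0, hc, hK, hw0, hl0, hl01, hpiece⟩ := piece hd E1 E2 hE1 hE2 b v0 β (max γ 1)
    hv0 hβ (max_lt hγ (by norm_num))
  obtain ⟨N0, hN0⟩ : ∃ N0 : ℝ, N0 = 4 * d / w0 + 1 := ⟨_, rfl⟩
  have hN0p : 0 < N0 := by rw [hN0]; positivity
  -- small couplings
  obtain ⟨l1, hl1, hl1b⟩ : ∃ l1 : ℝ, 0 < l1 ∧ ∀ lam : ℝ, 0 < lam → lam < l1 → N0 * lam ^ c ≤ 1 := by
    refine ⟨(1 / N0) ^ (1 / c), by positivity, fun lam h0 h1 => ?_⟩
    have h2 : lam ^ c ≤ ((1 / N0) ^ (1 / c)) ^ c := Real.rpow_le_rpow h0.le h1.le hc.le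
    rw [← Real.rpow_mul (by positivity), one_div_mul_cancel hc.ne', Real.rpow_one] at h2
    calc N0 * lam ^ c ≤ N0 * (1 / N0) := mul_le_mul_of_nonneg_left h2 hN0p.le
      _ = 1 := by field_simp
  refine ⟨c, K, min l0 (min l1 (w0 / 2)), hc, hK, by positivity, (min_le_left _ _).trans hl01, ?_⟩
  intro μ _ hμb hVar lam h0 hlt L _ hKL hLβ s t hs ht hst
  have hlt0 : lam < l0 := hlt.trans_le (min_le_left _ _)
  have hlt1 : lam < l1 := hlt.trans_le ((min_le_right _ _).trans (min_le_left _ _))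
  have hlt2 : lam < w0 / 2 := hlt.trans_le ((min_le_right _ _).trans (min_le_right _ _))
  have hle1 : lam ≤ 1 := hlt0.le.trans hl01
  have hΔ : 0 < t - s := lt_of_lt_of_le (Real.rpow_pos_of_pos h0 _) hst
  have hγ' : lam ^ (max γ 1) ≤ t - s :=
    (Real.rpow_le_rpow_of_exponent_ge h0 hle1 (le_max_left _ _)).trans hst
  have hlw : lam ^ (max γ 1) ≤ w0 / 2 := by
    refine le_trans ?_ hlt2.le
    calc lam ^ (max γ 1) ≤ lam ^ (1 : ℝ) :=
          Real.rpow_le_rpow_of_exponent_ge h0 hle1 (le_max_right _ _)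
      _ = lam := Real.rpow_one _
  -- the pieces
  obtain ⟨n, hn⟩ : ∃ n : ℕ, n = ⌈(t - s) / w0⌉₊ := ⟨_, rfl⟩
  have hn1 : 1 ≤ n := by
    rw [hn, Nat.one_le_ceil_iff]
    positivity
  have hnR : (1 : ℝ) ≤ n := by exact_mod_cast hn1
  have hn0 : (0 : ℝ) < n := by linarith
  have hna : (t - s) / w0 ≤ n := by rw [hn]; exact Nat.le_ceil _
  have hnb : (n : ℝ) < (t - s) / w0 + 1 := by rw [hn]; exact Nat.ceil_lt_add_one (by positivity)
  obtain ⟨δ, hδ⟩ : ∃ δ : ℝ, δ = (t - s) / n := ⟨_, rfl⟩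
  have hδ0 : 0 < δ := by rw [hδ]; positivity
  have hδw : δ ≤ w0 := by
    rw [hδ, div_le_iff₀ hn0]
    rw [div_le_iff₀ hw0] at hna
    linarith
  have hδn : δ * n = t - s := by rw [hδ]; field_simp
  have hδl : lam ^ (max γ 1) ≤ δ := by
    rcases le_or_gt (t - s) w0 with hc1 | hc1
    · have hn' : n = 1 := by
        have h3 : (n : ℝ) < 2 := by
          have : (t - s) / w0 ≤ 1 := by
            rw [div_le_one hw0]
            exact hc1
          linarith
        have : n < 2 := by exact_mod_cast h3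
        omega
      rw [hn'] at hδn
      push_cast at hδn
      linarith
    · refine hlw.trans ?_
      rw [hδ, le_div_iff₀ hn0]
      have h3 : 1 ≤ (t - s) / w0 := by
        rw [le_div_iff₀ hw0]
        linarith
      have h4 : (n : ℝ) ≤ 2 * ((t - s) / w0) := by linarith
      calc w0 / 2 * n ≤ w0 / 2 * (2 * ((t - s) / w0)) := by gcongr
        _ = t - s := by field_simp
  have hnN : (n : ℝ) ≤ N0 := by
    rw [hN0]
    refine hnb.le.trans ?_
    have : (t - s) / w0 ≤ 4 * d / w0 := div_le_div_of_nonneg_right (by linarith) hw0.le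
    linarith
  have hpc := fun i : Fin n => hpiece μ hμb hVar lam h0 hlt0 L hKL hLβ (s + i * δ)
    (s + (i + 1) * δ) (by
      have : 0 ≤ ((i : ℕ) : ℝ) * δ := by positivity
      linarith) (by
      have h3 : ((i : ℕ) : ℝ) + 1 ≤ n := by exact_mod_cast i.2
      have h4 : (((i : ℕ) : ℝ) + 1) * δ ≤ n * δ := mul_le_mul_of_nonneg_right h3 hδ0.le
      have h5 : n * δ = t - s := by rw [mul_comm]; exact hδn
      linarith) (by
      have : s + (((i : ℕ) : ℝ) + 1) * δ - (s + ((i : ℕ) : ℝ) * δ) = δ := by ring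
      rw [this]
      exact hδl) (by
      have : s + (((i : ℕ) : ℝ) + 1) * δ - (s + ((i : ℕ) : ℝ) * δ) = δ := by ring
      rw [this]
      exact hδw)
  choose Bad hBm hBp hBc using hpc
  refine ⟨⋃ i, Bad i, MeasurableSet.iUnion hBm, ?_, ?_⟩
  · refine (measureReal_iUnion_fintype_le Bad).trans ?_
    refine (Finset.sum_le_sum fun i _ => hBp i).trans ?_
    rw [Finset.sum_const, Finset.card_univ, Fintype.card_fin, nsmul_eq_mul]
    have h3 : lam ^ (2 * c) = lam ^ c * lam ^ c := by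
      rw [← Real.rpow_add h0]
      congr 1
      ring
    have h4 := hl1b lam h0 hlt1
    have h5 : 0 < lam ^ c := Real.rpow_pos_of_pos h0 _
    rw [h3]
    calc (n : ℝ) * (lam ^ c * lam ^ c) ≤ N0 * (lam ^ c * lam ^ c) := by gcongr
      _ = (N0 * lam ^ c) * lam ^ c := by ring
      _ ≤ 1 * lam ^ c := mul_le_mul_of_nonneg_right h4 h5.le
      _ = _ := one_mul _
  · intro V hV ψ E hE S hS
    have hVi : ∀ i, V ∉ Bad i := fun i hi => hV (Set.mem_iUnion.2 ⟨i, hi⟩)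
    set Si : Fin n → Finset (T d L) := fun i => S.filter fun j =>
      s + ((i : ℕ) : ℝ) * δ ≤ E j ∧ E j ≤ s + (((i : ℕ) : ℝ) + 1) * δ with hSi
    have hcov : S ⊆ Finset.univ.biUnion Si := by
      intro j hj
      obtain ⟨⟨k1, k2⟩, -⟩ := hS j hj
      rw [Finset.mem_biUnion]
      obtain ⟨k, hk⟩ : ∃ k : ℕ, k = ⌊(E j - s) / δ⌋₊ := ⟨_, rfl⟩
      have hx0 : 0 ≤ (E j - s) / δ := div_nonneg (by linarith) hδ0.le
      have f1 : (k : ℝ) ≤ (E j - s) / δ := by rw [hk]; exact Nat.floor_le hx0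
      have f2 : (E j - s) / δ < k + 1 := by rw [hk]; exact Nat.lt_floor_add_one _
      rw [le_div_iff₀ hδ0] at f1
      rw [div_lt_iff₀ hδ0] at f2
      rcases lt_or_ge k n with hkn | hkn
      · refine ⟨⟨k, hkn⟩, Finset.mem_univ _, ?_⟩
        rw [hSi, Finset.mem_filter]
        exact ⟨hj, by simp only; linarith, by simp only; linarith⟩
      · refine ⟨⟨n - 1, by omega⟩, Finset.mem_univ _, ?_⟩
        rw [hSi, Finset.mem_filter]
        have f3 : ((n - 1 : ℕ) : ℝ) = n - 1 := by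
          push_cast [hn1]
          ring
        have f4 : (n : ℝ) ≤ k := by exact_mod_cast hkn
        have f5 : (n : ℝ) * δ ≤ k * δ := mul_le_mul_of_nonneg_right f4 hδ0.le
        have f6 : (n : ℝ) * δ = t - s := by rw [mul_comm]; exact hδn
        refine ⟨hj, ?_, ?_⟩
        · simp only
          rw [f3]
          have : ((n : ℝ) - 1) * δ = n * δ - δ := by ring
          rw [this]
          linarith
        · simp only
          rw [f3]
          have : ((n : ℝ) - 1 + 1) * δ = n * δ := by ring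
          rw [this]
          linarith
    have hcard : (S.card : ℝ) ≤ ∑ i : Fin n, ((Si i).card : ℝ) := by
      have := (Finset.card_le_card hcov).trans Finset.card_biUnion_le
      exact_mod_cast this
    refine hcard.trans ?_
    have hi : ∀ i : Fin n, ((Si i).card : ℝ) ≤ lam ^ c * δ * (Fintype.card (T d L) : ℝ) := by
      intro i
      have h3 := hBc i V (hVi i) ψ E hE (Si i) (fun j hj => by
        rw [hSi, Finset.mem_filter] at hj
        exact ⟨hj.2, (hS j hj.1).2⟩)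
      have : s + (((i : ℕ) : ℝ) + 1) * δ - (s + ((i : ℕ) : ℝ) * δ) = δ := by ring
      rwa [this] at h3
    refine (Finset.sum_le_sum fun i _ => hi i).trans (le_of_eq ?_)
    rw [Finset.sum_const, Finset.card_univ, Fintype.card_fin, nsmul_eq_mul, ← hδn]
    ring

end Pool.Agent.Zk11.QE
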