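import Pool.Agent.Zk96.QE.Loc
import Pool.Agent.Zk60.LQ.Dif2
import Pool.Agent.Zk60.LL.Mcd

/-! The number of eigenvalues in short windows, from below, with overwhelming probability. -/

set_option autoImplicit false
set_option linter.unusedSectionVars false

open scoped BigOperators Topology
open MeasureTheory Filter

namespace Pool.Agent.Zk11.QE.Ct

open Pool.Agent.W788.MFP.Four (T e NN e_comm e_add_left e_add e_zero e_neg e_neg_left
  e_normSq sum_e NN_pos card_T e_single)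
open Pool.Agent.Zk11.QD (Hz HM HM_apply HM_det uu uu_eq uu_norm uu_meas uu_le PL e_norm na)
open Pool.Agent.Zk60.LL.Cau Pool.Agent.Zk60.LL.Det Pool.Agent.Zk60.LL.Prob
open Pool.Agent.Zk96.QE Pool.Agent.Zk60.LL.Mcd

variable {d L : ℕ} [NeZero L]

/-- the averaged quadratic functional -/
noncomputable def GF (φ : ℝ → ℝ) (K : T d L → ℝ) (A B η σ : ℝ) (V : T d L → ℝ) : ℝ :=
  ∫ u in Set.Icc A B, φ u * (η * SS K ((u : ℂ) + η * Complex.I) σ V)

theorem GF_meas (φ : ℝ → ℝ) (hφc : Continuous φ) (K : T d L → ℝ) (A B η σ : ℝ) (hη : 0 < η) :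
    Measurable (GF (d := d) (L := L) φ K A B η σ) := by
  have h1 := (SS_cont (d := d) (L := L) φ hφc K η hη σ).stronglyMeasurable
  have h2 : StronglyMeasurable fun V : T d L → ℝ => ∫ u in Set.Icc A B,
      φ u * (η * SS K ((u : ℂ) + η * Complex.I) σ V) :=
    StronglyMeasurable.integral_prod_left (μ := volume.restrict (Set.Icc A B))
      (f := fun (u : ℝ) (V : T d L → ℝ) => φ u * (η * SS K ((u : ℂ) + η * Complex.I) σ V)) h1
  exact h2.measurable

theorem GF_int (φ : ℝ → ℝ) (hφc : Continuous φ) (K : T d L → ℝ) (A B η σ : ℝ) (hη : 0 < η)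
    (V : T d L → ℝ) :
    IntegrableOn (fun u : ℝ => φ u * (η * SS K ((u : ℂ) + η * Complex.I) σ V)) (Set.Icc A B) := by
  have h1 := (SS_cont (d := d) (L := L) φ hφc K η hη σ).comp (Continuous.prodMk_left V)
  exact h1.continuousOn.integrableOn_compact isCompact_Icc

theorem GF_abs (φ : ℝ → ℝ) (hφc : Continuous φ) (hφ0 : ∀ u, 0 ≤ φ u) (K : T d L → ℝ)
    (A B η σ M : ℝ) (hη : 0 < η) (hM : ∫ u in Set.Icc A B, φ u ≤ M) (V : T d L → ℝ) :
    |GF φ K A B η σ V| ≤ M * (η * ∑ x : T d L, ∑ y : T d L, |K (x - y)| * (1 / η ^ 2)) := by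
  unfold GF
  have h1 : ∀ u : ℝ, ‖φ u * (η * SS K ((u : ℂ) + η * Complex.I) σ V)‖ ≤
      φ u * (η * ∑ x : T d L, ∑ y : T d L, |K (x - y)| * (1 / η ^ 2)) := by
    intro u
    rw [Real.norm_eq_abs, abs_mul, abs_mul, abs_of_nonneg (hφ0 u), abs_of_pos hη]
    exact mul_le_mul_of_nonneg_left (mul_le_mul_of_nonneg_left (SS_abs K η hη σ u V) hη.le) (hφ0 u)
  have hφi : IntegrableOn φ (Set.Icc A B) := hφc.continuousOn.integrableOn_compact isCompact_Icc
  have h2 := norm_integral_le_of_norm_le (μ := volume.restrict (Set.Icc A B))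
    (hφi.mul_const (η * ∑ x : T d L, ∑ y : T d L, |K (x - y)| * (1 / η ^ 2)))
    (Eventually.of_forall h1)
  rw [Real.norm_eq_abs, integral_mul_const] at h2
  refine h2.trans (mul_le_mul_of_nonneg_right hM ?_)
  exact mul_nonneg hη.le (Finset.sum_nonneg fun x _ => Finset.sum_nonneg fun y _ => by positivity)

/-- bounded differences -/
theorem GF_diff (φ : ℝ → ℝ) (hφc : Continuous φ) (hφ0 : ∀ u, 0 ≤ φ u) (K : T d L → ℝ)
    (A B η σ M W : ℝ) (hη : 0 < η) (hM : ∫ u in Set.Icc A B, φ u ≤ M) (hW : 0 ≤ W)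
    (hK : ∀ (z : ℂ), 0 < z.im → ∀ (V : T d L → ℝ) (v : T d L) (s : ℝ),
      |SS K z σ (Function.update V v s) - SS K z σ V| ≤ W * (2 / z.im ^ 2))
    (V : T d L → ℝ) (v : T d L) (s : ℝ) :
    |GF φ K A B η σ V - GF φ K A B η σ (Function.update V v s)| ≤ M * (W * (2 / η)) := by
  rw [abs_sub_comm]
  unfold GF
  rw [← integral_sub (GF_int φ hφc K A B η σ hη _) (GF_int φ hφc K A B η σ hη _)]
  have h1 : ∀ u : ℝ, ‖φ u * (η * SS K ((u : ℂ) + η * Complex.I) σ (Function.update V v s)) -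
      φ u * (η * SS K ((u : ℂ) + η * Complex.I) σ V)‖ ≤ φ u * (W * (2 / η)) := by
    intro u
    have h2 := hK ((u : ℂ) + η * Complex.I) (by simpa using hη) V v s
    have h3 : ((u : ℂ) + η * Complex.I).im = η := by simp
    rw [h3] at h2
    have h4 : φ u * (η * SS K ((u : ℂ) + η * Complex.I) σ (Function.update V v s)) -
      φ u * (η * SS K ((u : ℂ) + η * Complex.I) σ V) = φ u * (η * (SS K ((u : ℂ) + η * Complex.I) σ
        (Function.update V v s) - SS K ((u : ℂ) + η * Complex.I) σ V)) := by ring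
    rw [h4, Real.norm_eq_abs, abs_mul, abs_mul, abs_of_nonneg (hφ0 u), abs_of_pos hη]
    refine mul_le_mul_of_nonneg_left ?_ (hφ0 u)
    calc η * |SS K ((u : ℂ) + η * Complex.I) σ (Function.update V v s) -
          SS K ((u : ℂ) + η * Complex.I) σ V| ≤ η * (W * (2 / η ^ 2)) :=
          mul_le_mul_of_nonneg_left h2 hη.le
      _ = W * (2 / η) := by field_simp
  have hφi : IntegrableOn φ (Set.Icc A B) := hφc.continuousOn.integrableOn_compact isCompact_Icc
  have h2 := norm_integral_le_of_norm_le (μ := volume.restrict (Set.Icc A B))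
    (hφi.mul_const (W * (2 / η))) (Eventually.of_forall h1)
  rw [Real.norm_eq_abs, integral_mul_const] at h2
  exact h2.trans (mul_le_mul_of_nonneg_right hM (by positivity))

/-- bounded differences of the Hilbert-Schmidt norm -/
theorem one_diff (σ : ℝ) (z : ℂ) (hz : 0 < z.im) (V : T d L → ℝ) (v : T d L) (s : ℝ) :
    |SS (fun _ => 1) z σ (Function.update V v s) - SS (fun _ => 1) z σ V| ≤ 1 * (2 / z.im ^ 2) := by
  rw [one_mul]
  exact Pool.Agent.Zk60.LQ.SS_diff2 (fun _ : Unit => (0 : T d L)) (fun _ => 1)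
    (fun _ => zero_le_one) (by simp) (fun _ => 1) (fun x => by simp [e_comm, e_zero]) z hz σ V v s

/-- the mean -/
theorem GF_avg (μ : Measure ℝ) [IsProbabilityMeasure μ] (φ : ℝ → ℝ) (hφc : Continuous φ)
    (hφ0 : ∀ u, 0 ≤ φ u) (hφ1 : ∀ u, φ u ≤ 1) (K : T d L → ℝ) (A B η σ : ℝ) (hη : 0 < η) :
    Integrable (GF (d := d) (L := L) φ K A B η σ) (PL (T d L) μ) ∧
    ∫ V, GF φ K A B η σ V ∂(PL (T d L) μ) = ∫ u in Set.Icc A B,
      φ u * (η * ((Fintype.card (T d L) : ℝ) *
      ∑ x, K x * ∫ V, ‖uu ((u : ℂ) + η * Complex.I) σ V x‖ ^ 2 ∂(PL (T d L) μ))) ∧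
    IntegrableOn (fun u : ℝ => φ u * (η * ((Fintype.card (T d L) : ℝ) *
      ∑ x, K x * ∫ V, ‖uu ((u : ℂ) + η * Complex.I) σ V x‖ ^ 2 ∂(PL (T d L) μ))))
      (Set.Icc A B) := by
  set Cst : ℝ := η * ∑ x : T d L, ∑ y : T d L, |K (x - y)| * (1 / η ^ 2) with hCst
  have hint : Integrable (fun p : ℝ × (T d L → ℝ) =>
      φ p.1 * (η * SS K ((p.1 : ℂ) + η * Complex.I) σ p.2))
      ((volume.restrict (Set.Icc A B)).prod (PL (T d L) μ)) := by
    refine Integrable.mono' (integrable_const Cst)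
      (SS_cont φ hφc K η hη σ).aestronglyMeasurable
      (Eventually.of_forall fun p => ?_)
    rw [Real.norm_eq_abs, abs_mul, abs_mul, abs_of_nonneg (hφ0 p.1), abs_of_pos hη]
    have h1 := SS_abs K η hη σ p.1 p.2
    have h2 : 0 ≤ η * |SS K ((p.1 : ℂ) + η * Complex.I) σ p.2| := by positivity
    calc φ p.1 * (η * |SS K ((p.1 : ℂ) + η * Complex.I) σ p.2|) ≤
        1 * (η * |SS K ((p.1 : ℂ) + η * Complex.I) σ p.2|) :=
          mul_le_mul_of_nonneg_right (hφ1 _) h2
      _ ≤ Cst := by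
          rw [one_mul, hCst]
          exact mul_le_mul_of_nonneg_left h1 hη.le
  have h1 : Integrable (GF (d := d) (L := L) φ K A B η σ) (PL (T d L) μ) := hint.integral_prod_right
  have h2 := integral_integral_swap (f := fun (u : ℝ) (V : T d L → ℝ) =>
    φ u * (η * SS K ((u : ℂ) + η * Complex.I) σ V)) (μ := volume.restrict (Set.Icc A B))
    (ν := PL (T d L) μ) hint
  refine ⟨h1, ?_, ?_⟩
  · unfold GF
    rw [← h2]
    refine integral_congr_ae (Eventually.of_forall fun u => ?_)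
    simp only
    rw [integral_const_mul, integral_const_mul, avg_SS μ K η hη σ u]
  · have h6 := hint.integral_prod_left
    refine h6.congr (Eventually.of_forall fun u => ?_)
    simp only
    rw [integral_const_mul, integral_const_mul, avg_SS μ K η hη σ u]

/-- the mean from below -/
theorem XX_low (μ : Measure ℝ) [IsProbabilityMeasure μ] (A B η σ a0 : ℝ) (hAB : A ≤ B)
    (hη : 0 < η)
    (h0 : ∀ u : ℝ, A ≤ u → u ≤ B → a0 ≤
      η * ∑ x : T d L, ∫ V, ‖uu ((u : ℂ) + η * Complex.I) σ V x‖ ^ 2 ∂(PL (T d L) μ)) :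
    (Fintype.card (T d L) : ℝ) * a0 * (B - A) ≤
      ∫ V, GF (fun _ => 1) (fun _ => 1) A B η σ V ∂(PL (T d L) μ) := by
  obtain ⟨h1, h2, h3⟩ := GF_avg (d := d) (L := L) μ (fun _ => 1) continuous_const
    (fun _ => zero_le_one) (fun _ => le_rfl) (fun _ => 1) A B η σ hη
  rw [h2]
  have hN : (0 : ℝ) ≤ (Fintype.card (T d L) : ℝ) := by positivity
  calc (Fintype.card (T d L) : ℝ) * a0 * (B - A) =
        ∫ _u in Set.Icc A B, (Fintype.card (T d L) : ℝ) * a0 := by
        rw [setIntegral_const, Real.volume_real_Icc_of_le hAB, smul_eq_mul]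
        ring
    _ ≤ _ := by
        refine setIntegral_mono_on (integrableOn_const (by simp)) h3 measurableSet_Icc
          fun u hu => ?_
        have h4 := mul_le_mul_of_nonneg_left (h0 u hu.1 hu.2) hN
        simp only [one_mul]
        linarith

/-- the tails of the Cauchy kernel against the window -/
theorem mid_le (η D c a : ℝ) (hη : 0 < η) (hD : 0 < D) (ha : D / 2 ≤ |a - c|) :
    ∫ u in Set.Icc (c - D / 6) (c + D / 6), η / ((a - u) ^ 2 + η ^ 2) ≤ 4 * (η / D) * qq D c a := by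
  have hc : Continuous fun u : ℝ => η / ((a - u) ^ 2 + η ^ 2) := by
    refine Continuous.div (by fun_prop) (by fun_prop) fun u => (den_pos η a u hη).ne'
  have ha0 : 0 < |a - c| := by linarith
  have hac : 0 < (a - c) ^ 2 := by
    rw [← sq_abs]
    positivity
  have h1 : ∀ u ∈ Set.Icc (c - D / 6) (c + D / 6), η / ((a - u) ^ 2 + η ^ 2) ≤
      9 / 4 * η / (a - c) ^ 2 := by
    intro u hu
    have h2 : |u - c| ≤ D / 6 := by
      rw [abs_le]
      exact ⟨by linarith [hu.1], by linarith [hu.2]⟩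
    have h3 : 2 / 3 * |a - c| ≤ |a - u| := by
      have h4 : |a - c| ≤ |a - u| + |u - c| := abs_sub_le a u c
      linarith
    have h5 : (2 / 3 * |a - c|) ^ 2 ≤ (a - u) ^ 2 := by
      rw [← sq_abs (a - u)]
      exact pow_le_pow_left₀ (by positivity) h3 2
    rw [mul_pow, sq_abs] at h5
    rw [div_le_div_iff₀ (den_pos η a u hη) hac]
    have h6 : 9 / 4 * η * ((2 / 3) ^ 2 * (a - c) ^ 2) ≤ 9 / 4 * η * ((a - u) ^ 2 + η ^ 2) := by
      refine mul_le_mul_of_nonneg_left ?_ (by positivity)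
      have := sq_nonneg η
      linarith
    calc η * (a - c) ^ 2 = 9 / 4 * η * ((2 / 3) ^ 2 * (a - c) ^ 2) := by ring
      _ ≤ _ := h6
  calc ∫ u in Set.Icc (c - D / 6) (c + D / 6), η / ((a - u) ^ 2 + η ^ 2) ≤
        ∫ _u in Set.Icc (c - D / 6) (c + D / 6), 9 / 4 * η / (a - c) ^ 2 :=
        setIntegral_mono_on (hc.continuousOn.integrableOn_compact isCompact_Icc)
          (integrableOn_const (by simp)) measurableSet_Icc h1
    _ = 3 / 4 * η * D / (a - c) ^ 2 := by
        rw [setIntegral_const, Real.volume_real_Icc_of_le (by linarith), smul_eq_mul]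
        ring
    _ ≤ 4 * (η / D) * qq D c a := by
        unfold qq
        have h7 : D ^ 2 ≤ 4 * (a - c) ^ 2 := by
          have : (D / 2) ^ 2 ≤ |a - c| ^ 2 := pow_le_pow_left₀ (by positivity) ha 2
          rw [sq_abs] at this
          linarith
        have h8 : 4 * (η / D) * (D ^ 2 / ((a - c) ^ 2 + D ^ 2)) =
            4 * η * D / ((a - c) ^ 2 + D ^ 2) := by
          field_simp
        rw [h8, div_le_div_iff₀ hac (by positivity)]
        have h9 : 0 ≤ η * D := by positivity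
        nlinarith

/-- the counting from below -/
theorem XX_le {σ : ℝ} {V : T d L → ℝ} {ψ : T d L → T d L → ℂ} {E : T d L → ℝ}
    (h : EB σ V ψ E) (s1 s2 η : ℝ) (hη : 0 < η) (hs : s1 < s2) :
    GF (fun _ => 1) (fun _ => 1) ((s1 + s2) / 2 - (s2 - s1) / 6) ((s1 + s2) / 2 + (s2 - s1) / 6)
      η σ V ≤ Real.pi * ((Finset.univ.filter fun j => s1 ≤ E j ∧ E j ≤ s2).card : ℝ) +
      4 * (η / (s2 - s1)) * ∑ j, qq (s2 - s1) ((s1 + s2) / 2) (E j) := by
  classical
  set D : ℝ := s2 - s1 with hD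
  set c : ℝ := (s1 + s2) / 2 with hc
  have hD0 : 0 < D := by linarith
  have hcont : ∀ a : ℝ, Continuous fun u : ℝ => η / ((a - u) ^ 2 + η ^ 2) := fun a => by
    refine Continuous.div (by fun_prop) (by fun_prop) fun u => (den_pos η a u hη).ne'
  have h1 : GF (fun _ => 1) (fun _ => 1) (c - D / 6) (c + D / 6) η σ V =
      ∑ j, ∫ u in Set.Icc (c - D / 6) (c + D / 6), η / ((E j - u) ^ 2 + η ^ 2) := by
    unfold GF
    rw [← integral_finsetSum]
    · refine integral_congr_ae (Eventually.of_forall fun u => ?_)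
      simp only
      rw [SS_one h η u hη, Finset.mul_sum, one_mul]
      refine Finset.sum_congr rfl fun j _ => ?_
      rw [fc_self η (E j) u hη]
      ring
    · intro j _
      exact (hcont (E j)).continuousOn.integrableOn_compact isCompact_Icc
  rw [h1]
  have h2 : ∀ j, ∫ u in Set.Icc (c - D / 6) (c + D / 6), η / ((E j - u) ^ 2 + η ^ 2) ≤
      (if s1 ≤ E j ∧ E j ≤ s2 then Real.pi else 0) + 4 * (η / D) * qq D c (E j) := by
    intro j
    have hq := (qq_pos D c (E j) hD0).le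
    by_cases hj : s1 ≤ E j ∧ E j ≤ s2
    · rw [if_pos hj]
      have h3 : ∫ u in Set.Icc (c - D / 6) (c + D / 6), η / ((E j - u) ^ 2 + η ^ 2) ≤ Real.pi := by
        rw [← pk_val η (E j) hη]
        refine setIntegral_le_integral (pk_int η (E j) hη) (Eventually.of_forall fun u => ?_)
        have := den_pos η (E j) u hη
        simp only [Pi.zero_apply]
        positivity
      have : 0 ≤ 4 * (η / D) * qq D c (E j) := by positivity
      linarith
    · rw [if_neg hj, zero_add]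
      refine mid_le η D c (E j) hη hD0 ?_
      by_contra hcon
      push Not at hcon
      have := abs_lt.1 hcon
      apply hj
      constructor
      · linarith [this.1]
      · linarith [this.2]
  refine (Finset.sum_le_sum fun j _ => h2 j).trans (le_of_eq ?_)
  rw [Finset.sum_add_distrib, ← Finset.mul_sum, ← Finset.sum_filter, Finset.sum_const,
    nsmul_eq_mul]
  ring

/-- **the number of eigenvalues in a short window from below** -/
theorem count_low (μ : Measure ℝ) [IsProbabilityMeasure μ] (b0 : ℝ) (hb0 : 0 ≤ b0)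
    (hμ : ∀ᵐ s ∂μ, |s| ≤ b0) (s1 s2 w0 b η σ a0 : ℝ)
    (hw0 : 0 < w0) (hη : 0 < η) (hηD : 2 * η ≤ s2 - s1) (hb : 0 ≤ b) (ha0 : 0 < a0)
    (h0 : ∀ u : ℝ, s1 - w0 ≤ u → u ≤ s2 + w0 →
      η * ∑ x : T d L, ∫ V, ‖uu ((u : ℂ) + η * Complex.I) σ V x‖ ^ 2 ∂(PL (T d L) μ) ≤ b)
    (hlow : ∀ u : ℝ, s1 ≤ u → u ≤ s2 → a0 ≤
      η * ∑ x : T d L, ∫ V, ‖uu ((u : ℂ) + η * Complex.I) σ V x‖ ^ 2 ∂(PL (T d L) μ))
    (hsm : 30 * (η / (s2 - s1)) * (b + (s2 - s1) / w0 ^ 2) ≤ a0 / 12) :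
    ∃ Bad : Set (T d L → ℝ), MeasurableSet Bad ∧ (PL (T d L) μ).real Bad ≤
        Real.exp (-(a0 ^ 2 * η ^ 2 * (Fintype.card (T d L) : ℝ) / 400000)) ∧
      ∀ V, V ∉ Bad → ∀ (ψ : T d L → T d L → ℂ) (E : T d L → ℝ), EB σ V ψ E →
        a0 / 32 * (s2 - s1) * (Fintype.card (T d L) : ℝ) ≤
          ((Finset.univ.filter fun j => s1 ≤ E j ∧ E j ≤ s2).card : ℝ) := by
  classical
  obtain ⟨D, hD⟩ : ∃ D : ℝ, D = s2 - s1 := ⟨_, rfl⟩
  obtain ⟨c, hc⟩ : ∃ c : ℝ, c = (s1 + s2) / 2 := ⟨_, rfl⟩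
  obtain ⟨N, hN⟩ : ∃ N : ℝ, N = (Fintype.card (T d L) : ℝ) := ⟨_, rfl⟩
  rw [← hD] at hηD hsm ⊢
  rw [← hN]
  have hD0 : 0 < D := by linarith
  have hN0 : 0 < N := by
    rw [hN]
    exact_mod_cast Fintype.card_pos
  have hpi : Real.pi < 3.15 := Real.pi_lt_d2
  have hpi0 : 0 < Real.pi := Real.pi_pos
  obtain ⟨P, hP⟩ : ∃ P : ℝ, P = 2 * (Real.pi * (D ^ 2 / w0 ^ 2)) * N := ⟨_, rfl⟩
  obtain ⟨k, hk⟩ : ∃ k : ℝ, k = 4 * (η / D) := ⟨_, rfl⟩
  have hk0 : 0 < k := by rw [hk]; positivity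
  obtain ⟨hx1, hx2, hx3⟩ := GF_avg (d := d) (L := L) μ (fun _ => 1) continuous_const
    (fun _ => zero_le_one) (fun _ => le_rfl) (fun _ => 1) (c - D / 6) (c + D / 6) η σ hη
  have hX := XX_low (d := d) (L := L) μ (c - D / 6) (c + D / 6) η σ a0 (by linarith) hη
    (fun u h1 h2 => hlow u (by rw [hc] at h1; linarith) (by rw [hc] at h2; linarith))
  obtain ⟨ht1, ht2⟩ := TT_avg (d := d) (L := L) μ D c (s1 - w0) (s2 + w0) η σ b hD0 hη hb h0
  obtain ⟨H, hH⟩ : ∃ H : (T d L → ℝ) → ℝ, H = fun V => GF (fun _ => 1) (fun _ => 1) (c - D / 6)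
    (c + D / 6) η σ V - k * (2 * TT D c (s1 - w0) (s2 + w0) η σ V + P) := ⟨_, rfl⟩
  have hHdet : ∀ (V : T d L → ℝ) (ψ : T d L → T d L → ℂ) (E : T d L → ℝ), EB σ V ψ E →
      H V ≤ Real.pi * ((Finset.univ.filter fun j => s1 ≤ E j ∧ E j ≤ s2).card : ℝ) := by
    intro V ψ E h
    have e1 := XX_le h s1 s2 η hη (by linarith)
    have e2 := TT_lower h D c η w0 (s1 - w0) (s2 + w0) hη hηD hw0 (by rw [hc]; linarith)
      (by rw [hc]; linarith)
    rw [← hD, ← hc, ← hk] at e1
    rw [← hN, ← hP] at e2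
    have e3 := mul_le_mul_of_nonneg_left e2 hk0.le
    rw [hH]
    simp only
    linarith
  have hHm : Measurable H := by
    rw [hH]
    exact (GF_meas _ continuous_const _ _ _ η σ hη).sub
      ((((TT_meas D c (s1 - w0) (s2 + w0) η σ hD0 hη).const_mul 2).add_const _).const_mul _)
  have hHavg : N * D * (a0 / 4) ≤ ∫ V, H V ∂(PL (T d L) μ) := by
    have i1 : Integrable (fun V : T d L → ℝ => 2 * TT D c (s1 - w0) (s2 + w0) η σ V + P)
        (PL (T d L) μ) := (ht1.const_mul 2).add (integrable_const _)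
    rw [hH, integral_sub hx1 (i1.const_mul k), integral_const_mul,
      integral_add (ht1.const_mul 2) (integrable_const _), integral_const_mul, integral_const,
      probReal_univ, one_smul]
    rw [← hN] at ht2 hX
    have e1 : c + D / 6 - (c - D / 6) = D / 3 := by ring
    rw [e1] at hX
    have e2 : 2 * ∫ V, TT D c (s1 - w0) (s2 + w0) η σ V ∂(PL (T d L) μ) + P ≤
        2 * (N * b * (Real.pi * D)) + P := by linarith
    have e3 := mul_le_mul_of_nonneg_left e2 hk0.le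
    have e4 : k * (2 * (N * b * (Real.pi * D)) + P) =
        8 * Real.pi * (N * D * ((η / D) * (b + D / w0 ^ 2))) := by
      rw [hk, hP]
      ring
    have e5 : 0 ≤ N * D * ((η / D) * (b + D / w0 ^ 2)) := by positivity
    have e6 : 8 * Real.pi * (N * D * ((η / D) * (b + D / w0 ^ 2))) ≤
        30 * (N * D * ((η / D) * (b + D / w0 ^ 2))) :=
      mul_le_mul_of_nonneg_right (by linarith) e5
    have e7 : 30 * (N * D * ((η / D) * (b + D / w0 ^ 2))) ≤ N * D * (a0 / 12) := by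
      calc 30 * (N * D * ((η / D) * (b + D / w0 ^ 2))) =
            N * D * (30 * (η / D) * (b + D / w0 ^ 2)) := by ring
        _ ≤ N * D * (a0 / 12) := mul_le_mul_of_nonneg_left hsm (by positivity)
    have e8 : N * a0 * (D / 3) = N * D * (a0 / 3) := by ring
    rw [e8] at hX
    rw [e4] at e3
    have e9 : N * D * (a0 / 4) = N * D * (a0 / 3) - N * D * (a0 / 12) := by ring
    rw [e9]
    linarith
  -- bounded differences
  have hq1 : ∫ u in Set.Icc (s1 - w0) (s2 + w0), qq D c u ≤ Real.pi * D := by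
    rw [← qq_val D c hD0]
    exact setIntegral_le_integral (qq_int D c hD0)
      (Eventually.of_forall fun u => (qq_pos D c u hD0).le)
  have hq2 : ∫ _u in Set.Icc (c - D / 6) (c + D / 6), (1 : ℝ) ≤ D / 3 := by
    rw [setIntegral_const, Real.volume_real_Icc_of_le (by linarith), smul_eq_mul]
    apply le_of_eq
    ring
  have hTG : ∀ V : T d L → ℝ, TT D c (s1 - w0) (s2 + w0) η σ V =
      GF (qq D c) (fun _ => 1) (s1 - w0) (s2 + w0) η σ V := fun V => rfl
  have hBd : ∀ (V : T d L → ℝ) (v : T d L) (s : ℝ), (∀ x, |V x| ≤ b0) → |s| ≤ b0 →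
      |H V - H (Function.update V v s)| ≤ 26 * (D / η) := by
    intro V v s _ _
    have f1 := GF_diff (fun _ => 1) continuous_const (fun _ => zero_le_one) (fun _ => 1)
      (c - D / 6) (c + D / 6) η σ (D / 3) 1 hη hq2 zero_le_one
      (fun z hz V v s => one_diff σ z hz V v s) V v s
    have f2 := GF_diff (qq D c) (qq_cont D c hD0) (fun u => (qq_pos D c u hD0).le) (fun _ => 1)
      (s1 - w0) (s2 + w0) η σ (Real.pi * D) 1 hη hq1 zero_le_one
      (fun z hz V v s => one_diff σ z hz V v s) V v s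
    rw [← hTG, ← hTG] at f2
    have f3 : H V - H (Function.update V v s) =
        (GF (fun _ => 1) (fun _ => 1) (c - D / 6) (c + D / 6) η σ V -
          GF (fun _ => 1) (fun _ => 1) (c - D / 6) (c + D / 6) η σ (Function.update V v s)) -
        2 * k * (TT D c (s1 - w0) (s2 + w0) η σ V -
          TT D c (s1 - w0) (s2 + w0) η σ (Function.update V v s)) := by
      rw [hH]
      ring
    rw [f3]
    refine (abs_sub _ _).trans ?_
    rw [abs_mul, abs_of_pos (by positivity : 0 < 2 * k)]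
    have f4 := mul_le_mul_of_nonneg_left f2 (by positivity : 0 ≤ 2 * k)
    have f5 : D / 3 * (1 * (2 / η)) = 2 / 3 * (D / η) := by ring
    have f6 : 2 * k * (Real.pi * D * (1 * (2 / η))) = 16 * Real.pi := by
      rw [hk]
      field_simp
      ring
    have f7 : 2 ≤ D / η := by
      rw [le_div_iff₀ hη]
      linarith
    rw [f5] at f1
    rw [f6] at f4
    nlinarith
  obtain ⟨Cb, hCb⟩ : ∃ Cb : ℝ, ∀ V : T d L → ℝ, |H V| ≤ Cb := by
    refine ⟨D / 3 * (η * ∑ x : T d L, ∑ y : T d L, |(1 : ℝ)| * (1 / η ^ 2)) +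
      k * (2 * (Real.pi * D * (η * ∑ x : T d L, ∑ y : T d L, |(1 : ℝ)| * (1 / η ^ 2))) + |P|),
      fun V => ?_⟩
    have f1 := GF_abs (fun _ => 1) continuous_const (fun _ => zero_le_one) (fun _ => 1)
      (c - D / 6) (c + D / 6) η σ (D / 3) hη hq2 V
    have f2 := GF_abs (qq D c) (qq_cont D c hD0) (fun u => (qq_pos D c u hD0).le) (fun _ => 1)
      (s1 - w0) (s2 + w0) η σ (Real.pi * D) hη hq1 V
    rw [← hTG] at f2
    rw [hH]
    simp only
    refine (abs_sub _ _).trans (add_le_add f1 ?_)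
    rw [abs_mul, abs_of_pos hk0]
    refine mul_le_mul_of_nonneg_left ?_ hk0.le
    refine (abs_add_le _ _).trans (add_le_add ?_ le_rfl)
    rw [abs_mul, abs_of_pos (by norm_num : (0 : ℝ) < 2)]
    exact mul_le_mul_of_nonneg_left f2 (by norm_num)
  have hmc := mcd_low (T := T d L) μ b0 hb0 hμ H hHm Cb (26 * (D / η)) hCb (by positivity) hBd
    (N * D * (a0 / 8)) (by positivity)
  refine ⟨{V | H V ≤ ∫ V, H V ∂(PL (T d L) μ) - N * D * (a0 / 8)}, ?_, ?_, ?_⟩
  · exact measurableSet_le hHm measurable_const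
  · refine le_trans hmc ?_
    rw [← hN]
    apply Real.exp_le_exp.2
    have g1 : 8 * (26 * (D / η)) ^ 2 * N = 5408 * D ^ 2 * N / η ^ 2 := by
      field_simp
      ring
    have g2 : -(N * D * (a0 / 8)) ^ 2 / (8 * (26 * (D / η)) ^ 2 * N) =
        -(a0 ^ 2 * η ^ 2 * N / 346112) := by
      rw [g1]
      field_simp
      ring
    rw [g2]
    have g3 : 0 ≤ a0 ^ 2 * η ^ 2 * N := by positivity
    linarith
  · intro V hV ψ E h
    have hV' : ∫ V, H V ∂(PL (T d L) μ) - N * D * (a0 / 8) < H V := by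
      by_contra hcon
      push Not at hcon
      exact hV hcon
    have g1 := hHdet V ψ E h
    have g2 : N * D * (a0 / 8) ≤ Real.pi *
        ((Finset.univ.filter fun j => s1 ≤ E j ∧ E j ≤ s2).card : ℝ) := by
      have : N * D * (a0 / 4) = N * D * (a0 / 8) + N * D * (a0 / 8) := by ring
      linarith
    have g3 : (0 : ℝ) ≤ ((Finset.univ.filter fun j => s1 ≤ E j ∧ E j ≤ s2).card : ℝ) := by
      positivity
    have g4 : Real.pi * ((Finset.univ.filter fun j => s1 ≤ E j ∧ E j ≤ s2).card : ℝ) ≤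
        4 * ((Finset.univ.filter fun j => s1 ≤ E j ∧ E j ≤ s2).card : ℝ) :=
      mul_le_mul_of_nonneg_right (by linarith) g3
    have g5 : a0 / 32 * D * N = (N * D * (a0 / 8)) / 4 := by ring
    rw [g5, div_le_iff₀ (by norm_num)]
    linarith

end Pool.Agent.Zk11.QE.Ct
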