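import Pool.Agent.Zk11.QE.Nb

/-! Decay of the ladder multiplier on small tori. -/

set_option autoImplicit false
set_option linter.unusedSectionVars false

open scoped BigOperators Topology ENNReal
open MeasureTheory Filter

namespace Pool.Agent.Zk11.QE

open Pool.Agent.Zk11.QD
open Pool.Agent.W788.MFP.Four (T e NN adj adj_neg e_comm e_add_left e_add e_zero e_neg e_neg_left
  e_normSq sum_e NN_pos card_T e_single)

variable {d L : ℕ} [NeZero L] {z : ℂ} {σ : ℝ} {m : ℂ}

/-- **decay of the ladder multiplier** -/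
theorem tt_dec' (hd : 3 ≤ d) (h : MD d L z σ m) (s R : ℝ) (hc : Cut s R L)
    (hw : s ≤ ss z σ m) (p : T d L)
    (a : Fin d) (G : ℝ) (hG : 0 < G) (hβ : 1 / (2 * G ^ 4) ≤ 1 - co (p a)) :
    ‖tt z σ m p‖ ≤ 1331 * G * (3 / Real.sqrt s) * (2 * Real.log (1 + R) + 1) + 2 * s := by
  have hs := hc.s0
  have hs1 := hc.s1
  obtain ⟨b, c, hab, hac, hbc⟩ := two_others hd a
  have hR0 : 0 ≤ R := by linarith [hc.R1]
  have hlog : 0 ≤ Real.log (1 + R) := Real.log_nonneg (by linarith)
  have h1 := tt_int h p s hs hw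
  have h2 := Tim.dbl s R (1331 * G) hs hR0 (by positivity)
    (fun t u => ‖j2 L (p a) t u‖ * ‖j2 L (p b) t u‖ * ‖j2 L (p c) t u‖)
    (fun t u => by
      have e1 := j2_le (p a) t u
      have e2 := j2_le (p b) t u
      have e3 := j2_le (p c) t u
      have e4 := norm_nonneg (j2 L (p a) t u)
      have e5 := norm_nonneg (j2 L (p b) t u)
      have e6 := norm_nonneg (j2 L (p c) t u)
      calc ‖j2 L (p a) t u‖ * ‖j2 L (p b) t u‖ * ‖j2 L (p c) t u‖ ≤ 1 * 1 * 1 := by gcongr
        _ = 1 := by norm_num)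
    (fun t u ht0 htT hu0 huT => by
      have hζ : ∀ i, ‖ζz (p i) t u‖ ≤ 2 * R := by
        intro i
        unfold ζz
        refine (norm_sub_le _ _).trans ?_
        rw [norm_mul, RCLike.norm_conj, add_norm, mul_one, Complex.norm_real, Complex.norm_real,
          Real.norm_eq_abs, Real.norm_eq_abs, abs_of_pos ht0, abs_of_pos hu0]
        linarith
      have hLi : ∀ i, 64 * (1 + ‖ζz (p i) t u‖) ≤ (L : ℝ) := by
        intro i
        have := hζ i
        linarith [hc.RL]
      have hlow : ∀ i, |t - u| ≤ ‖ζz (p i) t u‖ := by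
        intro i
        have e1 := ζz_sq (p i) t u
        have e2 : 0 ≤ 1 - co (p i) := by linarith [(abs_le.1 (co_le (p i))).2]
        have e3 : 0 ≤ 2 * (t * u) * (1 - co (p i)) := by positivity
        apply abs_le_of_sq_le_sq _ (norm_nonneg _)
        rw [e1]
        linarith
      have hbc' : ∀ i, ‖j2 L (p i) t u‖ ≤ 11 / Real.sqrt (1 + |t - u|) := by
        intro i
        refine (j2_dec' (p i) t u (hLi i)).trans ?_
        have e1 := hlow i
        have e2 := abs_nonneg (t - u)
        gcongr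
      have ha' : ‖j2 L (p a) t u‖ ≤
          11 * (G * ((t ^ (-(1 / 2) : ℝ) + u ^ (-(1 / 2) : ℝ)) / 2)) := by
        refine (j2_dec' (p a) t u (hLi a)).trans ?_
        rw [div_eq_mul_one_div]
        refine mul_le_mul_of_nonneg_left ?_ (by norm_num)
        set A := t ^ (-(1 / 2) : ℝ) with hA
        set B := u ^ (-(1 / 2) : ℝ) with hB
        have hA0 : 0 < A := Real.rpow_pos_of_pos ht0 _
        have hB0 : 0 < B := Real.rpow_pos_of_pos hu0 _
        have hA2 : A ^ 2 = 1 / t := by
          rw [hA, ← Real.rpow_natCast, ← Real.rpow_mul ht0.le]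
          norm_num
          rw [Real.rpow_neg_one]
        have hB2 : B ^ 2 = 1 / u := by
          rw [hB, ← Real.rpow_natCast, ← Real.rpow_mul hu0.le]
          norm_num
          rw [Real.rpow_neg_one]
        set ζ := ‖ζz (p a) t u‖ with hζd
        have hζ0 : 0 ≤ ζ := norm_nonneg _
        have e1 : t * u / G ^ 4 ≤ ζ ^ 2 := by
          rw [hζd, ζz_sq]
          have e2 := mul_le_mul_of_nonneg_left hβ (by positivity : 0 ≤ 2 * (t * u))
          have e3 : 2 * (t * u) * (1 / (2 * G ^ 4)) = t * u / G ^ 4 := by field_simp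
          have e4 := sq_nonneg (t - u)
          linarith
        have e2 : (1 / Real.sqrt (1 + ζ)) ^ 4 ≤ (G * ((A + B) / 2)) ^ 4 := by
          have e3 : (1 / Real.sqrt (1 + ζ)) ^ 4 = 1 / (1 + ζ) ^ 2 := by
            have e4 : Real.sqrt (1 + ζ) ^ 4 = (1 + ζ) ^ 2 := by
              have e5 := Real.sq_sqrt (show 0 ≤ 1 + ζ by linarith)
              calc Real.sqrt (1 + ζ) ^ 4 = (Real.sqrt (1 + ζ) ^ 2) ^ 2 := by ring
                _ = _ := by rw [e5]
            rw [div_pow, one_pow, e4]
          rw [e3]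
          have e5 : t * u / G ^ 4 ≤ (1 + ζ) ^ 2 := by
            refine e1.trans (pow_le_pow_left₀ hζ0 (by linarith) 2)
          have e6 : 1 / (1 + ζ) ^ 2 ≤ 1 / (t * u / G ^ 4) :=
            one_div_le_one_div_of_le (by positivity) e5
          refine e6.trans ?_
          have e7 : 1 / (t * u / G ^ 4) = G ^ 4 * (A ^ 2 * B ^ 2) := by
            rw [hA2, hB2]
            field_simp
          rw [e7, mul_pow]
          refine mul_le_mul_of_nonneg_left ?_ (by positivity)
          have e8 : A * B ≤ ((A + B) / 2) ^ 2 := by nlinarith [sq_nonneg (A - B)]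
          calc A ^ 2 * B ^ 2 = (A * B) ^ 2 := by ring
            _ ≤ (((A + B) / 2) ^ 2) ^ 2 := pow_le_pow_left₀ (by positivity) e8 2
            _ = _ := by ring
        exact le_of_pow_le_pow_left₀ (by norm_num) (by positivity) e2
      have hsq : Real.sqrt (1 + |t - u|) * Real.sqrt (1 + |t - u|) = 1 + |t - u| :=
        Real.mul_self_sqrt (by positivity)
      have hpos : 0 < Real.sqrt (1 + |t - u|) := Real.sqrt_pos.2 (by positivity)
      have hrt : 0 ≤ t ^ (-(1 / 2) : ℝ) + u ^ (-(1 / 2) : ℝ) :=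
        add_nonneg (Real.rpow_nonneg ht0.le _) (Real.rpow_nonneg hu0.le _)
      calc ‖j2 L (p a) t u‖ * ‖j2 L (p b) t u‖ * ‖j2 L (p c) t u‖ ≤
            11 * (G * ((t ^ (-(1 / 2) : ℝ) + u ^ (-(1 / 2) : ℝ)) / 2)) *
            (11 / Real.sqrt (1 + |t - u|)) * (11 / Real.sqrt (1 + |t - u|)) := by
            have e1 := hbc' b
            have e2 := hbc' c
            gcongr
        _ = 1331 * G * ((t ^ (-(1 / 2) : ℝ) + u ^ (-(1 / 2) : ℝ)) / 2) *
            (1 / (Real.sqrt (1 + |t - u|) * Real.sqrt (1 + |t - u|))) := by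
            field_simp
            ring
        _ = _ := by rw [hsq, abs_sub_comm t u])
  have h3 : ENNReal.ofReal ‖tt z σ m p‖ ≤ ENNReal.ofReal (1331 * G * (3 / Real.sqrt s) *
      (2 * Real.log (1 + R) + 1) + 2 * (Real.exp (-(s * R)) / s * (1 / s))) := by
    refine h1.trans (le_trans ?_ h2)
    refine lintegral_mono fun t => lintegral_mono fun u => ENNReal.ofReal_le_ofReal ?_
    refine mul_le_mul_of_nonneg_left ?_ (Real.exp_pos _).le
    exact prod_three (fun i => ‖j2 L (p i) t u‖) (fun _ => norm_nonneg _) (fun i => j2_le _ _ _)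
      a b c hab hac hbc
  have hsq : 0 < Real.sqrt s := Real.sqrt_pos.2 hs
  rw [ENNReal.ofReal_le_ofReal_iff (by positivity)] at h3
  refine h3.trans (add_le_add le_rfl ?_)
  have h4 := hc.ex
  calc 2 * (Real.exp (-(s * R)) / s * (1 / s)) ≤ 2 * (s ^ 2 * (1 / s)) := by gcongr
    _ = 2 * s := by field_simp


end Pool.Agent.Zk11.QE
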