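import Pool.Agent.Zk11.QD.Err3
import Pool.Agent.Zk11.QE.Dc

/-! The error in the ladder approximation on the torus, for small tori. -/

set_option autoImplicit false
set_option linter.unusedSectionVars false

open scoped BigOperators Topology ENNReal
open MeasureTheory Filter

namespace Pool.Agent.Zk11.QE

open Pool.Agent.Zk11.QD
open Pool.Agent.W788.MFP.Four (T e NN adj adj_neg e_comm e_add_left e_add e_zero e_neg e_neg_left
  e_normSq sum_e NN_pos card_T e_single)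

variable {d L : ℕ} [NeZero L] {z : ℂ} {σ : ℝ} {m : ℂ}

/-- the parameters -/
structure Pq (d L : ℕ) [NeZero L] (z : ℂ) (σ : ℝ) (m : ℂ) (τ B k S g y : ℝ) : Prop where
  hd : 3 ≤ d
  md : MD d L z σ m
  B1 : 1 ≤ B
  k1 : 1 ≤ k
  S1 : 1 ≤ S
  g0 : 0 < g
  g1 : g ≤ 1
  gσ : σ = g ^ 6
  mB : m.im ≤ B
  mi : 1 / B ≤ m.im
  η1 : z.im ≤ σ ^ 2
  hk : σ ^ 2 ≤ k * z.im
  N4 : N4 d L z σ m ≤ (B * S ^ 2) ^ 2
  hτ : τ ^ 2 ≤ 2 * σ ^ 2
  hq : 3 / 4 * (z.im / ss z σ m) ≤ 1 - τ ^ 2 * (m.im / ss z σ m)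
  y1 : k * g ^ 3 * S ^ 3 ≤ y
  y2 : 10 ^ 25 * B ^ 15 * y ≤ 1
  lg : Real.log (1 / σ) ≤ B * S
  ch : Ch d L z σ m τ (2 * B * S ^ 2 * g ^ 12) (2 * 10 ^ 5 * B ^ 2 * S * g) (g ^ 15)

variable {τ B k S g y : ℝ}

theorem Pq.B0 (h : Pq d L z σ m τ B k S g y) : 0 < B := by linarith [h.B1]
theorem Pq.k0 (h : Pq d L z σ m τ B k S g y) : 0 < k := by linarith [h.k1]
theorem Pq.S0 (h : Pq d L z σ m τ B k S g y) : 0 < S := by linarith [h.S1]

theorem Pq.y0 (h : Pq d L z σ m τ B k S g y) : 0 < y := by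
  have h1 := h.g0
  have h2 := h.k0
  have h3 := h.S0
  exact lt_of_lt_of_le (by positivity) h.y1

theorem Pq.yle (h : Pq d L z σ m τ B k S g y) : y ≤ 1 := by
  have h1 := h.y2
  have h2 := h.y0
  have h3 : 1 ≤ 10 ^ 25 * B ^ 15 := by
    have := one_le_pow₀ h.B1 (n := 15)
    linarith
  have := mul_le_mul_of_nonneg_right h3 h2.le
  linarith

theorem Pq.σ0 (h : Pq d L z σ m τ B k S g y) : 0 < σ := by
  rw [h.gσ]
  exact pow_pos h.g0 6

theorem Pq.σ1 (h : Pq d L z σ m τ B k S g y) : σ ≤ 1 := by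
  rw [h.gσ]
  exact pow_le_one₀ h.g0.le h.g1

theorem Pq.ssl (h : Pq d L z σ m τ B k S g y) : σ ^ 2 / B ≤ ss z σ m := by
  have h1 : σ ^ 2 * (1 / B) ≤ σ ^ 2 * m.im := mul_le_mul_of_nonneg_left h.mi (by positivity)
  have h2 := h.md.zim
  unfold ss
  calc σ ^ 2 / B = σ ^ 2 * (1 / B) := by ring
    _ ≤ _ := by linarith

theorem Pq.ssu (h : Pq d L z σ m τ B k S g y) : ss z σ m ≤ 2 * B * σ ^ 2 := by
  unfold ss
  have h1 : σ ^ 2 * m.im ≤ σ ^ 2 * B := mul_le_mul_of_nonneg_left h.mB (by positivity)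
  have h2 : σ ^ 2 ≤ B * σ ^ 2 := le_mul_of_one_le_left (by positivity) h.B1
  have h3 := h.η1
  linarith

/-- powers of `g` against `y` -/
theorem Pq.pw (h : Pq d L z σ m τ B k S g y) (i j l n : ℕ) (hi : i ≤ n) (hj : 3 * n ≤ j)
    (hl : l ≤ 3 * n) (hn : 1 ≤ n) : k ^ i * g ^ j * S ^ l ≤ y := by
  have hg := h.g0
  have hk := h.k0
  have hS := h.S0
  calc k ^ i * g ^ j * S ^ l ≤ k ^ n * g ^ (3 * n) * S ^ (3 * n) := by
        have e1 : k ^ i ≤ k ^ n := pow_le_pow_right₀ h.k1 hi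
        have e2 : g ^ j ≤ g ^ (3 * n) := pow_le_pow_of_le_one hg.le h.g1 hj
        have e3 : S ^ l ≤ S ^ (3 * n) := pow_le_pow_right₀ h.S1 hl
        gcongr
    _ = (k * g ^ 3 * S ^ 3) ^ n := by
        rw [mul_pow, mul_pow, ← pow_mul, ← pow_mul]
    _ ≤ y ^ n := pow_le_pow_left₀ (by positivity) h.y1 n
    _ ≤ y := pow_le_of_le_one h.y0.le h.yle (by omega)

theorem Pq.sle (h : Pq d L z σ m τ B k S g y) : ss z σ m ≤ 1 := by
  have h1 := h.ssu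
  have h2 := h.pw 0 12 0 1 (by norm_num) (by norm_num) (by norm_num) (by norm_num)
  rw [pow_zero, pow_zero, one_mul, mul_one] at h2
  have h3 : σ ^ 2 = g ^ 12 := by rw [h.gσ]; ring
  have h4 := h.y2
  have h5 : B ≤ B ^ 15 := by
    calc B = B ^ 1 := (pow_one B).symm
      _ ≤ B ^ 15 := pow_le_pow_right₀ h.B1 (by norm_num)
  have hB := h.B0
  have hy := h.y0
  rw [h3] at h1
  calc ss z σ m ≤ 2 * B * g ^ 12 := h1
    _ ≤ 2 * B ^ 15 * y := by gcongr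
    _ ≤ 10 ^ 25 * B ^ 15 * y := by
        have : 0 ≤ B ^ 15 * y := by positivity
        linarith
    _ ≤ 1 := h4


theorem Pq.D (h : Pq d L z σ m τ B k S g y) (N : ℝ) (_hN0 : 0 ≤ N) (hN : N ≤ 50 * B ^ 2 * (k * S)) :
    4 * (2 * B * S ^ 2 * g ^ 12) + N * (g ^ 15 + (2 * 10 ^ 5 * B ^ 2 * S * g) ^ 3 *
      (2 * B * S ^ 2 * g ^ 12)) ≤ 2 * 10 ^ 18 * B ^ 9 * S ^ 3 * g ^ 12 := by
  have hg := h.g0
  have hB := h.B0
  have hS := h.S0
  have hk := h.k0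
  have e1 : g ^ 15 + (2 * 10 ^ 5 * B ^ 2 * S * g) ^ 3 * (2 * B * S ^ 2 * g ^ 12) ≤
      2 * 10 ^ 16 * B ^ 7 * S ^ 5 * g ^ 15 := by
    have e2 : 1 ≤ B ^ 7 * S ^ 5 :=
      one_le_mul_of_one_le_of_one_le (one_le_pow₀ h.B1) (one_le_pow₀ h.S1)
    calc g ^ 15 + (2 * 10 ^ 5 * B ^ 2 * S * g) ^ 3 * (2 * B * S ^ 2 * g ^ 12) =
          1 * g ^ 15 + 16 * 10 ^ 15 * (B ^ 7 * S ^ 5) * g ^ 15 := by ring
      _ ≤ (B ^ 7 * S ^ 5) * g ^ 15 + 16 * 10 ^ 15 * (B ^ 7 * S ^ 5) * g ^ 15 := by gcongr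
      _ = (1 + 16 * 10 ^ 15) * (B ^ 7 * S ^ 5 * g ^ 15) := by ring
      _ ≤ 2 * 10 ^ 16 * (B ^ 7 * S ^ 5 * g ^ 15) :=
          mul_le_mul_of_nonneg_right (by norm_num) (by positivity)
      _ = _ := by ring
  have hy : k * g ^ 3 * S ^ 3 ≤ 1 := h.y1.trans h.yle
  have e3 : N * (g ^ 15 + (2 * 10 ^ 5 * B ^ 2 * S * g) ^ 3 * (2 * B * S ^ 2 * g ^ 12)) ≤
      10 ^ 18 * (B ^ 9 * S ^ 3 * g ^ 12) := by
    calc _ ≤ 50 * B ^ 2 * (k * S) * (2 * 10 ^ 16 * B ^ 7 * S ^ 5 * g ^ 15) := by gcongr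
      _ = 10 ^ 18 * (B ^ 9 * S ^ 3 * g ^ 12) * (k * g ^ 3 * S ^ 3) := by ring
      _ ≤ 10 ^ 18 * (B ^ 9 * S ^ 3 * g ^ 12) * 1 := mul_le_mul_of_nonneg_left hy (by positivity)
      _ = _ := mul_one _
  have e4 : 4 * (2 * B * S ^ 2 * g ^ 12) ≤ 8 * (B ^ 9 * S ^ 3 * g ^ 12) := by
    have e5 : B ≤ B ^ 9 := by
      calc B = B ^ 1 := (pow_one B).symm
        _ ≤ B ^ 9 := pow_le_pow_right₀ h.B1 (by norm_num)
    have e6 : S ^ 2 ≤ S ^ 3 := pow_le_pow_right₀ h.S1 (by norm_num)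
    calc 4 * (2 * B * S ^ 2 * g ^ 12) = 8 * (B * S ^ 2 * g ^ 12) := by ring
      _ ≤ _ := by gcongr
  have e5 : 0 ≤ B ^ 9 * S ^ 3 * g ^ 12 := by positivity
  linarith

theorem Pq.X (h : Pq d L z σ m τ B k S g y) (N : ℝ) (hN0 : 0 ≤ N) (hN : N ≤ 50 * B ^ 2 * (k * S)) :
    4 * (N * (2 * B ^ 2 / g ^ 18 * (4 * (2 * B * S ^ 2 * g ^ 12) +
      3 * (N * τ ^ 2 * (2 * B * S ^ 2 * g ^ 12) * xx B k S g) +
      N * (g ^ 15 + (2 * 10 ^ 5 * B ^ 2 * S * g) ^ 3 * (2 * B * S ^ 2 * g ^ 12))))) ≤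
      xx B k S g := by
  have hg := h.g0
  have hB := h.B0
  have hS := h.S0
  have hk := h.k0
  have hy := h.y0
  have hx0 : 0 ≤ xx B k S g := by unfold xx; positivity
  have hτ := h.hτ
  rw [h.gσ] at hτ
  have hD := h.D N hN0 hN
  have e1 : 4 * (N * (2 * B ^ 2 / g ^ 18 * (4 * (2 * B * S ^ 2 * g ^ 12) +
      3 * (N * τ ^ 2 * (2 * B * S ^ 2 * g ^ 12) * xx B k S g) +
      N * (g ^ 15 + (2 * 10 ^ 5 * B ^ 2 * S * g) ^ 3 * (2 * B * S ^ 2 * g ^ 12))))) =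
      4 * N * (2 * B ^ 2 / g ^ 18) * (4 * (2 * B * S ^ 2 * g ^ 12) +
      N * (g ^ 15 + (2 * 10 ^ 5 * B ^ 2 * S * g) ^ 3 * (2 * B * S ^ 2 * g ^ 12))) +
      4 * N * (2 * B ^ 2 / g ^ 18) * (3 * N * τ ^ 2 * (2 * B * S ^ 2 * g ^ 12)) * xx B k S g := by
    ring
  rw [e1]
  have e2 : 4 * N * (2 * B ^ 2 / g ^ 18) * (4 * (2 * B * S ^ 2 * g ^ 12) +
      N * (g ^ 15 + (2 * 10 ^ 5 * B ^ 2 * S * g) ^ 3 * (2 * B * S ^ 2 * g ^ 12))) ≤
      1 / 2 * xx B k S g := by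
    calc _ ≤ 4 * (50 * B ^ 2 * (k * S)) * (2 * B ^ 2 / g ^ 18) *
          (2 * 10 ^ 18 * B ^ 9 * S ^ 3 * g ^ 12) := by gcongr
      _ = 8 * 10 ^ 20 * B ^ 13 * k * S ^ 4 / g ^ 6 := by
          field_simp
          ring
      _ ≤ 1 / 2 * xx B k S g := by
          unfold xx
          have : 0 ≤ B ^ 13 * k * S ^ 4 / g ^ 6 := by positivity
          calc 8 * 10 ^ 20 * B ^ 13 * k * S ^ 4 / g ^ 6 =
                8 * 10 ^ 20 * (B ^ 13 * k * S ^ 4 / g ^ 6) := by ring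
            _ ≤ 1 / 2 * 10 ^ 22 * (B ^ 13 * k * S ^ 4 / g ^ 6) :=
                mul_le_mul_of_nonneg_right (by norm_num) this
            _ = _ := by ring
  have e3 : 4 * N * (2 * B ^ 2 / g ^ 18) * (3 * N * τ ^ 2 * (2 * B * S ^ 2 * g ^ 12)) ≤ 1 / 2 := by
    calc _ ≤ 4 * (50 * B ^ 2 * (k * S)) * (2 * B ^ 2 / g ^ 18) *
          (3 * (50 * B ^ 2 * (k * S)) * (2 * (g ^ 6) ^ 2) * (2 * B * S ^ 2 * g ^ 12)) := by gcongr
      _ = 240000 * B ^ 7 * (k ^ 2 * g ^ 6 * S ^ 4) := by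
          field_simp
          ring
      _ ≤ 240000 * B ^ 15 * y := by
          have e4 := h.pw 2 6 4 2 (by norm_num) (by norm_num) (by norm_num) (by norm_num)
          have e5 : B ^ 7 ≤ B ^ 15 := pow_le_pow_right₀ h.B1 (by norm_num)
          gcongr
      _ ≤ 1 / 2 * (10 ^ 25 * B ^ 15 * y) := by
          have : 0 ≤ B ^ 15 * y := by positivity
          calc 240000 * B ^ 15 * y = 240000 * (B ^ 15 * y) := by ring
            _ ≤ 1 / 2 * 10 ^ 25 * (B ^ 15 * y) := mul_le_mul_of_nonneg_right (by norm_num) this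
            _ = _ := by ring
      _ ≤ 1 / 2 := by linarith [h.y2]
  have e4 := mul_le_mul_of_nonneg_right e3 hx0
  linarith


set_option maxHeartbeats 4000000 in
/-- the ladder approximation -/
theorem err_bound3 (h : Pq d L z σ m τ B k S g y) (μ : Measure ℝ) [IsProbabilityMeasure μ] (C : ℝ)
    (hh : ℝ → ℂ) (hs : Sit μ σ m C τ hh) (hC0 : 0 ≤ C) (hCB : C ≤ B) (p : T d L)
    (u : (T d L → ℝ) → T d L → ℂ) (hum : ∀ x, Measurable fun V => u V x)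
    (hue : ∀ V x, Hz z σ V (u V) x = if x = 0 then 1 else 0) (ε : ℝ) (hε : 0 < ε) :
    ‖(z.im : ℂ) * ∑ x, e p x * ((∫ V, ‖u V x‖ ^ 2 ∂(PL (T d L) μ) : ℝ) : ℂ) -
      z.im * (tt z σ m p / (1 - τ ^ 2 * tt z σ m p))‖ ≤
      4 * B * ε + (1 + 1 / ε) * (10 ^ 26 * B ^ 17 * y) + 10 ^ 26 * B ^ 15 * y := by
  have hss := ss_pos h.md
  have hmp := h.md.mim
  have hz := h.md.zim
  have hB1 := h.B1
  have hB0 := h.B0
  have hk1 := h.k1
  have hk0 := h.k0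
  have hS1 := h.S1
  have hS0 := h.S0
  have hg0 := h.g0
  have hg1 := h.g1
  have hy0 := h.y0
  have hyle := h.yle
  have hσ0 := h.σ0
  have hσ1 := h.σ1
  have hmB := h.mB
  have hy2 := h.y2
  have hσg := h.gσ
  have hch := h.ch
  have hdat := dat_torus h.md μ C τ hh hs
  have hdat2 : Dat2 μ hh (vv σ m) (Ak z σ m) (Mk z σ m) m τ (0 : T d L) C (C * σ ^ 3) (C * σ) z.im :=
    ⟨hdat.good, hdat.vmeas, hdat.τpos, hdat.ηpos, hdat.AM, hdat.hZ, hdat.hW, hdat.co⟩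
  have hq := h.hq
  set s := ss z σ m with hsdef
  set η := z.im with hη
  -- the ratio
  set K := s / η with hK
  have hsη : η ≤ s := by
    rw [hsdef]
    unfold ss
    have : 0 ≤ σ ^ 2 * m.im := by positivity
    linarith
  have hK1 : 1 ≤ K := by
    rw [hK, le_div_iff₀ hz]
    linarith
  have hK0 : 0 < K := by linarith
  have hs2 : s ≤ 2 * B * σ ^ 2 := h.ssu
  have hKk : K ≤ 2 * B * k := by
    rw [hK, div_le_iff₀ hz]
    calc s ≤ 2 * B * σ ^ 2 := hs2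
      _ ≤ 2 * B * (k * η) := mul_le_mul_of_nonneg_left h.hk (by positivity)
      _ = _ := by ring
  have hiK : η / s = 1 / K := by
    rw [hK, one_div_div]
  rw [hiK] at hq
  -- the order
  set N : ℕ := ⌈24 * B * K * S⌉₊ with hN
  have hN1 : 24 * B * K * S ≤ N := Nat.le_ceil _
  have hN2 : (N : ℝ) ≤ 50 * B ^ 2 * (k * S) := by
    have h1 : (N : ℝ) < 24 * B * K * S + 1 := Nat.ceil_lt_add_one (by positivity)
    have h2 : 1 ≤ B * K * S := one_le_mul_of_one_le_of_one_le (one_le_mul_of_one_le_of_one_le hB1 hK1) hS1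
    calc (N : ℝ) ≤ 25 * (B * K * S) := by linarith
      _ ≤ 25 * (B * (2 * B * k) * S) := by gcongr
      _ = _ := by ring
  have hN0 : (0 : ℝ) ≤ N := Nat.cast_nonneg N
  set ρ := 1 - 1 / (4 * K) with hρ
  have h4K : 1 / (4 * K) ≤ 1 / 4 := one_div_le_one_div_of_le (by norm_num) (by linarith)
  have h4K0 : 0 < 1 / (4 * K) := by positivity
  have hρ0 : 3 / 4 ≤ ρ := by linarith
  have hρp : 0 ≤ ρ := by linarith
  have hρ1 : ρ < 1 := by linarith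
  have e34 : 3 / 4 * (1 / K) = 1 / (4 * K) + 1 / (2 * K) := by
    field_simp
    ring
  have hR : 1 / (1 - ρ) ≤ 4 * K := by
    have : 1 - ρ = 1 / (4 * K) := by rw [hρ]; ring
    rw [this, one_div_one_div]
  -- the size of the weights
  set x := xx B k S g with hx
  have hx0 : 0 ≤ x := by rw [hx]; unfold xx; positivity
  have hτ := h.hτ
  have hτg : τ ^ 2 ≤ 2 * g ^ 12 := by
    rw [hσg] at hτ
    calc τ ^ 2 ≤ 2 * (g ^ 6) ^ 2 := hτ
      _ = _ := by ring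
  have hτx : τ ^ 2 * x ≤ 2 * 10 ^ 22 * B ^ 13 * (k * g ^ 6 * S ^ 4) := by
    calc τ ^ 2 * x ≤ 2 * g ^ 12 * x := mul_le_mul_of_nonneg_right hτg hx0
      _ = _ := by
          rw [hx]
          unfold xx
          field_simp
  have hB1415 : B ^ 14 ≤ B ^ 15 := pow_le_pow_right₀ hB1 (by norm_num)
  have hKτx : 4 * K * (τ ^ 2 * x) ≤ 2 * 10 ^ 23 * B ^ 14 * y := by
    calc 4 * K * (τ ^ 2 * x) ≤ 4 * (2 * B * k) * (2 * 10 ^ 22 * B ^ 13 * (k * g ^ 6 * S ^ 4)) := by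
          gcongr
      _ = 16 * 10 ^ 22 * B ^ 14 * (k ^ 2 * g ^ 6 * S ^ 4) := by ring
      _ ≤ 2 * 10 ^ 23 * B ^ 14 * y := by
          have e4 := h.pw 2 6 4 2 (by norm_num) (by norm_num) (by norm_num) (by norm_num)
          have e6 : (16 : ℝ) * 10 ^ 22 ≤ 2 * 10 ^ 23 := by norm_num
          gcongr
  have hx1 : τ ^ 2 * (m.im / s) + τ ^ 2 * x ≤ ρ := by
    have e1 : τ ^ 2 * x ≤ 1 / (2 * K) := by
      rw [le_div_iff₀ (by positivity)]
      have e2 : 2 * 10 ^ 23 * B ^ 14 * y ≤ 1 := by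
        have : 0 ≤ B ^ 15 * y := by positivity
        calc 2 * 10 ^ 23 * B ^ 14 * y ≤ 2 * 10 ^ 23 * B ^ 15 * y := by gcongr
          _ = 2 * 10 ^ 23 * (B ^ 15 * y) := by ring
          _ ≤ 10 ^ 25 * (B ^ 15 * y) := mul_le_mul_of_nonneg_right (by norm_num) this
          _ = 10 ^ 25 * B ^ 15 * y := by ring
          _ ≤ 1 := hy2
      have e3 : τ ^ 2 * x * (2 * K) = 1 / 2 * (4 * K * (τ ^ 2 * x)) := by ring
      rw [e3]
      linarith
    linarith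
  have hX := h.X N hN0 hN2
  rw [← hx] at hX
  have ha0 : 4 * (m.im / s ^ 3) ≤ (2 * B ^ 2 / g ^ 18) ^ 2 := by
    have hinv : 1 / s ≤ B / σ ^ 2 := by
      have h1 := one_div_le_one_div_of_le (by positivity) h.ssl
      rwa [one_div_div] at h1
    have h4 : m.im / s ^ 3 ≤ B * (B / σ ^ 2) ^ 3 := by
      calc m.im / s ^ 3 = m.im * (1 / s) ^ 3 := by field_simp
        _ ≤ B * (B / σ ^ 2) ^ 3 := by
            have : 0 ≤ 1 / s := by positivity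
            gcongr
    calc 4 * (m.im / s ^ 3) ≤ 4 * (B * (B / σ ^ 2) ^ 3) := by linarith
      _ = (2 * B ^ 2 / g ^ 18) ^ 2 := by
          rw [hσg]
          field_simp
          ring
  have hind := induct hch (2 * B ^ 2 / g ^ 18) (by positivity) ha0 ρ x N hρ0 hρ1.le hx0 hx1 hX
  set F0 := Ff d L z σ m τ 0 with hF0d
  have hF00 : 0 ≤ F0 := Ff_nonneg 0
  have hFb : ∀ n : ℕ, n ≤ N → FF (Mk z σ m) τ (0 : T d L) n ≤ F0 * ρ ^ n := fun n hn =>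
    (hind n hn).1
  have hpow : ∀ j n : ℕ, n ≤ j + 4 → j ≤ n → F0 * ρ ^ j ≤ 4 * (F0 * ρ ^ n) := by
    intro j n h1 h2
    have e1 : (1 : ℝ) / 4 ≤ ρ ^ (n - j) := by
      calc (1 : ℝ) / 4 ≤ (3 / 4) ^ 4 := by norm_num
        _ ≤ ρ ^ 4 := pow_le_pow_left₀ (by norm_num) hρ0 4
        _ ≤ ρ ^ (n - j) := pow_le_pow_of_le_one hρp hρ1.le (by omega)
    have e2 : ρ ^ n = ρ ^ j * ρ ^ (n - j) := by rw [← pow_add]; congr 1; omega
    rw [e2]
    have e3 : 0 ≤ F0 * ρ ^ j := by positivity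
    have e4 := mul_le_mul_of_nonneg_left e1 e3
    linarith
  -- the steps
  have htn : ‖(τ : ℂ) ^ 2 * tt z σ m p‖ ≤ τ ^ 2 * (m.im / s) := by
    rw [norm_mul, norm_pow, Complex.norm_real, Real.norm_eq_abs, sq_abs]
    exact mul_le_mul_of_nonneg_left (tt_norm h.md p) (by positivity)
  have hτx0 : 0 ≤ τ ^ 2 * x := by positivity
  have hq1 : τ ^ 2 * (m.im / s) < 1 := by linarith
  set b : ℝ := 4 * ((N : ℝ) ^ 2 * (τ ^ 2 * (B * S ^ 2))) + τ ^ 2 * x with hb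
  have hb0 : 0 ≤ b := by rw [hb]; positivity
  have hstep : ∀ n : ℕ, n < N → ‖AA (Mk z σ m) τ (0 : T d L) (e p) (n + 1) -
      ((τ : ℂ) ^ 2 * tt z σ m p) * AA (Mk z σ m) τ (0 : T d L) (e p) n‖ ≤ b * (F0 * ρ ^ n) := by
    intro n hn
    have e1 := AA_step (Mk z σ m) τ (0 : T d L) (e p) (fun x => (e_norm p x).le)
      ((τ : ℂ) ^ 2 * tt z σ m p) (ht_torus p τ) (fun y y' => kks z σ m p (y - y'))
      (fun _ _ => kks_nonneg _ _) (fun y y' => by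
        unfold kks
        rw [neg_sub, neg_sub, add_comm ‖kc (gp z σ m p) (y - y')‖]) (fun y y' => pair_le p y y')
      (B * S ^ 2) (fun x w => by
        unfold Mk
        refine (sq_le_N4 _).trans ?_
        rw [Real.sqrt_le_left (by positivity)]
        exact h.N4) n
    refine e1.trans ?_
    have e2 := (hind n hn.le).2 p
    have e3 : FF (Mk z σ m) τ (0 : T d L) (n - 1) ≤ 4 * (F0 * ρ ^ n) :=
      (hFb (n - 1) (by omega)).trans (hpow (n - 1) n (by omega) (by omega))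
    have e4 : (n : ℝ) ≤ N := by exact_mod_cast hn.le
    have e5 : (0 : ℝ) ≤ n := Nat.cast_nonneg n
    have e6 : ‖(τ : ℂ) ^ 2 * tt z σ m p‖ ≤ 1 := htn.trans hq1.le
    have e7 : 0 ≤ F0 * ρ ^ n := by positivity
    have e8 : ‖(τ : ℂ) ^ 2 * tt z σ m p‖ * ((n : ℝ) ^ 2 * (τ ^ 2 * (B * S ^ 2)) *
        FF (Mk z σ m) τ (0 : T d L) (n - 1)) ≤
        4 * ((N : ℝ) ^ 2 * (τ ^ 2 * (B * S ^ 2))) * (F0 * ρ ^ n) := by
      have e9 : (n : ℝ) ^ 2 * (τ ^ 2 * (B * S ^ 2)) * FF (Mk z σ m) τ (0 : T d L) (n - 1) ≤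
          (N : ℝ) ^ 2 * (τ ^ 2 * (B * S ^ 2)) * (4 * (F0 * ρ ^ n)) := by
        have := FF_nonneg (Mk z σ m) τ (0 : T d L) (n - 1)
        gcongr
      calc _ ≤ 1 * ((N : ℝ) ^ 2 * (τ ^ 2 * (B * S ^ 2)) * (4 * (F0 * ρ ^ n))) :=
            mul_le_mul e6 e9 (mul_nonneg (by positivity) (FF_nonneg _ _ _ _)) zero_le_one
        _ = _ := by ring
    have e10 := mul_le_mul_of_nonneg_left e2 (by positivity : 0 ≤ τ ^ 2)
    unfold Wf at e10
    have e11 : b * (F0 * ρ ^ n) = 4 * ((N : ℝ) ^ 2 * (τ ^ 2 * (B * S ^ 2))) * (F0 * ρ ^ n) +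
        τ ^ 2 * (x * (F0 * ρ ^ n)) := by
      rw [hb]
      ring
    rw [e11]
    exact add_le_add e8 e10
  set c : ℝ := N * (2 * B * S ^ 2 * g ^ 12) * x / (2 * B ^ 2 / g ^ 18) with hc
  have hc0 : 0 ≤ c := by rw [hc]; positivity
  have hCR : ∀ n : ℕ, n < N → ∑ x, ∑ S : Finset (T d L),
      ‖cR (Mk z σ m) m τ (0 : T d L) n x S‖ ^ 2 ≤ c * (F0 * ρ ^ n) := by
    intro n hn
    have e1 := CR_le (Mk z σ m) m τ (0 : T d L) (Mk_diag h.md) (fun x y => by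
      unfold Mk
      rw [← kc_even (x - y), neg_sub]) n
    have hXj : ∀ j : ℕ, n ≤ j + 4 → j < n → ∀ q : T d L,
        Wf z σ m τ (kks z σ m q) j ≤ x * (4 * (F0 * ρ ^ n)) := by
      intro j h1 h2 q
      exact ((hind j (by omega)).2 q).trans (mul_le_mul_of_nonneg_left (hpow j n h1 h2.le) hx0)
    have hFj : ∀ j : ℕ, n ≤ j + 4 → j < n → Ff d L z σ m τ j ≤ 4 * (F0 * ρ ^ n) := by
      intro j h1 h2
      exact (hind j (by omega)).1.trans (hpow j n h1 h2.le)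
    have hT2 : ∑ u : T d L, (Tn z σ m τ u) ^ 2 ≤ (2 * B * S ^ 2 * g ^ 12) ^ 2 := by
      refine le_trans (le_of_eq ?_) hch.t2
      unfold N4 Tn
      rw [Finset.mul_sum]
      exact Finset.sum_congr rfl fun v _ => by ring
    have e2 := chain hch (Tn z σ m τ) Tn_nonneg (2 * B * S ^ 2 * g ^ 12) (by positivity) hT2
      n (4 * (F0 * ρ ^ n)) (x * (4 * (F0 * ρ ^ n))) (by positivity) (by positivity) hFj hXj
    have e3 : (n : ℝ) ≤ N := by exact_mod_cast hn.le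
    have e4 : (0 : ℝ) ≤ n := Nat.cast_nonneg n
    have e5 : 0 ≤ F0 * ρ ^ n := by positivity
    set D : ℝ := 4 * (2 * B * S ^ 2 * g ^ 12) + 3 * (N * τ ^ 2 * (2 * B * S ^ 2 * g ^ 12) * x) +
      N * (g ^ 15 + (2 * 10 ^ 5 * B ^ 2 * S * g) ^ 3 * (2 * B * S ^ 2 * g ^ 12)) with hD
    have hD0 : 0 ≤ D := by rw [hD]; positivity
    have e6 : Wf z σ m τ (Tn (d := d) (L := L) z σ m τ) n ≤ N * (2 * B * S ^ 2 * g ^ 12) * (4 * D) * (F0 * ρ ^ n) := by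
      refine e2.trans ?_
      calc (n : ℝ) * (2 * B * S ^ 2 * g ^ 12 * (4 * (2 * B * S ^ 2 * g ^ 12) * (4 * (F0 * ρ ^ n)) +
            3 * (n * τ ^ 2 * (2 * B * S ^ 2 * g ^ 12) * (x * (4 * (F0 * ρ ^ n)))) +
            n * ((g ^ 15 + (2 * 10 ^ 5 * B ^ 2 * S * g) ^ 3 * (2 * B * S ^ 2 * g ^ 12)) *
              (4 * (F0 * ρ ^ n))))) =
            n * (2 * B * S ^ 2 * g ^ 12) * (4 * (4 * (2 * B * S ^ 2 * g ^ 12) +
              3 * (n * τ ^ 2 * (2 * B * S ^ 2 * g ^ 12) * x) +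
              n * (g ^ 15 + (2 * 10 ^ 5 * B ^ 2 * S * g) ^ 3 * (2 * B * S ^ 2 * g ^ 12)))) *
              (F0 * ρ ^ n) := by ring
        _ ≤ N * (2 * B * S ^ 2 * g ^ 12) * (4 * (4 * (2 * B * S ^ 2 * g ^ 12) +
              3 * (N * τ ^ 2 * (2 * B * S ^ 2 * g ^ 12) * x) +
              N * (g ^ 15 + (2 * 10 ^ 5 * B ^ 2 * S * g) ^ 3 * (2 * B * S ^ 2 * g ^ 12)))) *
              (F0 * ρ ^ n) := by gcongr
        _ = _ := by rw [hD]
    have e7 : N * (4 * D) ≤ x / (2 * B ^ 2 / g ^ 18) := by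
      rw [le_div_iff₀ (by positivity)]
      refine le_trans (le_of_eq ?_) hX
      rw [hD]
      ring
    have e8 : N * (N * (2 * B * S ^ 2 * g ^ 12) * (4 * D)) ≤ c := by
      calc N * (N * (2 * B * S ^ 2 * g ^ 12) * (4 * D)) =
            N * (2 * B * S ^ 2 * g ^ 12) * (N * (4 * D)) := by ring
        _ ≤ N * (2 * B * S ^ 2 * g ^ 12) * (x / (2 * B ^ 2 / g ^ 18)) :=
            mul_le_mul_of_nonneg_left e7 (by positivity)
        _ = c := by rw [hc]; ring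
    refine e1.trans ?_
    have e9 : (n : ℝ) * Wf z σ m τ (Tn z σ m τ) n ≤
        N * (N * (2 * B * S ^ 2 * g ^ 12) * (4 * D) * (F0 * ρ ^ n)) :=
      mul_le_mul e3 e6 (Wf_nonneg (d := d) (L := L) (z := z) (σ := σ) (m := m) (τ := τ)
        (Tn z σ m τ) Tn_nonneg n) hN0
    refine le_trans e9 ?_
    calc N * (N * (2 * B * S ^ 2 * g ^ 12) * (4 * D) * (F0 * ρ ^ n)) =
          N * (N * (2 * B * S ^ 2 * g ^ 12) * (4 * D)) * (F0 * ρ ^ n) := by ring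
      _ ≤ c * (F0 * ρ ^ n) := mul_le_mul_of_nonneg_right e8 e5
  have hρN : ρ ^ N ≤ σ ^ 6 := by
    have h1 : ρ ≤ Real.exp (-(1 / (4 * K))) := by
      have := Real.add_one_le_exp (-(1 / (4 * K)))
      linarith
    have h2 : ρ ^ N ≤ Real.exp (-(1 / (4 * K))) ^ N := pow_le_pow_left₀ (by linarith) h1 N
    rw [← Real.exp_nat_mul] at h2
    have h3 : (N : ℝ) * -(1 / (4 * K)) ≤ -(6 * Real.log (1 / σ)) := by
      have h4 : 6 * Real.log (1 / σ) ≤ 6 * (B * S) := by linarith [h.lg]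
      have h5 : 6 * (B * S) ≤ N * (1 / (4 * K)) := by
        calc 6 * (B * S) = (24 * B * K * S) * (1 / (4 * K)) := by
              field_simp
              ring
          _ ≤ _ := mul_le_mul_of_nonneg_right hN1 h4K0.le
      have h6 : (N : ℝ) * -(1 / (4 * K)) = -(N * (1 / (4 * K))) := by ring
      rw [h6]
      linarith
    refine h2.trans ((Real.exp_le_exp.2 h3).trans (le_of_eq ?_))
    rw [one_div, Real.log_inv]
    have : -(6 * -Real.log σ) = ((6 : ℕ) : ℝ) * Real.log σ := by push_cast; ring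
    rw [this, Real.exp_nat_mul, Real.exp_log hσ0]
  have hρN0 : 0 ≤ ρ ^ N := pow_nonneg hρp N
  have hρNg : ρ ^ N ≤ g ^ 36 := by
    refine hρN.trans (le_of_eq ?_)
    rw [hσg]
    ring
  have hρNy : ρ ^ N ≤ y := by
    have e4 := h.pw 0 36 0 1 (by norm_num) (by norm_num) (by norm_num) (by norm_num)
    rw [pow_zero, pow_zero, one_mul, mul_one] at e4
    exact hρNg.trans e4
  -- the multiplier
  have h1t : 1 / (2 * K) ≤ ‖1 - (τ : ℂ) ^ 2 * tt z σ m p‖ := by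
    have h1 : ‖(1 : ℂ)‖ - ‖(τ : ℂ) ^ 2 * tt z σ m p‖ ≤ ‖1 - (τ : ℂ) ^ 2 * tt z σ m p‖ :=
      norm_sub_norm_le _ _
    rw [norm_one] at h1
    linarith
  have h1t0 : 0 < ‖1 - (τ : ℂ) ^ 2 * tt z σ m p‖ := lt_of_lt_of_le (by positivity) h1t
  have ht1 : (τ : ℂ) ^ 2 * tt z σ m p ≠ 1 := by
    intro h0
    rw [h0, sub_self, norm_zero] at h1t0
    exact lt_irrefl _ h1t0
  have hmain := abs_main2 μ hh (vv σ m) (Ak z σ m) (Mk z σ m) m τ (0 : T d L) C (C * σ ^ 3) (C * σ) η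
    hdat2 (e p) (fun x => (e_norm p x).le) (e_zero p)
    ((τ : ℂ) ^ 2 * tt z σ m p) ht1 (htn.trans hq1.le) (ht_torus p τ)
    ρ (4 * K) N hρp hρ1 hR hFb b c hb0 hc0 hstep hCR u hum
    (fun V x => by rw [Ak_apply]; exact hue V x) ε hε
  have hF0 : ∑ x : T d L, ‖Mk z σ m x 0‖ ^ 2 = m.im / s := by
    unfold Mk
    simp only [sub_zero]
    rw [parseval_sq, sq_sum h.md]
  rw [hF0] at hmain
  have hτc : (τ : ℂ) ≠ 0 := by exact_mod_cast hs.τpos.ne'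
  have hdiv : (τ : ℂ) ^ 2 * tt z σ m p / (τ ^ 2 * (1 - (τ : ℂ) ^ 2 * tt z σ m p)) =
      tt z σ m p / (1 - τ ^ 2 * tt z σ m p) := by
    rw [mul_div_mul_left]
    exact pow_ne_zero 2 hτc
  rw [hdiv] at hmain
  rw [← mul_sub, norm_mul, Complex.norm_real, Real.norm_eq_abs, abs_of_pos hz]
  refine (mul_le_mul_of_nonneg_left hmain hz.le).trans ?_
  -- the three contributions
  have hηF : η * (m.im / s) = m.im / K := by
    rw [hK]
    field_simp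
  have c1 : η * (m.im / s) * (ε * (4 * K)) ≤ 4 * B * ε := by
    rw [hηF]
    calc m.im / K * (ε * (4 * K)) = 4 * m.im * ε := by field_simp
      _ ≤ 4 * B * ε := by gcongr
  have hη2 : 1 / η ≤ k / g ^ 12 := by
    have hk := h.hk
    rw [hσg] at hk
    rw [div_le_div_iff₀ hz (by positivity)]
    calc 1 * g ^ 12 = (g ^ 6) ^ 2 := by ring
      _ ≤ k * η := hk
  have hη20 : 0 ≤ 1 / η := by positivity
  have c2a : η * (m.im / s) * ((C * σ ^ 3) ^ 2 * (4 * K) / η ^ 2) ≤ 4 * B ^ 3 * y := by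
    calc η * (m.im / s) * ((C * σ ^ 3) ^ 2 * (4 * K) / η ^ 2) =
          4 * m.im * C ^ 2 * σ ^ 6 * (1 / η) ^ 2 := by
          rw [hηF]
          field_simp
      _ ≤ 4 * B * B ^ 2 * σ ^ 6 * (k / g ^ 12) ^ 2 := by gcongr
      _ = 4 * B ^ 3 * (k ^ 2 * g ^ 12 * S ^ 0) := by
          rw [hσg]
          field_simp
      _ ≤ _ := by
          have e4 := h.pw 2 12 0 2 (by norm_num) (by norm_num) (by norm_num) (by norm_num)
          gcongr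
  have c2b : η * (m.im / s) * ((C * σ) ^ 2 * ρ ^ N / η ^ 2) ≤ B ^ 3 * y := by
    have hKinv : 1 / K ≤ 1 := by
      rw [div_le_one hK0]
      exact hK1
    calc η * (m.im / s) * ((C * σ) ^ 2 * ρ ^ N / η ^ 2) =
          (1 / K) * (m.im * C ^ 2 * σ ^ 2 * ρ ^ N * (1 / η) ^ 2) := by
          rw [hηF]
          field_simp
      _ ≤ 1 * (B * B ^ 2 * σ ^ 2 * g ^ 36 * (k / g ^ 12) ^ 2) := by gcongr
      _ = B ^ 3 * (k ^ 2 * g ^ 24 * S ^ 0) := by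
          rw [hσg]
          field_simp
      _ ≤ _ := by
          have e4 := h.pw 2 24 0 2 (by norm_num) (by norm_num) (by norm_num) (by norm_num)
          gcongr
  have c2c : η * (m.im / s) * ((C * σ) ^ 2 * (c * (4 * K)) / η ^ 2) ≤ 2 * 10 ^ 24 * B ^ 17 * y := by
    have e1 : c ≤ 5 * 10 ^ 23 * B ^ 14 * (k ^ 2 * g ^ 24 * S ^ 7) := by
      rw [hc]
      calc N * (2 * B * S ^ 2 * g ^ 12) * x / (2 * B ^ 2 / g ^ 18) ≤
            50 * B ^ 2 * (k * S) * (2 * B * S ^ 2 * g ^ 12) * x / (2 * B ^ 2 / g ^ 18) := by gcongr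
        _ = _ := by
            rw [hx]
            unfold xx
            field_simp
            ring
    calc η * (m.im / s) * ((C * σ) ^ 2 * (c * (4 * K)) / η ^ 2) =
          4 * m.im * C ^ 2 * σ ^ 2 * c * (1 / η) ^ 2 := by
          rw [hηF]
          field_simp
      _ ≤ 4 * B * B ^ 2 * σ ^ 2 * (5 * 10 ^ 23 * B ^ 14 * (k ^ 2 * g ^ 24 * S ^ 7)) *
          (k / g ^ 12) ^ 2 := by gcongr
      _ = 2 * 10 ^ 24 * B ^ 17 * (k ^ 4 * g ^ 12 * S ^ 7) := by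
          rw [hσg]
          field_simp
          ring
      _ ≤ _ := by
          have e4 := h.pw 4 12 7 4 (by norm_num) (by norm_num) (by norm_num) (by norm_num)
          gcongr
  have hbK : b * (4 * K) ≤ 3 * 10 ^ 23 * B ^ 14 * y := by
    have e1 : 4 * ((N : ℝ) ^ 2 * (τ ^ 2 * (B * S ^ 2))) * (4 * K) ≤ 160000 * B ^ 14 * y := by
      calc 4 * ((N : ℝ) ^ 2 * (τ ^ 2 * (B * S ^ 2))) * (4 * K) ≤
            4 * ((50 * B ^ 2 * (k * S)) ^ 2 * (2 * g ^ 12 * (B * S ^ 2))) * (4 * (2 * B * k)) := by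
            gcongr
        _ = 160000 * B ^ 6 * (k ^ 3 * g ^ 12 * S ^ 4) := by ring
        _ ≤ _ := by
            have e4 := h.pw 3 12 4 3 (by norm_num) (by norm_num) (by norm_num) (by norm_num)
            have e5 : B ^ 6 ≤ B ^ 14 := pow_le_pow_right₀ hB1 (by norm_num)
            gcongr
    have e2 : b * (4 * K) = 4 * ((N : ℝ) ^ 2 * (τ ^ 2 * (B * S ^ 2))) * (4 * K) +
        4 * K * (τ ^ 2 * x) := by
      rw [hb]
      ring
    have e3 : 0 ≤ B ^ 14 * y := by positivity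
    rw [e2]
    linarith
  have c3 : η * (m.im / s) * ((ρ ^ N + b * (4 * K)) /
      ‖1 - (τ : ℂ) ^ 2 * tt z σ m p‖) ≤ 10 ^ 26 * B ^ 15 * y := by
    have e1 : (ρ ^ N + b * (4 * K)) / ‖1 - (τ : ℂ) ^ 2 * tt z σ m p‖ ≤
        (y + 3 * 10 ^ 23 * B ^ 14 * y) * (2 * K) := by
      rw [div_le_iff₀ h1t0]
      have e2 : 1 ≤ 2 * K * ‖1 - (τ : ℂ) ^ 2 * tt z σ m p‖ := by
        have := mul_le_mul_of_nonneg_left h1t (by positivity : 0 ≤ 2 * K)
        rwa [mul_one_div_cancel (by positivity)] at this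
      have e3 : 0 ≤ y + 3 * 10 ^ 23 * B ^ 14 * y := by positivity
      calc ρ ^ N + b * (4 * K) ≤ (y + 3 * 10 ^ 23 * B ^ 14 * y) * 1 := by linarith
        _ ≤ (y + 3 * 10 ^ 23 * B ^ 14 * y) * (2 * K * ‖1 - (τ : ℂ) ^ 2 * tt z σ m p‖) :=
            mul_le_mul_of_nonneg_left e2 e3
        _ = _ := by ring
    calc η * (m.im / s) * ((ρ ^ N + b * (4 * K)) / ‖1 - (τ : ℂ) ^ 2 * tt z σ m p‖) ≤
          η * (m.im / s) * ((y + 3 * 10 ^ 23 * B ^ 14 * y) * (2 * K)) :=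
          mul_le_mul_of_nonneg_left e1 (by rw [hηF]; positivity)
      _ = 2 * m.im * (y + 3 * 10 ^ 23 * B ^ 14 * y) := by
          rw [hηF]
          field_simp
      _ ≤ 2 * B * (B ^ 14 * y + 3 * 10 ^ 23 * B ^ 14 * y) := by
          have : 1 ≤ B ^ 14 := one_le_pow₀ hB1
          have e4 : y ≤ B ^ 14 * y := le_mul_of_one_le_left hy0.le this
          gcongr
      _ = (2 + 6 * 10 ^ 23) * (B ^ 15 * y) := by ring
      _ ≤ 10 ^ 26 * (B ^ 15 * y) := mul_le_mul_of_nonneg_right (by norm_num) (by positivity)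
      _ = _ := by ring
  have hBy : 4 * B ^ 3 * y + B ^ 3 * y + 2 * 10 ^ 24 * B ^ 17 * y ≤ 10 ^ 25 * B ^ 17 * y := by
    have e1 : B ^ 3 ≤ B ^ 17 := pow_le_pow_right₀ hB1 (by norm_num)
    have e2 : B ^ 3 * y ≤ B ^ 17 * y := mul_le_mul_of_nonneg_right e1 hy0.le
    have e3 : 0 ≤ B ^ 17 * y := by positivity
    linarith
  have hexp : η * (m.im / s * (ε * (4 * K) + (1 + 1 / ε) * (3 * ((C * σ ^ 3) ^ 2 * (4 * K) +
      (C * σ) ^ 2 * ρ ^ N + (C * σ) ^ 2 * (c * (4 * K))) / η ^ 2) +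
      (ρ ^ N + b * (4 * K)) / ‖1 - (τ : ℂ) ^ 2 * tt z σ m p‖)) =
      η * (m.im / s) * (ε * (4 * K)) + (1 + 1 / ε) * (3 * (η * (m.im / s) *
        ((C * σ ^ 3) ^ 2 * (4 * K) / η ^ 2) + η * (m.im / s) * ((C * σ) ^ 2 * ρ ^ N / η ^ 2) +
        η * (m.im / s) * ((C * σ) ^ 2 * (c * (4 * K)) / η ^ 2))) +
        η * (m.im / s) * ((ρ ^ N + b * (4 * K)) / ‖1 - (τ : ℂ) ^ 2 * tt z σ m p‖) := by ring
  rw [hexp]
  have hεp : 0 ≤ 1 + 1 / ε := by positivity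
  have c2 : 3 * (η * (m.im / s) * ((C * σ ^ 3) ^ 2 * (4 * K) / η ^ 2) +
      η * (m.im / s) * ((C * σ) ^ 2 * ρ ^ N / η ^ 2) +
      η * (m.im / s) * ((C * σ) ^ 2 * (c * (4 * K)) / η ^ 2)) ≤ 10 ^ 26 * B ^ 17 * y := by
    have e3 : 0 ≤ B ^ 17 * y := by positivity
    linarith
  have c2' := mul_le_mul_of_nonneg_left c2 hεp
  linarith

end Pool.Agent.Zk11.QE
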