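import Pool.Agent.Zk11.QE.Na

/-! Quantum ergodicity in short windows. -/

set_option autoImplicit false
set_option linter.unusedSectionVars false

open scoped BigOperators Topology ENNReal
open MeasureTheory Filter

namespace Pool.Agent.Zk11.QE

open Pool.Agent.Zk11.QD
open Pool.Agent.W788.MFP.Four (T e NN adj adj_neg e_comm e_add_left e_add e_zero e_neg e_neg_left
  e_normSq sum_e NN_pos card_T e_single)
open Pool.Agent.Zk60.LL.Det (EB)
open Pool.Agent.Zk96.QE (bx passage_loc)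

variable {d : ℕ}

/-- the smallness of the coupling, general laws -/
structure Sl (d : ℕ) (b v0 q w0 D δ C2 lam : ℝ) : Prop where
  p0 : 0 < lam
  l1 : lam ≤ 1
  l2 : 1 ≤ Real.log (1 / lam)
  l3 : Real.log (1 / Real.sqrt v0) ≤ Real.log (1 / lam)
  l4 : D * lam < δ
  l5 : lam * (|b| + 1) ≤ w0
  l6 : 2 * D ^ 3 * lam ^ q ≤ 1
  l7 : C2 * Real.log (1 / lam) ^ (2 * d + 6) * lam ^ (q / 20) ≤ 1
  l8 : D ^ 3 * lam ^ ((3 : ℝ) / 4) ≤ 1

theorem log_pow_small (n : ℕ) (p lam : ℝ) (hp : 0 < p) (h0 : 0 < lam) (h1 : lam ≤ 1) :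
    Real.log (1 / lam) ^ n * lam ^ p ≤ ((2 * (n + 1)) / p) ^ n * lam ^ (p / 2) := by
  have hn : (0 : ℝ) < 2 * (n + 1) := by positivity
  set a : ℝ := p / (2 * (n + 1)) with ha
  have ha0 : 0 < a := by positivity
  have h1l : 1 ≤ 1 / lam := by
    rw [le_div_iff₀ h0]
    linarith
  have h2 := Real.log_le_rpow_div (x := 1 / lam) (by positivity) ha0
  have hl0 : 0 ≤ Real.log (1 / lam) := Real.log_nonneg h1l
  have e1 : (1 / lam) ^ a / a = (2 * (n + 1)) / p * lam ^ (-a) := by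
    rw [one_div, Real.inv_rpow h0.le, ← Real.rpow_neg h0.le, ha]
    field_simp
  rw [e1] at h2
  have hm : 0 < lam ^ (-a) := Real.rpow_pos_of_pos h0 _
  calc Real.log (1 / lam) ^ n * lam ^ p ≤ ((2 * (n + 1)) / p * lam ^ (-a)) ^ n * lam ^ p :=
        mul_le_mul_of_nonneg_right (pow_le_pow_left₀ hl0 h2 n) (Real.rpow_nonneg h0.le _)
    _ = ((2 * (n + 1)) / p) ^ n * lam ^ (p - a * n) := by
        rw [mul_pow, ← Real.rpow_natCast (lam ^ (-a)), ← Real.rpow_mul h0.le, mul_assoc,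
          ← Real.rpow_add h0]
        congr 2
        ring
    _ ≤ _ := by
        refine mul_le_mul_of_nonneg_left ?_ (by positivity)
        refine Real.rpow_le_rpow_of_exponent_ge h0 h1 ?_
        have e2 : a * n ≤ p / 2 := by
          rw [ha, div_mul_eq_mul_div, div_le_div_iff₀ hn (by norm_num)]
          nlinarith
        linarith

theorem sl_ev (d : ℕ) (b v0 q w0 D δ C2 : ℝ) (hq : 0 < q) (hw0 : 0 < w0) (hδ : 0 < δ)
    (hC2 : 0 ≤ C2) : ∃ l0 : ℝ, 0 < l0 ∧ ∀ lam : ℝ, 0 < lam → lam < l0 →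
      Sl d b v0 q w0 D δ C2 lam := by
  have hid : Tendsto (fun σ : ℝ => σ) (𝓝[>] (0 : ℝ)) (𝓝 0) := tendsto_nhdsWithin_of_tendsto_nhds tendsto_id
  have hpow : ∀ a : ℝ, 0 < a → Tendsto (fun σ : ℝ => σ ^ a) (𝓝[>] (0 : ℝ)) (𝓝 0) := by
    intro a ha
    have h1 := (Real.continuousAt_rpow_const 0 a (Or.inr ha.le)).tendsto.comp hid
    rw [Real.zero_rpow ha.ne'] at h1
    exact h1
  have hlog : ∀ x : ℝ, ∀ᶠ σ in 𝓝[>] (0 : ℝ), x ≤ Real.log (1 / σ) := by
    intro x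
    have h9 : ∀ᶠ σ in 𝓝[>] (0 : ℝ), σ ≤ Real.exp (-x) := hid.eventually_le_const (Real.exp_pos _)
    filter_upwards [h9, self_mem_nhdsWithin] with σ hσ hσ0
    have hσ0' : 0 < σ := hσ0
    rw [Real.le_log_iff_exp_le (by positivity), le_div_iff₀ hσ0']
    calc Real.exp x * σ ≤ Real.exp x * Real.exp (-x) :=
          mul_le_mul_of_nonneg_left hσ (Real.exp_pos _).le
      _ = 1 := by rw [← Real.exp_add]; simp
  have h1 : ∀ᶠ σ in 𝓝[>] (0 : ℝ), σ ≤ 1 := hid.eventually_le_const (by norm_num)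
  have h2 := hlog 1
  have h3 := hlog (Real.log (1 / Real.sqrt v0))
  have h4 : ∀ᶠ σ in 𝓝[>] (0 : ℝ), D * σ < δ := by
    have := hid.const_mul D
    rw [mul_zero] at this
    exact this.eventually_lt_const hδ
  have h5 : ∀ᶠ σ in 𝓝[>] (0 : ℝ), σ * (|b| + 1) ≤ w0 := by
    have := hid.mul_const (|b| + 1)
    rw [zero_mul] at this
    exact this.eventually_le_const hw0
  have h6 : ∀ᶠ σ in 𝓝[>] (0 : ℝ), 2 * D ^ 3 * σ ^ q ≤ 1 := by
    have := (hpow q hq).const_mul (2 * D ^ 3)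
    rw [mul_zero] at this
    exact this.eventually_le_const (by norm_num)
  have h7 : ∀ᶠ σ in 𝓝[>] (0 : ℝ),
      C2 * (((2 * ((2 * d + 6 : ℕ) + 1)) / (q / 20)) ^ (2 * d + 6) * σ ^ (q / 20 / 2)) ≤ 1 := by
    have := ((hpow (q / 20 / 2) (by positivity)).const_mul
      (((2 * ((2 * d + 6 : ℕ) + 1)) / (q / 20)) ^ (2 * d + 6))).const_mul C2
    rw [mul_zero, mul_zero] at this
    exact this.eventually_le_const (by norm_num)
  have h8 : ∀ᶠ σ in 𝓝[>] (0 : ℝ), D ^ 3 * σ ^ ((3 : ℝ) / 4) ≤ 1 := by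
    have := (hpow ((3 : ℝ) / 4) (by norm_num)).const_mul (D ^ 3)
    rw [mul_zero] at this
    exact this.eventually_le_const (by norm_num)
  have hall := ((((((h1.and h2).and h3).and h4).and h5).and h6).and h7).and h8
  rw [eventually_nhdsWithin_iff, Metric.eventually_nhds_iff] at hall
  obtain ⟨l0, hl0, hall⟩ := hall
  refine ⟨l0, hl0, fun lam hl hlt => ?_⟩
  obtain ⟨⟨⟨⟨⟨⟨⟨a1, a2⟩, a3⟩, a4⟩, a5⟩, a6⟩, a7⟩, a8⟩ := hall (y := lam)
    (by rw [Real.dist_eq, sub_zero, abs_of_pos hl]; exact hlt) hl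
  refine ⟨hl, a1, a2, a3, a4, a5, a6, ?_, a8⟩
  refine le_trans ?_ a7
  rw [mul_assoc]
  exact mul_le_mul_of_nonneg_left (log_pow_small (2 * d + 6) (q / 20) lam (by positivity) hl a1) hC2

/-- elementary bounds for `σ = λ v` -/
theorem Sl.sig {b v0 q w0 D δ C2 lam : ℝ} (h : Sl d b v0 q w0 D δ C2 lam) (hv0 : 0 < v0)
    (hD : 1 ≤ D) (v : ℝ) (hv1 : Real.sqrt v0 ≤ v) (hv2 : v ≤ D) :
    0 < lam * v ∧ lam * v < δ ∧ Real.log (1 / (lam * v)) ≤ 2 * Real.log (1 / lam) ∧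
    (∀ a : ℝ, 0 ≤ a → a ≤ 3 → (lam * v) ^ a ≤ D ^ 3 * lam ^ a) := by
  have h0 := h.p0
  have hs : 0 < Real.sqrt v0 := Real.sqrt_pos.2 hv0
  have hv0' : 0 < v := by linarith
  have hσ : 0 < lam * v := by positivity
  refine ⟨hσ, ?_, ?_, ?_⟩
  · refine lt_of_le_of_lt ?_ h.l4
    rw [mul_comm]
    exact mul_le_mul_of_nonneg_right hv2 h0.le
  · have e1 : 1 / (lam * v) = 1 / lam * (1 / v) := by field_simp
    rw [e1, Real.log_mul (by positivity) (by positivity)]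
    have e2 : Real.log (1 / v) ≤ Real.log (1 / Real.sqrt v0) :=
      Real.log_le_log (by positivity) (one_div_le_one_div_of_le hs hv1)
    linarith [h.l3]
  · intro a ha ha3
    rw [mul_comm lam v, Real.mul_rpow hv0'.le h0.le]
    refine mul_le_mul_of_nonneg_right ?_ (Real.rpow_nonneg h0.le _)
    calc v ^ a ≤ D ^ a := Real.rpow_le_rpow hv0'.le hv2 ha
      _ ≤ D ^ (3 : ℝ) := Real.rpow_le_rpow_of_exponent_le hD ha3
      _ = D ^ 3 := by
          rw [← Real.rpow_natCast]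
          norm_num

end Pool.Agent.Zk11.QE
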