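import Pool.Agent.Zk11.QE.Fi

/-! Quantum ergodicity in short windows: conclusion. -/

set_option autoImplicit false
set_option linter.unusedSectionVars false

open scoped BigOperators Topology ENNReal
open MeasureTheory Filter

namespace Pool.Agent.Zk11.QE

open Pool.Agent.Zk11.QD
open Pool.Agent.W788.MFP.Four (T e NN adj adj_neg e_comm e_add_left e_add e_zero e_neg e_neg_left
  e_normSq sum_e NN_pos card_T e_single)
open Pool.Agent.Zk60.LL.Det (EB)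
open Pool.Agent.Zk96.QE (bx passage_loc)

variable {d : ℕ}

/-- the size of the Fourier transform -/
theorem Sl.eps {b v0 q w0 D δ C2 lam : ℝ} (h : Sl d b v0 q w0 D δ C2 lam) (hv0 : 0 < v0)
    (hD : 1 ≤ D) (v : ℝ) (hv1 : Real.sqrt v0 ≤ v) (hv2 : v ≤ D) (M κ β : ℝ) (hM0 : 0 ≤ M)
    (hq : 0 < q) (hMq : M + 2 * q = 1 / 2) (hκ : κ = M + q) (hβM : β - 2 ≤ M / 2) (L : ℕ)
    (hL : (L : ℝ) ≤ lam ^ (-β)) (A : ℝ) (hA : 0 < A) (hδ1 : δ ≤ 1) :
    A * ((lam * v) ^ κ * (1 + Real.log (1 / (lam * v))) ^ 6 * (1 + L * (lam * v) ^ 2) ^ 2 +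
      (lam * v) ^ ((1 - 2 * κ) / 20)) ≤
      A * (D ^ 3 * (729 * (1 + D ^ 2) ^ 2 + 1)) * Real.log (1 / lam) ^ 6 * lam ^ (q / 10) := by
  have h0 := h.p0
  have h1 := h.l1
  have hl := h.l2
  obtain ⟨s1, s2, s3, s4⟩ := h.sig hv0 hD v hv1 hv2
  have hκ0 : 0 ≤ κ := by rw [hκ]; linarith
  have hκ1 : κ ≤ 3 := by rw [hκ]; linarith
  have e1 := s4 κ hκ0 hκ1
  have e2 : (1 - 2 * κ) / 20 = q / 10 := by rw [hκ]; linarith
  have e3 := s4 (q / 10) (by positivity) (by linarith)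
  have hlσ : 0 ≤ Real.log (1 / (lam * v)) := Real.log_nonneg (by
    rw [le_div_iff₀ s1]
    linarith)
  have e4 : 1 + Real.log (1 / (lam * v)) ≤ 3 * Real.log (1 / lam) := by linarith
  have e5 : 1 + (L : ℝ) * (lam * v) ^ 2 ≤ (1 + D ^ 2) * lam ^ (-(M / 2)) := by
    have g1 : (L : ℝ) * (lam * v) ^ 2 ≤ D ^ 2 * lam ^ (-(M / 2)) := by
      have g2 : (lam * v) ^ 2 ≤ D ^ 2 * lam ^ (2 : ℝ) := by
        have hs : 0 < Real.sqrt v0 := Real.sqrt_pos.2 hv0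
        have hv0' : 0 ≤ v := by linarith
        rw [mul_pow, mul_comm]
        have : lam ^ (2 : ℝ) = lam ^ 2 := by rw [← Real.rpow_natCast]; norm_num
        rw [this]
        gcongr
      calc (L : ℝ) * (lam * v) ^ 2 ≤ lam ^ (-β) * (D ^ 2 * lam ^ (2 : ℝ)) :=
            mul_le_mul hL g2 (by positivity) (by positivity)
        _ = D ^ 2 * lam ^ (2 - β) := by
            rw [mul_left_comm, ← Real.rpow_add h0]
            congr 2
            ring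
        _ ≤ D ^ 2 * lam ^ (-(M / 2)) := by
            refine mul_le_mul_of_nonneg_left ?_ (by positivity)
            exact Real.rpow_le_rpow_of_exponent_ge h0 h1 (by linarith)
    have g3 : 1 ≤ lam ^ (-(M / 2)) := by
      rw [Real.rpow_neg h0.le]
      exact (one_le_inv₀ (Real.rpow_pos_of_pos h0 _)).2 (Real.rpow_le_one h0.le h1 (by linarith))
    linarith
  have hp : 0 < lam ^ (-(M / 2)) := Real.rpow_pos_of_pos h0 _
  have hpk : 0 < lam ^ κ := Real.rpow_pos_of_pos h0 _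
  rw [e2]
  have e6 : (lam * v) ^ κ * (1 + Real.log (1 / (lam * v))) ^ 6 * (1 + L * (lam * v) ^ 2) ^ 2 ≤
      D ^ 3 * (729 * (1 + D ^ 2) ^ 2) * Real.log (1 / lam) ^ 6 * lam ^ (q / 10) := by
    calc _ ≤ (D ^ 3 * lam ^ κ) * (3 * Real.log (1 / lam)) ^ 6 *
          ((1 + D ^ 2) * lam ^ (-(M / 2))) ^ 2 := by
          have g1 : 0 ≤ (lam * v) ^ κ := Real.rpow_nonneg s1.le _
          gcongr
      _ = D ^ 3 * (729 * (1 + D ^ 2) ^ 2) * Real.log (1 / lam) ^ 6 *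
          (lam ^ κ * (lam ^ (-(M / 2)) * lam ^ (-(M / 2)))) := by ring
      _ = D ^ 3 * (729 * (1 + D ^ 2) ^ 2) * Real.log (1 / lam) ^ 6 * lam ^ q := by
          rw [← Real.rpow_add h0, ← Real.rpow_add h0, hκ]
          congr 2
          ring
      _ ≤ _ := by
          refine mul_le_mul_of_nonneg_left ?_ (by positivity)
          exact Real.rpow_le_rpow_of_exponent_ge h0 h1 (by linarith)
  have e7 : (lam * v) ^ (q / 10) ≤ D ^ 3 * Real.log (1 / lam) ^ 6 * lam ^ (q / 10) := by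
    refine e3.trans ?_
    have g1 : 1 ≤ Real.log (1 / lam) ^ 6 := one_le_pow₀ hl
    have g2 : 0 ≤ D ^ 3 * lam ^ (q / 10) := by positivity
    calc D ^ 3 * lam ^ (q / 10) = D ^ 3 * lam ^ (q / 10) * 1 := (mul_one _).symm
      _ ≤ D ^ 3 * lam ^ (q / 10) * Real.log (1 / lam) ^ 6 := mul_le_mul_of_nonneg_left g1 g2
      _ = _ := by ring
  calc _ ≤ A * (D ^ 3 * (729 * (1 + D ^ 2) ^ 2) * Real.log (1 / lam) ^ 6 * lam ^ (q / 10) +
        D ^ 3 * Real.log (1 / lam) ^ 6 * lam ^ (q / 10)) :=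
        mul_le_mul_of_nonneg_left (add_le_add e6 e7) hA.le
    _ = _ := by ring

set_option maxHeartbeats 1600000 in
/-- **quantum ergodicity in short windows** -/
theorem piece (hd : 3 ≤ d) (E1 E2 : ℝ) (hE1 : 0 < E1) (hE2 : E2 < 4 * d) (b v0 β γ : ℝ)
    (hv0 : 0 < v0) (hβ : β < 9 / 4) (hγ : γ < 5 / 2) :
    ∃ c K w0 l0 : ℝ, 0 < c ∧ 0 < K ∧ 0 < w0 ∧ 0 < l0 ∧ l0 ≤ 1 ∧
      ∀ (μ : Measure ℝ) [IsProbabilityMeasure μ], (∀ᵐ s ∂μ, |s| ≤ b) →
      v0 ≤ ∫ s, (s - ∫ t, t ∂μ) ^ 2 ∂μ → ∀ lam : ℝ, 0 < lam → lam < l0 →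
      ∀ (L : ℕ) [NeZero L], K * (1 / lam) ^ 2 * Real.log (1 / lam) ≤ L → (L : ℝ) ≤ lam ^ (-β) →
      ∀ s1 s2 : ℝ, E1 ≤ s1 → s2 ≤ E2 → lam ^ γ ≤ s2 - s1 → s2 - s1 ≤ w0 →
      ∃ Bad : Set (T d L → ℝ), MeasurableSet Bad ∧ (PL (T d L) μ).real Bad ≤ lam ^ (2 * c) ∧
        ∀ V, V ∉ Bad → ∀ (ψ : T d L → T d L → ℂ) (E : T d L → ℝ), EB lam V ψ E →
        ∀ S : Finset (T d L), (∀ j ∈ S, (s1 ≤ E j ∧ E j ≤ s2) ∧
          ∃ (y : T d L) (ℓ : Fin d → ℕ), (∀ i, ℓ i ≤ L) ∧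
            lam ^ c < |∑ x ∈ bx y ℓ, ‖ψ j x‖ ^ 2 - ∏ i, ((ℓ i : ℝ) / L)|) →
        (S.card : ℝ) ≤ lam ^ c * (s2 - s1) * (Fintype.card (T d L) : ℝ) := by
  obtain ⟨M, hM⟩ : ∃ M : ℝ, M = max (max (2 * β - 4) (γ - 2)) 0 := ⟨_, rfl⟩
  have hM0 : 0 ≤ M := by rw [hM]; exact le_max_right _ _
  have hMβ : 2 * β - 4 ≤ M := by rw [hM]; exact (le_max_left _ _).trans (le_max_left _ _)
  have hMγ : γ - 2 ≤ M := by rw [hM]; exact (le_max_right _ _).trans (le_max_left _ _)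
  have hM1 : M < 1 / 2 := by
    rw [hM]
    refine max_lt (max_lt ?_ ?_) ?_ <;> linarith
  obtain ⟨q, hqd⟩ : ∃ q : ℝ, M + 2 * q = 1 / 2 := ⟨(1 / 2 - M) / 2, by ring⟩
  have hq : 0 < q := by linarith
  obtain ⟨κ, hκ⟩ : ∃ κ : ℝ, κ = M + q := ⟨_, rfl⟩
  have hκ0 : 0 < κ := by rw [hκ]; linarith
  have hκ1 : κ < 1 / 2 := by rw [hκ]; linarith
  obtain ⟨D, hDd⟩ : ∃ D : ℝ, D = 2 * (|b| + 1) := ⟨_, rfl⟩
  have hD1 : 1 ≤ D := by
    rw [hDd]
    have := abs_nonneg b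
    linarith
  have hD0 : 0 < D := by linarith
  obtain ⟨A, K0, δ, hA, hK0, hδ, hδ1, hunif⟩ := unif hd (E1 / 2) ((E2 + 4 * d) / 2) (by linarith)
    (by linarith) (D / Real.sqrt v0) κ hκ0 hκ1
  obtain ⟨w0, hw0d⟩ : ∃ w0 : ℝ, w0 = min (min (E1 / 8) ((4 * d - E2) / 8)) 1 := ⟨_, rfl⟩
  have hw0 : 0 < w0 := by
    rw [hw0d]
    refine lt_min (lt_min (by linarith) (by linarith)) one_pos
  have hw0a : w0 ≤ E1 / 8 := by rw [hw0d]; exact (min_le_left _ _).trans (min_le_left _ _)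
  have hw0b : w0 ≤ (4 * d - E2) / 8 := by
    rw [hw0d]; exact (min_le_left _ _).trans (min_le_right _ _)
  have hw01 : w0 ≤ 1 := by rw [hw0d]; exact min_le_right _ _
  obtain ⟨Ce, hCe⟩ : ∃ Ce : ℝ, Ce = A * (D ^ 3 * (729 * (1 + D ^ 2) ^ 2 + 1)) := ⟨_, rfl⟩
  obtain ⟨Cw, hCw⟩ : ∃ Cw : ℝ, Cw = 1640 * (A + 1 / w0 ^ 2) * (7 * D ^ 3) := ⟨_, rfl⟩
  have hCe0 : 0 ≤ Ce := by rw [hCe]; positivity
  have hCw0 : 0 ≤ Cw := by rw [hCw]; positivity
  obtain ⟨C2, hC2⟩ : ∃ C2 : ℝ, C2 = 5 ^ (2 * d) * (3 * Ce + Cw) := ⟨_, rfl⟩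
  have hC20 : 0 ≤ C2 := by rw [hC2]; positivity
  obtain ⟨l0, hl0, hsl⟩ := sl_ev d b v0 q w0 D δ C2 hq hw0 hδ hC20
  refine ⟨q / 100, 2 * K0 / v0, w0, min l0 1, by positivity, by positivity, hw0,
    lt_min hl0 one_pos, min_le_right _ _, ?_⟩
  intro μ _ hμb hVar lam h0 hlt L _ hKL hLβ s1 s2 hs1 hs2 hγΔ hΔw
  have hS := hsl lam h0 (hlt.trans_le (min_le_left _ _))
  have h1 := hS.l1
  have hl := hS.l2
  obtain ⟨a, v, hv, haB, hv1, hv2, n1, n2, n3⟩ := law_facts b v0 hv0 μ hμb hVar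
  rw [← hDd] at hv2 n1
  have hμ' : IsProbabilityMeasure (μ.map (af v a hv)) :=
    Measure.isProbabilityMeasure_map (af v a hv).measurable.aemeasurable
  obtain ⟨g1, g2, g3, g4⟩ := hS.sig hv0 hD1 v hv1 hv2
  have hvs : 0 < Real.sqrt v0 := Real.sqrt_pos.2 hv0
  have hvp : 0 < v := by linarith
  have hvv : v0 ≤ v ^ 2 := by
    calc v0 = Real.sqrt v0 ^ 2 := (Real.sq_sqrt hv0.le).symm
      _ ≤ v ^ 2 := pow_le_pow_left₀ hvs.le hv1 2
  set ℓ : ℝ := Real.log (1 / lam) with hℓ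
  have hℓ0 : 0 < ℓ := by linarith
  have hlσ0 : 0 ≤ Real.log (1 / (lam * v)) := Real.log_nonneg (by
    rw [le_div_iff₀ g1]
    linarith)
  -- the size of the torus
  have hLp := Lpos (L := L)
  have hLa : K0 * (1 / (lam * v)) ^ 2 * Real.log (1 / (lam * v)) ≤ L := by
    refine le_trans ?_ hKL
    have e1 : (1 / (lam * v)) ^ 2 ≤ (1 / lam) ^ 2 / v0 := by
      have : (1 / (lam * v)) ^ 2 = (1 / lam) ^ 2 / v ^ 2 := by field_simp
      rw [this]
      exact div_le_div_of_nonneg_left (by positivity) hv0 hvv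
    calc K0 * (1 / (lam * v)) ^ 2 * Real.log (1 / (lam * v)) ≤
          K0 * ((1 / lam) ^ 2 / v0) * (2 * ℓ) := by
          have : 0 ≤ (1 / lam) ^ 2 / v0 := by positivity
          gcongr
      _ = _ := by ring
  have hLb : (L : ℝ) * (lam * v) ^ 3 ≤ 1 := by
    have e1 : (L : ℝ) ≤ lam ^ (-(9 / 4 : ℝ)) :=
      hLβ.trans (Real.rpow_le_rpow_of_exponent_ge h0 h1 (by linarith))
    have e2 : (lam * v) ^ 3 ≤ D ^ 3 * lam ^ (3 : ℝ) := by
      have := g4 3 (by norm_num) le_rfl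
      have e3 : (lam * v) ^ (3 : ℝ) = (lam * v) ^ 3 := by rw [← Real.rpow_natCast]; norm_num
      rwa [e3] at this
    calc (L : ℝ) * (lam * v) ^ 3 ≤ lam ^ (-(9 / 4 : ℝ)) * (D ^ 3 * lam ^ (3 : ℝ)) :=
          mul_le_mul e1 e2 (by positivity) (by positivity)
      _ = D ^ 3 * lam ^ ((3 : ℝ) / 4) := by
          rw [mul_left_comm, ← Real.rpow_add h0]
          norm_num
      _ ≤ 1 := hS.l8
  have hlogL : Real.log L ≤ 3 * ℓ := by
    have e1 := Real.log_le_log hLp hLβ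
    rw [Real.log_rpow h0] at e1
    have e2 : Real.log lam = -ℓ := by rw [hℓ, one_div, Real.log_inv, neg_neg]
    rw [e2] at e1
    nlinarith
  have hlogL0 : 0 ≤ Real.log L := Real.log_natCast_nonneg L
  -- the spectral parameter
  set η : ℝ := (lam * v) ^ (2 + κ) with hη
  have hη0 : 0 < η := Real.rpow_pos_of_pos g1 _
  have hηb : η ≤ D ^ 3 * lam ^ (2 + κ) := g4 (2 + κ) (by linarith) (by linarith)
  have hΔ0 : 0 < s2 - s1 := lt_of_lt_of_le (Real.rpow_pos_of_pos h0 _) hγΔ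
  have hηΔ : η / (s2 - s1) ≤ D ^ 3 * lam ^ q := by
    rw [div_le_iff₀ hΔ0]
    calc η ≤ D ^ 3 * lam ^ (2 + κ) := hηb
      _ ≤ D ^ 3 * (lam ^ q * lam ^ γ) := by
          rw [← Real.rpow_add h0]
          refine mul_le_mul_of_nonneg_left ?_ (by positivity)
          exact Real.rpow_le_rpow_of_exponent_ge h0 h1 (by rw [hκ]; linarith)
      _ ≤ D ^ 3 * (lam ^ q * (s2 - s1)) := by
          have : 0 < lam ^ q := Real.rpow_pos_of_pos h0 _
          gcongr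
      _ = _ := by ring
  have h2η : 2 * η ≤ s2 - s1 := by
    have e1 : 2 * (η / (s2 - s1)) ≤ 1 := by
      calc 2 * (η / (s2 - s1)) ≤ 2 * (D ^ 3 * lam ^ q) := by linarith
        _ = 2 * D ^ 3 * lam ^ q := by ring
        _ ≤ 1 := hS.l6
    have e2 : 2 * (η / (s2 - s1)) = 2 * η / (s2 - s1) := by ring
    rw [e2, div_le_one hΔ0] at e1
    exact e1
  -- energies
  have hla : |lam * a| ≤ w0 := by
    rw [abs_mul, abs_of_pos h0]
    exact (mul_le_mul_of_nonneg_left haB h0.le).trans hS.l5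
  have hla1 := (abs_le.1 hla).1
  have hla2 := (abs_le.1 hla).2
  have hrange : ∀ u : ℝ, s1 - lam * a - w0 ≤ u → u ≤ s2 - lam * a + w0 →
      E1 / 2 ≤ u ∧ u ≤ (E2 + 4 * d) / 2 := by
    intro u hu1 hu2
    constructor <;> linarith
  have hUn := fun u hu1 hu2 => hunif (μ.map (af v a hv)) n1 n2 n3 u
    (hrange u hu1 hu2).1 (hrange u hu1 hu2).2 (lam * v) g1 g2 L hLa hLb
  set ε : ℝ := A * ((lam * v) ^ κ * (1 + Real.log (1 / (lam * v))) ^ 6 *
    (1 + L * (lam * v) ^ 2) ^ 2 + (lam * v) ^ ((1 - 2 * κ) / 20)) with hε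
  have hεb : ε ≤ Ce * ℓ ^ 6 * lam ^ (q / 10) := by
    rw [hCe]
    exact hS.eps hv0 hD1 v hv1 hv2 M κ β hM0 hq hqd hκ (by linarith) L hLβ A hA hδ1
  have hε0 : 0 ≤ ε := by rw [hε]; positivity
  obtain ⟨Bad, hBm, hBp, hBc⟩ := passage_loc (d := d) (L := L) (μ.map (af v a hv))
    (s1 - lam * a) (s2 - lam * a) w0 A η (lam * v) ε (lam ^ (q / 100)) (lam ^ (q / 100)) hw0 hη0
    (by linarith) hA.le hε0 (Real.rpow_pos_of_pos h0 _) (Real.rpow_pos_of_pos h0 _)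
    (fun u hu1 hu2 => (hUn u hu1 hu2).2)
    (fun u hu1 hu2 p hp => (hUn u (by linarith) (by linarith)).1 p hp)
  have hdiff : s2 - lam * a - (s1 - lam * a) = s2 - s1 := by ring
  rw [hdiff] at hBp hBc
  refine ⟨nz v a ⁻¹' Bad, nz_meas v a hBm, ?_, ?_⟩
  · have e1 : (PL (T d L) μ).real (nz v a ⁻¹' Bad) =
        (PL (T d L) (μ.map (af v a hv))).real Bad := by
      rw [← PL_nz μ v a hv, map_measureReal_apply (nz_meas v a) hBm]
    rw [e1]
    refine hBp.trans ?_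
    have hlogΔ : 1 + Real.log ((s2 - s1) / η) ≤ 7 * ℓ := by
      have f1 : Real.log ((s2 - s1) / η) ≤ Real.log (1 / η) := by
        apply Real.log_le_log (by positivity)
        exact div_le_div_of_nonneg_right (hΔw.trans hw01) hη0.le
      have f2 : Real.log (1 / η) = (2 + κ) * Real.log (1 / (lam * v)) := by
        rw [hη, one_div, Real.log_inv, Real.log_rpow g1, one_div, Real.log_inv]
        ring
      have f3 : (2 + κ) * Real.log (1 / (lam * v)) ≤ 3 * (2 * ℓ) := by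
        have : (2 + κ) * Real.log (1 / (lam * v)) ≤ 3 * Real.log (1 / (lam * v)) :=
          mul_le_mul_of_nonneg_right (by linarith) hlσ0
        linarith
      linarith
    have hlogΔ0 : 0 ≤ Real.log ((s2 - s1) / η) := by
      apply Real.log_nonneg
      rw [le_div_iff₀ hη0]
      linarith
    have hPq : 0 < lam ^ q := Real.rpow_pos_of_pos h0 _
    have hPq10 : 0 < lam ^ (q / 10) := Real.rpow_pos_of_pos h0 _
    have hw : 1640 * (A + (s2 - s1) / w0 ^ 2) *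
        (η / (s2 - s1) * (1 + Real.log ((s2 - s1) / η))) ≤ Cw * ℓ ^ 6 * lam ^ (q / 10) := by
      have f1 : (s2 - s1) / w0 ^ 2 ≤ 1 / w0 ^ 2 :=
        div_le_div_of_nonneg_right (hΔw.trans hw01) (by positivity)
      have f2 : η / (s2 - s1) * (1 + Real.log ((s2 - s1) / η)) ≤ D ^ 3 * lam ^ q * (7 * ℓ) :=
        mul_le_mul hηΔ hlogΔ (by positivity) (by positivity)
      have f3 : 0 ≤ η / (s2 - s1) * (1 + Real.log ((s2 - s1) / η)) := by positivity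
      have f4 : ℓ ≤ ℓ ^ 6 := by
        calc ℓ = ℓ ^ 1 := (pow_one ℓ).symm
          _ ≤ ℓ ^ 6 := pow_le_pow_right₀ hl (by norm_num)
      have f5 : lam ^ q ≤ lam ^ (q / 10) :=
        Real.rpow_le_rpow_of_exponent_ge h0 h1 (by linarith)
      calc 1640 * (A + (s2 - s1) / w0 ^ 2) *
            (η / (s2 - s1) * (1 + Real.log ((s2 - s1) / η))) ≤
            1640 * (A + 1 / w0 ^ 2) * (D ^ 3 * lam ^ q * (7 * ℓ)) :=
            mul_le_mul (by linarith) f2 f3 (by positivity)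
        _ = Cw * (ℓ * lam ^ q) := by rw [hCw]; ring
        _ ≤ Cw * (ℓ ^ 6 * lam ^ (q / 10)) := by gcongr
        _ = _ := by ring
    have hnum : (2 + Real.log L) ^ (2 * d) * (3 * ε + 1640 * (A + (s2 - s1) / w0 ^ 2) *
        (η / (s2 - s1) * (1 + Real.log ((s2 - s1) / η)))) ≤
        C2 * ℓ ^ (2 * d + 6) * lam ^ (q / 10) := by
      have f1 : 2 + Real.log L ≤ 5 * ℓ := by linarith
      have f2 : 0 ≤ 1640 * (A + (s2 - s1) / w0 ^ 2) *
        (η / (s2 - s1) * (1 + Real.log ((s2 - s1) / η))) := by positivity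
      calc _ ≤ (5 * ℓ) ^ (2 * d) * (3 * (Ce * ℓ ^ 6 * lam ^ (q / 10)) +
            Cw * ℓ ^ 6 * lam ^ (q / 10)) := by gcongr
        _ = C2 * ℓ ^ (2 * d + 6) * lam ^ (q / 10) := by
            rw [hC2, mul_pow, pow_add]
            ring
    have hden : (lam ^ (q / 100)) ^ 2 * lam ^ (q / 100) = lam ^ (3 * (q / 100)) := by
      rw [← Real.rpow_natCast, ← Real.rpow_mul h0.le, ← Real.rpow_add h0]
      congr 1
      push_cast
      ring
    rw [hden, div_le_iff₀ (Real.rpow_pos_of_pos h0 _)]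
    refine hnum.trans ?_
    have f6 : lam ^ (q / 10) = lam ^ (q / 20) * (lam ^ (2 * (q / 100)) * lam ^ (3 * (q / 100))) := by
      rw [← Real.rpow_add h0, ← Real.rpow_add h0]
      congr 1
      ring
    rw [f6]
    have f7 := hS.l7
    have f8 : 0 ≤ lam ^ (2 * (q / 100)) * lam ^ (3 * (q / 100)) := by positivity
    calc C2 * ℓ ^ (2 * d + 6) * (lam ^ (q / 20) * (lam ^ (2 * (q / 100)) * lam ^ (3 * (q / 100)))) =
          (C2 * ℓ ^ (2 * d + 6) * lam ^ (q / 20)) *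
            (lam ^ (2 * (q / 100)) * lam ^ (3 * (q / 100))) := by ring
      _ ≤ 1 * (lam ^ (2 * (q / 100)) * lam ^ (3 * (q / 100))) :=
          mul_le_mul_of_nonneg_right f7 f8
      _ = _ := one_mul _
  · intro V hV ψ E hE S hSj
    refine hBc (nz v a V) hV ψ (fun j => E j - lam * a) (EB_nz hv hE) S fun j hj => ?_
    obtain ⟨⟨k1, k2⟩, k3⟩ := hSj j hj
    exact ⟨⟨by linarith, by linarith⟩, k3⟩

end Pool.Agent.Zk11.QE
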