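import Pool.Agent.Zk96.QE.Loc

/-! Off-diagonal matrix elements of boxes. -/

set_option autoImplicit false
set_option linter.unusedSectionVars false

open scoped BigOperators Topology
open MeasureTheory Filter

namespace Pool.Agent.Zk11.QE.Od

open Pool.Agent.W788.MFP.Four (T e NN e_comm e_add_left e_add e_zero e_neg e_neg_left
  e_normSq sum_e NN_pos card_T e_single)
open Pool.Agent.Zk11.QD (Hz HM HM_apply HM_det uu uu_eq uu_norm uu_meas uu_le PL e_norm na)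
open Pool.Agent.Zk60.LL.Cau Pool.Agent.Zk60.LL.Det Pool.Agent.Zk60.LL.Prob
open Pool.Agent.Zk96.QE

variable {d L : ℕ} [NeZero L]

/-- nearly diagonal pairs -/
theorem near_diag (φ : ℝ → ℝ) (hφm : Continuous φ) (hφ0 : ∀ u, 0 ≤ φ u) (hφ1 : ∀ u, φ u ≤ 1)
    (η a b : ℝ) (hη : 0 < η) (h : ∀ u, |u - a| ≤ η → φ u = 1) (hab : |a - b| ≤ η) :
    3 / 20 ≤ ∫ u, φ u * (η * fc η a b u) := by
  have hnum : ∀ u : ℝ, 3 / 4 * η ^ 2 ≤ (a - u) * (b - u) + η ^ 2 := by
    intro u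
    have h1 : (a - b) ^ 2 ≤ η ^ 2 := by
      rw [← sq_abs (a - b)]
      exact pow_le_pow_left₀ (abs_nonneg _) hab 2
    nlinarith [sq_nonneg ((a - u) + (b - u))]
  have hpos : ∀ u : ℝ, 0 ≤ fc η a b u := by
    intro u
    unfold fc
    have h1 := hnum u
    have h2 : 0 < η ^ 2 := by positivity
    have h3 : 0 ≤ (a - u) * (b - u) + η ^ 2 := by linarith
    positivity
  have h1 : ∫ u, Set.indicator (Set.Icc (a - η) (a + η)) (fun _ => 3 / (40 * η)) u =
      3 / 20 := by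
    rw [integral_indicator measurableSet_Icc, setIntegral_const,
      Real.volume_real_Icc_of_le (by linarith), smul_eq_mul]
    field_simp
    ring
  rw [← h1]
  have hb : ∀ᵐ u : ℝ, ‖φ u‖ ≤ 1 := Eventually.of_forall fun u => by
    rw [Real.norm_eq_abs, abs_of_nonneg (hφ0 u)]
    exact hφ1 u
  refine integral_mono (ind_int _ continuous_const _ _)
    (((fc_int η a b hη).const_mul η).bdd_mul hφm.aestronglyMeasurable hb) fun u => ?_
  simp only
  by_cases hu : u ∈ Set.Icc (a - η) (a + η)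
  · have hua : |u - a| ≤ η := abs_le.2 ⟨by linarith [hu.1], by linarith [hu.2]⟩
    rw [Set.indicator_of_mem hu, h u hua, one_mul]
    unfold fc
    have h2 : (a - u) ^ 2 ≤ η ^ 2 := by
      have : (a - u) ^ 2 = |u - a| ^ 2 := by rw [sq_abs]; ring
      rw [this]
      exact pow_le_pow_left₀ (abs_nonneg _) hua 2
    have h3 : (b - u) ^ 2 ≤ 4 * η ^ 2 := by
      have h4 : |b - u| ≤ 2 * η := by
        have : |b - u| ≤ |b - a| + |a - u| := abs_sub_le b a u
        rw [abs_sub_comm b a, abs_sub_comm a u] at this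
        linarith
      have h5 : (b - u) ^ 2 = |b - u| ^ 2 := (sq_abs _).symm
      rw [h5]
      calc |b - u| ^ 2 ≤ (2 * η) ^ 2 := pow_le_pow_left₀ (abs_nonneg _) h4 2
        _ = 4 * η ^ 2 := by ring
    have h6 : 0 < ((a - u) ^ 2 + η ^ 2) * ((b - u) ^ 2 + η ^ 2) := by positivity
    rw [← mul_div_assoc, div_le_div_iff₀ (by positivity) h6]
    have h7 : ((a - u) ^ 2 + η ^ 2) * ((b - u) ^ 2 + η ^ 2) ≤ (2 * η ^ 2) * (5 * η ^ 2) := by
      apply mul_le_mul (by linarith) (by linarith) (by positivity) (by positivity)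
    have h8 := mul_le_mul_of_nonneg_left (hnum u) (by positivity : 0 ≤ η * (40 * η))
    calc 3 * (((a - u) ^ 2 + η ^ 2) * ((b - u) ^ 2 + η ^ 2)) ≤
          3 * ((2 * η ^ 2) * (5 * η ^ 2)) := by linarith
      _ = η * (40 * η) * (3 / 4 * η ^ 2) := by ring
      _ ≤ η * (40 * η) * ((a - u) * (b - u) + η ^ 2) := h8
      _ = η * ((a - u) * (b - u) + η ^ 2) * (40 * η) := by ring
  · rw [Set.indicator_of_notMem hu]
    exact mul_nonneg (hφ0 u) (mul_nonneg hη.le (hpos u))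

/-- the lower bound with the nearly diagonal pairs -/
theorem FF_lower_off {σ : ℝ} {V : T d L → ℝ} {ψ : T d L → T d L → ℂ} {E : T d L → ℝ}
    (h : EB σ V ψ E) (φ : ℝ → ℝ) (hφc : Continuous φ) (A B η E1 E2 : ℝ) (hη : 0 < η)
    (hsupp : ∀ u, u ∉ Set.Icc A B → φ u = 0) (ρ : ℝ → ℝ) (hρ : ∀ a, 0 ≤ ρ a)
    (hw : ∀ a b, -(1 / 2 * ρ a + 1 / 2 * ρ b) ≤ ∫ u, φ u * (η * fc η a b u))
    (hd : ∀ a b, E1 ≤ a → a ≤ E2 → |a - b| ≤ η → 3 / 20 ≤ ∫ u, φ u * (η * fc η a b u)) :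
    3 / 20 * ∑ j ∈ Finset.univ.filter (fun j => E1 ≤ E j ∧ E j ≤ E2),
      ∑ k ∈ Finset.univ.filter (fun k => |E k - E j| ≤ η), Aj (ψ j) (ψ k) ≤
      FF φ A B η σ V + (2 + Real.log L) ^ d * ∑ j, ρ (E j) := by
  classical
  have h1 : FF φ A B η σ V = ∑ j, ∑ k, Aj (ψ j) (ψ k) *
      ∫ u, φ u * (η * fc η (E j) (E k) u) := by
    unfold FF
    have h2 : ∀ u : ℝ, φ u * (η * SS KK ((u : ℂ) + η * Complex.I) σ V) =
        ∑ j, ∑ k, Aj (ψ j) (ψ k) * (φ u * (η * fc η (E j) (E k) u)) := by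
      intro u
      rw [SS_eq h (fun p : {p : T d L // p ≠ 0} => p.1) (fun p => mm p.1) KK KK_eq η u hη,
        Finset.mul_sum, Finset.mul_sum]
      refine Finset.sum_congr rfl fun j _ => ?_
      rw [Finset.mul_sum, Finset.mul_sum]
      refine Finset.sum_congr rfl fun k _ => ?_
      unfold Aj
      ring
    simp only [h2]
    have hi : ∀ j k : T d L, IntegrableOn
        (fun u => Aj (ψ j) (ψ k) * (φ u * (η * fc η (E j) (E k) u))) (Set.Icc A B) := by
      intro j k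
      have hc : Continuous fun u => Aj (ψ j) (ψ k) * (φ u * (η * fc η (E j) (E k) u)) :=
        continuous_const.mul (hφc.mul (continuous_const.mul (fc_cont η _ _ hη)))
      exact hc.continuousOn.integrableOn_compact isCompact_Icc
    rw [integral_finsetSum _ fun j _ => integrable_finsetSum _ fun k _ => hi j k]
    refine Finset.sum_congr rfl fun j _ => ?_
    rw [integral_finsetSum _ fun k _ => hi j k]
    refine Finset.sum_congr rfl fun k _ => ?_
    rw [integral_const_mul]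
    congr 1
    refine setIntegral_eq_integral_of_forall_compl_eq_zero fun u hu => ?_
    rw [hsupp u hu, zero_mul]
  set J := Finset.univ.filter (fun j => E1 ≤ E j ∧ E j ≤ E2) with hJ
  have h3 : ∀ j k : T d L, Aj (ψ j) (ψ k) * (if j ∈ J ∧ |E k - E j| ≤ η then 3 / 20 else 0) -
      (1 / 2 * (Aj (ψ j) (ψ k) * ρ (E j)) + 1 / 2 * (Aj (ψ k) (ψ j) * ρ (E k))) ≤
      Aj (ψ j) (ψ k) * ∫ u, φ u * (η * fc η (E j) (E k) u) := by
    intro j k
    have hA := Aj_nonneg (ψ j) (ψ k)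
    rw [Aj_comm (ψ k) (ψ j)]
    by_cases hc : j ∈ J ∧ |E k - E j| ≤ η
    · rw [if_pos hc]
      obtain ⟨hjJ, hjk⟩ := hc
      have h4 := (Finset.mem_filter.1 hjJ).2
      have h5 := mul_le_mul_of_nonneg_left (hd (E j) (E k) h4.1 h4.2
        (by rw [abs_sub_comm]; exact hjk)) hA
      have : 0 ≤ Aj (ψ j) (ψ k) * ρ (E j) := mul_nonneg hA (hρ _)
      have : 0 ≤ Aj (ψ j) (ψ k) * ρ (E k) := mul_nonneg hA (hρ _)
      linarith
    · rw [if_neg hc, mul_zero]
      have h5 := mul_le_mul_of_nonneg_left (hw (E j) (E k)) hA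
      linarith
  have h4 : ∑ j, ∑ k, (Aj (ψ j) (ψ k) * (if j ∈ J ∧ |E k - E j| ≤ η then 3 / 20 else 0) -
      (1 / 2 * (Aj (ψ j) (ψ k) * ρ (E j)) + 1 / 2 * (Aj (ψ k) (ψ j) * ρ (E k)))) ≤
      FF φ A B η σ V := by
    rw [h1]
    exact Finset.sum_le_sum fun j _ => Finset.sum_le_sum fun k _ => h3 j k
  have h5 : ∑ j, ∑ k, (Aj (ψ j) (ψ k) * (if j ∈ J ∧ |E k - E j| ≤ η then 3 / 20 else 0) -
      (1 / 2 * (Aj (ψ j) (ψ k) * ρ (E j)) + 1 / 2 * (Aj (ψ k) (ψ j) * ρ (E k)))) =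
      3 / 20 * ∑ j ∈ J, ∑ k ∈ Finset.univ.filter (fun k => |E k - E j| ≤ η), Aj (ψ j) (ψ k) -
      ∑ j, ρ (E j) * ∑ k, Aj (ψ j) (ψ k) := by
    simp only [Finset.sum_sub_distrib]
    congr 1
    · rw [Finset.mul_sum]
      have e1 : ∀ j, ∑ k, Aj (ψ j) (ψ k) * (if j ∈ J ∧ |E k - E j| ≤ η then 3 / 20 else 0) =
          if j ∈ J then 3 / 20 * ∑ k ∈ Finset.univ.filter (fun k => |E k - E j| ≤ η),
            Aj (ψ j) (ψ k) else 0 := by
        intro j
        by_cases hj : j ∈ J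
        · rw [if_pos hj, Finset.mul_sum, Finset.sum_filter]
          refine Finset.sum_congr rfl fun k _ => ?_
          by_cases hk : |E k - E j| ≤ η
          · rw [if_pos ⟨hj, hk⟩, if_pos hk, mul_comm]
          · rw [if_neg (fun hcon => hk hcon.2), if_neg hk, mul_zero]
        · rw [if_neg hj]
          refine Finset.sum_eq_zero fun k _ => ?_
          rw [if_neg (fun hcon => hj hcon.1), mul_zero]
      simp only [e1]
      rw [Finset.sum_ite_mem, Finset.univ_inter]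
    · simp only [Finset.sum_add_distrib, ← Finset.mul_sum]
      have e1 : ∑ j, ∑ k, Aj (ψ k) (ψ j) * ρ (E k) = ∑ k, ∑ j, Aj (ψ k) (ψ j) * ρ (E k) :=
        Finset.sum_comm
      have e3 : ∑ j, ∑ k, Aj (ψ j) (ψ k) * ρ (E j) = ∑ j, ρ (E j) * ∑ k, Aj (ψ j) (ψ k) := by
        refine Finset.sum_congr rfl fun j _ => ?_
        rw [Finset.mul_sum]
        exact Finset.sum_congr rfl fun k _ => mul_comm _ _
      rw [e1, e3]
      ring
  have h6 : ∑ j, ρ (E j) * ∑ k, Aj (ψ j) (ψ k) ≤ (2 + Real.log L) ^ d * ∑ j, ρ (E j) := by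
    rw [Finset.mul_sum]
    refine Finset.sum_le_sum fun j _ => ?_
    rw [mul_comm ((2 + Real.log L) ^ d)]
    exact mul_le_mul_of_nonneg_left (Aj_sum h j) (hρ _)
  rw [h5] at h4
  linarith

theorem box_fourier_c (f : T d L → ℂ) (y : T d L) (ℓ : Fin d → ℕ) (hℓ : ∀ i, ℓ i ≤ L) :
    ∑ x ∈ bx y ℓ, f x = ∑ p : T d L, (∏ i, gh (ℓ i) (p i)) *
      (e p (-y) * ∑ x, e p x * f x) := by
  classical
  have h1 : ∑ x ∈ bx y ℓ, f x = ∑ x : T d L,
      (∏ i, (if (x i - y i).val < ℓ i then (1 : ℂ) else 0)) * f x := by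
    unfold bx
    rw [Finset.sum_filter]
    refine Finset.sum_congr rfl fun x _ => ?_
    rw [Finset.prod_ite_zero]
    by_cases h : ∀ i, (x i - y i).val < ℓ i
    · rw [if_pos h, if_pos (fun i _ => h i)]
      simp
    · rw [if_neg h, if_neg (fun h' => h fun i => h' i (Finset.mem_univ i))]
      simp
  rw [h1]
  have h2 : ∀ x : T d L, (∏ i, (if (x i - y i).val < ℓ i then (1 : ℂ) else 0)) =
      ∑ p : T d L, (∏ i, gh (ℓ i) (p i)) * (e p (-y) * e p x) := by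
    intro x
    have h3 : (∏ i, (if (x i - y i).val < ℓ i then (1 : ℂ) else 0)) =
        ∏ i, ∑ q : ZMod L, gh (ℓ i) q * (ZMod.stdAddChar (q * (x i - y i)) : ℂ) :=
      Finset.prod_congr rfl fun i _ => (gh_inv (ℓ i) (hℓ i) _).symm
    rw [h3, Finset.prod_univ_sum, Fintype.piFinset_univ]
    refine Finset.sum_congr rfl fun p _ => ?_
    rw [Finset.prod_mul_distrib, ← e_add]
    congr 1
    unfold e
    have h4 : ∀ s : Finset (Fin d), ∏ i ∈ s, (ZMod.stdAddChar (p i * (x i - y i)) : ℂ) =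
        ZMod.stdAddChar (∑ i ∈ s, p i * (x i - y i)) := by
      intro s
      induction s using Finset.induction_on with
      | empty => simp
      | insert a s ha ih =>
        rw [Finset.prod_insert ha, Finset.sum_insert ha, AddChar.map_add_eq_mul, ih]
    rw [h4]
    congr 1
    refine Finset.sum_congr rfl fun i _ => ?_
    simp only [Pi.add_apply, Pi.neg_apply]
    ring
  simp only [h2]
  simp only [Finset.sum_mul]
  rw [Finset.sum_comm]
  refine Finset.sum_congr rfl fun p _ => ?_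
  rw [Finset.mul_sum, Finset.mul_sum]
  refine Finset.sum_congr rfl fun x _ => ?_
  ring

/-- **boxes and Fourier coefficients**, complex functions -/
theorem box_bound_c (f : T d L → ℂ) (y : T d L) (ℓ : Fin d → ℕ) (hℓ : ∀ i, ℓ i ≤ L) :
    ‖∑ x ∈ bx y ℓ, f x - ((∏ i, ((ℓ i : ℝ) / L) : ℝ) : ℂ) * ∑ x, f x‖ ^ 2 ≤
      (2 + Real.log L) ^ d * ∑ p ∈ Finset.univ.erase (0 : T d L), mm p *
        ‖∑ x, e p x * f x‖ ^ 2 := by
  classical
  have h1 := box_fourier_c f y ℓ hℓ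
  rw [← Finset.add_sum_erase _ _ (Finset.mem_univ (0 : T d L))] at h1
  have h2 : (∏ i, gh (ℓ i) ((0 : T d L) i)) * (e 0 (-y) * ∑ x, e 0 x * f x) =
      ((∏ i, ((ℓ i : ℝ) / L) : ℝ) : ℂ) * ∑ x, f x := by
    have e0 : ∀ x : T d L, e 0 x = 1 := fun x => by rw [e_comm, e_zero]
    simp only [e0, one_mul, Pi.zero_apply, gh_zero]
    push_cast
    ring
  rw [h2] at h1
  have h3 : ∑ x ∈ bx y ℓ, f x - ((∏ i, ((ℓ i : ℝ) / L) : ℝ) : ℂ) * ∑ x, f x =
      ∑ p ∈ Finset.univ.erase (0 : T d L), (∏ i, gh (ℓ i) (p i)) *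
      (e p (-y) * ∑ x, e p x * f x) := by
    rw [h1]
    ring
  rw [h3]
  have h5 : ‖∑ p ∈ Finset.univ.erase (0 : T d L), (∏ i, gh (ℓ i) (p i)) *
      (e p (-y) * ∑ x, e p x * f x)‖ ≤
      ∑ p ∈ Finset.univ.erase (0 : T d L), mm p * ‖∑ x, e p x * f x‖ := by
    refine (norm_sum_le _ _).trans (Finset.sum_le_sum fun p _ => ?_)
    rw [norm_mul, norm_mul, e_norm, one_mul, norm_prod]
    refine mul_le_mul_of_nonneg_right ?_ (norm_nonneg _)
    unfold mm
    exact Finset.prod_le_prod (fun _ _ => norm_nonneg _) fun i _ => gh_le _ (hℓ i) _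
  have h6 := pow_le_pow_left₀ (norm_nonneg _) h5 2
  refine h6.trans ?_
  have h7 := Finset.sum_mul_sq_le_sq_mul_sq (Finset.univ.erase (0 : T d L))
    (fun p => Real.sqrt (mm p)) (fun p => Real.sqrt (mm p) * ‖∑ x, e p x * f x‖)
  have h8 : ∀ p : T d L, Real.sqrt (mm p) * (Real.sqrt (mm p) * ‖∑ x, e p x * f x‖) =
      mm p * ‖∑ x, e p x * f x‖ := by
    intro p
    rw [← mul_assoc, Real.mul_self_sqrt (mm_nonneg p)]
  have h9 : ∀ p : T d L, (Real.sqrt (mm p) * ‖∑ x, e p x * f x‖) ^ 2 =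
      mm p * ‖∑ x, e p x * f x‖ ^ 2 := by
    intro p
    rw [mul_pow, Real.sq_sqrt (mm_nonneg p)]
  simp only [h8, h9, Real.sq_sqrt (mm_nonneg _)] at h7
  refine h7.trans (mul_le_mul_of_nonneg_right ?_ (Finset.sum_nonneg fun p _ =>
    mul_nonneg (mm_nonneg p) (by positivity)))
  refine le_trans ?_ mm_sum
  exact Finset.sum_le_sum_of_subset_of_nonneg (Finset.erase_subset _ _)
    (fun p _ _ => mm_nonneg p)

/-- the matrix elements of boxes and the weights -/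
theorem box_Aj {σ : ℝ} {V : T d L → ℝ} {ψ : T d L → T d L → ℂ} {E : T d L → ℝ}
    (h : EB σ V ψ E) (j k : T d L) (y : T d L) (ℓ : Fin d → ℕ) (hℓ : ∀ i, ℓ i ≤ L) :
    ‖∑ x ∈ bx y ℓ, (starRingEnd ℂ) (ψ k x) * ψ j x -
      (if k = j then ((∏ i, ((ℓ i : ℝ) / L) : ℝ) : ℂ) else 0)‖ ^ 2 ≤
      (2 + Real.log L) ^ d * Aj (ψ j) (ψ k) := by
  classical
  have h1 := box_bound_c (fun x => (starRingEnd ℂ) (ψ k x) * ψ j x) y ℓ hℓ
  have h2 := h.orth k j
  rw [h2] at h1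
  have h3 : ((∏ i, ((ℓ i : ℝ) / L) : ℝ) : ℂ) * (if k = j then (1 : ℂ) else 0) =
      if k = j then ((∏ i, ((ℓ i : ℝ) / L) : ℝ) : ℂ) else 0 := by
    split_ifs <;> simp
  rw [h3] at h1
  refine h1.trans (le_of_eq ?_)
  congr 1
  unfold Aj AA
  rw [sub_sum (fun p : T d L => mm p * ‖∑ x, e p x * (ψ j x * (starRingEnd ℂ) (ψ k x))‖ ^ 2)]
  refine Finset.sum_congr rfl fun p _ => ?_
  congr 3
  exact Finset.sum_congr rfl fun x _ => by ring

end Pool.Agent.Zk11.QE.Od
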