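import Pool.Agent.Zk96.QE.Mcp
import Pool.Agent.Zk11.QE.Od

/-! The passage from averages to eigenfunctions in a short window with the off-diagonal matrix
elements (the proof is that of helper96's `passage_mcd`). -/

set_option autoImplicit false
set_option linter.unusedSectionVars false

open scoped BigOperators Topology
open MeasureTheory Filter

namespace Pool.Agent.Zk11.QE.Od

open Pool.Agent.W788.MFP.Four (T e NN e_comm e_add_left e_add e_zero e_neg e_neg_left
  e_normSq sum_e NN_pos card_T e_single)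
open Pool.Agent.Zk11.QD (Hz HM HM_apply HM_det uu uu_eq uu_norm uu_meas uu_le PL e_norm na)
open Pool.Agent.Zk60.LL.Cau Pool.Agent.Zk60.LL.Det Pool.Agent.Zk60.LL.Prob
open Pool.Agent.Zk96.QE

variable {d L : ℕ} [NeZero L]

/-- **passage from averages to eigenfunctions in a short energy window, with an exponentially
small exceptional set** -/
theorem passage_off (μ : Measure ℝ) [IsProbabilityMeasure μ] (b0 : ℝ) (hb00 : 0 ≤ b0)
    (hb0 : ∀ᵐ s ∂μ, |s| ≤ b0) (s1 s2 w0 b η σ ε y : ℝ)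
    (hw0 : 0 < w0) (hη : 0 < η) (hηD : 2 * η ≤ s2 - s1) (hb : 0 ≤ b)
    (hε : 0 ≤ ε) (hy : 0 ≤ y)
    (h0 : ∀ u : ℝ, s1 - w0 ≤ u → u ≤ s2 + w0 →
      η * ∑ x : T d L, ∫ V, ‖uu ((u : ℂ) + η * Complex.I) σ V x‖ ^ 2 ∂(PL (T d L) μ) ≤ b)
    (hmain : ∀ u : ℝ, s1 - (s2 - s1) ≤ u → u ≤ s2 + (s2 - s1) → ∀ p : T d L, p ≠ 0 →
      ‖(η : ℂ) * ∑ x, e p x *
      ((∫ V, ‖uu ((u : ℂ) + η * Complex.I) σ V x‖ ^ 2 ∂(PL (T d L) μ) : ℝ) : ℂ)‖ ≤ ε) :
    ∃ Bad : Set (T d L → ℝ), MeasurableSet Bad ∧ (PL (T d L) μ).real Bad ≤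
        Real.exp (-(y ^ 2 * η ^ 2 * (Fintype.card (T d L) : ℝ) / 10 ^ 8)) ∧
      ∀ V, V ∉ Bad → ∀ (ψ : T d L → T d L → ℂ) (E : T d L → ℝ), EB σ V ψ E → ∀ t : ℝ, 0 < t →
        ∀ S : Finset (T d L), (∀ j ∈ S, (s1 ≤ E j ∧ E j ≤ s2) ∧
          ∃ (y : T d L) (ℓ : Fin d → ℕ), (∀ i, ℓ i ≤ L) ∧
            t < ∑ k ∈ Finset.univ.filter (fun k => |E k - E j| ≤ η),
              ‖∑ x ∈ bx y ℓ, (starRingEnd ℂ) (ψ k x) * ψ j x -
                (if k = j then ((∏ i, ((ℓ i : ℝ) / L) : ℝ) : ℂ) else 0)‖ ^ 2) →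
        (S.card : ℝ) * t ≤ 7 * (2 + Real.log L) ^ (2 * d) *
          (3 * ε + 1640 * (b + (s2 - s1) / w0 ^ 2) *
          (η / (s2 - s1) * (1 + Real.log ((s2 - s1) / η))) + y) *
          (s2 - s1) * (Fintype.card (T d L) : ℝ) := by
  classical
  set D : ℝ := s2 - s1 with hDdef
  have hD : 0 < D := by linarith
  set c : ℝ := (s1 + s2) / 2 with hc
  have hlog : 0 ≤ Real.log L := Real.log_natCast_nonneg L
  have hlogM : 0 ≤ Real.log (D / η) := by
    apply Real.log_nonneg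
    rw [le_div_iff₀ hη]
    linarith
  set Λ : ℝ := (2 + Real.log L) ^ d with hΛ
  have hΛ1 : 1 ≤ Λ := one_le_pow₀ (by linarith)
  set N : ℝ := (Fintype.card (T d L) : ℝ) with hN
  have hN0 : 0 < N := by
    rw [hN]
    exact_mod_cast Fintype.card_pos
  set A : ℝ := s1 - D with hA
  set B : ℝ := s2 + D with hB
  set s : ℝ := 2 / D with hs
  have hs0 : 0 ≤ s := by positivity
  set φ : ℝ → ℝ := tp A B s with hφ
  have hφc : Continuous φ := tp_cont A B s
  have hφ0 : ∀ u, 0 ≤ φ u := tp_nonneg A B s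
  have hφ1 : ∀ u, φ u ≤ 1 := tp_le A B s
  have hφL : ∀ u v, |φ u - φ v| ≤ 2 / D * |u - v| := tp_lip A B s hs0
  have hsupp0 : ∀ u, u ∉ Set.Icc A B → φ u = 0 := tp_out A B s hs0
  have hsupp : ∀ u, 3 / 2 * D < |u - c| → φ u = 0 := by
    intro u hu
    apply hsupp0
    intro hcon
    have h1 := hcon.1
    have h2 := hcon.2
    have h3 : |u - c| ≤ 3 / 2 * D := by
      rw [abs_le]
      constructor
      · rw [hc]
        linarith
      · rw [hc]
        linarith
    linarith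
  set κ : ℝ := 260 * (η / D * (1 + Real.log (D / η))) with hκ
  have hκ0 : 0 ≤ κ := by positivity
  have hκ1 : κ ≤ 260 := by
    have h1 := Real.log_le_sub_one_of_pos (show 0 < D / η by positivity)
    have h2 : η / D * (1 + Real.log (D / η)) ≤ η / D * (D / η) :=
      mul_le_mul_of_nonneg_left (by linarith) (by positivity)
    have h3 : η / D * (D / η) = 1 := by field_simp
    rw [h3] at h2
    rw [hκ]
    linarith
  have hwin : ∀ a b, -(1 / 2 * (κ * qq D c a) + 1 / 2 * (κ * qq D c b)) ≤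
      ∫ u, φ u * (η * fc η a b u) := fun a b =>
    window_loc φ c D hD hφc hφ0 hφ1 hφL hsupp η hη (by linarith) a b
  have hdia : ∀ a b, s1 ≤ a → a ≤ s2 → |a - b| ≤ η →
      3 / 20 ≤ ∫ u, φ u * (η * fc η a b u) := by
    intro a b ha1 ha2 hab
    refine near_diag φ hφc hφ0 hφ1 η a b hη (fun u hu => ?_) hab
    have h1 := abs_le.1 hu
    refine tp_in A B s u ?_ ?_
    · rw [hs, ← mul_div_assoc, le_div_iff₀ hD]
      linarith [h1.1]
    · rw [hs, ← mul_div_assoc, le_div_iff₀ hD]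
      linarith [h1.2]
  set P : ℝ := 2 * (Real.pi * (D ^ 2 / w0 ^ 2)) * N with hP
  have hlow : ∀ (V : T d L → ℝ) (ψ : T d L → T d L → ℂ) (E : T d L → ℝ), EB σ V ψ E →
      3 / 20 * ∑ j ∈ Finset.univ.filter (fun j => s1 ≤ E j ∧ E j ≤ s2),
        ∑ k ∈ Finset.univ.filter (fun k => |E k - E j| ≤ η), Aj (ψ j) (ψ k) ≤
      FF φ A B η σ V + Λ * κ * (2 * TT D c (s1 - w0) (s2 + w0) η σ V + P) := by
    intro V ψ E h
    have h1 := FF_lower_off h φ hφc A B η s1 s2 hη hsupp0 (fun a => κ * qq D c a)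
      (fun a => mul_nonneg hκ0 (qq_pos D c a hD).le) hwin hdia
    have h2 := TT_lower h D c η w0 (s1 - w0) (s2 + w0) hη hηD hw0 (by rw [hc]; linarith)
      (by rw [hc]; linarith)
    refine h1.trans ?_
    rw [← Finset.mul_sum]
    have h3 : Λ * (κ * ∑ j, qq D c (E j)) ≤
        Λ * (κ * (2 * TT D c (s1 - w0) (s2 + w0) η σ V + P)) :=
      mul_le_mul_of_nonneg_left (mul_le_mul_of_nonneg_left h2 hκ0) (by positivity)
    linarith
  have hAB : A ≤ B := by rw [hA, hB]; linarith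
  obtain ⟨hint, havg⟩ := FF_avg (d := d) (L := L) μ φ hφc hφ0 hφ1 A B η σ ε hAB hη hε
    (fun u h1 h2 p hp => hmain u h1 h2 p hp)
  obtain ⟨tint, tavg⟩ := TT_avg (d := d) (L := L) μ D c (s1 - w0) (s2 + w0) η σ b hD hη hb h0
  set G : (T d L → ℝ) → ℝ := fun V => FF φ A B η σ V +
    Λ * κ * (2 * TT D c (s1 - w0) (s2 + w0) η σ V + P) with hG
  have hpi : Real.pi < 3.15 := Real.pi_lt_d2
  have hpi0 : 0 < Real.pi := Real.pi_pos
  set X : ℝ := 3 * ε + 1640 * (b + D / w0 ^ 2) * (η / D * (1 + Real.log (D / η))) with hX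
  have hX0 : 0 ≤ X := by positivity
  have hGavg : ∫ V, G V ∂(PL (T d L) μ) ≤ N * Λ * D * X := by
    have i2 : Integrable (fun V : T d L → ℝ => 2 * TT D c (s1 - w0) (s2 + w0) η σ V + P)
        (PL (T d L) μ) := (tint.const_mul 2).add (integrable_const _)
    have i3 : Integrable (fun V : T d L → ℝ => Λ * κ *
        (2 * TT D c (s1 - w0) (s2 + w0) η σ V + P)) (PL (T d L) μ) := i2.const_mul _
    have e1 : ∫ V, G V ∂(PL (T d L) μ) = ∫ V, FF φ A B η σ V ∂(PL (T d L) μ) +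
        Λ * κ * (2 * ∫ V, TT D c (s1 - w0) (s2 + w0) η σ V ∂(PL (T d L) μ) + P) := by
      rw [hG, integral_add hint i3, integral_const_mul,
        integral_add (tint.const_mul 2) (integrable_const _),
        integral_const_mul, integral_const, probReal_univ, one_smul]
    rw [e1]
    have h1 : N * Λ * (ε * (B - A)) = N * Λ * D * (3 * ε) := by
      rw [hA, hB]
      have : s2 + D - (s1 - D) = 3 * D := by rw [hDdef]; ring
      rw [this]
      ring
    have h2 : 2 * (N * b * (Real.pi * D)) + P = 2 * Real.pi * (N * D * (b + D / w0 ^ 2)) := by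
      rw [hP]
      ring
    have h3 : 2 * ∫ V, TT D c (s1 - w0) (s2 + w0) η σ V ∂(PL (T d L) μ) + P ≤
        2 * (N * b * (Real.pi * D)) + P := by linarith
    rw [h2] at h3
    have h4 : Λ * κ * (2 * ∫ V, TT D c (s1 - w0) (s2 + w0) η σ V ∂(PL (T d L) μ) + P) ≤
        Λ * κ * (2 * Real.pi * (N * D * (b + D / w0 ^ 2))) :=
      mul_le_mul_of_nonneg_left h3 (by positivity)
    have h5 : Λ * κ * (2 * Real.pi * (N * D * (b + D / w0 ^ 2))) =
        (520 * Real.pi) * (N * Λ * D * ((b + D / w0 ^ 2) *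
          (η / D * (1 + Real.log (D / η))))) := by
      rw [hκ]
      ring
    have h6 : 0 ≤ N * Λ * D * ((b + D / w0 ^ 2) * (η / D * (1 + Real.log (D / η)))) := by
      positivity
    have h7 : (520 * Real.pi) * (N * Λ * D * ((b + D / w0 ^ 2) *
          (η / D * (1 + Real.log (D / η))))) ≤ 1640 * (N * Λ * D * ((b + D / w0 ^ 2) *
          (η / D * (1 + Real.log (D / η))))) :=
      mul_le_mul_of_nonneg_right (by linarith) h6
    have h8 := havg
    rw [h1] at h8
    have h9 : N * Λ * D * X = N * Λ * D * (3 * ε) + 1640 * (N * Λ * D * ((b + D / w0 ^ 2) *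
          (η / D * (1 + Real.log (D / η))))) := by
      rw [hX]
      ring
    rw [h9]
    linarith
  -- bounded differences
  have hmeas : Measurable G := (FF_meas φ hφc A B η σ hη).add
      ((((TT_meas D c (s1 - w0) (s2 + w0) η σ hD hη).const_mul 2).add_const _).const_mul _)
  have hBdd : ∃ C : ℝ, ∀ V, |G V| ≤ C := by
    refine ⟨(η * ∑ x : T d L, ∑ y : T d L, |KK (x - y)| * (1 / η ^ 2)) * (B - A) +
      Λ * κ * (2 * ((η * ∑ x : T d L, ∑ y : T d L, |(1 : ℝ)| * (1 / η ^ 2)) *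
        ((s2 + w0) - (s1 - w0))) + P), fun V => ?_⟩
    have h1 : |FF φ A B η σ V| ≤ _ := int_bdd φ hφ0 hφ1 KK A B η σ hAB hη V
    have h2 : |TT D c (s1 - w0) (s2 + w0) η σ V| ≤ _ :=
      int_bdd (qq D c) (fun u => (qq_pos D c u hD).le) (fun u => qq_le D c u hD)
        (fun _ => 1) (s1 - w0) (s2 + w0) η σ (by linarith) hη V
    have hP0 : 0 ≤ P := by positivity
    refine (abs_add_le _ _).trans (add_le_add h1 ?_)
    rw [abs_mul, abs_of_nonneg (mul_nonneg (by linarith : (0:ℝ) ≤ Λ) hκ0)]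
    refine mul_le_mul_of_nonneg_left ?_ (mul_nonneg (by linarith) hκ0)
    refine (abs_add_le _ _).trans (add_le_add ?_ (le_of_eq (abs_of_nonneg hP0)))
    rw [abs_mul, abs_of_pos (by norm_num : (0:ℝ) < 2)]
    exact mul_le_mul_of_nonneg_left h2 (by norm_num)
  obtain ⟨C, hC⟩ := hBdd
  set Bd : ℝ := 3300 * (D * Λ / η) with hBd
  have hBd0 : 0 < Bd := by positivity
  have hdiff : ∀ (V : T d L → ℝ) (v : T d L) (s' : ℝ), (∀ x, |V x| ≤ b0) → |s'| ≤ b0 →
      |G V - G (Function.update V v s')| ≤ Bd := by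
    intro V v s' _ _
    have h1 : |FF φ A B η σ V - FF φ A B η σ (Function.update V v s')| ≤
        (∑ p : {p : T d L // p ≠ 0}, mm p.1) * (2 / η) * ∫ u, φ u :=
      int_diff φ hφc hφ0 (tp_int A B s hs0).integrableOn (fun p : {p : T d L // p ≠ 0} => p.1)
        (fun p => mm p.1) (fun p => mm_nonneg p.1) KK KK_eq A B η σ hη V v s'
    have h2 : |TT D c (s1 - w0) (s2 + w0) η σ V -
        TT D c (s1 - w0) (s2 + w0) η σ (Function.update V v s')| ≤
        (∑ _q : Unit, (1 : ℝ)) * (2 / η) * ∫ u, qq D c u :=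
      int_diff (qq D c) (qq_cont D c hD) (fun u => (qq_pos D c u hD).le)
        (qq_int D c hD).integrableOn (fun _ : Unit => (0 : T d L))
        (fun _ => 1) (fun _ => zero_le_one) (fun _ => 1) (by
          intro x
          simp only [Finset.univ_unique, Finset.sum_singleton, Complex.ofReal_one, one_mul]
          rw [e_comm, e_zero]) (s1 - w0) (s2 + w0) η σ hη V v s'
    rw [qq_val D c hD] at h2
    simp only [Finset.univ_unique, Finset.sum_singleton, one_mul] at h2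
    have h3 : (∑ p : {p : T d L // p ≠ 0}, mm p.1) * (2 / η) * ∫ u, φ u ≤
        Λ * (2 / η) * (3 * D) := by
      have h4 := tp_val A B s hs0 hAB
      have h5 : B - A = 3 * D := by rw [hA, hB]; simp only [hDdef]; ring
      rw [h5] at h4
      have h6 : 0 ≤ ∫ u, φ u := integral_nonneg hφ0
      have h7 : 0 ≤ ∑ p : {p : T d L // p ≠ 0}, mm p.1 := Finset.sum_nonneg fun p _ => mm_nonneg p.1
      refine mul_le_mul (mul_le_mul_of_nonneg_right w_sum (by positivity)) h4 h6 (by positivity)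
    have h4 : G V - G (Function.update V v s') = (FF φ A B η σ V -
        FF φ A B η σ (Function.update V v s')) + Λ * κ * (2 * (TT D c (s1 - w0) (s2 + w0) η σ V -
        TT D c (s1 - w0) (s2 + w0) η σ (Function.update V v s'))) := by
      rw [hG]
      ring
    rw [h4]
    refine (abs_add_le _ _).trans ?_
    rw [abs_mul, abs_of_nonneg (mul_nonneg (by linarith : (0:ℝ) ≤ Λ) hκ0), abs_mul,
      abs_of_pos (by norm_num : (0:ℝ) < 2)]
    have h5 : Λ * κ * (2 * |TT D c (s1 - w0) (s2 + w0) η σ V -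
        TT D c (s1 - w0) (s2 + w0) η σ (Function.update V v s')|) ≤
        Λ * 260 * (2 * (2 / η * (Real.pi * D))) := by
      refine mul_le_mul (mul_le_mul_of_nonneg_left hκ1 (by linarith))
        (mul_le_mul_of_nonneg_left h2 (by norm_num)) (by positivity) (by positivity)
    have h6 : Λ * 260 * (2 * (2 / η * (Real.pi * D))) = 1040 * Real.pi * (D * Λ / η) := by ring
    have h7 : Λ * (2 / η) * (3 * D) = 6 * (D * Λ / η) := by ring
    have h8 : 0 ≤ D * Λ / η := by positivity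
    have h9 : 1040 * Real.pi * (D * Λ / η) ≤ 3276 * (D * Λ / η) :=
      mul_le_mul_of_nonneg_right (by linarith) h8
    rw [hBd]
    linarith
  have hmc := Pool.Agent.Zk60.LL.Mcd.mcd_up (T := T d L) μ b0 hb00 hb0 G hmeas C Bd hC hBd0 hdiff
    (N * Λ * D * y) (by positivity)
  refine ⟨{V | (∫ V, G V ∂(PL (T d L) μ)) + N * Λ * D * y ≤ G V},
    measurableSet_le measurable_const hmeas, ?_, ?_⟩
  · refine hmc.trans ?_
    rw [Real.exp_le_exp]
    have h1 : -(N * Λ * D * y) ^ 2 / (8 * Bd ^ 2 * N) = -(y ^ 2 * η ^ 2 * N) / 87120000 := by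
      rw [hBd]
      field_simp
      ring
    rw [h1]
    have h2 : 0 ≤ y ^ 2 * η ^ 2 * N := by positivity
    rw [neg_div, neg_le_neg_iff]
    rw [div_le_div_iff₀ (by norm_num) (by norm_num)]
    nlinarith
  · intro V hV ψ E h t ht S hS
    have hV' : G V < (∫ V, G V ∂(PL (T d L) μ)) + N * Λ * D * y := by
      by_contra hc
      push Not at hc
      exact hV hc
    have hV2 : G V ≤ N * Λ * D * (X + y) := by
      have : N * Λ * D * (X + y) = N * Λ * D * X + N * Λ * D * y := by ring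
      rw [this]
      linarith
    have h1 := hlow V ψ E h
    have h2 : ∀ j ∈ S, t ≤ Λ * ∑ k ∈ Finset.univ.filter (fun k => |E k - E j| ≤ η),
        Aj (ψ j) (ψ k) := by
      intro j hj
      obtain ⟨-, y, ℓ, hℓ, hbox⟩ := hS j hj
      refine hbox.le.trans ?_
      rw [Finset.mul_sum]
      exact Finset.sum_le_sum fun k _ => box_Aj h j k y ℓ hℓ
    have h3 : (S.card : ℝ) * t ≤ Λ * ∑ j ∈ S,
        ∑ k ∈ Finset.univ.filter (fun k => |E k - E j| ≤ η), Aj (ψ j) (ψ k) := by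
      rw [← nsmul_eq_mul, ← Finset.sum_const, Finset.mul_sum]
      exact Finset.sum_le_sum h2
    have h4 : ∑ j ∈ S, ∑ k ∈ Finset.univ.filter (fun k => |E k - E j| ≤ η), Aj (ψ j) (ψ k) ≤
        ∑ j ∈ Finset.univ.filter (fun j => s1 ≤ E j ∧ E j ≤ s2),
        ∑ k ∈ Finset.univ.filter (fun k => |E k - E j| ≤ η), Aj (ψ j) (ψ k) := by
      refine Finset.sum_le_sum_of_subset_of_nonneg ?_
        (fun j _ _ => Finset.sum_nonneg fun k _ => Aj_nonneg _ _)
      intro j hj
      exact Finset.mem_filter.2 ⟨Finset.mem_univ _, (hS j hj).1⟩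
    have h5 : ∑ j ∈ Finset.univ.filter (fun j => s1 ≤ E j ∧ E j ≤ s2),
        ∑ k ∈ Finset.univ.filter (fun k => |E k - E j| ≤ η), Aj (ψ j) (ψ k) ≤
        7 * (N * Λ * D * (X + y)) := by
      have h7 : G V = FF φ A B η σ V +
        Λ * κ * (2 * TT D c (s1 - w0) (s2 + w0) η σ V + P) := rfl
      have h8 : 0 ≤ N * Λ * D * (X + y) := by positivity
      linarith
    have h6 : (S.card : ℝ) * t ≤ Λ * (7 * (N * Λ * D * (X + y))) :=
      h3.trans (mul_le_mul_of_nonneg_left (h4.trans h5) (by positivity))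
    have h8 : (2 + Real.log L) ^ (2 * d) = Λ ^ 2 := by
      rw [hΛ, ← pow_mul, mul_comm]
    rw [h8]
    refine h6.trans (le_of_eq ?_)
    ring

end Pool.Agent.Zk11.QE.Od
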