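import Pool.Agent.Zk11.QE.Uo

/-! The uniform bound with a lower bound for the density of states. -/

set_option autoImplicit false
set_option linter.unusedSectionVars false

open scoped BigOperators Topology ENNReal
open MeasureTheory Filter

namespace Pool.Agent.Zk11.QE

open Pool.Agent.Zk11.QD
open Pool.Agent.W788.MFP.Four (T e NN adj adj_neg e_comm e_add_left e_add e_zero e_neg e_neg_left
  e_normSq sum_e NN_pos card_T e_single)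

variable {d : ℕ} {κ c0 B0 δ1 b c C θ cL C4 B K cl : ℝ} {L : ℕ} [NeZero L] {σ E : ℝ} {m : ℂ}

/-- the main term at zero momentum from below -/
theorem Pt.lo (h : Pt d L κ c0 B0 δ1 b c C θ cL C4 B K cl σ E m) (τ : ℝ)
    (hτ : |τ ^ 2 - σ ^ 2| ≤ C * σ ^ 3) :
    4 / 5 * c0 ≤ ‖((σ ^ (2 + κ) : ℝ) : ℂ) * (tt (zp E σ κ) σ m (0 : T d L) /
      (1 - τ ^ 2 * tt (zp E σ κ) σ m (0 : T d L)))‖ := by
  have hσ := h.sm.σ0
  have hη0 : 0 < σ ^ (2 + κ) := Real.rpow_pos_of_pos hσ _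
  obtain ⟨t1, t2, t3, t4⟩ := h.tau τ hτ
  have hmd : MD d L (zp E σ κ) σ m := h.md
  have hss : 0 < ss (zp E σ κ) σ m := ss_pos hmd
  have hmi0 := hmd.mim
  have hms := h.ms.trans h.cs.BB
  have hτ0 : 0 < τ ^ 2 := lt_of_lt_of_le (by positivity) t2
  have hτc : ((τ : ℂ) ^ 2) ≠ 0 := by
    intro hcon
    have : (τ ^ 2 : ℝ) = 0 := by exact_mod_cast hcon
    linarith
  -- the value of tt at zero
  have e1 : (τ : ℂ) ^ 2 * tt (zp E σ κ) σ m (0 : T d L) =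
      ((τ ^ 2 * (m.im / ss (zp E σ κ) σ m) : ℝ) : ℂ) := by
    rw [← Tn_sum hmd τ, ← Tn_tt, Complex.ofReal_sum]
    refine Finset.sum_congr rfl fun x _ => ?_
    rw [e_zero_left, one_mul]
  have e2 : tt (zp E σ κ) σ m (0 : T d L) = ((m.im / ss (zp E σ κ) σ m : ℝ) : ℂ) := by
    have h1 : (τ : ℂ) ^ 2 * tt (zp E σ κ) σ m (0 : T d L) =
        (τ : ℂ) ^ 2 * ((m.im / ss (zp E σ κ) σ m : ℝ) : ℂ) := by
      rw [e1]
      push_cast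
      ring
    exact mul_left_cancel₀ hτc h1
  have hden : 0 < 1 - τ ^ 2 * (m.im / ss (zp E σ κ) σ m) :=
    lt_of_lt_of_le (by positivity) t3
  have e3 : ((σ ^ (2 + κ) : ℝ) : ℂ) * (tt (zp E σ κ) σ m (0 : T d L) /
      (1 - τ ^ 2 * tt (zp E σ κ) σ m (0 : T d L))) =
      ((σ ^ (2 + κ) * (m.im / ss (zp E σ κ) σ m / (1 - τ ^ 2 * (m.im / ss (zp E σ κ) σ m))) : ℝ) : ℂ) := by
    rw [e2]
    push_cast
    ring
  rw [e3, Complex.norm_real, Real.norm_eq_abs, abs_of_pos (by positivity)]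
  have e4 : σ ^ (2 + κ) * (m.im / ss (zp E σ κ) σ m / (1 - τ ^ 2 * (m.im / ss (zp E σ κ) σ m))) =
      σ ^ (2 + κ) * m.im / (ss (zp E σ κ) σ m - τ ^ 2 * m.im) := by
    have h1 : ss (zp E σ κ) σ m - τ ^ 2 * m.im ≠ 0 := by
      have : ss (zp E σ κ) σ m - τ ^ 2 * m.im =
          ss (zp E σ κ) σ m * (1 - τ ^ 2 * (m.im / ss (zp E σ κ) σ m)) := by
        field_simp
      rw [this]
      positivity
    have h2 : 1 - τ ^ 2 * (m.im / ss (zp E σ κ) σ m) =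
        (ss (zp E σ κ) σ m - τ ^ 2 * m.im) / ss (zp E σ κ) σ m := by
      field_simp
    rw [h2]
    field_simp
  rw [e4]
  have hD0 : 0 < ss (zp E σ κ) σ m - τ ^ 2 * m.im := by
    have : ss (zp E σ κ) σ m - τ ^ 2 * m.im =
        ss (zp E σ κ) σ m * (1 - τ ^ 2 * (m.im / ss (zp E σ κ) σ m)) := by
      field_simp
    rw [this]
    positivity
  have hC0 : 0 ≤ C := by
    rw [h.cs.hC]
    have : 0 ≤ c := by linarith [h.cs.c1, h.cs.b1]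
    positivity
  have hCB3 : C * σ ^ 3 * m.im ≤ σ ^ (2 + κ) / 4 := by
    have f1 : σ ^ 3 = σ ^ (1 - κ) * σ ^ (2 + κ) := by
      rw [← Real.rpow_natCast, ← Real.rpow_add hσ]
      congr 1
      push_cast
      ring
    have f2 := h.sm.q1
    have f3 : 0 ≤ σ ^ (1 - κ) := by positivity
    calc C * σ ^ 3 * m.im ≤ C * σ ^ 3 * B := by
          refine mul_le_mul_of_nonneg_left hms (by positivity)
      _ = (4 * C * B * σ ^ (1 - κ)) * (σ ^ (2 + κ) / 4) := by rw [f1]; ring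
      _ ≤ 1 * (σ ^ (2 + κ) / 4) := mul_le_mul_of_nonneg_right f2 (by positivity)
      _ = _ := one_mul _
  have hD1 : ss (zp E σ κ) σ m - τ ^ 2 * m.im ≤ 5 / 4 * σ ^ (2 + κ) := by
    rw [h.ssd]
    have g1 : σ ^ 2 - C * σ ^ 3 ≤ τ ^ 2 := by
      have := (abs_le.1 hτ).1
      linarith
    have g2 := mul_le_mul_of_nonneg_right g1 hmi0.le
    linarith
  rw [le_div_iff₀ hD0]
  have hmi := h.mi
  have hc0 := h.cs.c00
  calc 4 / 5 * c0 * (ss (zp E σ κ) σ m - τ ^ 2 * m.im) ≤ 4 / 5 * c0 * (5 / 4 * σ ^ (2 + κ)) := by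
        gcongr
    _ = σ ^ (2 + κ) * c0 := by ring
    _ ≤ σ ^ (2 + κ) * m.im := mul_le_mul_of_nonneg_left hmi hη0.le

/-- the lower bound at one coupling -/
theorem Pt.low (h : Pt d L κ c0 B0 δ1 b c C θ cL C4 B K cl σ E m) (μ : Measure ℝ)
    [IsProbabilityMeasure μ] (hμb : ∀ᵐ s ∂μ, |s| ≤ b) (hμ1 : ∫ s, s ∂μ = 0)
    (hμ2 : ∫ s, s ^ 2 ∂μ = 1) :
    4 / 5 * c0 - (4 * B + 3 * 10 ^ 26 * B ^ 17) * σ ^ ((1 - 2 * κ) / 20) ≤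
      σ ^ (2 + κ) * ∑ x : T d L, ∫ V, ‖uu (zp E σ κ) σ V x‖ ^ 2 ∂(PL (T d L) μ) := by
  have hσ := h.sm.σ0
  have hη0 : 0 < σ ^ (2 + κ) := Real.rpow_pos_of_pos hσ _
  have hb1 := h.cs.b1
  have hB01 := h.cs.B01
  have hmB := h.mB
  have hcc := h.cs.hc
  obtain ⟨τ, hh, hsit⟩ := site_aux μ b c σ m hb1 h.cs.c1
    (by rw [hcc]; nlinarith [norm_nonneg m])
    (by rw [hcc]; nlinarith [norm_nonneg m]) hσ h.sm.cσ hμb hμ1 hμ2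
  rw [← h.cs.hC] at hsit
  have h1 := h.err μ τ hh hsit 0
  have hmain := h.lo τ hsit.τσ
  simp only [e_zero_left, one_mul] at h1
  have h6 : ‖((σ ^ (2 + κ) : ℝ) : ℂ) * ∑ x : T d L,
      ((∫ V, ‖uu (zp E σ κ) σ V x‖ ^ 2 ∂(PL (T d L) μ) : ℝ) : ℂ)‖ =
      σ ^ (2 + κ) * ∑ x : T d L, ∫ V, ‖uu (zp E σ κ) σ V x‖ ^ 2 ∂(PL (T d L) μ) := by
    rw [← Complex.ofReal_sum, ← Complex.ofReal_mul, Complex.norm_real, Real.norm_eq_abs,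
      abs_of_nonneg]
    refine mul_nonneg hη0.le (Finset.sum_nonneg fun x _ => integral_nonneg fun V => by positivity)
  have h7 := norm_sub_norm_le (((σ ^ (2 + κ) : ℝ) : ℂ) * (tt (zp E σ κ) σ m (0 : T d L) /
      (1 - τ ^ 2 * tt (zp E σ κ) σ m (0 : T d L)))) (((σ ^ (2 + κ) : ℝ) : ℂ) * ∑ x : T d L,
      ((∫ V, ‖uu (zp E σ κ) σ V x‖ ^ 2 ∂(PL (T d L) μ) : ℝ) : ℂ))
  rw [norm_sub_rev, h6] at h7
  linarith

/-- **the uniform bounds** -/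
theorem unif2 (hd : 3 ≤ d) (E1 E2 : ℝ) (hE1 : 0 < E1) (hE2 : E2 < 4 * d) (b : ℝ) (κ : ℝ)
    (hκ0 : 0 < κ) (hκ1 : κ < 1 / 2) :
    ∃ A K δ a0 : ℝ, 0 < A ∧ 0 < K ∧ 0 < δ ∧ δ ≤ 1 ∧ 0 < a0 ∧ ∀ (μ : Measure ℝ)
      [IsProbabilityMeasure μ],
      (∀ᵐ s ∂μ, |s| ≤ b) → ∫ s, s ∂μ = 0 → ∫ s, s ^ 2 ∂μ = 1 → ∀ E : ℝ, E1 ≤ E → E ≤ E2 →
      ∀ σ : ℝ, 0 < σ → σ < δ → ∀ (L : ℕ) [NeZero L], K * (1 / σ) ^ 2 * Real.log (1 / σ) ≤ L →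
      (L : ℝ) * σ ^ 3 ≤ 1 →
      (∀ p : T d L, p ≠ 0 → ‖((σ ^ (2 + κ) : ℝ) : ℂ) * ∑ x, e p x *
        ((∫ V, ‖uu (zp E σ κ) σ V x‖ ^ 2 ∂(PL (T d L) μ) : ℝ) : ℂ)‖ ≤
        A * (σ ^ κ * (1 + Real.log (1 / σ)) ^ 6 * (1 + L * σ ^ 2) ^ 2 + σ ^ ((1 - 2 * κ) / 20))) ∧
      σ ^ (2 + κ) * ∑ x : T d L, ∫ V, ‖uu (zp E σ κ) σ V x‖ ^ 2 ∂(PL (T d L) μ) ≤ A ∧
      a0 ≤ σ ^ (2 + κ) * ∑ x : T d L, ∫ V, ‖uu (zp E σ κ) σ V x‖ ^ 2 ∂(PL (T d L) μ) := by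
  obtain ⟨c0, B0, δ1, hc0, hc01, hB01, hδ1, hmd⟩ := md_ex hd E1 E2 hE1 hE2
  obtain ⟨b', hb'⟩ : ∃ b' : ℝ, b' = max b 1 := ⟨_, rfl⟩
  obtain ⟨c, hc⟩ : ∃ c : ℝ, c = b' * (B0 + 1) := ⟨_, rfl⟩
  obtain ⟨C, hC⟩ : ∃ C : ℝ, C = 100 * c ^ 3 := ⟨_, rfl⟩
  obtain ⟨θ, hθ⟩ : ∃ θ : ℝ, θ = (1 - 2 * κ) / 10 := ⟨_, rfl⟩
  obtain ⟨cL, hcL⟩ : ∃ cL : ℝ, cL = 1 + Real.log (1 / c0) + 2 / θ := ⟨_, rfl⟩
  obtain ⟨C4, hC4⟩ : ∃ C4 : ℝ, C4 = B0 ^ 4 + 10 * d * B0 + d * (8 * 10 ^ 18) := ⟨_, rfl⟩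
  obtain ⟨B, hB⟩ : ∃ B : ℝ, B = 1 + B0 + 1 / c0 + C + C4 * cL ^ 3 + 1 / θ := ⟨_, rfl⟩
  obtain ⟨cl, hcl⟩ : ∃ cl : ℝ, cl = 3 + Real.log (1 / c0) := ⟨_, rfl⟩
  obtain ⟨K, hK⟩ : ∃ K : ℝ, K = 7000 * cl / c0 := ⟨_, rfl⟩
  have hb'1 : 1 ≤ b' := by rw [hb']; exact le_max_right _ _
  have hlc0 : 0 ≤ Real.log (1 / c0) := Real.log_nonneg (by rw [le_div_iff₀ hc0]; linarith)
  have hθ0 : 0 < θ := by rw [hθ]; linarith
  have hcL0 : 0 ≤ cL := by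
    rw [hcL]
    have : 0 < 2 / θ := by positivity
    linarith
  have hC40 : 0 ≤ C4 := by
    rw [hC4]
    have : 0 ≤ B0 := by linarith
    positivity
  have hcL3 : 0 ≤ C4 * cL ^ 3 := by positivity
  have h1c0 : 0 < 1 / c0 := by positivity
  have h1θ : 0 < 1 / θ := by positivity
  have hC0 : 0 ≤ C := by
    rw [hC, hc]
    have : 0 ≤ B0 := by linarith
    positivity
  have hcst : Cst d κ c0 B0 δ1 b' c C θ cL C4 B K cl :=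
    { hd := hd
      κ0 := hκ0
      κ1 := hκ1
      c00 := hc0
      c01 := hc01
      B01 := hB01
      δ10 := hδ1
      b1 := hb'1
      hc := hc
      hC := hC
      hθ := hθ
      hcL := hcL
      hC4 := hC4
      B1 := by rw [hB]; linarith
      BB := by rw [hB]; linarith
      Bc := by rw [hB]; linarith
      BC := by rw [hB]; linarith
      B4 := by rw [hB]; linarith
      Bθ := by rw [hB]; linarith
      hcl := hcl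
      hK := hK }
  obtain ⟨δ2, hδ2, hsm⟩ := sm_ev κ c0 B0 δ1 c C B θ hκ0 hκ1 hc0 hδ1 hθ0
  have hBp : 0 < B := by linarith [hcst.B1]
  have hcl0 : 0 < cl := by rw [hcl]; linarith
  -- the smallness for the lower bound
  obtain ⟨Q, hQ⟩ : ∃ Q : ℝ, Q = 4 * B + 3 * 10 ^ 26 * B ^ 17 := ⟨_, rfl⟩
  have hQ0 : 0 < Q := by rw [hQ]; positivity
  obtain ⟨a, ha⟩ : ∃ a : ℝ, a = (1 - 2 * κ) / 20 := ⟨_, rfl⟩
  have ha0 : 0 < a := by rw [ha]; linarith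
  obtain ⟨δ3, hδ3d⟩ : ∃ δ3 : ℝ, δ3 = (c0 / (5 * Q)) ^ (1 / a) := ⟨_, rfl⟩
  have hδ3 : 0 < δ3 := by rw [hδ3d]; positivity
  refine ⟨16 * (10 ^ 11 * B) ^ 2 * cl ^ 6 + (4 * B + 3 * 10 ^ 26 * B ^ 17) + 2 * B, K,
    min (min δ2 1) δ3, 3 / 5 * c0,
    by positivity, by rw [hK]; positivity, lt_min (lt_min hδ2 one_pos) hδ3,
    (min_le_left _ _).trans (min_le_right _ _), by positivity, ?_⟩
  intro μ _ hμb hμ1 hμ2 E ha hb σ hσ0 hσδ L _ hL hLσ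
  have hS := hsm σ hσ0 (hσδ.trans_le ((min_le_left _ _).trans (min_le_left _ _)))
  have hη0 : 0 < σ ^ (2 + κ) := Real.rpow_pos_of_pos hσ0 _
  have hcut := cut_pt hcst hS hL
  obtain ⟨m, hMD, hmi, hmB0⟩ := hmd L E ha hb (zp E σ κ) (by rw [zp_im]; exact hη0) (by
    have e1 : zp E σ κ - E = ((σ ^ (2 + κ) : ℝ) : ℂ) * Complex.I := by unfold zp; ring
    rw [e1, norm_mul, Complex.norm_I, mul_one, Complex.norm_real, Real.norm_eq_abs,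
      abs_of_pos hη0]
    exact ((eta_le hσ0 hS.σ1 hκ0).trans (sq_le_self hσ0 hS.σ1)).trans hS.σδ) σ hσ0 hS.σδ _ hcut
  have hPt : Pt d L κ c0 B0 δ1 b' c C θ cL C4 B K cl σ E m :=
    { cs := hcst
      sm := hS
      hL := hL
      hLσ := hLσ
      md := hMD
      mi := hmi
      mB := hmB0 }
  have hμb' : ∀ᵐ s ∂μ, |s| ≤ b' := hμb.mono fun s hs => hs.trans (by rw [hb']; exact le_max_left _ _)
  obtain ⟨r1, r2⟩ := hPt.fin μ hμb' hμ1 hμ2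
  refine ⟨r1, r2, ?_⟩
  have r3 := hPt.low μ hμb' hμ1 hμ2
  refine le_trans ?_ r3
  rw [← hQ]
  have hσa : σ ^ ((1 - 2 * κ) / 20) ≤ c0 / (5 * Q) := by
    have h1 : σ ≤ δ3 := hσδ.le.trans (min_le_right _ _)
    have ha' : 0 < (1 - 2 * κ) / 20 := by linarith
    have hae : a = (1 - 2 * κ) / 20 := by assumption
    rw [← hae] at ha' ⊢
    have h2 : σ ^ a ≤ δ3 ^ a := Real.rpow_le_rpow hσ0.le h1 ha'.le
    rw [hδ3d, ← Real.rpow_mul (by positivity), one_div_mul_cancel ha'.ne', Real.rpow_one] at h2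
    exact h2
  have h4 : Q * σ ^ ((1 - 2 * κ) / 20) ≤ c0 / 5 := by
    calc Q * σ ^ ((1 - 2 * κ) / 20) ≤ Q * (c0 / (5 * Q)) := mul_le_mul_of_nonneg_left hσa hQ0.le
      _ = c0 / 5 := by field_simp
  linarith

end Pool.Agent.Zk11.QE
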