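import Pool.Agent.Zk11.QE.Fj
import Pool.Agent.Zk11.QE.Uq
import Pool.Agent.Zk11.QE.Ct
import Pool.Agent.Zk11.QE.Mo

/-! Quantum ergodicity in short windows, with overwhelming probability. -/

set_option autoImplicit false
set_option linter.unusedSectionVars false

open scoped BigOperators Topology ENNReal
open MeasureTheory Filter

namespace Pool.Agent.Zk11.QE

open Pool.Agent.Zk11.QD
open Pool.Agent.W788.MFP.Four (T e NN adj adj_neg e_comm e_add_left e_add e_zero e_neg e_neg_left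
  e_normSq sum_e NN_pos card_T e_single)
open Pool.Agent.Zk60.LL.Det (EB)
open Pool.Agent.Zk96.QE (bx)

variable {d : ℕ}

/-- the size of the Fourier transform -/
theorem Sl.eps2 {b v0 q w0 D δ C2 lam : ℝ} (h : Sl d b v0 q w0 D δ C2 lam) (hv0 : 0 < v0)
    (hD : 1 ≤ D) (v : ℝ) (hv1 : Real.sqrt v0 ≤ v) (hv2 : v ≤ D) (M κ β : ℝ) (hM0 : 0 ≤ M)
    (hq : 0 < q) (hMq : M + 2 * q ≤ 1 / 2) (hκ : κ = M + q) (hβM : β - 2 ≤ M / 2) (L : ℕ)
    (hL : (L : ℝ) ≤ lam ^ (-β)) (A : ℝ) (hA : 0 < A) (hδ1 : δ ≤ 1) :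
    A * ((lam * v) ^ κ * (1 + Real.log (1 / (lam * v))) ^ 6 * (1 + L * (lam * v) ^ 2) ^ 2 +
      (lam * v) ^ ((1 - 2 * κ) / 20)) ≤
      A * (D ^ 3 * (729 * (1 + D ^ 2) ^ 2 + 1)) * Real.log (1 / lam) ^ 6 * lam ^ (q / 10) := by
  have h0 := h.p0
  have h1 := h.l1
  have hl := h.l2
  obtain ⟨s1, s2, s3, s4⟩ := h.sig hv0 hD v hv1 hv2
  have hκ0 : 0 ≤ κ := by rw [hκ]; linarith
  have hκ1 : κ ≤ 3 := by rw [hκ]; linarith
  have e1 := s4 κ hκ0 hκ1
  have e2 : q / 10 ≤ (1 - 2 * κ) / 20 := by rw [hκ]; linarith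
  have e3 := s4 (q / 10) (by positivity) (by linarith)
  have e3' : (lam * v) ^ ((1 - 2 * κ) / 20) ≤ (lam * v) ^ (q / 10) :=
    Real.rpow_le_rpow_of_exponent_ge s1 (by linarith) e2
  have hlσ : 0 ≤ Real.log (1 / (lam * v)) := Real.log_nonneg (by
    rw [le_div_iff₀ s1]
    linarith)
  have e4 : 1 + Real.log (1 / (lam * v)) ≤ 3 * Real.log (1 / lam) := by linarith
  have e5 : 1 + (L : ℝ) * (lam * v) ^ 2 ≤ (1 + D ^ 2) * lam ^ (-(M / 2)) := by
    have g1 : (L : ℝ) * (lam * v) ^ 2 ≤ D ^ 2 * lam ^ (-(M / 2)) := by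
      have g2 : (lam * v) ^ 2 ≤ D ^ 2 * lam ^ (2 : ℝ) := by
        have hs : 0 < Real.sqrt v0 := Real.sqrt_pos.2 hv0
        have hv0' : 0 ≤ v := by linarith
        rw [mul_pow, mul_comm]
        have : lam ^ (2 : ℝ) = lam ^ 2 := by rw [← Real.rpow_natCast]; norm_num
        rw [this]
        gcongr
      calc (L : ℝ) * (lam * v) ^ 2 ≤ lam ^ (-β) * (D ^ 2 * lam ^ (2 : ℝ)) :=
            mul_le_mul hL g2 (by positivity) (by positivity)
        _ = D ^ 2 * lam ^ (2 - β) := by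
            rw [mul_left_comm, ← Real.rpow_add h0]
            congr 2
            ring
        _ ≤ D ^ 2 * lam ^ (-(M / 2)) := by
            refine mul_le_mul_of_nonneg_left ?_ (by positivity)
            exact Real.rpow_le_rpow_of_exponent_ge h0 h1 (by linarith)
    have g3 : 1 ≤ lam ^ (-(M / 2)) := by
      rw [Real.rpow_neg h0.le]
      exact (one_le_inv₀ (Real.rpow_pos_of_pos h0 _)).2 (Real.rpow_le_one h0.le h1 (by linarith))
    linarith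
  have hp : 0 < lam ^ (-(M / 2)) := Real.rpow_pos_of_pos h0 _
  have hpk : 0 < lam ^ κ := Real.rpow_pos_of_pos h0 _
  have e6 : (lam * v) ^ κ * (1 + Real.log (1 / (lam * v))) ^ 6 * (1 + L * (lam * v) ^ 2) ^ 2 ≤
      D ^ 3 * (729 * (1 + D ^ 2) ^ 2) * Real.log (1 / lam) ^ 6 * lam ^ (q / 10) := by
    calc _ ≤ (D ^ 3 * lam ^ κ) * (3 * Real.log (1 / lam)) ^ 6 *
          ((1 + D ^ 2) * lam ^ (-(M / 2))) ^ 2 := by
          have g1 : 0 ≤ (lam * v) ^ κ := Real.rpow_nonneg s1.le _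
          gcongr
      _ = D ^ 3 * (729 * (1 + D ^ 2) ^ 2) * Real.log (1 / lam) ^ 6 *
          (lam ^ κ * (lam ^ (-(M / 2)) * lam ^ (-(M / 2)))) := by ring
      _ = D ^ 3 * (729 * (1 + D ^ 2) ^ 2) * Real.log (1 / lam) ^ 6 * lam ^ q := by
          rw [← Real.rpow_add h0, ← Real.rpow_add h0, hκ]
          congr 2
          ring
      _ ≤ _ := by
          refine mul_le_mul_of_nonneg_left ?_ (by positivity)
          exact Real.rpow_le_rpow_of_exponent_ge h0 h1 (by linarith)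
  have e7 : (lam * v) ^ (q / 10) ≤ D ^ 3 * Real.log (1 / lam) ^ 6 * lam ^ (q / 10) := by
    refine e3.trans ?_
    have g1 : 1 ≤ Real.log (1 / lam) ^ 6 := one_le_pow₀ hl
    have g2 : 0 ≤ D ^ 3 * lam ^ (q / 10) := by positivity
    calc D ^ 3 * lam ^ (q / 10) = D ^ 3 * lam ^ (q / 10) * 1 := (mul_one _).symm
      _ ≤ D ^ 3 * lam ^ (q / 10) * Real.log (1 / lam) ^ 6 := mul_le_mul_of_nonneg_left g1 g2
      _ = _ := by ring
  calc _ ≤ A * (D ^ 3 * (729 * (1 + D ^ 2) ^ 2) * Real.log (1 / lam) ^ 6 * lam ^ (q / 10) +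
        D ^ 3 * Real.log (1 / lam) ^ 6 * lam ^ (q / 10)) :=
        mul_le_mul_of_nonneg_left (add_le_add e6 (e3'.trans e7)) hA.le
    _ = _ := by ring

/-- two more conditions -/
theorem sl_ev2 (q D A w0 a0 R R2 : ℝ) (hq : 0 < q) (ha0 : 0 < a0) (hR : 0 < R) (hR2 : 0 < R2) :
    ∃ l0 : ℝ, 0 < l0 ∧ ∀ lam : ℝ, 0 < lam → lam < l0 →
      30 * (D ^ 3 * lam ^ q) * (A + 1 / w0 ^ 2) ≤ a0 / 12 ∧ 2 * lam ^ (9 * q / 5) ≤ R ∧
      lam ^ q ≤ R2 := by
  have hid : Tendsto (fun σ : ℝ => σ) (𝓝[>] (0 : ℝ)) (𝓝 0) := tendsto_nhdsWithin_of_tendsto_nhds tendsto_id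
  have hpow : ∀ a : ℝ, 0 < a → Tendsto (fun σ : ℝ => σ ^ a) (𝓝[>] (0 : ℝ)) (𝓝 0) := by
    intro a ha
    have h1 := (Real.continuousAt_rpow_const 0 a (Or.inr ha.le)).tendsto.comp hid
    rw [Real.zero_rpow ha.ne'] at h1
    exact h1
  have h1 : ∀ᶠ σ in 𝓝[>] (0 : ℝ), 30 * (D ^ 3 * σ ^ q) * (A + 1 / w0 ^ 2) ≤ a0 / 12 := by
    have := (((hpow q hq).const_mul (D ^ 3)).const_mul 30).mul_const (A + 1 / w0 ^ 2)
    rw [mul_zero, mul_zero, zero_mul] at this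
    exact this.eventually_le_const (by positivity)
  have h2 : ∀ᶠ σ in 𝓝[>] (0 : ℝ), 2 * σ ^ (9 * q / 5) ≤ R := by
    have := (hpow (9 * q / 5) (by positivity)).const_mul 2
    rw [mul_zero] at this
    exact this.eventually_le_const hR
  have h3 : ∀ᶠ σ in 𝓝[>] (0 : ℝ), σ ^ q ≤ R2 := (hpow q hq).eventually_le_const hR2
  have hall := (h1.and h2).and h3
  rw [eventually_nhdsWithin_iff, Metric.eventually_nhds_iff] at hall
  obtain ⟨l0, hl0, hall⟩ := hall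
  refine ⟨l0, hl0, fun lam hl hlt => ?_⟩
  obtain ⟨⟨a1, a2⟩, a3⟩ := hall (y := lam)
    (by rw [Real.dist_eq, sub_zero, abs_of_pos hl]; exact hlt) hl
  exact ⟨a1, a2, a3⟩

/-- the size of the exponents -/
theorem exp_size (hd : 3 ≤ d) (lam v ρ κ q K : ℝ) (h0 : 0 < lam) (h1 : lam ≤ 1)
    (hl : 1 ≤ Real.log (1 / lam)) (hρ0 : 0 < ρ) (hρ1 : ρ ≤ 1) (hρv : ρ ≤ v) (hκ0 : 0 < κ)
    (hκ1 : κ ≤ 1) (hκq : κ ≤ 1 / 2 - q) (hK : 0 < K)
    (L : ℕ) [NeZero L] (hL : K * (1 / lam) ^ 2 * Real.log (1 / lam) ≤ L) (Cp y : ℝ) (hCp : 0 < Cp)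
    (hy : lam ^ (q / 5) ≤ y ^ 2)
    (hR : 2 * lam ^ (9 * q / 5) ≤ ρ ^ 6 * K ^ 3 / Cp) :
    2 / lam ≤ y ^ 2 * ((lam * v) ^ (2 + κ)) ^ 2 * (Fintype.card (T d L) : ℝ) / Cp := by
  have hσ : 0 < lam * ρ := by positivity
  have hη : ρ ^ 3 * lam ^ (2 + κ) ≤ (lam * v) ^ (2 + κ) := by
    calc ρ ^ 3 * lam ^ (2 + κ) ≤ ρ ^ (2 + κ) * lam ^ (2 + κ) := by
          refine mul_le_mul_of_nonneg_right ?_ (Real.rpow_nonneg h0.le _)
          have : ρ ^ 3 = ρ ^ (3 : ℝ) := by rw [← Real.rpow_natCast]; norm_num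
          rw [this]
          exact Real.rpow_le_rpow_of_exponent_ge hρ0 hρ1 (by linarith)
      _ = (lam * ρ) ^ (2 + κ) := by rw [mul_comm lam ρ, Real.mul_rpow hρ0.le h0.le]
      _ ≤ (lam * v) ^ (2 + κ) := by
          refine Real.rpow_le_rpow hσ.le ?_ (by linarith)
          exact mul_le_mul_of_nonneg_left hρv h0.le
  have hη2 : ρ ^ 6 * lam ^ (2 * (2 + κ)) ≤ ((lam * v) ^ (2 + κ)) ^ 2 := by
    have h2 := pow_le_pow_left₀ (by positivity) hη 2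
    refine le_trans (le_of_eq ?_) h2
    rw [mul_pow, ← pow_mul, ← Real.rpow_natCast (lam ^ (2 + κ)), ← Real.rpow_mul h0.le]
    congr 2
    push_cast
    ring
  have hLp : (1 : ℝ) ≤ L := by exact_mod_cast Nat.one_le_iff_ne_zero.2 (NeZero.ne L)
  have hN : K ^ 3 * lam ^ (-6 : ℝ) ≤ (Fintype.card (T d L) : ℝ) := by
    have e1 : (Fintype.card (T d L) : ℝ) = (L : ℝ) ^ d := by
      rw [card_T]
      push_cast
      rfl
    rw [e1]
    have e2 : K * (1 / lam) ^ 2 ≤ L := by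
      refine le_trans ?_ hL
      have : 0 ≤ K * (1 / lam) ^ 2 := by positivity
      exact le_mul_of_one_le_right this hl
    calc K ^ 3 * lam ^ (-6 : ℝ) = (K * (1 / lam) ^ 2) ^ 3 := by
          rw [Real.rpow_neg h0.le]
          have : lam ^ (6 : ℝ) = lam ^ 6 := by rw [← Real.rpow_natCast]; norm_num
          rw [this]
          field_simp
      _ ≤ (L : ℝ) ^ 3 := pow_le_pow_left₀ (by positivity) e2 3
      _ ≤ (L : ℝ) ^ d := pow_le_pow_right₀ hLp hd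
  have hprod : ρ ^ 6 * K ^ 3 * lam ^ (q / 5 + 2 * (2 + κ) + (-6)) ≤
      y ^ 2 * ((lam * v) ^ (2 + κ)) ^ 2 * (Fintype.card (T d L) : ℝ) := by
    rw [Real.rpow_add h0, Real.rpow_add h0]
    calc ρ ^ 6 * K ^ 3 * (lam ^ (q / 5) * lam ^ (2 * (2 + κ)) * lam ^ (-6 : ℝ)) =
          lam ^ (q / 5) * (ρ ^ 6 * lam ^ (2 * (2 + κ))) * (K ^ 3 * lam ^ (-6 : ℝ)) := by ring
      _ ≤ _ := by
          have := Real.rpow_pos_of_pos h0 (q / 5)
          have := Real.rpow_pos_of_pos h0 (2 * (2 + κ))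
          have := Real.rpow_pos_of_pos h0 (-6)
          gcongr
  rw [div_le_div_iff₀ h0 hCp]
  have e3 : 1 ≤ lam ^ (9 * q / 5) * (lam ^ (q / 5 + 2 * (2 + κ) + (-6)) * lam) := by
    have h3 : lam ^ (q / 5 + 2 * (2 + κ) + (-6)) * lam = lam ^ (q / 5 + 2 * (2 + κ) + (-6) + 1) := by
      rw [Real.rpow_add h0 _ 1, Real.rpow_one]
    rw [h3, ← Real.rpow_add h0]
    have h4 := Real.rpow_le_rpow_of_exponent_ge h0 h1
      (show 9 * q / 5 + (q / 5 + 2 * (2 + κ) + (-6) + 1) ≤ 0 by linarith)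
    rwa [Real.rpow_zero] at h4
  have hpw : 0 < lam ^ (q / 5 + 2 * (2 + κ) + (-6)) * lam := by
    have := Real.rpow_pos_of_pos h0 (q / 5 + 2 * (2 + κ) + (-6))
    positivity
  rw [le_div_iff₀ hCp] at hR
  calc 2 * Cp ≤ 2 * Cp * (lam ^ (9 * q / 5) * (lam ^ (q / 5 + 2 * (2 + κ) + (-6)) * lam)) :=
        le_mul_of_one_le_right (by positivity) e3
    _ = (2 * lam ^ (9 * q / 5) * Cp) * (lam ^ (q / 5 + 2 * (2 + κ) + (-6)) * lam) := by ring
    _ ≤ (ρ ^ 6 * K ^ 3) * (lam ^ (q / 5 + 2 * (2 + κ) + (-6)) * lam) :=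
        mul_le_mul_of_nonneg_right hR hpw.le
    _ = (ρ ^ 6 * K ^ 3 * lam ^ (q / 5 + 2 * (2 + κ) + (-6))) * lam := by ring
    _ ≤ _ := mul_le_mul_of_nonneg_right hprod h0.le

set_option maxHeartbeats 1600000 in
/-- **quantum ergodicity in short windows** -/
theorem piece2 (hd : 3 ≤ d) (E1 E2 : ℝ) (hE1 : 0 < E1)
    (hE2 : E2 < 4 * d) (b v0 β γ θ : ℝ)
    (hv0 : 0 < v0) (hβ : β < 9 / 4) (hγ : γ < 5 / 2) (hθ2 : 2 < θ) (hθβ : 2 * β - 2 < θ)
    (hθγ : γ < θ) :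
    ∃ c K w0 l0 k0 : ℝ, 0 < c ∧ 0 < K ∧ 0 < w0 ∧ 0 < l0 ∧ l0 ≤ 1 ∧ 0 < k0 ∧
      ∀ (μ : Measure ℝ) [IsProbabilityMeasure μ], (∀ᵐ s ∂μ, |s| ≤ b) →
      v0 ≤ ∫ s, (s - ∫ t, t ∂μ) ^ 2 ∂μ → ∀ lam : ℝ, 0 < lam → lam < l0 →
      ∀ (L : ℕ) [NeZero L], K * (1 / lam) ^ 2 * Real.log (1 / lam) ≤ L → (L : ℝ) ≤ lam ^ (-β) →
      ∀ s1 s2 : ℝ, E1 ≤ s1 → s2 ≤ E2 → lam ^ γ ≤ s2 - s1 → s2 - s1 ≤ w0 →
      ∃ Bad : Set (T d L → ℝ), MeasurableSet Bad ∧
        (PL (T d L) μ).real Bad ≤ 2 * Real.exp (-(2 / lam)) ∧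
        ∀ V, V ∉ Bad → ∀ (ψ : T d L → T d L → ℂ) (E : T d L → ℝ), EB lam V ψ E →
        k0 * (s2 - s1) * (Fintype.card (T d L) : ℝ) ≤
          ((Finset.univ.filter fun j => s1 ≤ E j ∧ E j ≤ s2).card : ℝ) ∧
        ∀ S : Finset (T d L), (∀ j ∈ S, (s1 ≤ E j ∧ E j ≤ s2) ∧
          ∃ (y : T d L) (ℓ : Fin d → ℕ), (∀ i, ℓ i ≤ L) ∧
            lam ^ c < ∑ k ∈ Finset.univ.filter (fun k => |E k - E j| ≤ lam ^ θ),
              ‖∑ x ∈ bx y ℓ, (starRingEnd ℂ) (ψ k x) * ψ j x -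
                (if k = j then ((∏ i, ((ℓ i : ℝ) / L) : ℝ) : ℂ) else 0)‖ ^ 2) →
        (S.card : ℝ) ≤ lam ^ (2 * c) * (s2 - s1) * (Fintype.card (T d L) : ℝ) := by
  obtain ⟨M, hM⟩ : ∃ M : ℝ, M = max (max (2 * β - 4) (γ - 2)) 0 := ⟨_, rfl⟩
  have hM0 : 0 ≤ M := by rw [hM]; exact le_max_right _ _
  have hMβ : 2 * β - 4 ≤ M := by rw [hM]; exact (le_max_left _ _).trans (le_max_left _ _)
  have hMγ : γ - 2 ≤ M := by rw [hM]; exact (le_max_right _ _).trans (le_max_left _ _)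
  have hM1 : M < 1 / 2 := by
    rw [hM]
    refine max_lt (max_lt ?_ ?_) ?_ <;> linarith
  have hMθ : M < θ - 2 := by
    rw [hM]
    refine max_lt (max_lt ?_ ?_) ?_ <;> linarith
  obtain ⟨H, hH⟩ : ∃ H : ℝ, H = min (1 / 2) (θ - 2) := ⟨_, rfl⟩
  have hH1 : H ≤ 1 / 2 := by rw [hH]; exact min_le_left _ _
  have hH2 : H ≤ θ - 2 := by rw [hH]; exact min_le_right _ _
  have hH3 : M < H := by rw [hH]; exact lt_min hM1 hMθ
  obtain ⟨q, hqd⟩ : ∃ q : ℝ, M + 2 * q = H := ⟨(H - M) / 2, by ring⟩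
  have hq : 0 < q := by linarith
  obtain ⟨κ, hκ⟩ : ∃ κ : ℝ, κ = M + q := ⟨_, rfl⟩
  have hκ0 : 0 < κ := by rw [hκ]; linarith
  have hκ1 : κ < 1 / 2 := by rw [hκ]; linarith
  obtain ⟨D, hDd⟩ : ∃ D : ℝ, D = 2 * (|b| + 1) := ⟨_, rfl⟩
  have hD1 : 1 ≤ D := by
    rw [hDd]
    have := abs_nonneg b
    linarith
  have hD0 : 0 < D := by linarith
  obtain ⟨A, K0, δ, a0, hA, hK0, hδ, hδ1, ha0, hunif⟩ := unif2 hd (E1 / 2) ((E2 + 4 * d) / 2)
    (by linarith) (by linarith) (D / Real.sqrt v0) κ hκ0 hκ1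
  obtain ⟨w0, hw0d⟩ : ∃ w0 : ℝ, w0 = min (min (E1 / 8) ((4 * d - E2) / 8)) 1 := ⟨_, rfl⟩
  have hw0 : 0 < w0 := by
    rw [hw0d]
    refine lt_min (lt_min (by linarith) (by linarith)) one_pos
  have hw0a : w0 ≤ E1 / 8 := by rw [hw0d]; exact (min_le_left _ _).trans (min_le_left _ _)
  have hw0b : w0 ≤ (4 * d - E2) / 8 := by
    rw [hw0d]; exact (min_le_left _ _).trans (min_le_right _ _)
  have hw01 : w0 ≤ 1 := by rw [hw0d]; exact min_le_right _ _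
  obtain ⟨Ce, hCe⟩ : ∃ Ce : ℝ, Ce = A * (D ^ 3 * (729 * (1 + D ^ 2) ^ 2 + 1)) := ⟨_, rfl⟩
  obtain ⟨Cw, hCw⟩ : ∃ Cw : ℝ, Cw = 1640 * (A + 1 / w0 ^ 2) * (7 * D ^ 3) := ⟨_, rfl⟩
  have hCe0 : 0 ≤ Ce := by rw [hCe]; positivity
  have hCw0 : 0 ≤ Cw := by rw [hCw]; positivity
  obtain ⟨C2, hC2⟩ : ∃ C2 : ℝ, C2 = 7 * 5 ^ (2 * d) * (3 * Ce + Cw + 1) := ⟨_, rfl⟩
  have hC20 : 0 ≤ C2 := by rw [hC2]; positivity
  obtain ⟨l0, hl0, hsl⟩ := sl_ev d b v0 q w0 D δ C2 hq hw0 hδ hC20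
  obtain ⟨K, hKd⟩ : ∃ K : ℝ, K = 2 * K0 / v0 := ⟨_, rfl⟩
  have hK : 0 < K := by rw [hKd]; positivity
  have hvs : 0 < Real.sqrt v0 := Real.sqrt_pos.2 hv0
  obtain ⟨ρ, hρd⟩ : ∃ ρ : ℝ, ρ = min (Real.sqrt v0) 1 := ⟨_, rfl⟩
  have hρ0 : 0 < ρ := by rw [hρd]; exact lt_min hvs one_pos
  have hρ1 : ρ ≤ 1 := by rw [hρd]; exact min_le_right _ _
  obtain ⟨Cq, hCq⟩ : ∃ Cq : ℝ, Cq = 400000 / a0 ^ 2 := ⟨_, rfl⟩
  have hCq0 : 0 < Cq := by rw [hCq]; positivity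
  obtain ⟨l1, hl1, hsl1⟩ := sl_ev2 q D A w0 a0 (ρ ^ 6 * K ^ 3 / 10 ^ 8) (ρ ^ 3) hq ha0
    (by positivity) (by positivity)
  obtain ⟨l2, hl2, hsl2⟩ := sl_ev2 q D A w0 a0 (ρ ^ 6 * K ^ 3 / Cq) (ρ ^ 3) hq ha0
    (by positivity) (by positivity)
  refine ⟨q / 100, K, w0, min (min l0 1) (min l1 l2), a0 / 32, by positivity, hK, hw0,
    lt_min (lt_min hl0 one_pos) (lt_min hl1 hl2), (min_le_left _ _).trans (min_le_right _ _),
    by positivity, ?_⟩
  intro μ _ hμb hVar lam h0 hlt L _ hKL hLβ s1 s2 hs1 hs2 hγΔ hΔw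
  have hS := hsl lam h0 (hlt.trans_le ((min_le_left _ _).trans (min_le_left _ _)))
  obtain ⟨k1, k2, k4⟩ := hsl1 lam h0 (hlt.trans_le ((min_le_right _ _).trans (min_le_left _ _)))
  obtain ⟨-, k3, -⟩ := hsl2 lam h0 (hlt.trans_le ((min_le_right _ _).trans (min_le_right _ _)))
  have h1 := hS.l1
  have hl := hS.l2
  obtain ⟨a, v, hv, haB, hv1, hv2, n1, n2, n3⟩ := law_facts b v0 hv0 μ hμb hVar
  rw [← hDd] at hv2 n1
  have hμ' : IsProbabilityMeasure (μ.map (af v a hv)) :=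
    Measure.isProbabilityMeasure_map (af v a hv).measurable.aemeasurable
  obtain ⟨g1, g2, g3, g4⟩ := hS.sig hv0 hD1 v hv1 hv2
  have hvp : 0 < v := by linarith
  have hρv : ρ ≤ v := by
    rw [hρd]
    exact (min_le_left _ _).trans hv1
  have hκq : κ ≤ 1 / 2 - q := by rw [hκ]; linarith
  have x1 := exp_size (L := L) hd lam v ρ κ q K h0 h1 hl hρ0 hρ1 hρv hκ0 (by linarith) hκq hK hKL
    (10 ^ 8) (lam ^ (q / 10)) (by norm_num) (by
      rw [← Real.rpow_natCast (lam ^ (q / 10)), ← Real.rpow_mul h0.le]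
      apply le_of_eq
      congr 1
      push_cast
      ring) k2
  have x2 := exp_size (L := L) hd lam v ρ κ q K h0 h1 hl hρ0 hρ1 hρv hκ0 (by linarith) hκq hK hKL
    Cq 1 hCq0 (by
      rw [one_pow]
      exact Real.rpow_le_one h0.le h1 (by positivity)) k3
  have hvv : v0 ≤ v ^ 2 := by
    calc v0 = Real.sqrt v0 ^ 2 := (Real.sq_sqrt hv0.le).symm
      _ ≤ v ^ 2 := pow_le_pow_left₀ hvs.le hv1 2
  set ℓ : ℝ := Real.log (1 / lam) with hℓ
  have hℓ0 : 0 < ℓ := by linarith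
  have hlσ0 : 0 ≤ Real.log (1 / (lam * v)) := Real.log_nonneg (by
    rw [le_div_iff₀ g1]
    linarith)
  -- the size of the torus
  have hLp := Lpos (L := L)
  have hLa : K0 * (1 / (lam * v)) ^ 2 * Real.log (1 / (lam * v)) ≤ L := by
    rw [hKd] at hKL
    refine le_trans ?_ hKL
    have e1 : (1 / (lam * v)) ^ 2 ≤ (1 / lam) ^ 2 / v0 := by
      have : (1 / (lam * v)) ^ 2 = (1 / lam) ^ 2 / v ^ 2 := by field_simp
      rw [this]
      exact div_le_div_of_nonneg_left (by positivity) hv0 hvv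
    calc K0 * (1 / (lam * v)) ^ 2 * Real.log (1 / (lam * v)) ≤
          K0 * ((1 / lam) ^ 2 / v0) * (2 * ℓ) := by
          have : 0 ≤ (1 / lam) ^ 2 / v0 := by positivity
          gcongr
      _ = _ := by ring
  have hLb : (L : ℝ) * (lam * v) ^ 3 ≤ 1 := by
    have e1 : (L : ℝ) ≤ lam ^ (-(9 / 4 : ℝ)) :=
      hLβ.trans (Real.rpow_le_rpow_of_exponent_ge h0 h1 (by linarith))
    have e2 : (lam * v) ^ 3 ≤ D ^ 3 * lam ^ (3 : ℝ) := by
      have := g4 3 (by norm_num) le_rfl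
      have e3 : (lam * v) ^ (3 : ℝ) = (lam * v) ^ 3 := by rw [← Real.rpow_natCast]; norm_num
      rwa [e3] at this
    calc (L : ℝ) * (lam * v) ^ 3 ≤ lam ^ (-(9 / 4 : ℝ)) * (D ^ 3 * lam ^ (3 : ℝ)) :=
          mul_le_mul e1 e2 (by positivity) (by positivity)
      _ = D ^ 3 * lam ^ ((3 : ℝ) / 4) := by
          rw [mul_left_comm, ← Real.rpow_add h0]
          norm_num
      _ ≤ 1 := hS.l8
  have hlogL : Real.log L ≤ 3 * ℓ := by
    have e1 := Real.log_le_log hLp hLβ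
    rw [Real.log_rpow h0] at e1
    have e2 : Real.log lam = -ℓ := by rw [hℓ, one_div, Real.log_inv, neg_neg]
    rw [e2] at e1
    nlinarith
  have hlogL0 : 0 ≤ Real.log L := Real.log_natCast_nonneg L
  -- the spectral parameter
  set η : ℝ := (lam * v) ^ (2 + κ) with hη
  have hη0 : 0 < η := Real.rpow_pos_of_pos g1 _
  have hηb : η ≤ D ^ 3 * lam ^ (2 + κ) := g4 (2 + κ) (by linarith) (by linarith)
  have hθη : lam ^ θ ≤ η := by
    have f1 : ρ ^ 3 * lam ^ (2 + κ) ≤ η := by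
      calc ρ ^ 3 * lam ^ (2 + κ) ≤ ρ ^ (2 + κ) * lam ^ (2 + κ) := by
            refine mul_le_mul_of_nonneg_right ?_ (Real.rpow_nonneg h0.le _)
            have : ρ ^ 3 = ρ ^ (3 : ℝ) := by rw [← Real.rpow_natCast]; norm_num
            rw [this]
            exact Real.rpow_le_rpow_of_exponent_ge hρ0 hρ1 (by linarith)
        _ = (lam * ρ) ^ (2 + κ) := by rw [mul_comm lam ρ, Real.mul_rpow hρ0.le h0.le]
        _ ≤ (lam * v) ^ (2 + κ) := by
            refine Real.rpow_le_rpow (by positivity) ?_ (by linarith)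
            exact mul_le_mul_of_nonneg_left hρv h0.le
    refine le_trans ?_ f1
    calc lam ^ θ ≤ lam ^ (q + (2 + κ)) :=
          Real.rpow_le_rpow_of_exponent_ge h0 h1 (by rw [hκ]; linarith)
      _ = lam ^ q * lam ^ (2 + κ) := Real.rpow_add h0 _ _
      _ ≤ ρ ^ 3 * lam ^ (2 + κ) :=
          mul_le_mul_of_nonneg_right k4 (Real.rpow_nonneg h0.le _)
  have hΔ0 : 0 < s2 - s1 := lt_of_lt_of_le (Real.rpow_pos_of_pos h0 _) hγΔ
  have hηΔ : η / (s2 - s1) ≤ D ^ 3 * lam ^ q := by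
    rw [div_le_iff₀ hΔ0]
    calc η ≤ D ^ 3 * lam ^ (2 + κ) := hηb
      _ ≤ D ^ 3 * (lam ^ q * lam ^ γ) := by
          rw [← Real.rpow_add h0]
          refine mul_le_mul_of_nonneg_left ?_ (by positivity)
          exact Real.rpow_le_rpow_of_exponent_ge h0 h1 (by rw [hκ]; linarith)
      _ ≤ D ^ 3 * (lam ^ q * (s2 - s1)) := by
          have : 0 < lam ^ q := Real.rpow_pos_of_pos h0 _
          gcongr
      _ = _ := by ring
  have h2η : 2 * η ≤ s2 - s1 := by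
    have e1 : 2 * (η / (s2 - s1)) ≤ 1 := by
      calc 2 * (η / (s2 - s1)) ≤ 2 * (D ^ 3 * lam ^ q) := by linarith
        _ = 2 * D ^ 3 * lam ^ q := by ring
        _ ≤ 1 := hS.l6
    have e2 : 2 * (η / (s2 - s1)) = 2 * η / (s2 - s1) := by ring
    rw [e2, div_le_one hΔ0] at e1
    exact e1
  -- energies
  have hla : |lam * a| ≤ w0 := by
    rw [abs_mul, abs_of_pos h0]
    exact (mul_le_mul_of_nonneg_left haB h0.le).trans hS.l5
  have hla1 := (abs_le.1 hla).1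
  have hla2 := (abs_le.1 hla).2
  have hrange : ∀ u : ℝ, s1 - lam * a - w0 ≤ u → u ≤ s2 - lam * a + w0 →
      E1 / 2 ≤ u ∧ u ≤ (E2 + 4 * d) / 2 := by
    intro u hu1 hu2
    constructor <;> linarith
  have hUn := fun u hu1 hu2 => hunif (μ.map (af v a hv)) n1 n2 n3 u
    (hrange u hu1 hu2).1 (hrange u hu1 hu2).2 (lam * v) g1 g2 L hLa hLb
  set ε : ℝ := A * ((lam * v) ^ κ * (1 + Real.log (1 / (lam * v))) ^ 6 *
    (1 + L * (lam * v) ^ 2) ^ 2 + (lam * v) ^ ((1 - 2 * κ) / 20)) with hε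
  have hεb : ε ≤ Ce * ℓ ^ 6 * lam ^ (q / 10) := by
    rw [hCe]
    exact hS.eps2 hv0 hD1 v hv1 hv2 M κ β hM0 hq (by linarith) hκ (by linarith) L hLβ A hA hδ1
  have hε0 : 0 ≤ ε := by rw [hε]; positivity
  have hdiff : s2 - lam * a - (s1 - lam * a) = s2 - s1 := by ring
  have hy0 : 0 ≤ lam ^ (q / 10) := Real.rpow_nonneg h0.le _
  obtain ⟨Bad1, hBm1, hBp1, hBc1⟩ := Od.passage_off (d := d) (L := L) (μ.map (af v a hv))
    (D / Real.sqrt v0) (by positivity) n1 (s1 - lam * a) (s2 - lam * a) w0 A η (lam * v) ε (lam ^ (q / 10)) hw0 hη0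
    (by linarith) hA.le hε0 hy0
    (fun u hu1 hu2 => (hUn u hu1 hu2).2.1)
    (fun u hu1 hu2 p hp => (hUn u (by linarith) (by linarith)).1 p hp)
  obtain ⟨Bad2, hBm2, hBp2, hBc2⟩ := Ct.count_low (d := d) (L := L) (μ.map (af v a hv))
    (D / Real.sqrt v0) (by positivity)
    n1 (s1 - lam * a) (s2 - lam * a) w0 A η (lam * v) a0 hw0 hη0
    (by linarith) hA.le ha0
    (fun u hu1 hu2 => (hUn u hu1 hu2).2.1)
    (fun u hu1 hu2 => (hUn u (by linarith) (by linarith)).2.2) (by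
      rw [hdiff]
      have f1 : (s2 - s1) / w0 ^ 2 ≤ 1 / w0 ^ 2 :=
        div_le_div_of_nonneg_right (hΔw.trans hw01) (by positivity)
      refine le_trans ?_ k1
      have f2 : 0 < η / (s2 - s1) := by positivity
      gcongr)
  rw [hdiff] at hBc1 hBc2
  refine ⟨nz v a ⁻¹' (Bad1 ∪ Bad2), nz_meas v a (hBm1.union hBm2), ?_, ?_⟩
  · have e1 : (PL (T d L) μ).real (nz v a ⁻¹' (Bad1 ∪ Bad2)) =
        (PL (T d L) (μ.map (af v a hv))).real (Bad1 ∪ Bad2) := by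
      rw [← PL_nz μ v a hv, map_measureReal_apply (nz_meas v a) (hBm1.union hBm2)]
    rw [e1]
    refine (measureReal_union_le _ _).trans ?_
    have e2 : (PL (T d L) (μ.map (af v a hv))).real Bad1 ≤ Real.exp (-(2 / lam)) :=
      hBp1.trans (Real.exp_le_exp.2 (neg_le_neg x1))
    have e3 : (PL (T d L) (μ.map (af v a hv))).real Bad2 ≤ Real.exp (-(2 / lam)) := by
      refine hBp2.trans (Real.exp_le_exp.2 (neg_le_neg ?_))
      refine x2.trans (le_of_eq ?_)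
      rw [hCq]
      field_simp
    linarith
  · have hlogΔ : 1 + Real.log ((s2 - s1) / η) ≤ 7 * ℓ := by
      have f1 : Real.log ((s2 - s1) / η) ≤ Real.log (1 / η) := by
        apply Real.log_le_log (by positivity)
        exact div_le_div_of_nonneg_right (hΔw.trans hw01) hη0.le
      have f2 : Real.log (1 / η) = (2 + κ) * Real.log (1 / (lam * v)) := by
        rw [hη, one_div, Real.log_inv, Real.log_rpow g1, one_div, Real.log_inv]
        ring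
      have f3 : (2 + κ) * Real.log (1 / (lam * v)) ≤ 3 * (2 * ℓ) := by
        have : (2 + κ) * Real.log (1 / (lam * v)) ≤ 3 * Real.log (1 / (lam * v)) :=
          mul_le_mul_of_nonneg_right (by linarith) hlσ0
        linarith
      linarith
    have hlogΔ0 : 0 ≤ Real.log ((s2 - s1) / η) := by
      apply Real.log_nonneg
      rw [le_div_iff₀ hη0]
      linarith
    have hPq : 0 < lam ^ q := Real.rpow_pos_of_pos h0 _
    have hPq10 : 0 < lam ^ (q / 10) := Real.rpow_pos_of_pos h0 _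
    have f4 : 1 ≤ ℓ ^ 6 := one_le_pow₀ hl
    have hw : 1640 * (A + (s2 - s1) / w0 ^ 2) *
        (η / (s2 - s1) * (1 + Real.log ((s2 - s1) / η))) ≤ Cw * ℓ ^ 6 * lam ^ (q / 10) := by
      have f1 : (s2 - s1) / w0 ^ 2 ≤ 1 / w0 ^ 2 :=
        div_le_div_of_nonneg_right (hΔw.trans hw01) (by positivity)
      have f2 : η / (s2 - s1) * (1 + Real.log ((s2 - s1) / η)) ≤ D ^ 3 * lam ^ q * (7 * ℓ) :=
        mul_le_mul hηΔ hlogΔ (by positivity) (by positivity)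
      have f3 : 0 ≤ η / (s2 - s1) * (1 + Real.log ((s2 - s1) / η)) := by positivity
      have f4' : ℓ ≤ ℓ ^ 6 := by
        calc ℓ = ℓ ^ 1 := (pow_one ℓ).symm
          _ ≤ ℓ ^ 6 := pow_le_pow_right₀ hl (by norm_num)
      have f5 : lam ^ q ≤ lam ^ (q / 10) :=
        Real.rpow_le_rpow_of_exponent_ge h0 h1 (by linarith)
      calc 1640 * (A + (s2 - s1) / w0 ^ 2) *
            (η / (s2 - s1) * (1 + Real.log ((s2 - s1) / η))) ≤
            1640 * (A + 1 / w0 ^ 2) * (D ^ 3 * lam ^ q * (7 * ℓ)) :=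
            mul_le_mul (by linarith) f2 f3 (by positivity)
        _ = Cw * (ℓ * lam ^ q) := by rw [hCw]; ring
        _ ≤ Cw * (ℓ ^ 6 * lam ^ (q / 10)) := by gcongr
        _ = _ := by ring
    have hnum : 7 * (2 + Real.log L) ^ (2 * d) * (3 * ε + 1640 * (A + (s2 - s1) / w0 ^ 2) *
        (η / (s2 - s1) * (1 + Real.log ((s2 - s1) / η))) + lam ^ (q / 10)) ≤
        C2 * ℓ ^ (2 * d + 6) * lam ^ (q / 10) := by
      have f1 : 2 + Real.log L ≤ 5 * ℓ := by linarith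
      have f2 : 0 ≤ 1640 * (A + (s2 - s1) / w0 ^ 2) *
        (η / (s2 - s1) * (1 + Real.log ((s2 - s1) / η))) := by positivity
      have f6 : lam ^ (q / 10) ≤ 1 * ℓ ^ 6 * lam ^ (q / 10) := by
        rw [one_mul]
        exact le_mul_of_one_le_left hPq10.le f4
      calc _ ≤ 7 * (5 * ℓ) ^ (2 * d) * (3 * (Ce * ℓ ^ 6 * lam ^ (q / 10)) +
            Cw * ℓ ^ 6 * lam ^ (q / 10) + 1 * ℓ ^ 6 * lam ^ (q / 10)) := by gcongr
        _ = C2 * ℓ ^ (2 * d + 6) * lam ^ (q / 10) := by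
            rw [hC2, mul_pow, pow_add]
            ring
    have hsmall : 7 * (2 + Real.log L) ^ (2 * d) * (3 * ε + 1640 * (A + (s2 - s1) / w0 ^ 2) *
        (η / (s2 - s1) * (1 + Real.log ((s2 - s1) / η))) + lam ^ (q / 10)) ≤
        lam ^ (2 * (q / 100)) * lam ^ (q / 100) := by
      refine hnum.trans ?_
      have f6 : lam ^ (q / 10) = lam ^ (q / 20) * lam ^ (q / 20) := by
        rw [← Real.rpow_add h0]
        congr 1
        ring
      have f7 := hS.l7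
      have f8 : 0 ≤ lam ^ (q / 20) := Real.rpow_nonneg h0.le _
      have f9 : lam ^ (q / 20) ≤ lam ^ (2 * (q / 100)) * lam ^ (q / 100) := by
        rw [← Real.rpow_add h0]
        exact Real.rpow_le_rpow_of_exponent_ge h0 h1 (by linarith)
      refine le_trans ?_ f9
      rw [f6]
      calc C2 * ℓ ^ (2 * d + 6) * (lam ^ (q / 20) * lam ^ (q / 20)) =
            (C2 * ℓ ^ (2 * d + 6) * lam ^ (q / 20)) * lam ^ (q / 20) := by ring
        _ ≤ 1 * lam ^ (q / 20) := mul_le_mul_of_nonneg_right f7 f8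
        _ = _ := one_mul _
    intro V hV ψ E hE
    have hV1 : nz v a V ∉ Bad1 := fun hcon => hV (Or.inl hcon)
    have hV2 : nz v a V ∉ Bad2 := fun hcon => hV (Or.inr hcon)
    have hEB := EB_nz (a := a) hv hE
    refine ⟨?_, ?_⟩
    · have r1 := hBc2 (nz v a V) hV2 ψ (fun j => E j - lam * a) hEB
      refine r1.trans (le_of_eq ?_)
      congr 2
      ext j
      simp only [Finset.mem_filter, Finset.mem_univ, true_and]
      constructor
      · rintro ⟨z1, z2⟩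
        exact ⟨by linarith, by linarith⟩
      · rintro ⟨z1, z2⟩
        exact ⟨by linarith, by linarith⟩
    · intro S hSj
      have ht0 : 0 < lam ^ (q / 100) := Real.rpow_pos_of_pos h0 _
      have r2 := hBc1 (nz v a V) hV1 ψ (fun j => E j - lam * a) hEB (lam ^ (q / 100)) ht0 S
        fun j hj => by
          obtain ⟨⟨z1, z2⟩, y, l, z3, z4⟩ := hSj j hj
          refine ⟨⟨by linarith, by linarith⟩, y, l, z3, z4.trans_le ?_⟩
          refine Finset.sum_le_sum_of_subset_of_nonneg ?_ (fun k _ _ => by positivity)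
          intro k hk
          rw [Finset.mem_filter] at hk ⊢
          refine ⟨Finset.mem_univ _, ?_⟩
          have z5 : E k - lam * a - (E j - lam * a) = E k - E j := by ring
          rw [z5]
          exact hk.2.trans hθη
      have hΔN : 0 ≤ (s2 - s1) * (Fintype.card (T d L) : ℝ) := by positivity
      have r3 := mul_le_mul_of_nonneg_right hsmall hΔN
      have r4 : (S.card : ℝ) * lam ^ (q / 100) ≤
          (lam ^ (2 * (q / 100)) * (s2 - s1) * (Fintype.card (T d L) : ℝ)) *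
            lam ^ (q / 100) := by
        refine r2.trans ?_
        refine le_trans (le_of_eq ?_) (r3.trans (le_of_eq ?_))
        · ring
        · ring
      exact le_of_mul_le_mul_right r4 ht0

end Pool.Agent.Zk11.QE
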