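import Pool.Agent.Zk11.QE.Fp

/-! Quantum ergodicity in all windows simultaneously. -/

set_option autoImplicit false
set_option linter.unusedSectionVars false

open scoped BigOperators Topology ENNReal
open MeasureTheory Filter

namespace Pool.Agent.Zk11.QE

open Pool.Agent.Zk11.QD
open Pool.Agent.W788.MFP.Four (T e NN adj adj_neg e_comm e_add_left e_add e_zero e_neg e_neg_left
  e_normSq sum_e NN_pos card_T e_single)
open Pool.Agent.Zk60.LL.Det (EB)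
open Pool.Agent.Zk96.QE (bx)

variable {d : ℕ}

/-- covering of a window by the cells of a grid -/
theorem grid_cover (E1 δ : ℝ) (n : ℕ) (hδ : 0 < δ) {ι : Type} (S : Finset ι) (E : ι → ℝ)
    (s t : ℝ) (hs : E1 ≤ s) (ht : t ≤ E1 + n * δ) (hS : ∀ j ∈ S, s ≤ E j ∧ E j ≤ t)
    (hn : 0 < n) (X : ℝ) (hX : 0 ≤ X) (hst : δ ≤ t - s)
    (hcell : ∀ i : Fin n, (((S.filter fun j => E1 + ((i : ℕ) : ℝ) * δ ≤ E j ∧
      E j ≤ E1 + (((i : ℕ) : ℝ) + 1) * δ).card : ℕ) : ℝ) ≤ X) :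
    (S.card : ℝ) ≤ 3 * ((t - s) / δ) * X := by
  classical
  -- the cells which meet the window
  obtain ⟨J, hJ⟩ : ∃ J : Finset (Fin n), J = Finset.univ.filter fun i : Fin n =>
      s - δ ≤ E1 + ((i : ℕ) : ℝ) * δ ∧ E1 + ((i : ℕ) : ℝ) * δ ≤ t := ⟨_, rfl⟩
  have hcov : S ⊆ J.biUnion fun i => S.filter fun j => E1 + ((i : ℕ) : ℝ) * δ ≤ E j ∧
      E j ≤ E1 + (((i : ℕ) : ℝ) + 1) * δ := by
    intro j hj
    obtain ⟨k1, k2⟩ := hS j hj
    rw [Finset.mem_biUnion]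
    obtain ⟨k, hk⟩ : ∃ k : ℕ, k = ⌊(E j - E1) / δ⌋₊ := ⟨_, rfl⟩
    have hx0 : 0 ≤ (E j - E1) / δ := div_nonneg (by linarith) hδ.le
    have f1 : (k : ℝ) ≤ (E j - E1) / δ := by rw [hk]; exact Nat.floor_le hx0
    have f2 : (E j - E1) / δ < k + 1 := by rw [hk]; exact Nat.lt_floor_add_one _
    rw [le_div_iff₀ hδ] at f1
    rw [div_lt_iff₀ hδ] at f2
    rcases lt_or_ge k n with hkn | hkn
    · refine ⟨⟨k, hkn⟩, ?_, ?_⟩
      · rw [hJ, Finset.mem_filter]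
        exact ⟨Finset.mem_univ _, by simp only; linarith, by simp only; linarith⟩
      · rw [Finset.mem_filter]
        exact ⟨hj, by simp only; linarith, by simp only; linarith⟩
    · have f3 : ((n - 1 : ℕ) : ℝ) = n - 1 := by
        have : 1 ≤ n := hn
        push_cast [this]
        ring
      have f4 : (n : ℝ) ≤ k := by exact_mod_cast hkn
      have f5 : (n : ℝ) * δ ≤ k * δ := mul_le_mul_of_nonneg_right f4 hδ.le
      have f7 : ((n : ℝ) - 1) * δ = n * δ - δ := by ring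
      refine ⟨⟨n - 1, by omega⟩, ?_, ?_⟩
      · rw [hJ, Finset.mem_filter]
        refine ⟨Finset.mem_univ _, ?_, ?_⟩
        · simp only
          rw [f3, f7]
          linarith
        · simp only
          rw [f3, f7]
          linarith
      · rw [Finset.mem_filter]
        refine ⟨hj, ?_, ?_⟩
        · simp only
          rw [f3, f7]
          linarith
        · simp only
          rw [f3]
          have : ((n : ℝ) - 1 + 1) * δ = n * δ := by ring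
          rw [this]
          linarith
  have hJc : (J.card : ℝ) ≤ 3 * ((t - s) / δ) := by
    obtain ⟨y, hy⟩ : ∃ y : ℝ, y = (s - E1) / δ - 1 := ⟨_, rfl⟩
    obtain ⟨w, hw⟩ : ∃ w : ℝ, w = (t - E1) / δ := ⟨_, rfl⟩
    have hwy : w - y = (t - s) / δ + 1 := by
      rw [hy, hw]
      field_simp
      ring
    have hsub : J.image (fun i : Fin n => ((i : ℕ) : ℤ)) ⊆ Finset.Icc ⌈y⌉ ⌊w⌋ := by
      intro z hz
      rw [Finset.mem_image] at hz
      obtain ⟨i, hi, rfl⟩ := hz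
      rw [hJ, Finset.mem_filter] at hi
      obtain ⟨-, g1, g2⟩ := hi
      rw [Finset.mem_Icc, Int.ceil_le, Int.le_floor]
      constructor
      · rw [hy, sub_le_iff_le_add, div_le_iff₀ hδ]
        push_cast
        linarith
      · rw [hw, le_div_iff₀ hδ]
        push_cast
        linarith
    have hinj : Function.Injective (fun i : Fin n => ((i : ℕ) : ℤ)) := by
      intro i j hij
      apply Fin.ext
      have hij' : ((i : ℕ) : ℤ) = ((j : ℕ) : ℤ) := hij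
      exact_mod_cast hij'
    have h1 : J.card ≤ (⌊w⌋ + 1 - ⌈y⌉).toNat := by
      rw [← Finset.card_image_of_injective J hinj, ← Int.card_Icc]
      exact Finset.card_le_card hsub
    have h2 : ((⌊w⌋ + 1 - ⌈y⌉).toNat : ℝ) ≤ w - y + 1 := by
      have h3 : (⌊w⌋ : ℝ) ≤ w := Int.floor_le w
      have h4 : y ≤ (⌈y⌉ : ℝ) := Int.le_ceil y
      have h5 : (((⌊w⌋ + 1 - ⌈y⌉).toNat : ℤ) : ℝ) = ((max (⌊w⌋ + 1 - ⌈y⌉) 0 : ℤ) : ℝ) := by
        rw [Int.toNat_eq_max]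
      have h6 : (((⌊w⌋ + 1 - ⌈y⌉).toNat : ℤ) : ℝ) = ((⌊w⌋ + 1 - ⌈y⌉).toNat : ℝ) := by
        push_cast
        rfl
      rw [← h6, h5]
      push_cast
      refine max_le (by linarith) ?_
      have : 0 ≤ (t - s) / δ := by
        apply div_nonneg _ hδ.le
        linarith
      linarith
    have h3 : (J.card : ℝ) ≤ ((⌊w⌋ + 1 - ⌈y⌉).toNat : ℝ) := by exact_mod_cast h1
    have h4 : 1 ≤ (t - s) / δ := by
      rw [le_div_iff₀ hδ]
      linarith
    linarith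
  calc (S.card : ℝ) ≤ ((J.biUnion fun i => S.filter fun j => E1 + ((i : ℕ) : ℝ) * δ ≤ E j ∧
        E j ≤ E1 + (((i : ℕ) : ℝ) + 1) * δ).card : ℝ) := by exact_mod_cast Finset.card_le_card hcov
    _ ≤ ∑ i ∈ J, (((S.filter fun j => E1 + ((i : ℕ) : ℝ) * δ ≤ E j ∧
        E j ≤ E1 + (((i : ℕ) : ℝ) + 1) * δ).card : ℕ) : ℝ) := by
        exact_mod_cast Finset.card_biUnion_le
    _ ≤ ∑ _i ∈ J, X := Finset.sum_le_sum fun i _ => hcell i
    _ = J.card * X := by rw [Finset.sum_const, nsmul_eq_mul]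
    _ ≤ _ := mul_le_mul_of_nonneg_right hJc hX

/-- every window contains many cells of the grid -/
theorem grid_low (E1 δ : ℝ) (n : ℕ) (hδ : 0 < δ) {ι : Type} [Fintype ι] (E : ι → ℝ)
    (s t : ℝ) (hs : E1 ≤ s) (ht : t ≤ E1 + n * δ) (X : ℝ) (hX : 0 ≤ X)
    (hst : 8 * δ ≤ t - s)
    (hcell : ∀ i : Fin n, X ≤ (((Finset.univ.filter fun j => E1 + ((i : ℕ) : ℝ) * δ ≤ E j ∧
      E j ≤ E1 + (((i : ℕ) : ℝ) + 1) * δ).card : ℕ) : ℝ)) :
    1 / 4 * ((t - s) / δ) * X ≤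
      ((Finset.univ.filter fun j => s ≤ E j ∧ E j ≤ t).card : ℝ) := by
  classical
  -- every second cell inside the window
  obtain ⟨a, ha⟩ : ∃ a : ℕ, a = ⌈(s - E1) / δ⌉₊ := ⟨_, rfl⟩
  obtain ⟨m, hm⟩ : ∃ m : ℕ, m = ⌊(t - s) / (2 * δ)⌋₊ - 1 := ⟨_, rfl⟩
  have hx0 : 0 ≤ (s - E1) / δ := div_nonneg (by linarith) hδ.le
  have ha1 : (s - E1) / δ ≤ a := by rw [ha]; exact Nat.le_ceil _
  have ha2 : (a : ℝ) < (s - E1) / δ + 1 := by rw [ha]; exact Nat.ceil_lt_add_one hx0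
  rw [div_le_iff₀ hδ] at ha1
  have ha2' : (a : ℝ) * δ < (s - E1) + δ := by
    have := mul_lt_mul_of_pos_right ha2 hδ
    have e : ((s - E1) / δ + 1) * δ = (s - E1) + δ := by field_simp
    linarith
  have hf1 : (⌊(t - s) / (2 * δ)⌋₊ : ℝ) ≤ (t - s) / (2 * δ) :=
    Nat.floor_le (div_nonneg (by linarith) (by positivity))
  have hf2 : (t - s) / (2 * δ) < ⌊(t - s) / (2 * δ)⌋₊ + 1 := Nat.lt_floor_add_one _
  have h4 : 4 ≤ (t - s) / (2 * δ) := by
    rw [le_div_iff₀ (by positivity)]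
    linarith
  have hfl : 4 ≤ ⌊(t - s) / (2 * δ)⌋₊ := Nat.le_floor (by exact_mod_cast h4)
  have hm1 : (m : ℝ) = (⌊(t - s) / (2 * δ)⌋₊ : ℝ) - 1 := by
    rw [hm]
    push_cast [show 1 ≤ ⌊(t - s) / (2 * δ)⌋₊ by omega]
    ring
  have hmu : (m : ℝ) ≤ (t - s) / (2 * δ) - 1 := by linarith
  have hml : 1 / 4 * ((t - s) / δ) ≤ m := by
    have e : (t - s) / (2 * δ) = 1 / 2 * ((t - s) / δ) := by
      field_simp
    rw [hm1]
    linarith
  have hmu' : (2 * m + 1) * δ ≤ t - s - δ := by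
    have e : ((t - s) / (2 * δ) - 1) * (2 * δ) = (t - s) - 2 * δ := by
      field_simp
    have := mul_le_mul_of_nonneg_right hmu (by positivity : 0 ≤ 2 * δ)
    rw [e] at this
    linarith
  -- the cells a + 2 k, k < m
  have hin : ∀ k : Fin m, a + 2 * (k : ℕ) < n := by
    intro k
    have h5 : ((k : ℕ) : ℝ) + 1 ≤ m := by exact_mod_cast k.2
    have h6 : (a : ℝ) + 2 * ((k : ℕ) : ℝ) < n := by
      by_contra hcon
      push Not at hcon
      have h7 : (n : ℝ) * δ ≤ (a + 2 * ((k : ℕ) : ℝ)) * δ := mul_le_mul_of_nonneg_right hcon hδ.le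
      have h8 : (a + 2 * ((k : ℕ) : ℝ)) * δ = a * δ + 2 * (((k : ℕ) : ℝ)) * δ := by ring
      have h9 : 2 * (((k : ℕ) : ℝ)) * δ ≤ 2 * m * δ := by
        have : ((k : ℕ) : ℝ) ≤ m := by linarith
        gcongr
      have h10 : 2 * (m : ℝ) * δ = (2 * m + 1) * δ - δ := by ring
      linarith
    exact_mod_cast h6
  have hdisj : (Set.univ : Set (Fin m)).PairwiseDisjoint fun k : Fin m =>
      Finset.univ.filter fun j => E1 + ((a + 2 * (k : ℕ) : ℕ) : ℝ) * δ ≤ E j ∧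
      E j ≤ E1 + (((a + 2 * (k : ℕ) : ℕ) : ℝ) + 1) * δ := by
    intro k _ l _ hkl
    rw [Function.onFun, Finset.disjoint_left]
    intro j hj1 hj2
    rw [Finset.mem_filter] at hj1 hj2
    obtain ⟨-, p1, p2⟩ := hj1
    obtain ⟨-, p3, p4⟩ := hj2
    have key : ∀ x y : ℕ, x < y → E1 + ((a + 2 * y : ℕ) : ℝ) * δ ≤ E j →
        E j ≤ E1 + (((a + 2 * x : ℕ) : ℝ) + 1) * δ → False := by
      intro x y hxy q1 q2
      have h5 : (x : ℝ) + 1 ≤ y := by exact_mod_cast hxy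
      push_cast at q1 q2
      have h6 : ((a : ℝ) + 2 * x + 2) * δ ≤ (a + 2 * y) * δ := by
        apply mul_le_mul_of_nonneg_right _ hδ.le
        linarith
      have h7 : ((a : ℝ) + 2 * x + 2) * δ = (a + 2 * x + 1) * δ + δ := by ring
      linarith
    rcases lt_trichotomy (k : ℕ) (l : ℕ) with h | h | h
    · exact key _ _ h p3 p2
    · exact hkl (Fin.ext h)
    · exact key _ _ h p1 p4
  have hsub : (Finset.univ.biUnion fun k : Fin m =>
      Finset.univ.filter fun j => E1 + ((a + 2 * (k : ℕ) : ℕ) : ℝ) * δ ≤ E j ∧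
      E j ≤ E1 + (((a + 2 * (k : ℕ) : ℕ) : ℝ) + 1) * δ) ⊆
      Finset.univ.filter fun j => s ≤ E j ∧ E j ≤ t := by
    intro j hj
    rw [Finset.mem_biUnion] at hj
    obtain ⟨k, -, hk⟩ := hj
    rw [Finset.mem_filter] at hk ⊢
    obtain ⟨-, p1, p2⟩ := hk
    push_cast at p1 p2
    have h5 : ((k : ℕ) : ℝ) + 1 ≤ m := by exact_mod_cast k.2
    have h6 : 0 ≤ 2 * ((k : ℕ) : ℝ) * δ := by positivity
    refine ⟨Finset.mem_univ _, ?_, ?_⟩
    · have : (a + 2 * ((k : ℕ) : ℝ)) * δ = a * δ + 2 * ((k : ℕ) : ℝ) * δ := by ring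
      linarith
    · have h7 : ((a : ℝ) + 2 * ((k : ℕ) : ℝ) + 1) * δ = a * δ + (2 * ((k : ℕ) : ℝ) + 1) * δ := by ring
      have h8 : (2 * ((k : ℕ) : ℝ) + 1) * δ ≤ (2 * m + 1) * δ := by
        have : ((k : ℕ) : ℝ) ≤ m := by linarith
        gcongr
      linarith
  calc 1 / 4 * ((t - s) / δ) * X ≤ m * X := mul_le_mul_of_nonneg_right hml hX
    _ = ∑ _k : Fin m, X := by
        rw [Finset.sum_const, Finset.card_univ, Fintype.card_fin, nsmul_eq_mul]
    _ ≤ ∑ k : Fin m, (((Finset.univ.filter fun j => E1 + ((a + 2 * (k : ℕ) : ℕ) : ℝ) * δ ≤ E j ∧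
      E j ≤ E1 + (((a + 2 * (k : ℕ) : ℕ) : ℝ) + 1) * δ).card : ℕ) : ℝ) :=
        Finset.sum_le_sum fun k _ => hcell ⟨a + 2 * (k : ℕ), hin k⟩
    _ = ((Finset.univ.biUnion fun k : Fin m =>
      Finset.univ.filter fun j => E1 + ((a + 2 * (k : ℕ) : ℕ) : ℝ) * δ ≤ E j ∧
      E j ≤ E1 + (((a + 2 * (k : ℕ) : ℕ) : ℝ) + 1) * δ).card : ℝ) := by
        rw [Finset.card_biUnion (fun k hk l hl hkl => hdisj (Set.mem_univ k) (Set.mem_univ l) hkl)]
        push_cast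
        rfl
    _ ≤ _ := by exact_mod_cast Finset.card_le_card hsub

end Pool.Agent.Zk11.QE
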