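import Pool.Agent.Zk11.QE.Fq

/-! Quantum ergodicity in all windows simultaneously: conclusion. -/

set_option autoImplicit false
set_option linter.unusedSectionVars false

open scoped BigOperators Topology ENNReal
open MeasureTheory Filter

namespace Pool.Agent.Zk11.QE

open Pool.Agent.Zk11.QD
open Pool.Agent.W788.MFP.Four (T e NN adj adj_neg e_comm e_add_left e_add e_zero e_neg e_neg_left
  e_normSq sum_e NN_pos card_T e_single)
open Pool.Agent.Zk60.LL.Det (EB)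
open Pool.Agent.Zk96.QE (bx)

variable {d : ℕ}

theorem sl_ev3 (d : ℕ) (p1 p2 c w0 k0 D γ' : ℝ) (hp1 : 0 < p1) (hp2 : 0 < p2) (hc : 0 < c)
    (hw0 : 0 < w0) (hk0 : 0 < k0) (hD : 0 < D) (hγ' : 0 < γ') :
    ∃ l0 : ℝ, 0 < l0 ∧ ∀ lam : ℝ, 0 < lam → lam < l0 →
      2 * lam ^ p1 ≤ 1 ∧ lam ^ γ' ≤ w0 ∧ 8 * lam ^ p2 ≤ 1 ∧ 96 * d * lam ^ ((1 : ℝ) / 2) ≤ 1 ∧
      12 / k0 * lam ^ c ≤ 1 ∧ lam ^ γ' ≤ D := by
  have hid : Tendsto (fun σ : ℝ => σ) (𝓝[>] (0 : ℝ)) (𝓝 0) := tendsto_nhdsWithin_of_tendsto_nhds tendsto_id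
  have hpow : ∀ a : ℝ, 0 < a → Tendsto (fun σ : ℝ => σ ^ a) (𝓝[>] (0 : ℝ)) (𝓝 0) := by
    intro a ha
    have h1 := (Real.continuousAt_rpow_const 0 a (Or.inr ha.le)).tendsto.comp hid
    rw [Real.zero_rpow ha.ne'] at h1
    exact h1
  have h1 : ∀ᶠ σ in 𝓝[>] (0 : ℝ), 2 * σ ^ p1 ≤ 1 := by
    have := (hpow p1 hp1).const_mul 2
    rw [mul_zero] at this
    exact this.eventually_le_const one_pos
  have h2 : ∀ᶠ σ in 𝓝[>] (0 : ℝ), σ ^ γ' ≤ w0 := (hpow γ' hγ').eventually_le_const hw0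
  have h3 : ∀ᶠ σ in 𝓝[>] (0 : ℝ), 8 * σ ^ p2 ≤ 1 := by
    have := (hpow p2 hp2).const_mul 8
    rw [mul_zero] at this
    exact this.eventually_le_const one_pos
  have h4 : ∀ᶠ σ in 𝓝[>] (0 : ℝ), 96 * (d : ℝ) * σ ^ ((1 : ℝ) / 2) ≤ 1 := by
    have := (hpow ((1 : ℝ) / 2) (by norm_num)).const_mul (96 * (d : ℝ))
    rw [mul_zero] at this
    exact this.eventually_le_const one_pos
  have h5 : ∀ᶠ σ in 𝓝[>] (0 : ℝ), 12 / k0 * σ ^ c ≤ 1 := by
    have := (hpow c hc).const_mul (12 / k0)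
    rw [mul_zero] at this
    exact this.eventually_le_const one_pos
  have h6 : ∀ᶠ σ in 𝓝[>] (0 : ℝ), σ ^ γ' ≤ D := (hpow γ' hγ').eventually_le_const hD
  have hall := ((((h1.and h2).and h3).and h4).and h5).and h6
  rw [eventually_nhdsWithin_iff, Metric.eventually_nhds_iff] at hall
  obtain ⟨l0, hl0, hall⟩ := hall
  refine ⟨l0, hl0, fun lam hl hlt => ?_⟩
  obtain ⟨⟨⟨⟨⟨a1, a2⟩, a3⟩, a4⟩, a5⟩, a6⟩ := hall (y := lam)
    (by rw [Real.dist_eq, sub_zero, abs_of_pos hl]; exact hlt) hl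
  exact ⟨a1, a2, a3, a4, a5, a6⟩

/-- **quantum ergodicity in all windows** -/
theorem main2 (hd : 3 ≤ d) (E1 E2 : ℝ) (hE1 : 0 < E1)
    (hE2 : E2 < 4 * d) (b v0 β γ θ : ℝ)
    (hv0 : 0 < v0) (hβ : β < 9 / 4) (hγ : γ < 5 / 2) (hθ2 : 2 < θ) (hθβ : 2 * β - 2 < θ)
    (hθγ : γ < θ) :
    ∃ c K l0 k0 : ℝ, 0 < c ∧ 0 < K ∧ 0 < l0 ∧ l0 ≤ 1 ∧ 0 < k0 ∧
      ∀ (μ : Measure ℝ) [IsProbabilityMeasure μ], (∀ᵐ s ∂μ, |s| ≤ b) →
      v0 ≤ ∫ s, (s - ∫ t, t ∂μ) ^ 2 ∂μ → ∀ lam : ℝ, 0 < lam → lam < l0 →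
      ∀ (L : ℕ) [NeZero L], K * (1 / lam) ^ 2 * Real.log (1 / lam) ≤ L → (L : ℝ) ≤ lam ^ (-β) →
      ∃ Bad : Set (T d L → ℝ), MeasurableSet Bad ∧
        (PL (T d L) μ).real Bad ≤ Real.exp (-(1 / lam)) ∧
        ∀ V, V ∉ Bad → ∀ (ψ : T d L → T d L → ℂ) (E : T d L → ℝ), EB lam V ψ E →
        ∀ s t : ℝ, E1 ≤ s → t ≤ E2 → lam ^ γ ≤ t - s →
        k0 * (t - s) * (Fintype.card (T d L) : ℝ) ≤
          ((Finset.univ.filter fun j => s ≤ E j ∧ E j ≤ t).card : ℝ) ∧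
        ∀ S : Finset (T d L), (∀ j ∈ S, (s ≤ E j ∧ E j ≤ t) ∧
          ∃ (y : T d L) (ℓ : Fin d → ℕ), (∀ i, ℓ i ≤ L) ∧
            lam ^ c < ∑ k ∈ Finset.univ.filter (fun k => |E k - E j| ≤ lam ^ θ),
              ‖∑ x ∈ bx y ℓ, (starRingEnd ℂ) (ψ k x) * ψ j x -
                (if k = j then ((∏ i, ((ℓ i : ℝ) / L) : ℝ) : ℂ) else 0)‖ ^ 2) →
        (S.card : ℝ) ≤ lam ^ c * ((Finset.univ.filter fun j => s ≤ E j ∧ E j ≤ t).card : ℝ) := by
  classical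
  obtain ⟨γ1, hγ1⟩ : ∃ γ1 : ℝ, γ1 = max γ 1 := ⟨_, rfl⟩
  obtain ⟨U, hU⟩ : ∃ U : ℝ, U = min (5 / 2) θ := ⟨_, rfl⟩
  have hγ1a : γ ≤ γ1 := by rw [hγ1]; exact le_max_left _ _
  have hγ1b : 1 ≤ γ1 := by rw [hγ1]; exact le_max_right _ _
  have hU1 : U ≤ 5 / 2 := by rw [hU]; exact min_le_left _ _
  have hU2 : U ≤ θ := by rw [hU]; exact min_le_right _ _
  have hγ1c : γ1 < U := by
    rw [hγ1, hU]
    exact max_lt (lt_min hγ hθγ) (lt_min (by norm_num) (by linarith))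
  obtain ⟨γ2, hγ2⟩ : ∃ γ2 : ℝ, γ2 = (2 * γ1 + U) / 3 := ⟨_, rfl⟩
  obtain ⟨γ3, hγ3⟩ : ∃ γ3 : ℝ, γ3 = (γ1 + 2 * U) / 3 := ⟨_, rfl⟩
  obtain ⟨c, K, w0, l0, k0, hc, hK, hw0, hl0, hl01, hk0, hpiece⟩ :=
    piece2 hd E1 E2 hE1 hE2 b v0 β γ3 θ hv0 hβ (by rw [hγ3]; linarith) hθ2 hθβ
      (by rw [hγ3]; linarith)
  rcases le_or_gt E2 E1 with hE | hE
  · refine ⟨c, K, l0, k0, hc, hK, hl0, hl01, hk0, ?_⟩
    intro μ _ hμb hVar lam h0 hlt L _ hKL hLβ
    refine ⟨∅, MeasurableSet.empty, by simp only [measureReal_empty]; positivity, ?_⟩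
    intro V _ ψ E _ s t hs ht hst
    have := Real.rpow_pos_of_pos h0 γ
    linarith
  obtain ⟨l1, hl1, hsl⟩ := sl_ev3 d (γ3 - γ2) (γ2 - γ1) c w0 k0 (E2 - E1) γ2
    (by rw [hγ2, hγ3]; linarith) (by rw [hγ2]; linarith) hc hw0 hk0 (by linarith)
    (by rw [hγ2]; linarith)
  refine ⟨c, K, min l0 l1, k0 / 4, hc, hK, lt_min hl0 hl1, (min_le_left _ _).trans hl01,
    by positivity, ?_⟩
  intro μ _ hμb hVar lam h0 hlt L _ hKL hLβ
  have hlt0 : lam < l0 := hlt.trans_le (min_le_left _ _)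
  have hle1 : lam ≤ 1 := hlt0.le.trans hl01
  obtain ⟨a1, a2, a3, a4, a5, a6⟩ := hsl lam h0 (hlt.trans_le (min_le_right _ _))
  have hp2 : 0 < lam ^ γ2 := Real.rpow_pos_of_pos h0 _
  -- the grid
  obtain ⟨n, hn⟩ : ∃ n : ℕ, n = ⌈(E2 - E1) / lam ^ γ2⌉₊ := ⟨_, rfl⟩
  have hn1 : 1 ≤ n := by
    rw [hn, Nat.one_le_ceil_iff]
    have : 0 < E2 - E1 := by linarith
    positivity
  have hnR : (1 : ℝ) ≤ n := by exact_mod_cast hn1
  have hn0 : (0 : ℝ) < n := by linarith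
  have hna : (E2 - E1) / lam ^ γ2 ≤ n := by rw [hn]; exact Nat.le_ceil _
  have hnb : (n : ℝ) < (E2 - E1) / lam ^ γ2 + 1 := by
    rw [hn]
    refine Nat.ceil_lt_add_one ?_
    have : 0 < E2 - E1 := by linarith
    positivity
  obtain ⟨δ, hδ⟩ : ∃ δ : ℝ, δ = (E2 - E1) / n := ⟨_, rfl⟩
  have hE0 : 0 < E2 - E1 := by linarith
  have hδ0 : 0 < δ := by rw [hδ]; positivity
  have hδn : n * δ = E2 - E1 := by rw [hδ]; field_simp
  have hδu : δ ≤ lam ^ γ2 := by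
    rw [hδ, div_le_iff₀ hn0]
    rw [div_le_iff₀ hp2] at hna
    linarith
  have hone : 1 ≤ (E2 - E1) / lam ^ γ2 := by
    rw [le_div_iff₀ hp2]
    linarith
  have hnc : (n : ℝ) ≤ 2 * ((E2 - E1) / lam ^ γ2) := by linarith
  have hδl : lam ^ γ3 ≤ δ := by
    have e1 : lam ^ γ3 = lam ^ (γ3 - γ2) * lam ^ γ2 := by
      rw [← Real.rpow_add h0]
      congr 1
      ring
    have e2 : 2 * lam ^ γ3 ≤ lam ^ γ2 := by
      rw [e1]
      calc 2 * (lam ^ (γ3 - γ2) * lam ^ γ2) = (2 * lam ^ (γ3 - γ2)) * lam ^ γ2 := by ring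
        _ ≤ 1 * lam ^ γ2 := mul_le_mul_of_nonneg_right a1 hp2.le
        _ = _ := one_mul _
    rw [hδ, le_div_iff₀ hn0]
    calc lam ^ γ3 * n ≤ lam ^ γ3 * (2 * ((E2 - E1) / lam ^ γ2)) :=
          mul_le_mul_of_nonneg_left hnc (Real.rpow_nonneg h0.le _)
      _ = (2 * lam ^ γ3) * ((E2 - E1) / lam ^ γ2) := by ring
      _ ≤ lam ^ γ2 * ((E2 - E1) / lam ^ γ2) := mul_le_mul_of_nonneg_right e2 (by positivity)
      _ = _ := by field_simp
  have hpc := fun i : Fin n => hpiece μ hμb hVar lam h0 hlt0 L hKL hLβ (E1 + i * δ)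
    (E1 + (i + 1) * δ) (by
      have : 0 ≤ ((i : ℕ) : ℝ) * δ := by positivity
      linarith) (by
      have h3 : ((i : ℕ) : ℝ) + 1 ≤ n := by exact_mod_cast i.2
      have h4 : (((i : ℕ) : ℝ) + 1) * δ ≤ n * δ := mul_le_mul_of_nonneg_right h3 hδ0.le
      linarith) (by
      have : E1 + (((i : ℕ) : ℝ) + 1) * δ - (E1 + ((i : ℕ) : ℝ) * δ) = δ := by ring
      rw [this]
      exact hδl) (by
      have : E1 + (((i : ℕ) : ℝ) + 1) * δ - (E1 + ((i : ℕ) : ℝ) * δ) = δ := by ring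
      rw [this]
      exact hδu.trans a2)
  choose Bad hBm hBp hBc using hpc
  refine ⟨⋃ i, Bad i, MeasurableSet.iUnion hBm, ?_, ?_⟩
  · refine (measureReal_iUnion_fintype_le Bad).trans ?_
    refine (Finset.sum_le_sum fun i _ => hBp i).trans ?_
    rw [Finset.sum_const, Finset.card_univ, Fintype.card_fin, nsmul_eq_mul]
    have e1 : Real.exp (-(2 / lam)) = Real.exp (-(1 / lam)) * Real.exp (-(1 / lam)) := by
      rw [← Real.exp_add]
      congr 1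
      ring
    have e2 : (n : ℝ) * 2 ≤ Real.exp (1 / lam) := by
      have f1 : (1 / lam) ^ 3 / 6 ≤ Real.exp (1 / lam) := by
        have := Real.pow_div_factorial_le_exp (1 / lam) (by positivity) 3
        norm_num at this
        simpa using this
      refine le_trans ?_ f1
      have f2 : (E2 - E1) / lam ^ γ2 ≤ 4 * d * (1 / lam) ^ ((5 : ℝ) / 2) := by
        have g1 : E2 - E1 ≤ 4 * d := by linarith
        have g2 : 1 / lam ^ γ2 ≤ (1 / lam) ^ ((5 : ℝ) / 2) := by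
          rw [one_div, one_div, Real.inv_rpow h0.le]
          refine inv_anti₀ (Real.rpow_pos_of_pos h0 _) ?_
          exact Real.rpow_le_rpow_of_exponent_ge h0 hle1 (by rw [hγ2]; linarith)
        rw [div_eq_mul_one_div]
        exact mul_le_mul g1 g2 (by positivity) (by positivity)
      have f3 : (1 / lam) ^ 3 = (1 / lam) ^ ((5 : ℝ) / 2) * (1 / lam) ^ ((1 : ℝ) / 2) := by
        rw [← Real.rpow_natCast, ← Real.rpow_add (by positivity)]
        norm_num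
      have f4 : (1 / lam) ^ ((1 : ℝ) / 2) * lam ^ ((1 : ℝ) / 2) = 1 := by
        rw [← Real.mul_rpow (by positivity) h0.le, one_div_mul_cancel h0.ne', Real.one_rpow]
      have f5 : 0 < (1 / lam) ^ ((1 : ℝ) / 2) := by positivity
      have f6 : 96 * (d : ℝ) ≤ (1 / lam) ^ ((1 : ℝ) / 2) := by
        calc 96 * (d : ℝ) = 96 * d * ((1 / lam) ^ ((1 : ℝ) / 2) * lam ^ ((1 : ℝ) / 2)) := by
              rw [f4, mul_one]
          _ = (96 * d * lam ^ ((1 : ℝ) / 2)) * (1 / lam) ^ ((1 : ℝ) / 2) := by ring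
          _ ≤ 1 * (1 / lam) ^ ((1 : ℝ) / 2) := mul_le_mul_of_nonneg_right a4 f5.le
          _ = _ := one_mul _
      have f7 : 0 < (1 / lam) ^ ((5 : ℝ) / 2) := by positivity
      rw [f3]
      have f8 : (n : ℝ) * 2 ≤ 16 * d * (1 / lam) ^ ((5 : ℝ) / 2) := by linarith
      refine f8.trans ?_
      have f9 : (1 / lam) ^ ((5 : ℝ) / 2) * (96 * d) ≤
          (1 / lam) ^ ((5 : ℝ) / 2) * (1 / lam) ^ ((1 : ℝ) / 2) :=
        mul_le_mul_of_nonneg_left f6 f7.le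
      linarith
    have e3 : Real.exp (1 / lam) * Real.exp (-(1 / lam)) = 1 := by
      rw [← Real.exp_add]
      simp
    have e4 := Real.exp_pos (-(1 / lam))
    calc (n : ℝ) * (2 * Real.exp (-(2 / lam))) =
          (n * 2) * (Real.exp (-(1 / lam)) * Real.exp (-(1 / lam))) := by rw [e1]; ring
      _ ≤ Real.exp (1 / lam) * (Real.exp (-(1 / lam)) * Real.exp (-(1 / lam))) :=
          mul_le_mul_of_nonneg_right e2 (by positivity)
      _ = (Real.exp (1 / lam) * Real.exp (-(1 / lam))) * Real.exp (-(1 / lam)) := by ring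
      _ = _ := by rw [e3, one_mul]
  · intro V hV ψ E hE s t hs ht hst
    have hVi : ∀ i, V ∉ Bad i := fun i hi => hV (Set.mem_iUnion.2 ⟨i, hi⟩)
    have hN : (0 : ℝ) < (Fintype.card (T d L) : ℝ) := by exact_mod_cast Fintype.card_pos
    have hγγ : lam ^ γ1 ≤ t - s :=
      (Real.rpow_le_rpow_of_exponent_ge h0 hle1 hγ1a).trans hst
    have h8 : 8 * δ ≤ t - s := by
      refine le_trans ?_ hγγ
      have e1 : lam ^ γ2 = lam ^ (γ2 - γ1) * lam ^ γ1 := by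
        rw [← Real.rpow_add h0]
        congr 1
        ring
      have e2 : 0 < lam ^ γ1 := Real.rpow_pos_of_pos h0 _
      calc 8 * δ ≤ 8 * lam ^ γ2 := by linarith
        _ = (8 * lam ^ (γ2 - γ1)) * lam ^ γ1 := by rw [e1]; ring
        _ ≤ 1 * lam ^ γ1 := mul_le_mul_of_nonneg_right a3 e2.le
        _ = _ := one_mul _
    have hdi : ∀ i : Fin n, E1 + (((i : ℕ) : ℝ) + 1) * δ - (E1 + ((i : ℕ) : ℝ) * δ) = δ :=
      fun i => by ring
    have hlow := grid_low E1 δ n hδ0 E s t hs (by rw [hδn]; linarith)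
      (k0 * δ * (Fintype.card (T d L) : ℝ)) (by positivity) h8 (fun i => by
        have := (hBc i V (hVi i) ψ E hE).1
        rw [hdi i] at this
        exact this)
    have hlow' : k0 / 4 * (t - s) * (Fintype.card (T d L) : ℝ) ≤
        ((Finset.univ.filter fun j => s ≤ E j ∧ E j ≤ t).card : ℝ) := by
      refine le_trans (le_of_eq ?_) hlow
      field_simp
    refine ⟨hlow', ?_⟩
    intro S hS
    have hcp : 0 < lam ^ c := Real.rpow_pos_of_pos h0 _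
    have h2c : lam ^ (2 * c) = lam ^ c * lam ^ c := by
      rw [← Real.rpow_add h0]
      congr 1
      ring
    have hcov := grid_cover E1 δ n hδ0 S E s t hs (by rw [hδn]; linarith)
      (fun j hj => (hS j hj).1) (by omega) (lam ^ (2 * c) * δ * (Fintype.card (T d L) : ℝ))
      (by positivity) (by linarith) (fun i => by
        have h3 := (hBc i V (hVi i) ψ E hE).2 (S.filter fun j => E1 + ((i : ℕ) : ℝ) * δ ≤ E j ∧
          E j ≤ E1 + (((i : ℕ) : ℝ) + 1) * δ) (fun j hj => by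
            rw [Finset.mem_filter] at hj
            exact ⟨hj.2, (hS j hj.1).2⟩)
        rw [hdi i] at h3
        exact h3)
    refine hcov.trans ?_
    have e1 : 3 * ((t - s) / δ) * (lam ^ (2 * c) * δ * (Fintype.card (T d L) : ℝ)) =
        (12 / k0 * lam ^ c) * (lam ^ c * (k0 / 4 * (t - s) * (Fintype.card (T d L) : ℝ))) := by
      rw [h2c]
      field_simp
      ring
    rw [e1]
    have e2 : 0 ≤ k0 / 4 * (t - s) * (Fintype.card (T d L) : ℝ) := by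
      have : 0 < t - s := by linarith
      positivity
    calc (12 / k0 * lam ^ c) * (lam ^ c * (k0 / 4 * (t - s) * (Fintype.card (T d L) : ℝ))) ≤
          1 * (lam ^ c * (k0 / 4 * (t - s) * (Fintype.card (T d L) : ℝ))) :=
          mul_le_mul_of_nonneg_right a5 (by positivity)
      _ = lam ^ c * (k0 / 4 * (t - s) * (Fintype.card (T d L) : ℝ)) := one_mul _
      _ ≤ _ := mul_le_mul_of_nonneg_left hlow' hcp.le

end Pool.Agent.Zk11.QE
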