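import Pool.Agent.Zk11.QE.Mv
import Pool.Agent.Zk11.QD.Fin2

/-! The self-consistent equation on small tori. -/

set_option autoImplicit false
set_option linter.unusedSectionVars false

open scoped BigOperators Topology ENNReal
open MeasureTheory Filter

namespace Pool.Agent.Zk11.QE

open Pool.Agent.Zk11.QD
open Pool.Agent.W788.MFP.Four (T e NN adj adj_neg e_comm e_add_left e_add e_zero e_neg e_neg_left
  e_normSq sum_e NN_pos card_T e_single)

section
variable {ι : Type} [Fintype ι] [Nonempty ι]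

/-- solutions in an invariant compact set -/
theorem mde_in (a : ι → ℝ) (z : ℂ) (hz : 0 < z.im) (σ : ℝ) (K : Set ℂ) (hKc : IsCompact K)
    (hKne : K.Nonempty) (hK0 : ∀ m ∈ K, 0 < m.im) (hmap : ∀ m ∈ K, ph a z σ m ∈ K) :
    ∃ m ∈ K, ph a z σ m = m := by
  classical
  have hcont : ContinuousOn (ph a z σ) K := by
    unfold ph
    refine ContinuousOn.mul continuousOn_const (continuousOn_finsetSum _ fun k _ => ?_)
    refine ContinuousOn.inv₀ ?_ ?_
    · unfold Dn
      fun_prop
    · intro m hm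
      have hm0 : 0 < m.im := hK0 m hm
      exact Dn_ne a z σ m k (by positivity)
  have hcf : ContinuousOn (fun m => ‖ph a z σ m - m‖ ^ 2 / (m.im * (ph a z σ m).im)) K := by
    refine ContinuousOn.div ?_ ?_ ?_
    · exact ((hcont.sub continuousOn_id).norm).pow 2
    · exact (Complex.continuous_im.continuousOn).mul
        (Complex.continuous_im.comp_continuousOn hcont)
    · intro m hm
      have h1 := hK0 m hm
      have h2 := hK0 _ (hmap m hm)
      exact (mul_pos h1 h2).ne'
  obtain ⟨m, hm, hmin⟩ := hKc.exists_isMinOn hKne hcf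
  refine ⟨m, hm, ?_⟩
  by_contra hne
  have hm1 : 0 < m.im := hK0 m hm
  set m' := ph a z σ m with hm'
  have hmK := hmap m hm
  have hm1' : 0 < m'.im := hK0 _ hmK
  have h0 := hmin hmK
  simp only [Set.mem_ofPred_eq] at h0
  have hm'' := hmap m' hmK
  have hm1'' : 0 < (ph a z σ m').im := hK0 _ hm''
  have hd := ph_diff a z σ m' m hz hm1'.le hm1.le
  have w1 := ward a z σ m
  have w2 := ward a z σ m'
  set X := (Fintype.card ι : ℝ)⁻¹ * ∑ k, ‖(Dn a z σ m k)⁻¹‖ ^ 2 with hX
  set X' := (Fintype.card ι : ℝ)⁻¹ * ∑ k, ‖(Dn a z σ m' k)⁻¹‖ ^ 2 with hX'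
  have hX0 : 0 < X := by
    rw [← hm'] at w1
    by_contra hcon
    push Not at hcon
    have : (z.im + σ ^ 2 * m.im) * X ≤ 0 := mul_nonpos_of_nonneg_of_nonpos (by positivity) hcon
    linarith
  have hX0' : 0 < X' := by
    by_contra hcon
    push Not at hcon
    have : (z.im + σ ^ 2 * m'.im) * X' ≤ 0 := mul_nonpos_of_nonneg_of_nonpos (by positivity) hcon
    linarith
  have hnn : 0 < ‖m' - m‖ := norm_pos_iff.2 (sub_ne_zero.2 hne)
  rw [← hm'] at hd
  -- the quotient at the next point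
  have h3 : ‖ph a z σ m' - m'‖ ^ 2 / (m'.im * (ph a z σ m').im) <
      ‖m' - m‖ ^ 2 / (m.im * m'.im) := by
    rw [div_lt_div_iff₀ (by positivity) (by positivity)]
    rw [← hm'] at w1
    have e1 : (σ ^ 2 * m.im) * (σ ^ 2 * m'.im) < (z.im + σ ^ 2 * m.im) * (z.im + σ ^ 2 * m'.im) := by
      nlinarith [mul_pos hz hz, mul_nonneg (mul_nonneg hz.le (sq_nonneg σ)) hm1.le,
        mul_nonneg (mul_nonneg hz.le (sq_nonneg σ)) hm1'.le]
    calc ‖ph a z σ m' - m'‖ ^ 2 * (m.im * m'.im)
        ≤ ((σ ^ 2 * ‖m' - m‖) ^ 2 * (X' * X)) * (m.im * m'.im) :=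
          mul_le_mul_of_nonneg_right hd (by positivity)
      _ = (X' * X * ‖m' - m‖ ^ 2) * ((σ ^ 2 * m.im) * (σ ^ 2 * m'.im)) := by ring
      _ < (X' * X * ‖m' - m‖ ^ 2) * ((z.im + σ ^ 2 * m.im) * (z.im + σ ^ 2 * m'.im)) :=
          mul_lt_mul_of_pos_left e1 (by positivity)
      _ = ‖m' - m‖ ^ 2 * (((z.im + σ ^ 2 * m.im) * X) * ((z.im + σ ^ 2 * m'.im) * X')) := by ring
      _ = ‖m' - m‖ ^ 2 * (m'.im * (ph a z σ m').im) := by rw [← w1, ← w2]
  rw [← hm'] at h0
  linarith

end

variable {d L : ℕ} [NeZero L] {s R : ℝ}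

/-- the transforms on small tori are close to the transforms on the lattice -/
theorem lap_close (hd : 3 ≤ d) (h : Cut s R L) (w : ℂ) (hw : s ≤ w.im) :
    ‖Lap (GaL d L) w - Lap (GG d) w‖ ≤ (2 * d + 2) * s ^ 2 := by
  have hs := h.s0
  have hs1 := h.s1
  have hR1 := h.R1
  have hw0 : 0 < w.im := by linarith
  have hLp := Lpos (L := L)
  set Tf : ℝ := (L : ℝ) / 32 with hTf
  have hTf0 : 0 < Tf := by positivity
  have i1 := lap_integrable (GaL d L) GaL_cont 4 GaL_le w hw0
  have i2 := lap_integrable (GG d) GG_cont 4 GG_le w hw0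
  -- pointwise
  have hp1 : ∀ t, 0 < t → ‖GaL d L t - GG d t‖ ≤ if t ≤ Tf then (2 * d) * (1 / 4 : ℝ) ^ L else 2 := by
    intro t ht
    unfold GaL GG
    rw [← mul_sub, norm_mul, fz_norm, one_mul]
    split_ifs with hc
    · have h1 : ‖jL L t - J t‖ ≤ 2 * (1 / 4 : ℝ) ^ L := jL_J t (by
        rw [abs_of_pos ht]
        rw [hTf] at hc
        linarith)
      have h2 : ‖jL L t ^ d - J t ^ d‖ ≤ d * ‖jL L t - J t‖ := by
        have h3 : ∀ n : ℕ, ‖jL L t ^ n - J t ^ n‖ ≤ n * ‖jL L t - J t‖ := by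
          intro n
          induction n with
          | zero => simp
          | succ n ih =>
            have e1 : jL L t ^ (n + 1) - J t ^ (n + 1) =
                (jL L t ^ n - J t ^ n) * jL L t + J t ^ n * (jL L t - J t) := by ring
            rw [e1]
            refine (norm_add_le _ _).trans ?_
            rw [norm_mul, norm_mul, norm_pow]
            have e2 := jL_le (L := L) t
            have e3 : ‖J t‖ ^ n ≤ 1 := pow_le_one₀ (norm_nonneg _) (J_le t)
            have e4 := norm_nonneg (jL L t - J t)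
            have e5 := norm_nonneg (jL L t ^ n - J t ^ n)
            push_cast
            calc _ ≤ (n * ‖jL L t - J t‖) * 1 + 1 * ‖jL L t - J t‖ := by gcongr
              _ = _ := by ring
        exact h3 d
      calc ‖jL L t ^ d - J t ^ d‖ ≤ d * (2 * (1 / 4 : ℝ) ^ L) :=
            h2.trans (mul_le_mul_of_nonneg_left h1 (by positivity))
        _ = _ := by ring
    · refine (norm_sub_le _ _).trans ?_
      rw [norm_pow, norm_pow]
      have e2 : ‖jL L t‖ ^ d ≤ 1 := pow_le_one₀ (norm_nonneg _) (jL_le t)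
      have e3 : ‖J t‖ ^ d ≤ 1 := pow_le_one₀ (norm_nonneg _) (J_le t)
      linarith
  have h3 : ENNReal.ofReal ‖Lap (GaL d L) w - Lap (GG d) w‖ ≤
      ENNReal.ofReal ((2 * d) * (1 / 4 : ℝ) ^ L * (1 / s) + 2 * (Real.exp (-(s * Tf)) / s)) := by
    unfold Lap
    rw [← mul_sub, norm_mul, Complex.norm_I, one_mul, ← integral_sub i1 i2, ofReal_norm]
    refine (enorm_integral_le_lintegral_enorm _).trans ?_
    have e1 : ∫⁻ t in Set.Ioi (0 : ℝ), ‖Complex.exp (Complex.I * w * t) * GaL d L t -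
        Complex.exp (Complex.I * w * t) * GG d t‖ₑ ≤
        ∫⁻ t in Set.Ioi (0 : ℝ), (ENNReal.ofReal ((2 * d) * (1 / 4 : ℝ) ^ L *
          Real.exp (-(s * t))) + Set.indicator (Set.Ioi Tf)
            (fun t => ENNReal.ofReal (2 * Real.exp (-(s * t)))) t) := by
      refine setLIntegral_mono' measurableSet_Ioi fun t ht => ?_
      have ht0 : 0 < t := ht
      have e2 := hp1 t ht0
      have e3 : Real.exp (-(w.im * t)) ≤ Real.exp (-(s * t)) := by
        apply Real.exp_le_exp.2
        nlinarith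
      rw [← mul_sub, ← ofReal_norm, norm_mul, exp_norm]
      by_cases hc : t ≤ Tf
      · rw [if_pos hc] at e2
        refine le_add_right (ENNReal.ofReal_le_ofReal ?_)
        rw [mul_comm]
        exact mul_le_mul e2 e3 (Real.exp_pos _).le (by positivity)
      · rw [if_neg hc] at e2
        rw [Set.indicator_of_mem (show t ∈ Set.Ioi Tf from not_le.1 hc)]
        refine le_add_left (ENNReal.ofReal_le_ofReal ?_)
        rw [mul_comm]
        exact mul_le_mul e2 e3 (Real.exp_pos _).le (by positivity)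
    refine e1.trans ?_
    rw [lintegral_add_left (by fun_prop), ENNReal.ofReal_add (by positivity) (by positivity)]
    refine add_le_add (le_of_eq ?_) ?_
    · rw [← ofReal_integral_eq_lintegral_ofReal ((exp_int s hs).const_mul _)
        (Eventually.of_forall fun t => by positivity), integral_const_mul, exp_val s hs]
    · rw [lintegral_indicator measurableSet_Ioi]
      have e3 : (volume.restrict (Set.Ioi (0 : ℝ))).restrict (Set.Ioi Tf) =
          volume.restrict (Set.Ioi Tf) := by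
        rw [Measure.restrict_restrict measurableSet_Ioi]
        congr 1
        ext t
        simp only [Set.mem_inter_iff, Set.mem_Ioi]
        constructor
        · exact fun h => h.1
        · exact fun h => ⟨h, hTf0.trans h⟩
      rw [e3]
      have e4 : IntegrableOn (fun t : ℝ => Real.exp (-(s * t))) (Set.Ioi Tf) :=
        (exp_int s hs).mono_set (Set.Ioi_subset_Ioi hTf0.le)
      rw [← ofReal_integral_eq_lintegral_ofReal (e4.const_mul 2)
        (Eventually.of_forall fun t => by positivity), integral_const_mul]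
      apply ENNReal.ofReal_le_ofReal
      have e5 := integral_exp_mul_Ioi (a := -s) (by linarith) Tf
      have e6 : (fun t : ℝ => Real.exp (-(s * t))) = fun t => Real.exp (-s * t) := by
        funext t; ring_nf
      rw [e6, e5]
      rw [neg_div_neg_eq]
      apply le_of_eq
      ring_nf
  rw [ENNReal.ofReal_le_ofReal_iff (by positivity)] at h3
  have h4 : Real.exp (-(s * Tf)) / s ≤ s ^ 2 := by
    refine le_trans ?_ h.ex
    have : Real.exp (-(s * Tf)) ≤ Real.exp (-(s * R)) := by
      apply Real.exp_le_exp.2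
      have : s * R ≤ s * Tf := mul_le_mul_of_nonneg_left (by rw [hTf]; linarith [h.RL]) hs.le
      linarith
    gcongr
  have h5 : (1 / 4 : ℝ) ^ L * (1 / s) ≤ s ^ 2 := by
    refine le_trans ?_ h.ex
    have e1 : (1 / 4 : ℝ) ≤ Real.exp (-1) := by
      rw [Real.exp_neg, one_div]
      apply inv_anti₀ (Real.exp_pos 1)
      linarith [Real.exp_one_lt_d9]
    have e2 : (1 / 4 : ℝ) ^ L ≤ Real.exp (-(s * R)) := by
      refine (pow_le_pow_left₀ (by norm_num) e1 L).trans ?_
      rw [← Real.exp_nat_mul]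
      apply Real.exp_le_exp.2
      have e3 : s * R ≤ 1 * R := mul_le_mul_of_nonneg_right hs1 (by linarith)
      linarith [h.RL]
    rw [div_eq_mul_one_div (Real.exp (-(s * R))) s]
    exact mul_le_mul_of_nonneg_right e2 (by positivity)
  have h6 : (2 * (d : ℝ)) * (1 / 4 : ℝ) ^ L * (1 / s) ≤ 2 * d * s ^ 2 := by
    rw [mul_assoc]
    exact mul_le_mul_of_nonneg_left h5 (by positivity)
  calc ‖Lap (GaL d L) w - Lap (GG d) w‖ ≤ _ := h3
    _ ≤ 2 * d * s ^ 2 + 2 * s ^ 2 := by linarith
    _ = _ := by ring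

/-- the boundary values are bounded below near compact sets of energies -/
theorem g_low (hd : 3 ≤ d) (E1 E2 : ℝ) (hE1 : 0 < E1) (hE2 : E2 < 4 * d) :
    ∃ δ : ℝ, 0 < δ ∧ ∀ E : ℝ, E1 ≤ E → E ≤ E2 → ∀ w : ℂ, 0 ≤ w.im → ‖w - E‖ ≤ δ →
      δ ≤ (Lap (GG d) w).im := by
  by_contra hcon
  push Not at hcon
  have hseq := fun n : ℕ => hcon (1 / ((n : ℝ) + 1)) (by positivity)
  choose En ha hb wn hw hc hlt using hseq
  obtain ⟨E, hEm, φ, hφ, hElim⟩ := (isCompact_Icc (a := E1) (b := E2)).tendsto_subseq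
    (fun n => ⟨ha n, hb n⟩ : ∀ n, En n ∈ Set.Icc E1 E2)
  have hE0 : 0 < E := lt_of_lt_of_le hE1 hEm.1
  have hE4 : E < 4 * d := lt_of_le_of_lt hEm.2 hE2
  have hg := g0_pos hd E hE0 hE4
  have hinv : Tendsto (fun n : ℕ => 1 / ((φ n : ℝ) + 1)) atTop (𝓝 0) :=
    tendsto_one_div_add_atTop_nhds_zero_nat.comp hφ.tendsto_atTop
  have hwl : Tendsto (fun n => wn (φ n)) atTop (𝓝[{w : ℂ | 0 ≤ w.im}] (E : ℂ)) := by
    rw [tendsto_nhdsWithin_iff]
    constructor
    · have h1 : Tendsto (fun n => wn (φ n) - (En (φ n) : ℂ)) atTop (𝓝 0) := by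
        rw [tendsto_zero_iff_norm_tendsto_zero]
        exact squeeze_zero (fun _ => norm_nonneg _) (fun n => hc (φ n)) hinv
      have h2 : Tendsto (fun n => ((En (φ n) : ℝ) : ℂ)) atTop (𝓝 (E : ℂ)) :=
        (Complex.continuous_ofReal.tendsto E).comp hElim
      have h3 := h1.add h2
      rw [zero_add] at h3
      refine h3.congr fun n => ?_
      ring
    · exact Eventually.of_forall fun n => hw (φ n)
  have h1 := (Complex.continuous_im.tendsto _).comp ((lap_cont (GG d) GG_cont (GG_int hd) E).comp hwl)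
  have h2 := le_of_tendsto_of_tendsto h1 hinv (Eventually.of_forall fun n => (hlt (φ n)).le)
  have h3 : (Lap (GG d) (E : ℂ)).im = (g0 d E).im := rfl
  rw [h3] at h2
  linarith

end Pool.Agent.Zk11.QE
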