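import Pool.Agent.Zk11.QE.Mb

/-! Existence of the solution of the self-consistent equation with uniform bounds; cutoffs. -/

set_option autoImplicit false
set_option linter.unusedSectionVars false

open scoped BigOperators Topology ENNReal
open MeasureTheory Filter

namespace Pool.Agent.Zk11.QE

open Pool.Agent.Zk11.QD
open Pool.Agent.W788.MFP.Four (T e NN adj adj_neg e_comm e_add_left e_add e_zero e_neg e_neg_left
  e_normSq sum_e NN_pos card_T e_single)

variable {d : ℕ}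

/-- existence of the cutoff -/
theorem cut_ex (L : ℕ) (s : ℝ) (hs : 0 < s) (hs1 : s ≤ 1 / 10000)
    (hL : 7000 * (1 + Real.log (1 / s)) / s ≤ L) :
    Cut s (48 * (1 + Real.log (1 / s)) / s) L := by
  have h1s : 10000 ≤ 1 / s := by
    rw [le_div_iff₀ hs]
    rw [le_div_iff₀ (by norm_num)] at hs1
    linarith
  have hlog : 0 ≤ Real.log (1 / s) := Real.log_nonneg (by linarith)
  set Λ : ℝ := 1 + Real.log (1 / s) with hΛ
  have hΛ1 : 1 ≤ Λ := by linarith
  have hs11 : s ≤ 1 := by linarith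
  refine ⟨hs, hs11, ?_, ?_, ?_, ?_⟩
  · rw [le_div_iff₀ hs]
    linarith
  · refine le_trans ?_ hL
    have e1 : 64 ≤ 64 * (Λ / s) := by
      have : 1 ≤ Λ / s := by
        rw [le_div_iff₀ hs]
        linarith
      linarith
    have e2 : 0 ≤ Λ / s := by positivity
    calc 64 * (1 + 2 * (48 * Λ / s)) = 64 + 6144 * (Λ / s) := by ring
      _ ≤ 7000 * (Λ / s) := by linarith
      _ = _ := by ring
  · have e1 : s * (48 * Λ / s / 16) = 3 * Λ := by
      field_simp
      norm_num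
    rw [e1, div_le_iff₀ hs]
    have e2 : -(3 * Λ) = -3 + 3 * Real.log s := by
      rw [hΛ, one_div, Real.log_inv]
      ring
    rw [e2, Real.exp_add]
    have e3 : Real.exp (3 * Real.log s) = s ^ 3 := by
      have : (3 : ℝ) * Real.log s = ((3 : ℕ) : ℝ) * Real.log s := by push_cast; ring
      rw [this, Real.exp_nat_mul, Real.exp_log hs]
    rw [e3]
    have e4 : Real.exp (-3) ≤ 1 := Real.exp_le_one_iff.2 (by norm_num)
    calc Real.exp (-3) * s ^ 3 ≤ 1 * s ^ 3 := mul_le_mul_of_nonneg_right e4 (by positivity)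
      _ = _ := by ring
  · have e1 : Real.log (1 / s) ≤ 2 * Real.sqrt (1 / s) := by
      have e2 : Real.log (1 / s) = 2 * Real.log (Real.sqrt (1 / s)) := by
        rw [Real.log_sqrt (by positivity)]
        ring
      rw [e2]
      have e3 := Real.log_le_sub_one_of_pos (Real.sqrt_pos.2 (show 0 < 1 / s by positivity))
      linarith
    set q : ℝ := Real.sqrt (1 / s) with hq
    have hq2 : q ^ 2 = 1 / s := Real.sq_sqrt (by positivity)
    have hq100 : 100 ≤ q := by
      rw [hq]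
      apply Real.le_sqrt_of_sq_le
      norm_num
      norm_num at h1s
      linarith
    have e4 : 48 * Λ ≤ 1 / s := by
      rw [← hq2]
      nlinarith
    calc 48 * Λ / s = 48 * Λ * (1 / s) := by ring
      _ ≤ 1 / s * (1 / s) := mul_le_mul_of_nonneg_right e4 (by positivity)
      _ = _ := by ring

/-- existence of the solution with uniform bounds -/
theorem md_ex (hd : 3 ≤ d) (E1 E2 : ℝ) (hE1 : 0 < E1) (hE2 : E2 < 4 * d) :
    ∃ c0 B0 δ : ℝ, 0 < c0 ∧ c0 ≤ 1 ∧ 1 ≤ B0 ∧ 0 < δ ∧ ∀ (L : ℕ) [NeZero L] (E : ℝ), E1 ≤ E → E ≤ E2 →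
      ∀ z : ℂ, 0 < z.im → ‖z - E‖ ≤ δ → ∀ σ : ℝ, 0 < σ → σ ≤ δ → ∀ R : ℝ,
      Cut (c0 * σ ^ 2) R L → ∃ m : ℂ, MD d L z σ m ∧ c0 ≤ m.im ∧ ‖m‖ ≤ B0 := by
  obtain ⟨δ1, hδ1, hlow⟩ := g_low hd E1 E2 hE1 hE2
  set C0 : ℝ := ∫ t in Set.Ioi (0 : ℝ), ‖GG d t‖ with hC0
  have hC00 : 0 ≤ C0 := integral_nonneg fun _ => norm_nonneg _
  set B0 : ℝ := C0 + 1 with hB0
  set c0 : ℝ := min (δ1 / 2) 1 with hc0
  have hc0p : 0 < c0 := lt_min (by positivity) (by norm_num)
  have hc1 : c0 ≤ 1 := min_le_right _ _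
  set δ : ℝ := min (min 1 (δ1 / (1 + B0))) (min (δ1 / 2) 1 / (2 * d + 2)) with hδ
  have hδ0 : 0 < δ := by
    rw [hδ]
    have : 0 < 1 + B0 := by linarith
    positivity
  have hδa : δ ≤ 1 := (min_le_left _ _).trans (min_le_left _ _)
  have hδb : δ * (1 + B0) ≤ δ1 := by
    have : δ ≤ δ1 / (1 + B0) := (min_le_left _ _).trans (min_le_right _ _)
    rwa [le_div_iff₀ (by linarith)] at this
  have hδc : δ * (2 * d + 2) ≤ c0 := by
    have : δ ≤ min (δ1 / 2) 1 / (2 * d + 2) := min_le_right _ _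
    rwa [le_div_iff₀ (by positivity)] at this
  refine ⟨c0, B0, δ, hc0p, hc1, by linarith, hδ0, ?_⟩
  intro L _ E ha hb z hz hzE σ hσ0 hσδ R hcut
  set K : Set ℂ := {m : ℂ | c0 ≤ m.im ∧ ‖m‖ ≤ B0} with hK
  have hKc : IsCompact K := by
    have h1 : IsClosed {m : ℂ | c0 ≤ m.im} := isClosed_le continuous_const Complex.continuous_im
    have h2 : K = Metric.closedBall (0 : ℂ) B0 ∩ {m : ℂ | c0 ≤ m.im} := by
      ext m
      simp [hK, and_comm]
    rw [h2]
    exact (isCompact_closedBall _ _).inter_right h1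
  have hKne : K.Nonempty := by
    refine ⟨((B0 : ℝ) : ℂ) * Complex.I, ?_, ?_⟩
    · simp only [Complex.mul_I_im, Complex.ofReal_re]
      linarith
    · rw [norm_mul, Complex.norm_I, mul_one, Complex.norm_real, Real.norm_eq_abs,
        abs_of_pos (by linarith)]
  have hσ2 : σ ^ 2 ≤ σ := by
    calc σ ^ 2 = σ * σ := by ring
      _ ≤ σ * 1 := mul_le_mul_of_nonneg_left (hσδ.trans hδa) hσ0.le
      _ = σ := mul_one _
  have hmap : ∀ m ∈ K, ph (aa (d := d) (L := L)) z σ m ∈ K := by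
    intro m hm
    set w : ℂ := z + (σ : ℂ) ^ 2 * m with hw
    have hwim : w.im = z.im + σ ^ 2 * m.im := by
      rw [hw, Complex.add_im, ← Complex.ofReal_pow, Complex.im_ofReal_mul]
    have hsw : c0 * σ ^ 2 ≤ w.im := by
      rw [hwim]
      have := mul_le_mul_of_nonneg_left hm.1 (by positivity : 0 ≤ σ ^ 2)
      linarith
    have hw0 : 0 < w.im := lt_of_lt_of_le (by positivity) hsw
    have hph : ph (aa (d := d) (L := L)) z σ m = Lap (GaL d L) w := by
      rw [← avg_aa _ hw0]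
      unfold ph
      rw [cardT]
      congr 1
      refine Finset.sum_congr rfl fun k _ => ?_
      unfold Dn
      congr 1
      rw [hw]
      ring
    have hcl := lap_close hd hcut w hsw
    have hwE : ‖w - E‖ ≤ δ1 := by
      have e1 : w - E = (z - E) + (σ : ℂ) ^ 2 * m := by rw [hw]; ring
      rw [e1]
      refine (norm_add_le _ _).trans ?_
      rw [norm_mul, norm_pow, Complex.norm_real, Real.norm_eq_abs, sq_abs]
      calc ‖z - E‖ + σ ^ 2 * ‖m‖ ≤ δ + δ * B0 := by
            refine add_le_add hzE ?_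
            exact mul_le_mul (hσ2.trans hσδ) hm.2 (norm_nonneg _) hδ0.le
        _ = δ * (1 + B0) := by ring
        _ ≤ δ1 := hδb
    have hG := hlow E ha hb w hw0.le hwE
    have hsm : (2 * (d : ℝ) + 2) * (c0 * σ ^ 2) ^ 2 ≤ c0 := by
      have e1 : (c0 * σ ^ 2) ^ 2 ≤ δ := by
        have e2 : c0 * σ ^ 2 ≤ 1 * δ := mul_le_mul hc1 (hσ2.trans hσδ) (by positivity) (by norm_num)
        calc (c0 * σ ^ 2) ^ 2 ≤ (1 * δ) ^ 2 := pow_le_pow_left₀ (by positivity) e2 2
          _ = δ * δ := by ring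
          _ ≤ δ * 1 := mul_le_mul_of_nonneg_left hδa hδ0.le
          _ = δ := mul_one _
      calc (2 * (d : ℝ) + 2) * (c0 * σ ^ 2) ^ 2 ≤ (2 * (d : ℝ) + 2) * δ :=
            mul_le_mul_of_nonneg_left e1 (by positivity)
        _ = δ * (2 * d + 2) := by ring
        _ ≤ c0 := hδc
    have hdiff : ‖ph (aa (d := d) (L := L)) z σ m - Lap (GG d) w‖ ≤ c0 := by
      rw [hph]
      exact hcl.trans hsm
    refine ⟨?_, ?_⟩
    · have e1 := Complex.abs_im_le_norm (ph (aa (d := d) (L := L)) z σ m - Lap (GG d) w)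
      rw [Complex.sub_im] at e1
      have e2 := (abs_le.1 (e1.trans hdiff)).1
      have e3 : 2 * c0 ≤ δ1 := by
        have : c0 ≤ δ1 / 2 := min_le_left _ _
        linarith
      linarith
    · have e1 : ph (aa (d := d) (L := L)) z σ m = (ph (aa (d := d) (L := L)) z σ m - Lap (GG d) w) +
          Lap (GG d) w := by ring
      rw [e1]
      refine (norm_add_le _ _).trans ?_
      have e2 := lap_bound (GG d) (GG_int hd) w hw0.le
      linarith
  obtain ⟨m, hm, hme⟩ := mde_in (aa (d := d) (L := L)) z hz σ K hKc hKne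
    (fun m hm => lt_of_lt_of_le hc0p hm.1) hmap
  exact ⟨m, ⟨hz, lt_of_lt_of_le hc0p hm.1, hme⟩, hm.1, hm.2⟩

end Pool.Agent.Zk11.QE
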