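import Pool.Agent.Zk11.QE.Pc

/-! Symmetry, hyperplanes far away, and counting resonant sites. -/

set_option autoImplicit false
set_option linter.unusedSectionVars false

open scoped BigOperators Topology ENNReal
open MeasureTheory Filter

namespace Pool.Agent.Zk11.QE

open Pool.Agent.Zk11.QD
open Pool.Agent.W788.MFP.Four (T e NN adj adj_neg e_comm e_add_left e_add e_zero e_neg e_neg_left
  e_normSq sum_e NN_pos card_T e_single)

variable {d L : ℕ} [NeZero L] {z : ℂ} {σ : ℝ} {m : ℂ}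

/-- the reflection of one coordinate -/
def fl (i : Fin d) (x : T d L) : T d L := Function.update x i (-(x i))

theorem fl_fl (i : Fin d) (x : T d L) : fl i (fl i x) = x := by
  unfold fl
  rw [Function.update_idem, Function.update_self, neg_neg, Function.update_eq_self]

/-- the reflection as an equivalence -/
def flE (i : Fin d) : T d L ≃ T d L := ⟨fl i, fl i, fl_fl i, fl_fl i⟩

theorem e_fl (p x : T d L) (i : Fin d) : ‖e p x + e p (fl i x)‖ = 2 * |co (p i * x i)| := by
  classical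
  unfold e
  have h1 : ∑ j, p j * x j = p i * x i + ∑ j ∈ Finset.univ.erase i, p j * x j :=
    (Finset.add_sum_erase Finset.univ _ (Finset.mem_univ i)).symm
  have h2 : ∑ j, p j * fl i x j = -(p i * x i) + ∑ j ∈ Finset.univ.erase i, p j * x j := by
    rw [← Finset.add_sum_erase Finset.univ _ (Finset.mem_univ i)]
    congr 1
    · unfold fl
      rw [Function.update_self]
      ring
    · refine Finset.sum_congr rfl fun j hj => ?_
      unfold fl
      rw [Function.update_of_ne (Finset.mem_erase.1 hj).1]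
  rw [h1, h2, AddChar.map_add_eq_mul, AddChar.map_add_eq_mul, ← add_mul, norm_mul, add_norm,
    mul_one]
  have h3 : (ZMod.stdAddChar (-(p i * x i)) : ℂ) = (starRingEnd ℂ) (ZMod.stdAddChar (p i * x i)) := by
    rw [ZMod.stdAddChar_apply, ZMod.stdAddChar_apply, AddChar.map_neg_eq_inv,
      Circle.coe_inv_eq_conj]
  rw [h3, Complex.add_conj, Complex.norm_real, Real.norm_eq_abs, abs_mul, abs_two]
  rfl

theorem kc_fl (i : Fin d) (x : T d L) (w : ℂ) (hw : 0 < w.im) :
    kc (rv w) (fl i x) = kc (rv w) x := by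
  unfold rv
  rw [kc_lap _ w hw, kc_lap _ w hw]
  congr 1
  funext t
  unfold sp
  congr 1
  refine Finset.prod_congr rfl fun j _ => ?_
  unfold fl
  by_cases hj : j = i
  · subst hj
    rw [Function.update_self, bb_neg]
  · rw [Function.update_of_ne hj]

theorem Tn_fl (h : MD d L z σ m) (τ : ℝ) (i : Fin d) (x : T d L) :
    Tn z σ m τ (fl i x) = Tn z σ m τ x := by
  unfold Tn
  rw [Mh_w]
  have := kc_fl i x (z + (σ : ℂ) ^ 2 * m) (by rw [w_im]; exact ss_pos h)
  unfold rv at this
  rw [this]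

/-- the multiplier and the reflected characters -/
theorem tt_co (h : MD d L z σ m) (τ : ℝ) (p : T d L) (i : Fin d) :
    ‖(τ : ℂ) ^ 2 * tt z σ m p‖ ≤ ∑ x, Tn z σ m τ x * |co (p i * x i)| := by
  rw [← Tn_tt]
  have h1 : ∑ v, e p v * ((Tn z σ m τ v : ℝ) : ℂ) =
      ∑ v, e p (fl i v) * ((Tn z σ m τ v : ℝ) : ℂ) := by
    rw [← Equiv.sum_comp (flE i)]
    refine Finset.sum_congr rfl fun x _ => ?_
    change e p (fl i x) * ((Tn z σ m τ (fl i x) : ℝ) : ℂ) = _
    rw [Tn_fl h]
  have h2 : 2 * ‖∑ v, e p v * ((Tn z σ m τ v : ℝ) : ℂ)‖ ≤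
      ∑ x, 2 * (Tn z σ m τ x * |co (p i * x i)|) := by
    have e1 : 2 * ‖∑ v, e p v * ((Tn z σ m τ v : ℝ) : ℂ)‖ =
        ‖∑ v, (e p v + e p (fl i v)) * ((Tn z σ m τ v : ℝ) : ℂ)‖ := by
      simp only [add_mul, Finset.sum_add_distrib]
      rw [← h1, ← two_mul, norm_mul, Complex.norm_ofNat]
    rw [e1]
    refine (norm_sum_le _ _).trans (le_of_eq (Finset.sum_congr rfl fun x _ => ?_))
    rw [norm_mul, e_fl, Complex.norm_real, Real.norm_eq_abs, abs_of_nonneg (Tn_nonneg x)]
    ring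
  rw [← Finset.mul_sum] at h2
  linarith

variable {s R : ℝ}

theorem one_int (h : Cut s R L) (ν : ZMod L) (hR : 2 * R < (na ν : ℝ)) :
    ∫⁻ t in Set.Ioi (0 : ℝ), ENNReal.ofReal (Real.exp (-(s * t)) * ‖bb L ν t‖) ≤
      ENNReal.ofReal (2 * s ^ 2) := by
  have hs := h.s0
  have hs1 := h.s1
  have hR1 := h.R1
  set n : ℕ := na ν with hn
  have h2n : 2 * n ≤ L := by
    have := ZMod.natAbs_valMinAbs_le ν
    rw [hn]
    unfold na
    omega
  have hn0 : (0 : ℝ) < n := by linarith
  set Tf : ℝ := n / 32 with hTf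
  have hTf0 : 0 < Tf := by positivity
  have hpt : ∀ t, 0 < t → ‖bb L ν t‖ ≤ if t ≤ Tf then (1 / 4 : ℝ) ^ n else 1 := by
    intro t ht
    split_ifs with hc
    · rw [bb_abs]
      refine bb_out n t h2n ?_
      rw [abs_of_pos ht]
      linarith
    · exact bb_le _ _
  have h3 : ∫⁻ t in Set.Ioi (0 : ℝ), ENNReal.ofReal (Real.exp (-(s * t)) * ‖bb L ν t‖) ≤
      ENNReal.ofReal ((1 / 4 : ℝ) ^ n * (1 / s) + Real.exp (-(s * Tf)) / s) := by
    have e1 : ∫⁻ t in Set.Ioi (0 : ℝ), ENNReal.ofReal (Real.exp (-(s * t)) * ‖bb L ν t‖) ≤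
        ∫⁻ t in Set.Ioi (0 : ℝ), (ENNReal.ofReal ((1 / 4 : ℝ) ^ n *
          Real.exp (-(s * t))) + Set.indicator (Set.Ioi Tf)
            (fun t => ENNReal.ofReal (Real.exp (-(s * t)))) t) := by
      refine setLIntegral_mono' measurableSet_Ioi fun t ht => ?_
      have ht0 : 0 < t := ht
      have e2 := hpt t ht0
      by_cases hc : t ≤ Tf
      · rw [if_pos hc] at e2
        refine le_add_right (ENNReal.ofReal_le_ofReal ?_)
        rw [mul_comm]
        exact mul_le_mul_of_nonneg_right e2 (Real.exp_pos _).le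
      · rw [if_neg hc] at e2
        rw [Set.indicator_of_mem (show t ∈ Set.Ioi Tf from not_le.1 hc)]
        refine le_add_left (ENNReal.ofReal_le_ofReal ?_)
        calc Real.exp (-(s * t)) * ‖bb L ν t‖ ≤ Real.exp (-(s * t)) * 1 :=
              mul_le_mul_of_nonneg_left e2 (Real.exp_pos _).le
          _ = _ := mul_one _
    refine e1.trans ?_
    rw [lintegral_add_left (by fun_prop), ENNReal.ofReal_add (by positivity) (by positivity)]
    refine add_le_add (le_of_eq ?_) ?_
    · rw [← ofReal_integral_eq_lintegral_ofReal ((exp_int s hs).const_mul _)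
        (Eventually.of_forall fun t => by positivity), integral_const_mul, exp_val s hs]
    · rw [lintegral_indicator measurableSet_Ioi]
      have e3 : (volume.restrict (Set.Ioi (0 : ℝ))).restrict (Set.Ioi Tf) =
          volume.restrict (Set.Ioi Tf) := by
        rw [Measure.restrict_restrict measurableSet_Ioi]
        congr 1
        ext t
        simp only [Set.mem_inter_iff, Set.mem_Ioi]
        constructor
        · exact fun h => h.1
        · exact fun h => ⟨h, hTf0.trans h⟩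
      rw [e3]
      have e4 : IntegrableOn (fun t : ℝ => Real.exp (-(s * t))) (Set.Ioi Tf) :=
        (exp_int s hs).mono_set (Set.Ioi_subset_Ioi hTf0.le)
      rw [← ofReal_integral_eq_lintegral_ofReal e4 (Eventually.of_forall fun t => by positivity)]
      apply ENNReal.ofReal_le_ofReal
      have e5 := integral_exp_mul_Ioi (a := -s) (by linarith) Tf
      have e6 : (fun t : ℝ => Real.exp (-(s * t))) = fun t => Real.exp (-s * t) := by
        funext t; ring_nf
      rw [e6, e5]
      rw [neg_div_neg_eq]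
      apply le_of_eq
      ring_nf
  refine h3.trans (ENNReal.ofReal_le_ofReal ?_)
  have h4 : Real.exp (-(s * Tf)) / s ≤ s ^ 2 := by
    refine le_trans ?_ h.Rs
    have : Real.exp (-(s * Tf)) ≤ Real.exp (-(s * (R / 16))) := by
      apply Real.exp_le_exp.2
      have : s * (R / 16) ≤ s * Tf := mul_le_mul_of_nonneg_left (by rw [hTf]; linarith) hs.le
      linarith
    gcongr
  have h5 : (1 / 4 : ℝ) ^ n * (1 / s) ≤ s ^ 2 := by
    refine le_trans ?_ h.ex
    have e1 : (1 / 4 : ℝ) ≤ Real.exp (-1) := by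
      rw [Real.exp_neg, one_div]
      apply inv_anti₀ (Real.exp_pos 1)
      linarith [Real.exp_one_lt_d9]
    have e2 : (1 / 4 : ℝ) ^ n ≤ Real.exp (-(s * R)) := by
      refine (pow_le_pow_left₀ (by norm_num) e1 n).trans ?_
      rw [← Real.exp_nat_mul]
      apply Real.exp_le_exp.2
      have e3 : s * R ≤ 1 * R := mul_le_mul_of_nonneg_right hs1 (by linarith)
      linarith
    rw [div_eq_mul_one_div (Real.exp (-(s * R))) s]
    exact mul_le_mul_of_nonneg_right e2 (by positivity)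
  linarith

/-- hyperplanes far away -/
theorem far_fib (hd : 3 ≤ d) (w : ℂ) (h : Cut s R L) (hw : s ≤ w.im) (i0 : Fin d) (ν : ZMod L)
    (hR : 2 * R < (na ν : ℝ)) : ∑ x ∈ fib i0 ν, ‖kc (rv w) x‖ ^ 2 ≤ 4 * s ^ 4 := by
  have hs := h.s0
  have h1 := kc_fib hd i0 ν w s hs hw
  have h2 := one_int h ν hR
  set A : ENNReal := ∫⁻ t in Set.Ioi (0 : ℝ), ENNReal.ofReal (Real.exp (-(s * t)) * ‖bb L ν t‖)
    with hA
  have h3 : ∫⁻ t in Set.Ioi (0 : ℝ), ∫⁻ u in Set.Ioi (0 : ℝ), ENNReal.ofReal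
        (Real.exp (-(s * (t + u))) * (‖bb L ν t‖ * ‖bb L ν u‖) * ‖jL L (t - u)‖ ^ 2) ≤ A * A := by
    have e1 : ∀ t : ℝ, ∫⁻ u in Set.Ioi (0 : ℝ), ENNReal.ofReal
        (Real.exp (-(s * (t + u))) * (‖bb L ν t‖ * ‖bb L ν u‖) * ‖jL L (t - u)‖ ^ 2) ≤
        ENNReal.ofReal (Real.exp (-(s * t)) * ‖bb L ν t‖) * A := by
      intro t
      rw [hA, ← lintegral_const_mul' _ _ ENNReal.ofReal_ne_top]
      refine lintegral_mono fun u => ?_
      rw [← ENNReal.ofReal_mul (by positivity)]
      apply ENNReal.ofReal_le_ofReal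
      have e2 : Real.exp (-(s * (t + u))) = Real.exp (-(s * t)) * Real.exp (-(s * u)) := by
        rw [← Real.exp_add]
        congr 1
        ring
      have e3 : ‖jL L (t - u)‖ ^ 2 ≤ 1 := pow_le_one₀ (norm_nonneg _) (jL_le _)
      rw [e2]
      calc Real.exp (-(s * t)) * Real.exp (-(s * u)) * (‖bb L ν t‖ * ‖bb L ν u‖) *
            ‖jL L (t - u)‖ ^ 2 ≤
            Real.exp (-(s * t)) * Real.exp (-(s * u)) * (‖bb L ν t‖ * ‖bb L ν u‖) * 1 :=
            mul_le_mul_of_nonneg_left e3 (by positivity)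
        _ = _ := by ring
    refine (lintegral_mono e1).trans (le_of_eq ?_)
    rw [lintegral_mul_const'']
    exact (((Real.continuous_exp.comp (by fun_prop)).mul
      (bb_cont ν).norm).measurable.ennreal_ofReal).aemeasurable
  have h4 : ENNReal.ofReal (∑ x ∈ fib i0 ν,
      ‖kc (fun k : T d L => (((aa k : ℝ) : ℂ) - w)⁻¹) x‖ ^ 2) ≤
      ENNReal.ofReal (2 * s ^ 2 * (2 * s ^ 2)) := by
    rw [ENNReal.ofReal_mul (by positivity)]
    exact (h1.trans h3).trans (mul_le_mul' h2 h2)
  rw [ENNReal.ofReal_le_ofReal_iff (by positivity)] at h4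
  refine h4.trans (le_of_eq ?_)
  ring

/-- integers close to a point -/
theorem int_count (S : Finset ℤ) (c r : ℝ) (hr : 0 ≤ r) (h : ∀ k ∈ S, |(k : ℝ) - c| ≤ r) :
    (S.card : ℝ) ≤ 2 * r + 1 := by
  have h1 : S ⊆ Finset.Icc ⌈c - r⌉ ⌊c + r⌋ := by
    intro k hk
    have h2 := abs_le.1 (h k hk)
    rw [Finset.mem_Icc]
    constructor
    · exact Int.ceil_le.2 (by linarith [h2.1])
    · exact Int.le_floor.2 (by linarith [h2.2])
  have h2 := Finset.card_le_card h1
  rw [Int.card_Icc] at h2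
  have h3 : (S.card : ℝ) ≤ (((⌊c + r⌋ + 1 - ⌈c - r⌉).toNat : ℕ) : ℝ) := by exact_mod_cast h2
  refine h3.trans ?_
  rcases le_or_gt 0 (⌊c + r⌋ + 1 - ⌈c - r⌉) with h4 | h4
  · have h5 : (((⌊c + r⌋ + 1 - ⌈c - r⌉).toNat : ℕ) : ℝ) = ((⌊c + r⌋ + 1 - ⌈c - r⌉ : ℤ) : ℝ) := by
      have := Int.toNat_of_nonneg h4
      exact_mod_cast this
    rw [h5]
    push_cast
    have h6 := Int.floor_le (c + r)
    have h7 := Int.le_ceil (c - r)
    linarith
  · rw [Int.toNat_of_nonpos h4.le]
    simp only [Nat.cast_zero]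
    linarith

/-- resonant sites -/
theorem cnt (q : ZMod L) (hq : q ≠ 0) (R δ : ℝ) (hR : 0 ≤ R) (hδ : 0 ≤ δ) (hδ1 : δ ≤ 1) :
    (((Finset.univ.filter fun ν : ZMod L => (na ν : ℝ) ≤ 2 * R ∧ |si (q * ν)| < δ).card : ℕ) : ℝ) ≤
      (8 * na q * R / L + 3) * (δ * L / (2 * na q) + 1) := by
  classical
  have hL := Lpos (L := L)
  set n : ℕ := na q with hn
  have hn1 : 1 ≤ n := by
    rw [Nat.one_le_iff_ne_zero, hn, Ne, na_zero_iff]
    exact hq
  have hn0 : (0 : ℝ) < n := by exact_mod_cast hn1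
  set A : Finset (ZMod L) := Finset.univ.filter fun ν : ZMod L => (na ν : ℝ) ≤ 2 * R ∧
    |si (q * ν)| < δ with hA
  -- the integer
  have hj : ∀ ν : ZMod L, ∃ j : ℤ, (2 * (q.valMinAbs) * ν.valMinAbs - j * L : ℤ) =
      (2 * (q * ν)).valMinAbs := by
    intro ν
    have h1 : (((2 * q.valMinAbs * ν.valMinAbs : ℤ)) : ZMod L) =
        (((2 * (q * ν)).valMinAbs : ℤ) : ZMod L) := by
      push_cast
      ring
    rw [ZMod.intCast_eq_intCast_iff_dvd_sub] at h1
    obtain ⟨j, hj⟩ := h1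
    refine ⟨-j, ?_⟩
    linarith
  choose j hj using hj
  have hbad : ∀ ν ∈ A, |(2 * (q.valMinAbs : ℝ) * ν.valMinAbs - j ν * L)| ≤ δ * L / 2 := by
    intro ν hν
    rw [hA, Finset.mem_filter] at hν
    have h1 := chord (2 * (q * ν))
    have h2 : ‖(ZMod.stdAddChar (2 * (q * ν)) : ℂ) - 1‖ = 2 * |si (q * ν)| := by
      have h3 : (ZMod.stdAddChar (2 * (q * ν)) : ℂ) = (ZMod.stdAddChar (q * ν) : ℂ) *
          ZMod.stdAddChar (q * ν) := by
        rw [← AddChar.map_add_eq_mul]
        congr 1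
        ring
      have h4 : (ZMod.stdAddChar (q * ν) : ℂ) * (starRingEnd ℂ) (ZMod.stdAddChar (q * ν)) = 1 := by
        rw [Complex.mul_conj, Complex.normSq_eq_norm_sq, add_norm]
        norm_num
      have h5 : (ZMod.stdAddChar (2 * (q * ν)) : ℂ) - 1 = (ZMod.stdAddChar (q * ν) : ℂ) *
          ((ZMod.stdAddChar (q * ν) : ℂ) - (starRingEnd ℂ) (ZMod.stdAddChar (q * ν))) := by
        rw [mul_sub, h4, h3]
      rw [h5, norm_mul, add_norm, one_mul, Complex.sub_conj, norm_mul, Complex.norm_I, mul_one,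
        Complex.norm_real, Real.norm_eq_abs, abs_mul, abs_two]
      rfl
    rw [h2] at h1
    have h3 : (((2 * (q * ν)).valMinAbs.natAbs : ℕ) : ℝ) = |(((2 * (q * ν)).valMinAbs : ℤ) : ℝ)| := by
      rw [← Int.cast_abs, Int.abs_eq_natAbs]
      simp
    rw [h3, ← hj ν, div_le_iff₀ hL] at h1
    push_cast at h1
    have h4 : 2 * |si (q * ν)| * L ≤ 2 * δ * L := by
      have := hν.2.2.le
      gcongr
    linarith
  -- the fibres
  have hqn : |(q.valMinAbs : ℝ)| = n := by
    rw [hn]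
    unfold na
    rw [← Int.cast_abs, Int.abs_eq_natAbs]
    simp
  have hfib : ∀ b ∈ A.image j, (A.filter fun ν => j ν = b).card ≤
      ⌊δ * L / (2 * n) + 1⌋₊ := by
    intro b _
    apply Nat.le_floor
    have h1 : (A.filter fun ν => j ν = b).card =
        ((A.filter fun ν => j ν = b).image fun ν => ν.valMinAbs).card := by
      rw [Finset.card_image_of_injective _ (ZMod.injective_valMinAbs)]
    rw [h1]
    have h2 := int_count ((A.filter fun ν => j ν = b).image fun ν => ν.valMinAbs)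
      (b * L / (2 * (q.valMinAbs : ℝ))) (δ * L / (4 * n)) (by positivity) (by
        intro k hk
        rw [Finset.mem_image] at hk
        obtain ⟨ν, hν, rfl⟩ := hk
        rw [Finset.mem_filter] at hν
        have h3 := hbad ν hν.1
        rw [hν.2] at h3
        have hq0 : (q.valMinAbs : ℝ) ≠ 0 := by
          intro h0
          rw [h0, abs_zero] at hqn
          linarith
        have e1 : (ν.valMinAbs : ℝ) - b * L / (2 * (q.valMinAbs : ℝ)) =
            (2 * (q.valMinAbs : ℝ) * ν.valMinAbs - b * L) / (2 * (q.valMinAbs : ℝ)) := by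
          field_simp
        rw [e1, abs_div, abs_mul, abs_two, hqn, div_le_iff₀ (by positivity)]
        refine h3.trans (le_of_eq ?_)
        field_simp
        ring)
    refine h2.trans (le_of_eq ?_)
    field_simp
    ring
  have himg : (((A.image j).card : ℕ) : ℝ) ≤ 8 * n * R / L + 3 := by
    have h2 := int_count (A.image j) 0 (4 * n * R / L + δ / 2) (by positivity) (by
      intro b hb
      rw [Finset.mem_image] at hb
      obtain ⟨ν, hν, rfl⟩ := hb
      have h3 := hbad ν hν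
      rw [hA, Finset.mem_filter] at hν
      have h4 : |(ν.valMinAbs : ℝ)| ≤ 2 * R := by
        have h5 : ((na ν : ℕ) : ℝ) = |(ν.valMinAbs : ℝ)| := by
          unfold na
          rw [← Int.cast_abs, Int.abs_eq_natAbs]
          simp
        rw [← h5]
        exact hν.2.1
      rw [sub_zero]
      have h5 : |(j ν : ℝ)| * L ≤ 4 * n * R + δ * L / 2 := by
        have e1 : (j ν : ℝ) * L = 2 * (q.valMinAbs : ℝ) * ν.valMinAbs -
          (2 * (q.valMinAbs : ℝ) * ν.valMinAbs - j ν * L) := by ring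
        have e2 : |(j ν : ℝ)| * L = |(j ν : ℝ) * L| := by
          rw [abs_mul, abs_of_pos hL]
        rw [e2, e1]
        refine (abs_sub _ _).trans (add_le_add ?_ h3)
        rw [abs_mul, abs_mul, abs_two, hqn]
        calc 2 * (n : ℝ) * |(ν.valMinAbs : ℝ)| ≤ 2 * n * (2 * R) := by gcongr
          _ = _ := by ring
      rw [← le_div_iff₀ hL] at h5
      refine h5.trans (le_of_eq ?_)
      field_simp)
    have : 2 * (4 * n * R / L + δ / 2) = 8 * n * R / L + δ := by ring
    linarith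
  have hcard := Finset.card_le_mul_card_image (f := j) A _ hfib
  have h6 : ((A.card : ℕ) : ℝ) ≤ ((⌊δ * L / (2 * n) + 1⌋₊ * (A.image j).card : ℕ) : ℝ) := by
    exact_mod_cast hcard
  refine h6.trans ?_
  push_cast
  have h7 := Nat.floor_le (show 0 ≤ δ * L / (2 * n) + 1 by positivity)
  rw [mul_comm]
  exact mul_le_mul himg h7 (by positivity) (by positivity)

end Pool.Agent.Zk11.QE
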