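import Pool.Agent.Zk11.QE.Mu

/-! The ladder multiplier is bounded away from one at every non-zero momentum. -/

set_option autoImplicit false
set_option linter.unusedSectionVars false

open scoped BigOperators Topology ENNReal
open MeasureTheory Filter

namespace Pool.Agent.Zk11.QE

open Pool.Agent.Zk11.QD
open Pool.Agent.W788.MFP.Four (T e NN adj adj_neg e_comm e_add_left e_add e_zero e_neg e_neg_left
  e_normSq sum_e NN_pos card_T e_single)

variable {d L : ℕ} [NeZero L] {z : ℂ} {σ : ℝ} {m : ℂ} {τ B S g s R : ℝ}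

theorem Tn_sum (h : MD d L z σ m) (τ : ℝ) :
    ∑ x : T d L, Tn z σ m τ x = τ ^ 2 * (m.im / ss z σ m) := by
  unfold Tn
  rw [← Finset.mul_sum, parseval_sq, sq_sum h]

theorem co_low (q : ZMod L) (δ : ℝ) (hδ : 0 ≤ δ) (h : δ ≤ |si q|) : δ ^ 2 / 2 ≤ 1 - |co q| := by
  have h1 := co_si q
  have h2 := co_le q
  have h3 : δ ^ 2 ≤ si q ^ 2 := by
    rw [← sq_abs (si q)]
    exact pow_le_pow_left₀ hδ h 2
  have h4 : co q ^ 2 = |co q| ^ 2 := (sq_abs _).symm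
  have h5 := abs_nonneg (co q)
  nlinarith

/-- the mass of the resonant sites -/
theorem bad_mass (h : Pd d L z σ m τ B S g s R) (hR : R * s ≤ 48 * (1 + Real.log (1 / s)))
    (hL : (L : ℝ) * g ^ 18 ≤ 1) (hsm : 10 ^ 11 * B * (1 + Real.log (1 / s)) ^ 3 * g ^ 10 ≤ 1)
    (p : T d L) (i : Fin d) (hp : p i ≠ 0) (hc : 1 - co (p i) < g ^ 20 / 2) (δ : ℝ)
    (hδ : δ = 1 / (10 ^ 11 * B * (1 + Real.log (1 / s)) ^ 3 * (1 + L * σ ^ 2))) :
    ∑ x ∈ Finset.univ.filter (fun x : T d L => |si (p i * x i)| < δ), Tn z σ m τ x ≤ 1 / 4 := by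
  classical
  have hg := h.g0
  have hB := h.B0
  have hB1 := h.B1
  have hs := h.cut.s0
  have hs1 := h.cut.s1
  have hR1 := h.cut.R1
  have hLp := Lpos (L := L)
  have hσ := h.σ0
  have hσ2 : σ ^ 2 = g ^ 12 := by rw [h.gσ]; ring
  set Λ : ℝ := 1 + Real.log (1 / s) with hΛ
  have hΛ1 : 1 ≤ Λ := by
    have := h.cut.lg0
    linarith
  have hΛ0 : 0 < Λ := by linarith
  set X : ℝ := 1 + L * σ ^ 2 with hX
  have hX1 : 1 ≤ X := by
    rw [hX]
    have : 0 ≤ (L : ℝ) * σ ^ 2 := by positivity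
    linarith
  have hX0 : 0 < X := by linarith
  have hXL : (L : ℝ) * σ ^ 2 ≤ X := by rw [hX]; linarith
  have hδ0 : 0 < δ := by rw [hδ]; positivity
  have hBΛ : 1 ≤ B * Λ ^ 3 := one_le_mul_of_one_le_of_one_le hB1 (one_le_pow₀ hΛ1)
  have hδ1 : δ ≤ 1 := by
    rw [hδ, div_le_one (by positivity)]
    have : 1 ≤ B * Λ ^ 3 * X := one_le_mul_of_one_le_of_one_le hBΛ hX1
    calc (1 : ℝ) ≤ 10 ^ 11 * (B * Λ ^ 3 * X) := by linarith
      _ = _ := by ring
  have hw : s ≤ (z + (σ : ℂ) ^ 2 * m).im := by rw [w_im]; exact h.sw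
  have hTn : ∀ x : T d L, Tn z σ m τ x = τ ^ 2 * ‖kc (rv (z + (σ : ℂ) ^ 2 * m)) x‖ ^ 2 := by
    intro x
    unfold Tn rv
    rw [Mh_w]
  -- the sum over the fibres
  set Q : Finset (ZMod L) := Finset.univ.filter fun ν : ZMod L => |si (p i * ν)| < δ with hQ
  have h1 : ∑ x ∈ Finset.univ.filter (fun x : T d L => |si (p i * x i)| < δ), Tn z σ m τ x =
      ∑ ν ∈ Q, ∑ x ∈ fib i ν, Tn z σ m τ x := by
    rw [← Finset.sum_fiberwise_of_maps_to (t := Q) (g := fun x : T d L => x i)]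
    · refine Finset.sum_congr rfl fun ν hν => ?_
      refine Finset.sum_congr ?_ fun _ _ => rfl
      ext x
      unfold fib
      rw [Finset.mem_filter, Finset.mem_filter, Finset.mem_filter]
      rw [hQ, Finset.mem_filter] at hν
      constructor
      · rintro ⟨_, h2⟩
        exact ⟨Finset.mem_univ _, h2⟩
      · rintro ⟨_, h2⟩
        refine ⟨⟨Finset.mem_univ _, ?_⟩, h2⟩
        rw [h2]
        exact hν.2
    · intro x hx
      rw [Finset.mem_filter] at hx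
      rw [hQ, Finset.mem_filter]
      exact ⟨Finset.mem_univ _, hx.2⟩
  rw [h1]
  have hfib : ∀ ν : ZMod L, ∑ x ∈ fib i ν, Tn z σ m τ x ≤ τ ^ 2 * (8000000 * Λ ^ 2) := by
    intro ν
    simp only [hTn]
    rw [← Finset.mul_sum]
    exact mul_le_mul_of_nonneg_left (fib_bound' h.hd _ h.cut hw i ν) (by positivity)
  have hfar : ∀ ν : ZMod L, 2 * R < (na ν : ℝ) → ∑ x ∈ fib i ν, Tn z σ m τ x ≤ τ ^ 2 * (4 * s ^ 4) := by
    intro ν hν
    simp only [hTn]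
    rw [← Finset.mul_sum]
    exact mul_le_mul_of_nonneg_left (far_fib h.hd _ h.cut hw i ν hν) (by positivity)
  have hsplit : ∑ ν ∈ Q, ∑ x ∈ fib i ν, Tn z σ m τ x ≤
      ∑ _ν ∈ Q.filter (fun ν : ZMod L => (na ν : ℝ) ≤ 2 * R), τ ^ 2 * (8000000 * Λ ^ 2) +
      ∑ _ν : ZMod L, τ ^ 2 * (4 * s ^ 4) := by
    rw [← Finset.sum_filter_add_sum_filter_not Q (fun ν : ZMod L => (na ν : ℝ) ≤ 2 * R)]
    refine add_le_add (Finset.sum_le_sum fun ν _ => hfib ν) ?_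
    refine (Finset.sum_le_sum fun (ν : ZMod L) hν => hfar ν ?_).trans
      (Finset.sum_le_univ_sum_of_nonneg fun _ => by positivity)
    rw [Finset.mem_filter] at hν
    exact not_le.1 hν.2
  refine hsplit.trans ?_
  rw [Finset.sum_const, Finset.sum_const, nsmul_eq_mul, nsmul_eq_mul, Finset.card_univ,
    ZMod.card]
  -- the count
  have hcnt := cnt (p i) hp R δ (by linarith) hδ0.le hδ1
  have hQe : Q.filter (fun ν : ZMod L => (na ν : ℝ) ≤ 2 * R) =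
      Finset.univ.filter fun ν : ZMod L => (na ν : ℝ) ≤ 2 * R ∧ |si (p i * ν)| < δ := by
    ext ν
    rw [hQ, Finset.mem_filter, Finset.mem_filter, Finset.mem_filter]
    tauto
  rw [hQe]
  set n : ℝ := (na (p i) : ℝ) with hn
  have hn1 : 1 ≤ n := by
    rw [hn]
    have : na (p i) ≠ 0 := by
      rw [Ne, na_zero_iff]
      exact hp
    exact_mod_cast Nat.one_le_iff_ne_zero.2 this
  have hn0 : 0 < n := by linarith
  have hnL : n ≤ g ^ 10 * L / 4 := by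
    refine co_small (p i) (g ^ 10 * L / 4) (by positivity) (lt_of_lt_of_eq hc ?_)
    field_simp
    ring
  have hprod : (8 * n * R / L + 3) * (δ * L / (2 * n) + 1) ≤
      4 * R * δ + 2 * g ^ 10 * R + 2 * (δ * L) + 3 := by
    have e1 : 8 * n * R / L * (δ * L / (2 * n)) = 4 * R * δ := by
      field_simp
      ring
    have e2 : 8 * n * R / L ≤ 2 * g ^ 10 * R := by
      rw [div_le_iff₀ hLp]
      have := mul_le_mul_of_nonneg_right hnL (by positivity : 0 ≤ 8 * R)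
      linarith
    have e3 : δ * L / (2 * n) ≤ δ * L / 2 := by
      apply div_le_div_of_nonneg_left (by positivity) (by norm_num)
      linarith
    have e4 : 0 ≤ δ * L := by positivity
    calc (8 * n * R / L + 3) * (δ * L / (2 * n) + 1) =
          8 * n * R / L * (δ * L / (2 * n)) + 8 * n * R / L + 3 * (δ * L / (2 * n)) + 3 := by ring
      _ ≤ 4 * R * δ + 2 * g ^ 10 * R + 3 * (δ * L / 2) + 3 := by rw [e1]; linarith
      _ ≤ _ := by linarith
  have hτ := h.hτ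
  have hsR : σ ^ 2 * R ≤ 48 * (B * Λ) := by
    have e1 := h.sB
    rw [div_le_iff₀ hB] at e1
    calc σ ^ 2 * R ≤ s * B * R := mul_le_mul_of_nonneg_right e1 (by linarith)
      _ = R * s * B := by ring
      _ ≤ 48 * Λ * B := mul_le_mul_of_nonneg_right hR hB.le
      _ = _ := by ring
  have hδX : δ * X * (B * Λ ^ 3) = 1 / 10 ^ 11 := by
    rw [hδ]
    field_simp
  have hδB : δ * (B * Λ ^ 3) ≤ 1 / 10 ^ 11 := by
    rw [← hδX]
    have : 0 ≤ δ * (B * Λ ^ 3) := by positivity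
    calc δ * (B * Λ ^ 3) = δ * (B * Λ ^ 3) * 1 := (mul_one _).symm
      _ ≤ δ * (B * Λ ^ 3) * X := mul_le_mul_of_nonneg_left hX1 this
      _ = _ := by ring
  have hgB : B * Λ ^ 3 * g ^ 10 ≤ 1 / 10 ^ 11 := by
    rw [le_div_iff₀ (by norm_num)]
    calc B * Λ ^ 3 * g ^ 10 * 10 ^ 11 = 10 ^ 11 * B * Λ ^ 3 * g ^ 10 := by ring
      _ ≤ 1 := hsm
  have hΛ23 : Λ ^ 2 ≤ B * Λ ^ 3 := by
    calc Λ ^ 2 = 1 * (Λ ^ 2 * 1) := by ring
      _ ≤ B * (Λ ^ 2 * Λ) := by gcongr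
      _ = _ := by ring
  -- the near part
  have hnear : (((Finset.univ.filter fun ν : ZMod L => (na ν : ℝ) ≤ 2 * R ∧
      |si (p i * ν)| < δ).card : ℕ) : ℝ) * (τ ^ 2 * (8000000 * Λ ^ 2)) ≤ 1 / 8 := by
    have e0 := hcnt.trans hprod
    have e1 : τ ^ 2 * (8000000 * Λ ^ 2) ≤ 16000000 * (σ ^ 2 * Λ ^ 2) := by
      calc τ ^ 2 * (8000000 * Λ ^ 2) ≤ 2 * σ ^ 2 * (8000000 * Λ ^ 2) :=
            mul_le_mul_of_nonneg_right hτ (by positivity)
        _ = _ := by ring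
    have e2 : 0 ≤ 4 * R * δ + 2 * g ^ 10 * R + 2 * (δ * L) + 3 := by
      have : 0 ≤ R := by linarith
      positivity
    have f1 : σ ^ 2 * R * Λ ^ 2 * δ ≤ 48 / 10 ^ 11 := by
      calc σ ^ 2 * R * Λ ^ 2 * δ ≤ 48 * (B * Λ) * Λ ^ 2 * δ := by gcongr
        _ = 48 * (δ * (B * Λ ^ 3)) := by ring
        _ ≤ 48 * (1 / 10 ^ 11) := by linarith
        _ = _ := by norm_num
    have f2 : σ ^ 2 * R * Λ ^ 2 * g ^ 10 ≤ 48 / 10 ^ 11 := by
      calc σ ^ 2 * R * Λ ^ 2 * g ^ 10 ≤ 48 * (B * Λ) * Λ ^ 2 * g ^ 10 := by gcongr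
        _ = 48 * (B * Λ ^ 3 * g ^ 10) := by ring
        _ ≤ 48 * (1 / 10 ^ 11) := by linarith
        _ = _ := by norm_num
    have f3 : σ ^ 2 * Λ ^ 2 * (δ * L) ≤ 1 / 10 ^ 11 := by
      calc σ ^ 2 * Λ ^ 2 * (δ * L) = (L * σ ^ 2) * δ * Λ ^ 2 := by ring
        _ ≤ X * δ * (B * Λ ^ 3) := by gcongr
        _ = δ * X * (B * Λ ^ 3) := by ring
        _ = _ := hδX
    have f4 : σ ^ 2 * Λ ^ 2 ≤ 1 / 10 ^ 11 := by
      rw [hσ2]
      calc g ^ 12 * Λ ^ 2 ≤ g ^ 10 * (B * Λ ^ 3) := by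
            have : g ^ 12 ≤ g ^ 10 := pow_le_pow_of_le_one hg.le h.g1 (by norm_num)
            gcongr
        _ = B * Λ ^ 3 * g ^ 10 := by ring
        _ ≤ _ := hgB
    calc _ ≤ (4 * R * δ + 2 * g ^ 10 * R + 2 * (δ * L) + 3) * (16000000 * (σ ^ 2 * Λ ^ 2)) :=
          mul_le_mul e0 e1 (by positivity) e2
      _ = 64000000 * (σ ^ 2 * R * Λ ^ 2 * δ) + 32000000 * (σ ^ 2 * R * Λ ^ 2 * g ^ 10) +
          32000000 * (σ ^ 2 * Λ ^ 2 * (δ * L)) + 48000000 * (σ ^ 2 * Λ ^ 2) := by ring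
      _ ≤ 64000000 * (48 / 10 ^ 11) + 32000000 * (48 / 10 ^ 11) +
          32000000 * (1 / 10 ^ 11) + 48000000 * (1 / 10 ^ 11) := by linarith
      _ ≤ 1 / 8 := by norm_num
  have hfarS : (L : ℝ) * (τ ^ 2 * (4 * s ^ 4)) ≤ 1 / 8 := by
    have hsu : s ≤ 2 * B * g ^ 12 := by
      have e1 := h.sw
      have e2 : ss z σ m ≤ 2 * B * σ ^ 2 := by
        unfold ss
        have h1 : σ ^ 2 * m.im ≤ σ ^ 2 * B := mul_le_mul_of_nonneg_left h.mB (by positivity)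
        have h2 : σ ^ 2 ≤ B * σ ^ 2 := le_mul_of_one_le_left (by positivity) h.B1
        have h3 := h.η1
        linarith
      rw [hσ2] at e2
      linarith
    have hgB1 : B * g ^ 10 ≤ 1 / 10 ^ 11 := by
      refine le_trans ?_ hgB
      have : 1 ≤ Λ ^ 3 := one_le_pow₀ hΛ1
      calc B * g ^ 10 = B * 1 * g ^ 10 := by ring
        _ ≤ _ := by gcongr
    have hs4 : s ^ 4 ≤ (2 * B * g ^ 12) ^ 3 := by
      calc s ^ 4 = s ^ 3 * s := by ring
        _ ≤ s ^ 3 * 1 := mul_le_mul_of_nonneg_left hs1 (by positivity)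
        _ = s ^ 3 := mul_one _
        _ ≤ _ := pow_le_pow_left₀ hs.le hsu 3
    calc (L : ℝ) * (τ ^ 2 * (4 * s ^ 4)) ≤ L * (2 * g ^ 12 * (4 * (2 * B * g ^ 12) ^ 3)) := by
          rw [hσ2] at hτ
          gcongr
      _ = 64 * (L * g ^ 18) * (B * g ^ 10) ^ 3 := by ring
      _ ≤ 64 * 1 * (1 / 10 ^ 11) ^ 3 := by gcongr
      _ ≤ 1 / 8 := by norm_num
  linarith

/-- **the multiplier at non-zero momenta** -/
theorem mult (h : Pd d L z σ m τ B S g s R) (hR : R * s ≤ 48 * (1 + Real.log (1 / s)))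
    (hL : (L : ℝ) * g ^ 18 ≤ 1) (hsm : 10 ^ 11 * B * (1 + Real.log (1 / s)) ^ 3 * g ^ 10 ≤ 1)
    (hbig : 4 * 10 ^ 5 * B ^ 2 * S * g ≤ 1)
    (hq1 : τ ^ 2 * (m.im / ss z σ m) ≤ 1) (hq2 : 1 / 2 ≤ τ ^ 2 * (m.im / ss z σ m))
    (p : T d L) (hp : p ≠ 0) :
    1 / (8 * (10 ^ 11 * B * (1 + Real.log (1 / s)) ^ 3 * (1 + L * σ ^ 2)) ^ 2) ≤
      1 - ‖(τ : ℂ) ^ 2 * tt z σ m p‖ := by
  classical
  have hg := h.g0
  have hB := h.B0
  have hB1 := h.B1
  have hs := h.cut.s0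
  have hLp := Lpos (L := L)
  set Λ : ℝ := 1 + Real.log (1 / s) with hΛ
  have hΛ1 : 1 ≤ Λ := by
    have := h.cut.lg0
    linarith
  set X : ℝ := 1 + L * σ ^ 2 with hX
  have hX1 : 1 ≤ X := by
    rw [hX]
    have : 0 ≤ (L : ℝ) * σ ^ 2 := by positivity
    linarith
  set δ : ℝ := 1 / (10 ^ 11 * B * Λ ^ 3 * X) with hδ
  have hD1 : 1 ≤ 10 ^ 11 * B * Λ ^ 3 * X := by
    have : 1 ≤ B * Λ ^ 3 * X := one_le_mul_of_one_le_of_one_le
      (one_le_mul_of_one_le_of_one_le hB1 (one_le_pow₀ hΛ1)) hX1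
    calc (1 : ℝ) ≤ 10 ^ 11 * (B * Λ ^ 3 * X) := by linarith
      _ = _ := by ring
  have hδ0 : 0 < δ := by rw [hδ]; positivity
  have hδ1 : δ ≤ 1 := by
    rw [hδ, div_le_one (by linarith)]
    exact hD1
  have hgoal : 1 / (8 * (10 ^ 11 * B * Λ ^ 3 * X) ^ 2) = δ ^ 2 / 8 := by
    rw [hδ]
    field_simp
  rw [hgoal]
  have hδ2 : δ ^ 2 ≤ 1 := pow_le_one₀ hδ0.le hδ1
  obtain ⟨i, hi⟩ : ∃ i, p i ≠ 0 := by
    by_contra hcon
    push Not at hcon
    exact hp (funext hcon)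
  by_cases hc : g ^ 20 / 2 ≤ 1 - co (p i)
  · have h1 := h.big p i hc
    have h2 : 2 * 10 ^ 5 * B ^ 2 * S * g ≤ 1 / 2 := by linarith
    linarith
  · have hbad := bad_mass h hR hL hsm p i hi (not_le.1 hc) δ hδ
    have h1 := tt_co h.md τ p i
    have h2 := Tn_sum h.md τ
    have h3 : ∑ x : T d L, Tn z σ m τ x * |co (p i * x i)| ≤ ∑ x : T d L, Tn z σ m τ x -
        δ ^ 2 / 2 * (∑ x : T d L, Tn z σ m τ x -
          ∑ x ∈ Finset.univ.filter (fun x : T d L => |si (p i * x i)| < δ), Tn z σ m τ x) := by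
      have e1 : ∑ x : T d L, Tn z σ m τ x -
          ∑ x ∈ Finset.univ.filter (fun x : T d L => |si (p i * x i)| < δ), Tn z σ m τ x =
          ∑ x ∈ Finset.univ.filter (fun x : T d L => ¬ |si (p i * x i)| < δ), Tn z σ m τ x := by
        rw [← Finset.sum_filter_add_sum_filter_not Finset.univ
          (fun x : T d L => |si (p i * x i)| < δ) (fun x => Tn z σ m τ x)]
        ring
      rw [e1, Finset.mul_sum, Finset.sum_filter, ← Finset.sum_sub_distrib]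
      refine Finset.sum_le_sum fun x _ => ?_
      have hT := Tn_nonneg (z := z) (σ := σ) (m := m) (τ := τ) x
      have hco := co_le (p i * x i)
      split_ifs with hx
      · rw [sub_zero]
        exact mul_le_of_le_one_right hT hco
      · have e2 := co_low (p i * x i) δ hδ0.le (not_lt.1 hx)
        have e3 := mul_le_mul_of_nonneg_left e2 hT
        linarith
    rw [h2] at h3
    have h4 : δ ^ 2 / 2 * (1 / 4) ≤ δ ^ 2 / 2 * (τ ^ 2 * (m.im / ss z σ m) -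
          ∑ x ∈ Finset.univ.filter (fun x : T d L => |si (p i * x i)| < δ), Tn z σ m τ x) := by
      refine mul_le_mul_of_nonneg_left ?_ (by positivity)
      linarith
    linarith

end Pool.Agent.Zk11.QE
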