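import Pool.Agent.Zk11.QE.Uo
import Pool.Agent.Zk96.QE.Loc

/-! Normalization of the law. -/

set_option autoImplicit false
set_option linter.unusedSectionVars false

open scoped BigOperators Topology ENNReal
open MeasureTheory Filter

namespace Pool.Agent.Zk11.QE

open Pool.Agent.Zk11.QD
open Pool.Agent.W788.MFP.Four (T e NN adj adj_neg e_comm e_add_left e_add e_zero e_neg e_neg_left
  e_normSq sum_e NN_pos card_T e_single)
open Pool.Agent.Zk60.LL.Det (EB)

variable {d L : ℕ} [NeZero L]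

/-- the normalization of the potential -/
noncomputable def nz (v a : ℝ) (V : T d L → ℝ) (x : T d L) : ℝ := (V x - a) / v

theorem nz_meas (v a : ℝ) : Measurable (nz (d := d) (L := L) v a) := by
  unfold nz
  fun_prop

theorem EB_nz {lam v a : ℝ} (hv : v ≠ 0) {V : T d L → ℝ} {ψ : T d L → T d L → ℂ} {E : T d L → ℝ}
    (h : EB lam V ψ E) : EB (lam * v) (nz v a V) ψ (fun j => E j - lam * a) := by
  refine ⟨h.orth, fun j x => ?_⟩
  have h1 := h.eig j x
  unfold Hz nz at *
  have e1 : (((lam * v : ℝ) : ℂ)) * ((((V x - a) / v : ℝ)) : ℂ) = (lam : ℂ) * V x - lam * a := by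
    rw [← Complex.ofReal_mul]
    have : lam * v * ((V x - a) / v) = lam * V x - lam * a := by
      field_simp
    rw [this]
    push_cast
    ring
  push_cast at e1 h1 ⊢
  linear_combination h1 + (ψ j x) * e1

theorem PL_nz (μ : Measure ℝ) [IsProbabilityMeasure μ] (v a : ℝ) (hv : v ≠ 0) :
    (PL (T d L) μ).map (nz v a) = PL (T d L) (μ.map (af v a hv)) := by
  have hp : IsProbabilityMeasure (μ.map (af v a hv)) :=
    Measure.isProbabilityMeasure_map (af v a hv).measurable.aemeasurable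
  exact Measure.pi_map_pi (μ := fun _ : T d L => μ) (f := fun _ => af v a hv)
    (fun _ => (af v a hv).measurable.aemeasurable)

/-- facts on the normalized law -/
theorem law_facts (b v0 : ℝ) (hv0 : 0 < v0) (μ : Measure ℝ) [IsProbabilityMeasure μ]
    (hμb : ∀ᵐ s ∂μ, |s| ≤ b) (hV : v0 ≤ ∫ s, (s - ∫ t, t ∂μ) ^ 2 ∂μ) :
    ∃ (a v : ℝ) (hv : v ≠ 0), |a| ≤ |b| + 1 ∧ Real.sqrt v0 ≤ v ∧ v ≤ 2 * (|b| + 1) ∧
      (∀ᵐ s ∂(μ.map (af v a hv)), |s| ≤ 2 * (|b| + 1) / Real.sqrt v0) ∧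
      ∫ s, s ∂(μ.map (af v a hv)) = 0 ∧ ∫ s, s ^ 2 ∂(μ.map (af v a hv)) = 1 := by
  set B : ℝ := |b| + 1 with hB
  have hB1 : 1 ≤ B := by have := abs_nonneg b; linarith
  have hsv0 : 0 < Real.sqrt v0 := Real.sqrt_pos.2 hv0
  have hμB : ∀ᵐ s ∂μ, |s| ≤ B := hμb.mono fun s hs => hs.trans (by
    have := le_abs_self b
    linarith)
  set a : ℝ := ∫ t, t ∂μ with ha
  set V : ℝ := ∫ s, (s - a) ^ 2 ∂μ with hVd
  have hi1 : Integrable (fun s : ℝ => s) μ :=
    Integrable.of_bound aestronglyMeasurable_id B (hμB.mono fun s hs => hs)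
  have haB : |a| ≤ B := by
    have h1 := norm_integral_le_of_norm_le_const (μ := μ) (f := fun s : ℝ => s) (C := B)
      (hμB.mono fun s hs => hs)
    simpa using h1
  have hsa : ∀ᵐ s ∂μ, |s - a| ≤ 2 * B := hμB.mono fun s hs => by
    have := abs_sub s a
    linarith
  have hi2 : Integrable (fun s : ℝ => (s - a) ^ 2) μ := by
    refine Integrable.of_bound (by fun_prop) ((2 * B) ^ 2) (hsa.mono fun s hs => ?_)
    rw [Real.norm_eq_abs, abs_pow]
    exact pow_le_pow_left₀ (abs_nonneg _) hs 2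
  have hV0 : 0 < V := by linarith
  have hVB : V ≤ (2 * B) ^ 2 := by
    rw [hVd]
    have h1 := integral_mono_ae hi2 (integrable_const ((2 * B) ^ 2)) (hsa.mono fun s hs => by
      have h2 : (s - a) ^ 2 = |s - a| ^ 2 := (sq_abs _).symm
      change (s - a) ^ 2 ≤ (2 * B) ^ 2
      rw [h2]
      exact pow_le_pow_left₀ (abs_nonneg _) hs 2)
    simpa using h1
  set v : ℝ := Real.sqrt V with hv
  have hv0' : 0 < v := Real.sqrt_pos.2 hV0
  have hvne : v ≠ 0 := hv0'.ne'
  have hvsq : v ^ 2 = V := Real.sq_sqrt hV0.le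
  have hv1 : Real.sqrt v0 ≤ v := Real.sqrt_le_sqrt hV
  have hv2 : v ≤ 2 * B := by
    rw [hv, Real.sqrt_le_left (by positivity)]
    exact hVB
  refine ⟨a, v, hvne, haB, hv1, hv2, ?_, ?_, ?_⟩
  · rw [(af v a hvne).measurableEmbedding.ae_map_iff]
    refine hsa.mono fun s hs => ?_
    change |(s - a) / v| ≤ _
    rw [abs_div, abs_of_pos hv0']
    exact div_le_div₀ (by positivity) hs hsv0 hv1
  · rw [integral_map_equiv]
    change ∫ s, (s - a) / v ∂μ = 0
    rw [integral_div, integral_sub hi1 (integrable_const _)]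
    simp [ha]
  · rw [integral_map_equiv]
    change ∫ s, ((s - a) / v) ^ 2 ∂μ = 1
    simp only [div_pow]
    rw [integral_div, ← hVd, hvsq]
    exact div_self hV0.ne'

end Pool.Agent.Zk11.QE
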