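import Pool.Agent.Zk11.QE.Qd

/-! The fourth moment of the averaged resolvent on small tori. -/

set_option autoImplicit false
set_option linter.unusedSectionVars false

open scoped BigOperators Topology ENNReal
open MeasureTheory Filter

namespace Pool.Agent.Zk11.QE

open Pool.Agent.Zk11.QD
open Pool.Agent.W788.MFP.Four (T e NN adj adj_neg e_comm e_add_left e_add e_zero e_neg e_neg_left
  e_normSq sum_e NN_pos card_T e_single)
open Pool.Agent.Zk11.QD.Tim (Osc)
open Pool.Agent.Zk11.QD.Vdc (BB)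

variable {d L : ℕ} [NeZero L]

/-- the kernels have the required properties -/
theorem bb_osc' (T : ℝ) (hT : 0 ≤ T) (hL : 64 * (1 + T) ≤ L) (ν : ZMod L) :
    Osc (fun t => ‖bb L ν t‖) ((ν.valMinAbs.natAbs : ℝ) / 2) T 14 := by
  set n : ℕ := ν.valMinAbs.natAbs with hn
  have hnL : 2 * n ≤ L := by
    have := ZMod.natAbs_valMinAbs_le ν
    omega
  have hν : (n : ℝ) ≤ L / 2 := by
    have : (2 * n : ℝ) ≤ L := by exact_mod_cast hnL
    linarith
  set A : ℝ := (L : ℝ) with hA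
  have hA1 : 1 ≤ A := by linarith
  have hLR : (0 : ℝ) < L := Lpos
  have hn0 : (0 : ℝ) ≤ n := Nat.cast_nonneg n
  have hpi := Real.pi_pos
  have hpi1 := Real.pi_gt_three
  have hpi2 := Real.pi_lt_d2
  -- the pointwise bound
  have hb : ∀ t, 0 ≤ t → t ≤ T → ‖bb L ν t‖ ≤ BB n (2 * t) / (2 * Real.pi) + 1 / A := by
    intro t ht0 htT
    rw [bb_abs, ← hn]
    have hJL : (L - n) + n ≤ L := by omega
    have hJ2 : (L : ℝ) / 2 ≤ ((L - n : ℕ) : ℝ) := by
      rw [Nat.cast_sub (by omega)]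
      linarith
    refine (bb_nat' n (L - n) t hJL (by rw [abs_of_nonneg ht0]; linarith)).trans
      (add_le_add le_rfl ?_)
    have h1 : (((L - n : ℕ) : ℝ)) ≤ 2 ^ (L - n) := by
      have := Nat.lt_pow_self (n := L - n) (a := 2) (by norm_num)
      exact_mod_cast this.le
    have h2 : (L : ℝ) / 2 * (L / 2) ≤ 4 ^ (L - n) := by
      have e1 : (4 : ℝ) ^ (L - n) = 2 ^ (L - n) * 2 ^ (L - n) := by
        rw [← mul_pow]; norm_num
      rw [e1]
      have e2 : (L : ℝ) / 2 ≤ 2 ^ (L - n) := hJ2.trans h1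
      exact mul_le_mul e2 e2 (by positivity) (by positivity)
    rw [one_div_pow, mul_one_div, div_le_div_iff₀ (by positivity) (by linarith)]
    nlinarith
  have hB : ∀ t, 0 ≤ BB n (2 * t) / (2 * Real.pi) := fun t =>
    div_nonneg (norm_nonneg _) (by positivity)
  have hBle : ∀ t, BB n (2 * t) / (2 * Real.pi) ≤ BB n (2 * t) / 6 := fun t =>
    div_le_div_of_nonneg_left (norm_nonneg _) (by norm_num) (by linarith)
  have hA0 : 0 < 1 / A := by positivity
  refine ⟨(bb_cont ν).norm.measurable, fun t => norm_nonneg _, fun t => bb_le ν t, ?_, ?_, ?_⟩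
  · intro t h1 h2
    have h3 := hb t (by linarith) h2
    have h4 := Vdc.unified n (2 * t) hn0 (by linarith)
    have e1 : 2 * t * |2 * t - n| = 4 * (t * |t - n / 2|) := by
      have : 2 * t - n = 2 * (t - n / 2) := by ring
      rw [this, abs_mul, abs_two]
      ring
    rw [e1] at h4
    set X := t * |t - n / 2| with hX
    have hX0 : 0 ≤ X := by positivity
    have hXA : X ≤ A ^ 2 := by
      have : |t - n / 2| ≤ A := by
        rw [abs_le]
        constructor <;> linarith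
      calc X ≤ A * A := mul_le_mul (by linarith) this (abs_nonneg _) (by linarith)
        _ = A ^ 2 := by ring
    set a := BB n (2 * t) / (2 * Real.pi) with ha
    have ha0 : 0 ≤ a := hB t
    have ha4 : a ^ 4 * X ≤ 66 ^ 4 / 4 / 6 ^ 4 := by
      have : a ^ 4 ≤ (BB n (2 * t) / 6) ^ 4 := pow_le_pow_left₀ ha0 (hBle t) 4
      calc a ^ 4 * X ≤ (BB n (2 * t) / 6) ^ 4 * X := mul_le_mul_of_nonneg_right this hX0
        _ = (BB n (2 * t) ^ 4 * (4 * X)) / 4 / 6 ^ 4 := by ring
        _ ≤ _ := by gcongr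
    have hd4 : (1 / A) ^ 4 * X ≤ 1 := by
      calc (1 / A) ^ 4 * X ≤ (1 / A) ^ 4 * A ^ 2 := mul_le_mul_of_nonneg_left hXA (by positivity)
        _ = (1 / A) ^ 2 := by field_simp
        _ ≤ 1 := pow_le_one₀ hA0.le (by rw [div_le_one (by linarith)]; exact hA1)
    have h5 : ‖bb L ν t‖ ^ 4 ≤ 8 * a ^ 4 + 8 * (1 / A) ^ 4 := by
      refine (pow_le_pow_left₀ (norm_nonneg _) h3 4).trans ?_
      nlinarith [sq_nonneg (a - 1 / A), sq_nonneg (a ^ 2 - (1 / A) ^ 2),
        mul_nonneg ha0 hA0.le, sq_nonneg (a + 1 / A)]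
    calc ‖bb L ν t‖ ^ 4 * X ≤ (8 * a ^ 4 + 8 * (1 / A) ^ 4) * X :=
          mul_le_mul_of_nonneg_right h5 hX0
      _ = 8 * (a ^ 4 * X) + 8 * ((1 / A) ^ 4 * X) := by ring
      _ ≤ 8 * (66 ^ 4 / 4 / 6 ^ 4) + 8 * 1 := by linarith
      _ ≤ 14 ^ 4 := by norm_num
  · intro t h1 h2
    have h3 := hb t (by linarith) h2
    obtain ⟨y, hy, hyt⟩ : ∃ y : ℝ, 1 ≤ y ∧ 2 * t = y ^ 3 := by
      refine ⟨(2 * t) ^ (1 / 3 : ℝ), Real.one_le_rpow (by linarith) (by norm_num), ?_⟩
      rw [← Real.rpow_natCast, ← Real.rpow_mul (by linarith)]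
      norm_num
    have hy0 : 0 < y := by linarith
    have h4 := Vdc.uniform3 n (2 * t) y hy hyt
    set a := BB n (2 * t) / (2 * Real.pi) with ha
    have ha0 : 0 ≤ a := hB t
    have ha1 : a ≤ 31 / 6 / y := by
      calc a ≤ BB n (2 * t) / 6 := hBle t
        _ ≤ (31 / y) / 6 := by gcongr
        _ = _ := by ring
    have ha3 : a ^ 3 * t ≤ 70 := by
      calc a ^ 3 * t ≤ (31 / 6 / y) ^ 3 * t :=
            mul_le_mul_of_nonneg_right (pow_le_pow_left₀ ha0 ha1 3) (by linarith)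
        _ = (31 / 6) ^ 3 / 2 * ((2 * t) / y ^ 3) := by ring
        _ = (31 / 6) ^ 3 / 2 := by rw [hyt, div_self (by positivity), mul_one]
        _ ≤ 70 := by norm_num
    have hd3 : (1 / A) ^ 3 * t ≤ 1 := by
      calc (1 / A) ^ 3 * t ≤ (1 / A) ^ 3 * A :=
            mul_le_mul_of_nonneg_left (by linarith) (by positivity)
        _ = (1 / A) ^ 2 := by field_simp
        _ ≤ 1 := pow_le_one₀ hA0.le (by rw [div_le_one (by linarith)]; exact hA1)
    have h5 : ‖bb L ν t‖ ^ 3 ≤ 4 * a ^ 3 + 4 * (1 / A) ^ 3 := by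
      refine (pow_le_pow_left₀ (norm_nonneg _) h3 3).trans ?_
      nlinarith [mul_nonneg (add_nonneg ha0 hA0.le) (sq_nonneg (a - 1 / A))]
    calc ‖bb L ν t‖ ^ 3 * t ≤ (4 * a ^ 3 + 4 * (1 / A) ^ 3) * t :=
          mul_le_mul_of_nonneg_right h5 (by linarith)
      _ = 4 * (a ^ 3 * t) + 4 * ((1 / A) ^ 3 * t) := by ring
      _ ≤ 4 * 70 + 4 * 1 := by linarith
      _ ≤ 14 ^ 3 := by norm_num
  · intro t h1 h2 h3
    have h4 := hb t h1 h2
    have h5 := Vdc.above n (2 * t) (by linarith) (by linarith)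
    have h6 : 0 < n / 2 - t := by linarith
    have h7 : BB n (2 * t) / (2 * Real.pi) * (n / 2 - t) ≤ 1 := by
      calc BB n (2 * t) / (2 * Real.pi) * (n / 2 - t) ≤
            (9 / (n - 2 * t)) / 6 * (n / 2 - t) := by
            refine mul_le_mul_of_nonneg_right ((hBle t).trans ?_) h6.le
            gcongr
        _ = 3 / 4 := by
            have : (n : ℝ) - 2 * t ≠ 0 := by
              intro h
              linarith
            field_simp
            ring
        _ ≤ 1 := by norm_num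
    have h8 : 1 / A * (n / 2 - t) ≤ 1 := by
      rw [one_div_mul_eq_div, div_le_one (by linarith)]
      linarith
    calc ‖bb L ν t‖ * (n / 2 - t) ≤ (BB n (2 * t) / (2 * Real.pi) + 1 / A) * (n / 2 - t) :=
          mul_le_mul_of_nonneg_right h4 h6.le
      _ = BB n (2 * t) / (2 * Real.pi) * (n / 2 - t) + 1 / A * (n / 2 - t) := by ring
      _ ≤ 1 + 1 := add_le_add h7 h8
      _ ≤ 14 := by norm_num


/-- the cutoff -/
structure Cut (s R : ℝ) (L : ℕ) : Prop where
  s0 : 0 < s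
  s1 : s ≤ 1
  R1 : 1 ≤ R
  RL : 64 * (1 + 2 * R) ≤ (L : ℝ)
  Rs : Real.exp (-(s * (R / 16))) / s ≤ s ^ 2
  R4 : R ≤ (1 / s) ^ 2

variable {s R : ℝ}

theorem Cut.ex (h : Cut s R L) : Real.exp (-(s * R)) / s ≤ s ^ 2 := by
  refine le_trans ?_ h.Rs
  have := h.s0
  have := h.R1
  have : Real.exp (-(s * R)) ≤ Real.exp (-(s * (R / 16))) := by
    apply Real.exp_le_exp.2
    have : s * (R / 16) ≤ s * R := mul_le_mul_of_nonneg_left (by linarith) h.s0.le
    linarith
  gcongr

theorem Cut.lg0 (h : Cut s R L) : 0 ≤ Real.log (1 / s) :=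
  Real.log_nonneg (by rw [le_div_iff₀ h.s0]; linarith [h.s1])

theorem Cut.lg (h : Cut s R L) : Real.log (1 + R) ≤ 2 * (1 + Real.log (1 / s)) := by
  have hs := h.s0
  have hs1 := h.s1
  have hR := h.R1
  have h1 : 1 ≤ 1 / s := by rw [le_div_iff₀ hs]; linarith
  have h2 : 1 + R ≤ 2 * (1 / s) ^ 2 := by
    have := one_le_pow₀ h1 (n := 2)
    linarith [h.R4]
  have h3 : Real.log (1 + R) ≤ Real.log (2 * (1 / s) ^ 2) :=
    Real.log_le_log (by linarith) h2
  rw [Real.log_mul (by norm_num) (by positivity), Real.log_pow] at h3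
  have h4 := Real.log_two_lt_d9
  push_cast at h3
  linarith

variable (hd : 3 ≤ d) (w : ℂ) (h : Cut s R L) (hw : s ≤ w.im)

include hd h hw

theorem near_bound' (x : T d L) (a : Fin d) (ha : ∀ i, na (x i) ≤ na (x a)) (h1 : 1 ≤ na (x a))
    (hR : (na (x a) : ℝ) ≤ 2 * R) :
    ‖kc (rv w) x‖ ^ 2 ≤ 11 * 10 ^ 10 / na (x a) := by
  have hs := h.s0
  have hs1 := h.s1
  have hR1 := h.R1
  have hR0 : 0 ≤ R := by linarith
  obtain ⟨b, c, hab, hac, hbc⟩ := two_others hd a
  have hN1 : (1 : ℝ) ≤ na (x a) := by exact_mod_cast h1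
  have hL : 64 * (1 + R) ≤ (L : ℝ) := by linarith [h.RL]
  have Oa := bb_osc' R hR0 hL (x a)
  have Ob := bb_osc' R hR0 hL (x b)
  have Oc := bb_osc' R hR0 hL (x c)
  have hXb : ((x b).valMinAbs.natAbs : ℝ) / 2 ≤ ((x a).valMinAbs.natAbs : ℝ) / 2 := by
    have : (na (x b) : ℝ) ≤ na (x a) := by exact_mod_cast ha b
    unfold na at this
    linarith
  have hXc : ((x c).valMinAbs.natAbs : ℝ) / 2 ≤ ((x a).valMinAbs.natAbs : ℝ) / 2 := by
    have : (na (x c) : ℝ) ≤ na (x a) := by exact_mod_cast ha c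
    unfold na at this
    linarith
  have hX1 : 1 / 2 ≤ ((x a).valMinAbs.natAbs : ℝ) / 2 := by
    unfold na at hN1
    linarith
  have hXR : ((x a).valMinAbs.natAbs : ℝ) / 2 ≤ R := by
    unfold na at hR
    linarith
  have ht := Tim.triple (s := s) Oa Ob Oc (by norm_num) hXb hXc hX1 hs hR1 hXR
  have h2 := kc_single x w s hs hw
  have h3 : ENNReal.ofReal ‖kc (rv w) x‖ ≤ ENNReal.ofReal (60 * 14 ^ 3 *
      (((x a).valMinAbs.natAbs : ℝ) / 2) ^ (-(1 / 2) : ℝ) + Real.exp (-(s * R)) / s) := by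
    refine le_trans (h2.trans ?_) ht
    refine lintegral_mono fun t => ENNReal.ofReal_le_ofReal ?_
    refine mul_le_mul_of_nonneg_left ?_ (Real.exp_pos _).le
    exact prod_three (fun i => ‖bb L (x i) t‖) (fun _ => norm_nonneg _) (fun i => bb_le _ _) a b c
      hab hac hbc
  rw [ENNReal.ofReal_le_ofReal_iff (by positivity)] at h3
  have h4 := h.ex
  have h5 : 0 < (na (x a) : ℝ) := by linarith
  have h6 : ((((x a).valMinAbs.natAbs : ℝ) / 2) ^ (-(1 / 2) : ℝ)) ^ 2 = 2 / na (x a) := by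
    rw [← Real.rpow_natCast, ← Real.rpow_mul (by positivity)]
    have e1 : -(1 / 2 : ℝ) * ((2 : ℕ) : ℝ) = -1 := by norm_num
    rw [e1, Real.rpow_neg_one, inv_div]
    rfl
  set Y := (((x a).valMinAbs.natAbs : ℝ) / 2) ^ (-(1 / 2) : ℝ) with hY
  have hY0 : 0 ≤ Y := by positivity
  have h7 : ‖kc (rv w) x‖ ≤ 60 * 14 ^ 3 * Y + s ^ 2 := h3.trans (by linarith)
  have h8 : s ^ 4 ≤ 2 / na (x a) := by
    rw [le_div_iff₀ h5]
    calc s ^ 4 * na (x a) ≤ s ^ 4 * (2 * (1 / s) ^ 2) :=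
          mul_le_mul_of_nonneg_left (hR.trans (by linarith [h.R4])) (by positivity)
      _ = 2 * s ^ 2 := by field_simp
      _ ≤ 2 := by
          have := pow_le_one₀ hs.le hs1 (n := 2)
          linarith
  calc ‖kc (rv w) x‖ ^ 2 ≤ (60 * 14 ^ 3 * Y + s ^ 2) ^ 2 :=
        pow_le_pow_left₀ (norm_nonneg _) h7 2
    _ ≤ 2 * (60 * 14 ^ 3) ^ 2 * Y ^ 2 + 2 * s ^ 4 := by
        nlinarith [sq_nonneg (60 * 14 ^ 3 * Y - s ^ 2)]
    _ ≤ 2 * (60 * 14 ^ 3) ^ 2 * (2 / na (x a)) + 2 * (2 / na (x a)) := by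
        rw [h6]
        linarith
    _ = (4 * (60 * 14 ^ 3) ^ 2 + 4) / na (x a) := by ring
    _ ≤ _ := by
        gcongr
        norm_num

theorem far_bound (x : T d L) (a : Fin d) (hR : 2 * R < (na (x a) : ℝ)) :
    ‖kc (rv w) x‖ ≤ 2 * s ^ 2 := by
  have hs := h.s0
  have hs1 := h.s1
  have hR1 := h.R1
  set n : ℕ := na (x a) with hn
  have h2n : 2 * n ≤ L := by
    have := ZMod.natAbs_valMinAbs_le (x a)
    rw [hn]
    unfold na
    omega
  have hn0 : (0 : ℝ) < n := by linarith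
  set Tf : ℝ := n / 32 with hTf
  have hTf0 : 0 < Tf := by positivity
  have h2 := kc_single x w s hs hw
  have hpt : ∀ t, 0 < t → ∏ i, ‖bb L (x i) t‖ ≤ if t ≤ Tf then (1 / 4 : ℝ) ^ n else 1 := by
    intro t ht
    have e1 : ∏ i, ‖bb L (x i) t‖ ≤ ‖bb L (x a) t‖ := by
      rw [← Finset.mul_prod_erase Finset.univ _ (Finset.mem_univ a)]
      exact mul_le_of_le_one_right (norm_nonneg _)
        (Finset.prod_le_one (fun _ _ => norm_nonneg _) fun i _ => bb_le _ _)
    refine e1.trans ?_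
    split_ifs with hc
    · rw [bb_abs]
      refine bb_out n t h2n ?_
      rw [abs_of_pos ht]
      linarith
    · exact bb_le _ _
  have h3 : ENNReal.ofReal ‖kc (rv w) x‖ ≤ ENNReal.ofReal ((1 / 4 : ℝ) ^ n * (1 / s) +
      Real.exp (-(s * Tf)) / s) := by
    refine h2.trans ?_
    have e1 : ∫⁻ t in Set.Ioi (0 : ℝ), ENNReal.ofReal (Real.exp (-(s * t)) *
        ∏ i, ‖bb L (x i) t‖) ≤ ∫⁻ t in Set.Ioi (0 : ℝ), (ENNReal.ofReal ((1 / 4 : ℝ) ^ n *
          Real.exp (-(s * t))) + Set.indicator (Set.Ioi Tf)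
            (fun t => ENNReal.ofReal (Real.exp (-(s * t)))) t) := by
      refine setLIntegral_mono' measurableSet_Ioi fun t ht => ?_
      have ht0 : 0 < t := ht
      have e2 := hpt t ht0
      by_cases hc : t ≤ Tf
      · rw [if_pos hc] at e2
        refine le_add_right (ENNReal.ofReal_le_ofReal ?_)
        rw [mul_comm]
        exact mul_le_mul_of_nonneg_right e2 (Real.exp_pos _).le
      · rw [if_neg hc] at e2
        rw [Set.indicator_of_mem (show t ∈ Set.Ioi Tf from not_le.1 hc)]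
        refine le_add_left (ENNReal.ofReal_le_ofReal ?_)
        calc Real.exp (-(s * t)) * ∏ i, ‖bb L (x i) t‖ ≤ Real.exp (-(s * t)) * 1 :=
              mul_le_mul_of_nonneg_left e2 (Real.exp_pos _).le
          _ = _ := mul_one _
    refine e1.trans ?_
    rw [lintegral_add_left (by fun_prop), ENNReal.ofReal_add (by positivity) (by positivity)]
    refine add_le_add (le_of_eq ?_) ?_
    · rw [← ofReal_integral_eq_lintegral_ofReal ((exp_int s hs).const_mul _)
        (Eventually.of_forall fun t => by positivity), integral_const_mul, exp_val s hs]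
    · rw [lintegral_indicator measurableSet_Ioi]
      have e3 : (volume.restrict (Set.Ioi (0 : ℝ))).restrict (Set.Ioi Tf) =
          volume.restrict (Set.Ioi Tf) := by
        rw [Measure.restrict_restrict measurableSet_Ioi]
        congr 1
        ext t
        simp only [Set.mem_inter_iff, Set.mem_Ioi]
        constructor
        · exact fun h => h.1
        · exact fun h => ⟨h, hTf0.trans h⟩
      rw [e3]
      have e4 : IntegrableOn (fun t : ℝ => Real.exp (-(s * t))) (Set.Ioi Tf) :=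
        (exp_int s hs).mono_set (Set.Ioi_subset_Ioi hTf0.le)
      rw [← ofReal_integral_eq_lintegral_ofReal e4 (Eventually.of_forall fun t => by positivity)]
      apply ENNReal.ofReal_le_ofReal
      have e5 := integral_exp_mul_Ioi (a := -s) (by linarith) Tf
      have e6 : (fun t : ℝ => Real.exp (-(s * t))) = fun t => Real.exp (-s * t) := by
        funext t; ring_nf
      rw [e6, e5]
      rw [neg_div_neg_eq]
      apply le_of_eq
      ring_nf
  rw [ENNReal.ofReal_le_ofReal_iff (by positivity)] at h3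
  have h4 : Real.exp (-(s * Tf)) / s ≤ s ^ 2 := by
    refine le_trans ?_ h.Rs
    have : Real.exp (-(s * Tf)) ≤ Real.exp (-(s * (R / 16))) := by
      apply Real.exp_le_exp.2
      have : s * (R / 16) ≤ s * Tf := mul_le_mul_of_nonneg_left (by rw [hTf]; linarith) hs.le
      linarith
    gcongr
  have h5 : (1 / 4 : ℝ) ^ n * (1 / s) ≤ s ^ 2 := by
    refine le_trans ?_ h.ex
    have e1 : (1 / 4 : ℝ) ≤ Real.exp (-1) := by
      rw [Real.exp_neg, one_div]
      apply inv_anti₀ (Real.exp_pos 1)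
      linarith [Real.exp_one_lt_d9]
    have e2 : (1 / 4 : ℝ) ^ n ≤ Real.exp (-(s * R)) := by
      refine (pow_le_pow_left₀ (by norm_num) e1 n).trans ?_
      rw [← Real.exp_nat_mul]
      apply Real.exp_le_exp.2
      have e3 : s * R ≤ 1 * R := mul_le_mul_of_nonneg_right hs1 (by linarith)
      linarith
    rw [div_eq_mul_one_div (Real.exp (-(s * R))) s]
    exact mul_le_mul_of_nonneg_right e2 (by positivity)
  linarith

theorem fib_bound' (i0 : Fin d) (ν : ZMod L) :
    ∑ x ∈ fib i0 ν, ‖kc (rv w) x‖ ^ 2 ≤ 8000000 * (1 + Real.log (1 / s)) ^ 2 := by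
  have hs := h.s0
  have hs1 := h.s1
  have hR1 := h.R1
  have hR0 : 0 ≤ R := by linarith
  have hL : 64 * (1 + R) ≤ (L : ℝ) := by linarith [h.RL]
  have O := bb_osc' R hR0 hL ν
  have h1 := kc_fib hd i0 ν w s hs hw
  have h2 := Tim.double (s := s) O (by norm_num) hs hR1 (fun τ => 100 / 121 * ‖jL L τ‖ ^ 2)
    ((jL_cont.norm.pow 2).const_mul _).measurable (fun _ => by positivity)
    (fun τ => by
      have := pow_le_one₀ (norm_nonneg _) (jL_le (L := L) τ) (n := 2)
      linarith)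
    (fun τ => by simp only [jL_neg, RCLike.norm_conj])
    (fun τ hτ => by
      have h3 := jL_dec' (L := L) τ (by linarith)
      have h4 := pow_le_pow_left₀ (norm_nonneg _) h3 2
      rw [div_pow, Real.sq_sqrt (by positivity)] at h4
      calc 100 / 121 * ‖jL L τ‖ ^ 2 ≤ 100 / 121 * (11 ^ 2 / (1 + |τ|)) := by gcongr
        _ = _ := by ring)
  have h2' : ∫⁻ t in Set.Ioi (0 : ℝ), ∫⁻ u in Set.Ioi (0 : ℝ), ENNReal.ofReal
        (Real.exp (-(s * (t + u))) * (‖bb L ν t‖ * ‖bb L ν u‖) * ‖jL L (t - u)‖ ^ 2) =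
      ENNReal.ofReal (121 / 100) * ∫⁻ t in Set.Ioi (0 : ℝ), ∫⁻ u in Set.Ioi (0 : ℝ), ENNReal.ofReal
        (Real.exp (-(s * (t + u))) * (‖bb L ν t‖ * ‖bb L ν u‖) *
          (100 / 121 * ‖jL L (t - u)‖ ^ 2)) := by
    rw [← lintegral_const_mul' _ _ ENNReal.ofReal_ne_top]
    refine lintegral_congr fun t => ?_
    rw [← lintegral_const_mul' _ _ ENNReal.ofReal_ne_top]
    refine lintegral_congr fun u => ?_
    rw [← ENNReal.ofReal_mul (by norm_num)]
    congr 1
    ring
  rw [h2'] at h1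
  have h3 := h1.trans (mul_le_mul_right h2 _)
  rw [← ENNReal.ofReal_mul (by norm_num)] at h3
  have hlog := h.lg
  have hlog0 : 0 ≤ Real.log (1 + R) := Real.log_nonneg (by linarith)
  have hnn : 0 ≤ 121 / 100 * (((14 : ℝ) ^ 2 * (14 + 4 * Real.log (1 + R)) +
      Real.exp (-(s * R)) / s) * (100 * (2 * Real.log (1 + R) + 1) + Real.exp (-(s * R)) / s) +
      Real.exp (-(s * R)) / s * (1 / s)) := by
    have a1 : 0 ≤ Real.exp (-(s * R)) / s := by positivity
    have a2 : 0 ≤ 14 + 4 * Real.log (1 + R) := by linarith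
    have a3 : 0 ≤ 2 * Real.log (1 + R) + 1 := by linarith
    positivity
  rw [ENNReal.ofReal_le_ofReal_iff hnn] at h3
  have hδ := h.ex
  set δ := Real.exp (-(s * R)) / s with hδdef
  have hδ0 : 0 ≤ δ := by positivity
  have hδ1 : δ ≤ 1 := hδ.trans (pow_le_one₀ hs.le hs1)
  set Λ := 1 + Real.log (1 / s) with hΛ
  have hΛ1 : 1 ≤ Λ := by
    have := h.lg0
    linarith
  have h4 : δ * (1 / s) ≤ 1 := by
    calc δ * (1 / s) ≤ s ^ 2 * (1 / s) := mul_le_mul_of_nonneg_right hδ (by positivity)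
      _ = s := by field_simp
      _ ≤ 1 := hs1
  have h5 : (14 : ℝ) ^ 2 * (14 + 4 * Real.log (1 + R)) + δ ≤ 5881 * Λ := by linarith
  have h6 : 100 * (2 * Real.log (1 + R) + 1) + δ ≤ 901 * Λ := by linarith
  have h7 : 0 ≤ 100 * (2 * Real.log (1 + R) + 1) + δ := by positivity
  refine h3.trans ?_
  calc 121 / 100 * (((14 : ℝ) ^ 2 * (14 + 4 * Real.log (1 + R)) + δ) *
        (100 * (2 * Real.log (1 + R) + 1) + δ) +
        δ * (1 / s)) ≤ 121 / 100 * ((5881 * Λ) * (901 * Λ) + 1) := by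
        refine mul_le_mul_of_nonneg_left ?_ (by norm_num)
        exact add_le_add (mul_le_mul h5 h6 h7 (by positivity)) h4
    _ ≤ _ := by nlinarith

theorem h1_sum' (K : ℝ) (hK : 0 ≤ K) :
    ∑ ν : ZMod L, (if ν = 0 then 0 else if (na ν : ℝ) ≤ 2 * R then K / na ν else 0) ≤
      8 * K * (1 + Real.log (1 / s)) := by
  classical
  have hs := h.s0
  have hs1 := h.s1
  have hR1 : 1 ≤ 2 * R := by linarith [h.R1]
  set S : Finset (ZMod L) := Finset.univ.filter fun ν => na ν ∈ Finset.Icc 1 ⌊2 * R⌋₊ with hS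
  have h1 : ∑ ν : ZMod L, (if ν = 0 then 0 else if (na ν : ℝ) ≤ 2 * R then K / na ν else 0) =
      ∑ ν ∈ S, K / na ν := by
    rw [hS, Finset.sum_filter]
    refine Finset.sum_congr rfl fun ν _ => ?_
    by_cases h0 : ν = 0
    · rw [if_pos h0, if_neg]
      rw [Finset.mem_Icc]
      have := (na_zero_iff ν).2 h0
      omega
    · rw [if_neg h0]
      have hne : na ν ≠ 0 := fun h => h0 ((na_zero_iff ν).1 h)
      have h2 : ((na ν : ℝ) ≤ 2 * R) ↔ na ν ∈ Finset.Icc 1 ⌊2 * R⌋₊ := by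
        rw [Finset.mem_Icc, Nat.le_floor_iff (by linarith)]
        constructor
        · intro h
          exact ⟨by omega, h⟩
        · intro h
          exact h.2
      simp only [h2]
  rw [h1, ← Finset.sum_fiberwise_of_maps_to (s := S) (t := Finset.Icc 1 ⌊2 * R⌋₊) (g := na)
    (fun ν hν => (Finset.mem_filter.1 hν).2)]
  have h2 : ∀ n ∈ Finset.Icc 1 ⌊2 * R⌋₊, ∑ ν ∈ S.filter (fun ν => na ν = n), K / (na ν : ℝ) ≤
      2 * K * (n : ℝ)⁻¹ := by
    intro n hn
    have h3 : ∑ ν ∈ S.filter (fun ν => na ν = n), K / (na ν : ℝ) =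
        ∑ _ν ∈ S.filter (fun ν => na ν = n), K / (n : ℝ) := by
      refine Finset.sum_congr rfl fun ν hν => ?_
      rw [(Finset.mem_filter.1 hν).2]
    rw [h3, Finset.sum_const, nsmul_eq_mul]
    have h4 : ((S.filter (fun ν => na ν = n)).card : ℝ) ≤ 2 := by
      have h5 : (S.filter (fun ν => na ν = n)).card ≤ 2 := by
        refine (Finset.card_le_card ?_).trans (na_fiber (L := L) n)
        intro ν hν
        rw [Finset.mem_filter] at hν ⊢
        exact ⟨Finset.mem_univ _, hν.2⟩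
      exact_mod_cast h5
    calc ((S.filter (fun ν => na ν = n)).card : ℝ) * (K / n) ≤ 2 * (K / n) :=
          mul_le_mul_of_nonneg_right h4 (by positivity)
      _ = _ := by ring
  refine (Finset.sum_le_sum h2).trans ?_
  rw [← Finset.mul_sum]
  have h3 : ∑ n ∈ Finset.Icc 1 ⌊2 * R⌋₊, ((n : ℝ))⁻¹ ≤ 1 + Real.log (2 * R) := by
    have := harmonic_floor_le_one_add_log (2 * R) hR1
    rw [harmonic_eq_sum_Icc] at this
    push_cast at this
    exact this
  have h4 : Real.log (2 * R) ≤ 1 + 2 * Real.log (1 / s) := by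
    have h5 : Real.log (2 * R) ≤ Real.log (2 * (1 / s) ^ 2) :=
      Real.log_le_log (by linarith) (by linarith [h.R4])
    rw [Real.log_mul (x := 2) (y := (1 / s) ^ 2) (by norm_num) (by positivity), Real.log_pow] at h5
    have h6 := Real.log_two_lt_d9
    push_cast at h5
    linarith
  have h5 := h.lg0
  calc 2 * K * ∑ n ∈ Finset.Icc 1 ⌊2 * R⌋₊, ((n : ℝ))⁻¹ ≤ 2 * K * (1 + Real.log (2 * R)) :=
        mul_le_mul_of_nonneg_left h3 (by positivity)
    _ ≤ 2 * K * (2 + 2 * Real.log (1 / s)) := mul_le_mul_of_nonneg_left (by linarith) (by positivity)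
    _ ≤ _ := by nlinarith

/-- the fourth moment -/
theorem four_bound' (B : ℝ) (hB0 : 0 ≤ B)
    (hB : ‖kc (rv w) (0 : T d L)‖ ≤ B) (hB2 : ∑ x : T d L, ‖kc (rv w) x‖ ^ 2 ≤ B / s) :
    ∑ x : T d L, ‖kc (rv w) x‖ ^ 4 ≤ B ^ 4 + 10 * d * B +
      d * (8 * 10 ^ 18 * (1 + Real.log (1 / s)) ^ 3) := by
  classical
  have hs := h.s0
  have hs1 := h.s1
  have hR1' := h.R1
  set Λ := 1 + Real.log (1 / s) with hΛ
  have hΛ1 : 1 ≤ Λ := by
    have := h.lg0
    linarith
  set M : T d L → ℝ := fun x => ‖kc (rv w) x‖ ^ 2 with hM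
  have hM0 : ∀ x, 0 ≤ M x := fun x => by simp only [hM]; positivity
  set K : ℝ := 11 * 10 ^ 10 with hK
  set g : ZMod L → ℝ := fun ν => if ν = 0 then 0 else if (na ν : ℝ) ≤ 2 * R then K / na ν else 0
    with hg
  have hg0 : ∀ ν, 0 ≤ g ν := by
    intro ν
    simp only [hg]
    split_ifs <;> positivity
  -- pointwise
  have hpt : ∀ x : T d L, x ≠ 0 → M x ≤ ∑ i, (g (x i) + 10 * s ^ 4) := by
    intro x hx
    obtain ⟨i1, hi1⟩ : ∃ i, x i ≠ 0 := by
      by_contra hcon
      push Not at hcon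
      exact hx (funext hcon)
    obtain ⟨a, _, ha⟩ := Finset.exists_max_image Finset.univ (fun i => na (x i)) ⟨i1, Finset.mem_univ _⟩
    have ha1 : 1 ≤ na (x a) := by
      have h1 := ha i1 (Finset.mem_univ _)
      have h2 : na (x i1) ≠ 0 := fun h => hi1 ((na_zero_iff _).1 h)
      omega
    have ha0 : x a ≠ 0 := by
      intro h
      have := (na_zero_iff (x a)).2 h
      omega
    have h1 : M x ≤ g (x a) + 10 * s ^ 4 := by
      rcases le_or_gt ((na (x a) : ℝ)) (2 * R) with h2 | h2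
      · have h3 := near_bound' hd w h hw x a (fun i => ha i (Finset.mem_univ _)) ha1 h2
        have h4 : g (x a) = K / na (x a) := by
          simp only [hg]
          rw [if_neg ha0, if_pos h2]
        rw [h4]
        have : 0 ≤ 10 * s ^ 4 := by positivity
        exact h3.trans (by linarith)
      · have h4 := far_bound hd w h hw x a h2
        have h5 : M x ≤ (2 * s ^ 2) ^ 2 := pow_le_pow_left₀ (norm_nonneg _) h4 2
        have h7 : (2 * s ^ 2) ^ 2 ≤ 10 * s ^ 4 := by
          have : 0 ≤ s ^ 4 := by positivity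
          nlinarith
        have := hg0 (x a)
        linarith
    refine h1.trans ?_
    exact Finset.single_le_sum (f := fun i => g (x i) + 10 * s ^ 4)
      (fun i _ => by have := hg0 (x i); positivity) (Finset.mem_univ a)
  have hsplit : ∀ x : T d L, ‖kc (rv w) x‖ ^ 4 ≤ (if x = 0 then B ^ 4 else 0) +
      ∑ i, (M x * g (x i) + 10 * s ^ 4 * M x) := by
    intro x
    have hnn : 0 ≤ ∑ i, (M x * g (x i) + 10 * s ^ 4 * M x) := by
      refine Finset.sum_nonneg fun i _ => ?_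
      have h1 := hM0 x
      have h2 := hg0 (x i)
      positivity
    by_cases hx : x = 0
    · rw [if_pos hx, hx]
      rw [hx] at hnn
      have := pow_le_pow_left₀ (norm_nonneg _) hB 4
      linarith
    · rw [if_neg hx, zero_add]
      have h1 : ‖kc (rv w) x‖ ^ 4 = M x * M x := by
        simp only [hM]
        ring
      rw [h1]
      refine (mul_le_mul_of_nonneg_left (hpt x hx) (hM0 x)).trans (le_of_eq ?_)
      rw [Finset.mul_sum]
      refine Finset.sum_congr rfl fun i _ => ?_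
      ring
  refine (Finset.sum_le_sum fun x _ => hsplit x).trans ?_
  rw [Finset.sum_add_distrib, Finset.sum_ite_eq' Finset.univ (0 : T d L), if_pos (Finset.mem_univ _),
    Finset.sum_comm]
  have hper : ∀ i : Fin d, ∑ x : T d L, (M x * g (x i) + 10 * s ^ 4 * M x) ≤
      8 * 10 ^ 18 * Λ ^ 3 + 10 * B := by
    intro i
    rw [Finset.sum_add_distrib, ← Finset.mul_sum]
    have e1 : 10 * s ^ 4 * ∑ x : T d L, M x ≤ 10 * B := by
      calc 10 * s ^ 4 * ∑ x : T d L, M x ≤ 10 * s ^ 4 * (B / s) :=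
            mul_le_mul_of_nonneg_left hB2 (by positivity)
        _ = 10 * B * s ^ 3 := by field_simp
        _ ≤ 10 * B * 1 := mul_le_mul_of_nonneg_left (pow_le_one₀ hs.le hs1) (by positivity)
        _ = _ := mul_one _
    have e2 : ∑ x : T d L, M x * g (x i) = ∑ ν : ZMod L, ∑ x ∈ fib i ν, M x * g (x i) := by
      unfold fib
      exact (Finset.sum_fiberwise Finset.univ (fun x : T d L => x i) _).symm
    have e3 : ∀ ν : ZMod L, ∑ x ∈ fib i ν, M x * g (x i) ≤ (8000000 * Λ ^ 2) * g ν := by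
      intro ν
      have e4 : ∑ x ∈ fib i ν, M x * g (x i) = (∑ x ∈ fib i ν, M x) * g ν := by
        rw [Finset.sum_mul]
        refine Finset.sum_congr rfl fun x hx => ?_
        unfold fib at hx
        rw [(Finset.mem_filter.1 hx).2]
      rw [e4]
      exact mul_le_mul_of_nonneg_right (fib_bound' hd w h hw i ν) (hg0 ν)
    have e5 : ∑ ν : ZMod L, g ν ≤ 8 * K * Λ := h1_sum' hd w h hw K (by norm_num)
    have e6 : ∑ x : T d L, M x * g (x i) ≤ 8 * 10 ^ 18 * Λ ^ 3 := by
      rw [e2]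
      refine (Finset.sum_le_sum fun ν _ => e3 ν).trans ?_
      rw [← Finset.mul_sum]
      calc 8000000 * Λ ^ 2 * ∑ ν : ZMod L, g ν ≤ 8000000 * Λ ^ 2 * (8 * K * Λ) :=
            mul_le_mul_of_nonneg_left e5 (by positivity)
        _ = (8000000 * 8 * (11 * 10 ^ 10)) * Λ ^ 3 := by rw [hK]; ring
        _ ≤ 8 * 10 ^ 18 * Λ ^ 3 := by
            refine mul_le_mul_of_nonneg_right (by norm_num) (by positivity)
    linarith
  refine (add_le_add le_rfl (Finset.sum_le_sum fun i _ => hper i)).trans (le_of_eq ?_)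
  rw [Finset.sum_const, Finset.card_univ, Fintype.card_fin, nsmul_eq_mul]
  ring

end Pool.Agent.Zk11.QE
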