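import Pool.Agent.Zk11.QE.Er

/-! The ladder multiplier away from the origin on small tori. -/

set_option autoImplicit false
set_option linter.unusedSectionVars false

open scoped BigOperators Topology ENNReal
open MeasureTheory Filter

namespace Pool.Agent.Zk11.QE

open Pool.Agent.Zk11.QD
open Pool.Agent.W788.MFP.Four (T e NN adj adj_neg e_comm e_add_left e_add e_zero e_neg e_neg_left
  e_normSq sum_e NN_pos card_T e_single)

variable {d L : ℕ} [NeZero L] {z : ℂ} {σ : ℝ} {m : ℂ}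

/-- the common data -/
structure Pd (d L : ℕ) [NeZero L] (z : ℂ) (σ : ℝ) (m : ℂ) (τ B S g s R : ℝ) : Prop where
  hd : 3 ≤ d
  md : MD d L z σ m
  B1 : 1 ≤ B
  S1 : 1 ≤ S
  g0 : 0 < g
  g1 : g ≤ 1
  gσ : σ = g ^ 6
  mB : m.im ≤ B
  η1 : z.im ≤ σ ^ 2
  hτ : τ ^ 2 ≤ 2 * σ ^ 2
  lg : Real.log (1 / σ) ≤ B * S
  cut : Cut s R L
  sw : s ≤ ss z σ m
  sB : σ ^ 2 / B ≤ s

variable {τ B S g s R : ℝ}

theorem Pd.B0 (h : Pd d L z σ m τ B S g s R) : 0 < B := by linarith [h.B1]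

theorem Pd.S0 (h : Pd d L z σ m τ B S g s R) : 0 < S := by linarith [h.S1]

theorem Pd.σ0 (h : Pd d L z σ m τ B S g s R) : 0 < σ := by
  rw [h.gσ]
  exact pow_pos h.g0 6

theorem Pd.lgs (h : Pd d L z σ m τ B S g s R) : Real.log (1 / s) ≤ 3 * (B * S) := by
  have hs := h.cut.s0
  have hσ := h.σ0
  have hB := h.B0
  have hinv : 1 / s ≤ B / σ ^ 2 := by
    have h1 := one_div_le_one_div_of_le (by positivity) h.sB
    rwa [one_div_div] at h1
  have e3 : Real.log (1 / s) ≤ Real.log (B / σ ^ 2) :=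
    Real.log_le_log (by positivity) hinv
  have e4 : Real.log (B / σ ^ 2) = Real.log B + 2 * Real.log (1 / σ) := by
    rw [Real.log_div hB.ne' (by positivity), Real.log_pow, one_div, Real.log_inv]
    push_cast
    ring
  have e5 : Real.log B ≤ B := (Real.log_le_sub_one_of_pos hB).trans (by linarith)
  have e6 : B ≤ B * S := le_mul_of_one_le_right hB.le h.S1
  have e7 := h.lg
  linarith

/-- the multiplier away from the origin -/
theorem Pd.big (h : Pd d L z σ m τ B S g s R) (p : T d L) (a : Fin d)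
    (ha : g ^ 20 / 2 ≤ 1 - co (p a)) : ‖(τ : ℂ) ^ 2 * tt z σ m p‖ ≤ 2 * 10 ^ 5 * B ^ 2 * S * g := by
  have hg := h.g0
  have hB := h.B0
  have hS := h.S0
  have hB1 := h.B1
  have hS1 := h.S1
  have hs := h.cut.s0
  have hs1 := h.cut.s1
  have hsl := h.sB
  have hG : 1 / (2 * ((1 / g ^ 5) ^ 4)) ≤ 1 - co (p a) := by
    refine le_trans (le_of_eq ?_) ha
    field_simp
  have h1 := tt_dec' h.hd h.md s R h.cut h.sw p a (1 / g ^ 5) (by positivity) hG
  have hσ2 : σ ^ 2 = g ^ 12 := by rw [h.gσ]; ring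
  have h2 : 3 / Real.sqrt s ≤ 3 * B / g ^ 6 := by
    have e1 : g ^ 6 / B ≤ Real.sqrt s := by
      apply Real.le_sqrt_of_sq_le
      calc (g ^ 6 / B) ^ 2 = σ ^ 2 / B / B := by rw [hσ2]; field_simp
        _ ≤ σ ^ 2 / B / 1 := by
            refine div_le_div_of_nonneg_left (by positivity) (by norm_num) hB1
        _ ≤ s := by rw [div_one]; exact hsl
    calc 3 / Real.sqrt s ≤ 3 / (g ^ 6 / B) := div_le_div_of_nonneg_left (by norm_num) (by positivity) e1
      _ = _ := by field_simp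
  have h3 : 2 * Real.log (1 + R) + 1 ≤ 17 * (B * S) := by
    have e1 := h.cut.lg
    have e2 := h.lgs
    have e3 : 1 ≤ B * S := one_le_mul_of_one_le_of_one_le hB1 hS1
    linarith
  have hlog0 : 0 ≤ 2 * Real.log (1 + R) + 1 := by
    have : 0 ≤ Real.log (1 + R) := Real.log_nonneg (by linarith [h.cut.R1])
    linarith
  have h4 : ‖tt z σ m p‖ ≤ 10 ^ 5 * B ^ 2 * S / g ^ 11 := by
    refine h1.trans ?_
    have e1 : 1331 * (1 / g ^ 5) * (3 / Real.sqrt s) * (2 * Real.log (1 + R) + 1) ≤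
        1331 * (1 / g ^ 5) * (3 * B / g ^ 6) * (17 * (B * S)) := by gcongr
    have e2 : 1331 * (1 / g ^ 5) * (3 * B / g ^ 6) * (17 * (B * S)) =
        67881 * B ^ 2 * S / g ^ 11 := by
      field_simp
      ring
    have e3 : 2 * s ≤ 1000 * B ^ 2 * S / g ^ 11 := by
      rw [le_div_iff₀ (by positivity)]
      have e4 : g ^ 11 ≤ 1 := pow_le_one₀ hg.le h.g1
      have e5 : 1 ≤ B ^ 2 * S := one_le_mul_of_one_le_of_one_le (one_le_pow₀ hB1) hS1
      calc 2 * s * g ^ 11 ≤ 2 * 1 * 1 := by gcongr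
        _ ≤ 1000 * (B ^ 2 * S) := by linarith
        _ = _ := by ring
    calc _ ≤ 67881 * B ^ 2 * S / g ^ 11 + 1000 * B ^ 2 * S / g ^ 11 := by linarith
      _ = 68881 * (B ^ 2 * S / g ^ 11) := by ring
      _ ≤ 10 ^ 5 * (B ^ 2 * S / g ^ 11) :=
          mul_le_mul_of_nonneg_right (by norm_num) (by positivity)
      _ = _ := by ring
  rw [norm_mul, norm_pow, Complex.norm_real, Real.norm_eq_abs, sq_abs]
  have hτ := h.hτ
  rw [hσ2] at hτ
  calc τ ^ 2 * ‖tt z σ m p‖ ≤ 2 * g ^ 12 * (10 ^ 5 * B ^ 2 * S / g ^ 11) := by gcongr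
    _ = _ := by field_simp

/-- the data of the chain -/
theorem Pd.ch (h : Pd d L z σ m τ B S g s R)
    (hq : 3 / 4 * (z.im / ss z σ m) ≤ 1 - τ ^ 2 * (m.im / ss z σ m))
    (hN4 : N4 d L z σ m ≤ (B * S ^ 2) ^ 2) (hL : 4 ≤ g ^ 10 * L) :
    Ch d L z σ m τ (2 * B * S ^ 2 * g ^ 12) (2 * 10 ^ 5 * B ^ 2 * S * g) (g ^ 15) := by
  classical
  have hg := h.g0
  have hB := h.B0
  have hS := h.S0
  have hs := ss_pos h.md
  have hz := h.md.zim
  refine ⟨h.md, ?_, by positivity, ?_, by positivity, by positivity, ?_⟩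
  · have h2 : 0 ≤ z.im / ss z σ m := by positivity
    linarith
  · have h2 : τ ^ 4 ≤ (2 * σ ^ 2) ^ 2 := by
      calc τ ^ 4 = (τ ^ 2) ^ 2 := by ring
        _ ≤ (2 * σ ^ 2) ^ 2 := pow_le_pow_left₀ (by positivity) h.hτ 2
    calc τ ^ 4 * QD.N4 d L z σ m ≤ (2 * σ ^ 2) ^ 2 * (B * S ^ 2) ^ 2 :=
          mul_le_mul h2 hN4 N4_nonneg (by positivity)
      _ = _ := by rw [h.gσ]; ring
  · have h2 := small_count (d := d) (L := L) (g ^ 10) (by positivity) hL
    have h3 : (g ^ 10) ^ d ≤ (g ^ 15) ^ 2 := by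
      calc (g ^ 10) ^ d ≤ (g ^ 10) ^ 3 :=
            pow_le_pow_of_le_one (by positivity) (pow_le_one₀ hg.le h.g1) h.hd
        _ = (g ^ 15) ^ 2 := by ring
    refine le_trans ?_ (h2.trans h3)
    refine mul_le_mul_of_nonneg_left ?_ (inv_nonneg.2 NN_pos.le)
    have h4 : (Finset.univ.filter fun p : T d L => 2 * 10 ^ 5 * B ^ 2 * S * g <
        ‖(τ : ℂ) ^ 2 * tt z σ m p‖).card ≤
        (Finset.univ.filter fun p : T d L => ∀ i, 1 - co (p i) < (g ^ 10) ^ 2 / 2).card := by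
      refine Finset.card_le_card fun p hp => ?_
      rw [Finset.mem_filter] at hp ⊢
      refine ⟨hp.1, fun i => ?_⟩
      by_contra hcon
      have h5 := h.big p i (by
        have := not_lt.1 hcon
        calc g ^ 20 / 2 = (g ^ 10) ^ 2 / 2 := by ring
          _ ≤ _ := this)
      exact absurd hp.2 (not_lt.2 h5)
    exact_mod_cast h4

end Pool.Agent.Zk11.QE
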