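import Pool.Agent.Zk11.QD.Dec
import Pool.Agent.Zk11.QD.Bb

/-! Trigonometric quadrature on the cycle. -/

set_option autoImplicit false
set_option linter.unusedSectionVars false

open scoped BigOperators Topology
open Filter

namespace Pool.Agent.Zk11.QE

open Pool.Agent.Zk11.QD
open Pool.Agent.Zk11.QD.Vdc (BB)

variable {L : ℕ} [NeZero L]

/-- the character -/
noncomputable def ch (L : ℕ) [NeZero L] (q : ZMod L) : ℂ := (ZMod.stdAddChar q : ℂ)

theorem ch_add (p q : ZMod L) : ch L (p + q) = ch L p * ch L q := by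
  unfold ch
  exact AddChar.map_add_eq_mul _ _ _

theorem ch_conj (q : ZMod L) : (starRingEnd ℂ) (ch L q) = ch L (-q) := by
  unfold ch
  rw [ZMod.stdAddChar_apply, ZMod.stdAddChar_apply, AddChar.map_neg_eq_inv,
    Circle.coe_inv_eq_conj]

theorem ch_nsmul (q : ZMod L) (n : ℕ) : ch L q ^ n = ch L (q * (n : ZMod L)) := by
  induction n with
  | zero => unfold ch; simp
  | succ n ih =>
    rw [pow_succ, ih, ← ch_add]
    congr 1
    push_cast
    ring

theorem ch_avg (a : ZMod L) : (L : ℂ)⁻¹ * ∑ q : ZMod L, ch L (q * a) = if a = 0 then 1 else 0 := by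
  have hL := Lc_ne (L := L)
  unfold ch
  rw [AddChar.sum_mulShift a (ZMod.isPrimitive_stdAddChar L)]
  split_ifs
  · rw [ZMod.card]
    field_simp
  · simp

/-- the oscillating average -/
noncomputable def SL (L : ℕ) [NeZero L] (ζ : ℂ) (n : ℕ) : ℂ :=
  (L : ℂ)⁻¹ * ∑ q : ZMod L, Complex.exp (Complex.I * ((2 * (ζ * ch L q).re : ℝ) : ℂ)) *
    ch L (q * (n : ZMod L))

/-- its Taylor coefficients -/
noncomputable def cc (ζ : ℂ) (n j : ℕ) : ℂ :=
  Complex.I ^ j / (j.factorial : ℂ) * ∑ i ∈ Finset.range (j + 1),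
    (if 2 * i + n = j then ((j.choose i : ℕ) : ℂ) * ζ ^ i * (starRingEnd ℂ) ζ ^ (j - i) else 0)

theorem zmod_zero_iff (i j n : ℕ) (hi : i ≤ j) (h : j + n < L) :
    ((i : ZMod L) - ((j - i : ℕ) : ZMod L) + (n : ZMod L) = 0) ↔ 2 * i + n = j := by
  have e1 : (i : ZMod L) - ((j - i : ℕ) : ZMod L) + (n : ZMod L) =
      (((2 * i + n : ℕ) : ℤ) - (j : ℤ) : ℤ) := by
    rw [Nat.cast_sub hi]
    push_cast
    ring
  rw [e1, ZMod.intCast_zmod_eq_zero_iff_dvd]
  constructor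
  · rintro ⟨c, hc⟩
    have h1 : |((2 * i + n : ℕ) : ℤ) - (j : ℤ)| < L := by
      rw [abs_lt]
      constructor <;> omega
    rw [hc, abs_mul] at h1
    have h2 : |c| = 0 := by
      by_contra hne
      have h3 : 1 ≤ |c| := Int.one_le_abs (fun h => hne (by rw [h]; rfl))
      have h4 : |(L : ℤ)| = L := abs_of_nonneg (by positivity)
      rw [h4] at h1
      have h5 : (0 : ℤ) ≤ L := by positivity
      nlinarith
    rw [abs_eq_zero] at h2
    rw [h2, mul_zero] at hc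
    omega
  · intro h1
    rw [h1, sub_self]
    exact dvd_zero _

theorem avg_poly (ζ : ℂ) (n j : ℕ) (h : j + n < L) :
    (L : ℂ)⁻¹ * ∑ q : ZMod L, (Complex.I * ((2 * (ζ * ch L q).re : ℝ) : ℂ)) ^ j /
      (j.factorial : ℂ) * ch L (q * (n : ZMod L)) = cc ζ n j := by
  have h1 : ∀ q : ZMod L, (Complex.I * ((2 * (ζ * ch L q).re : ℝ) : ℂ)) ^ j /
      (j.factorial : ℂ) * ch L (q * (n : ZMod L)) =
      Complex.I ^ j / (j.factorial : ℂ) * ∑ i ∈ Finset.range (j + 1),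
        (((j.choose i : ℕ) : ℂ) * ζ ^ i * (starRingEnd ℂ) ζ ^ (j - i)) *
          ch L (q * ((i : ZMod L) - ((j - i : ℕ) : ZMod L) + (n : ZMod L))) := by
    intro q
    have e1 : ((2 * (ζ * ch L q).re : ℝ) : ℂ) = ζ * ch L q + (starRingEnd ℂ) (ζ * ch L q) := by
      rw [Complex.add_conj]
    have e2 : ∀ i ∈ Finset.range (j + 1), (((j.choose i : ℕ) : ℂ) * ζ ^ i *
        (starRingEnd ℂ) ζ ^ (j - i)) *
          ch L (q * ((i : ZMod L) - ((j - i : ℕ) : ZMod L) + (n : ZMod L))) =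
        (ζ * ch L q) ^ i * (starRingEnd ℂ) (ζ * ch L q) ^ (j - i) * ((j.choose i : ℕ) : ℂ) *
          ch L (q * (n : ZMod L)) := by
      intro i _
      rw [map_mul, ch_conj, mul_pow, mul_pow, ch_nsmul, ch_nsmul]
      have e3 : q * ((i : ZMod L) - ((j - i : ℕ) : ZMod L) + (n : ZMod L)) =
          q * (i : ZMod L) + (-q * ((j - i : ℕ) : ZMod L) + q * (n : ZMod L)) := by ring
      rw [e3, ch_add, ch_add]
      ring
    rw [Finset.sum_congr rfl e2, ← Finset.sum_mul, ← add_pow, e1, mul_pow]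
    ring
  rw [Finset.sum_congr rfl fun q _ => h1 q, ← Finset.mul_sum, mul_left_comm, Finset.sum_comm]
  unfold cc
  congr 1
  rw [Finset.mul_sum]
  refine Finset.sum_congr rfl fun i hi => ?_
  rw [← Finset.mul_sum, mul_left_comm, ch_avg]
  have hij : i ≤ j := Nat.lt_succ_iff.1 (Finset.mem_range.1 hi)
  by_cases h2 : 2 * i + n = j
  · rw [if_pos h2, if_pos ((zmod_zero_iff i j n hij h).2 h2), mul_one]
  · rw [if_neg h2, if_neg (fun h3 => h2 ((zmod_zero_iff i j n hij h).1 h3)), mul_zero]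

/-- the exponential tail -/
theorem tail_exp (x : ℝ) (hx : 0 ≤ x) (J : ℕ) (hJ : 16 * x ≤ J) :
    Real.exp x - ∑ j ∈ Finset.range J, x ^ j / j.factorial ≤ (1 / 4) ^ J := by
  rcases Nat.eq_zero_or_pos J with h0 | hJ0
  · subst h0
    have : x = 0 := le_antisymm (by push_cast at hJ; linarith) hx
    subst this
    simp
  have h1 : Real.exp x - ∑ j ∈ Finset.range J, x ^ j / j.factorial ≤
      x ^ J / J.factorial * Real.exp x := by
    have h2 : HasSum (fun j : ℕ => x ^ j / (j.factorial : ℝ)) (Real.exp x) := by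
      rw [Real.exp_eq_exp_ℝ]
      exact NormedSpace.expSeries_div_hasSum_exp x
    have h3 := h2.summable.sum_add_tsum_nat_add J
    rw [h2.tsum_eq] at h3
    have h4 : Real.exp x - ∑ j ∈ Finset.range J, x ^ j / j.factorial =
        ∑' i : ℕ, x ^ (i + J) / ((i + J).factorial : ℝ) := by linarith
    rw [h4]
    have h5 : HasSum (fun i : ℕ => x ^ J / J.factorial * (x ^ i / (i.factorial : ℝ)))
        (x ^ J / J.factorial * Real.exp x) := h2.mul_left _
    rw [← h5.tsum_eq]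
    refine ((summable_nat_add_iff J).2 h2.summable).tsum_le_tsum (fun i => ?_) h5.summable
    have h6 : (J.factorial : ℝ) * i.factorial ≤ (i + J).factorial := by
      have := Nat.factorial_mul_factorial_dvd_factorial_add J i
      have h7 := Nat.le_of_dvd (Nat.factorial_pos _) this
      rw [add_comm i J]
      exact_mod_cast h7
    rw [div_mul_div_comm, ← pow_add, add_comm J i]
    exact div_le_div_of_nonneg_left (by positivity) (by positivity) h6
  refine h1.trans ?_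
  have hJR : (0 : ℝ) < J := by exact_mod_cast hJ0
  have h2 : x ≤ J / 16 := by linarith
  have h3 : x ^ J / J.factorial ≤ (1 / 16) ^ J * Real.exp 1 ^ J := by
    have h4 : (J : ℝ) ^ J / J.factorial ≤ Real.exp J := Real.pow_div_factorial_le_exp _ hJR.le J
    calc x ^ J / J.factorial ≤ (J / 16) ^ J / J.factorial := by gcongr
      _ = (1 / 16) ^ J * ((J : ℝ) ^ J / J.factorial) := by
          rw [div_pow, div_pow, one_pow]
          ring
      _ ≤ (1 / 16) ^ J * Real.exp J := by gcongr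
      _ = _ := by
          rw [← Real.exp_nat_mul, mul_one]
  have h4 : Real.exp x ≤ Real.exp (1 / 16) ^ J := by
    rw [← Real.exp_nat_mul]
    apply Real.exp_le_exp.2
    linarith
  have h5 : Real.exp (1 / 16) ≤ 16 / 15 := by
    have h6 : (15 : ℝ) / 16 ≤ Real.exp (-(1 / 16)) := by
      have := Real.add_one_le_exp (-(1 / 16) : ℝ)
      linarith
    rw [Real.exp_neg] at h6
    have h7 := Real.exp_pos (1 / 16)
    rw [le_inv_comm₀ (by norm_num) h7] at h6
    norm_num at h6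
    exact h6
  have h6 : Real.exp 1 ≤ 3 := by
    have := Real.exp_one_lt_d9
    linarith
  calc x ^ J / J.factorial * Real.exp x ≤
        ((1 / 16) ^ J * Real.exp 1 ^ J) * Real.exp (1 / 16) ^ J := by gcongr
    _ = (1 / 16 * Real.exp 1 * Real.exp (1 / 16)) ^ J := by rw [mul_pow, mul_pow]
    _ ≤ (1 / 4) ^ J := by
        refine pow_le_pow_left₀ (by positivity) ?_ J
        calc 1 / 16 * Real.exp 1 * Real.exp (1 / 16) ≤ 1 / 16 * 3 * (16 / 15) := by gcongr
          _ ≤ 1 / 4 := by norm_num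

theorem SL_taylor (ζ : ℂ) (n J : ℕ) (h : J + n ≤ L) (hJ : 32 * ‖ζ‖ ≤ J) :
    ‖SL L ζ n - ∑ j ∈ Finset.range J, cc ζ n j‖ ≤ (1 / 4) ^ J := by
  have h1 : SL L ζ n - ∑ j ∈ Finset.range J, cc ζ n j =
      (L : ℂ)⁻¹ * ∑ q : ZMod L, (Complex.exp (Complex.I * ((2 * (ζ * ch L q).re : ℝ) : ℂ)) -
        ∑ j ∈ Finset.range J, (Complex.I * ((2 * (ζ * ch L q).re : ℝ) : ℂ)) ^ j /
          (j.factorial : ℂ)) * ch L (q * (n : ZMod L)) := by
    have h2 : ∑ j ∈ Finset.range J, cc ζ n j = (L : ℂ)⁻¹ * ∑ q : ZMod L,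
        (∑ j ∈ Finset.range J, (Complex.I * ((2 * (ζ * ch L q).re : ℝ) : ℂ)) ^ j /
          (j.factorial : ℂ)) * ch L (q * (n : ZMod L)) := by
      simp only [Finset.sum_mul]
      rw [Finset.sum_comm, Finset.mul_sum]
      refine Finset.sum_congr rfl fun j hj => ?_
      rw [avg_poly ζ n j (by have := Finset.mem_range.1 hj; omega)]
    rw [h2]
    unfold SL
    rw [← mul_sub, ← Finset.sum_sub_distrib]
    congr 1
    exact Finset.sum_congr rfl fun q _ => by ring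
  rw [h1]
  refine avg_norm _ _ fun q => ?_
  have hch : ‖ch L (q * (n : ZMod L))‖ = 1 := add_norm _
  rw [norm_mul, hch, mul_one]
  refine (Complex.norm_exp_sub_sum_le_exp_norm_sub_sum _ J).trans ?_
  have h2 : ‖Complex.I * ((2 * (ζ * ch L q).re : ℝ) : ℂ)‖ ≤ 2 * ‖ζ‖ := by
    rw [norm_mul, Complex.norm_I, one_mul, Complex.norm_real, Real.norm_eq_abs, abs_mul, abs_two]
    have h3 := Complex.abs_re_le_norm (ζ * ch L q)
    have hch' : ‖ch L q‖ = 1 := add_norm _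
    rw [norm_mul, hch', mul_one] at h3
    linarith
  exact tail_exp _ (norm_nonneg _) J (by linarith)

theorem SL_comp {L' : ℕ} [NeZero L'] (ζ : ℂ) (n J : ℕ) (h : J + n ≤ L) (h' : J + n ≤ L')
    (hJ : 32 * ‖ζ‖ ≤ J) : ‖SL L ζ n - SL L' ζ n‖ ≤ 2 * (1 / 4) ^ J := by
  have h1 := SL_taylor (L := L) ζ n J h hJ
  have h2 := SL_taylor (L := L') ζ n J h' hJ
  rw [norm_sub_rev] at h2
  have h3 := norm_sub_le_norm_sub_add_norm_sub (SL L ζ n) (∑ j ∈ Finset.range J, cc ζ n j)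
    (SL L' ζ n)
  linarith

theorem ex_eq (t : ℝ) (q : ZMod L) :
    ex t (co q) = Complex.exp (Complex.I * ((2 * ((t : ℂ) * ch L q).re : ℝ) : ℂ)) := by
  unfold ex co ch
  rw [Complex.re_ofReal_mul]
  congr 3
  ring

theorem bb_SL (n : ℕ) (t : ℝ) : bb L ((n : ℕ) : ZMod L) t = SL L (t : ℂ) n := by
  unfold bb SL
  congr 1
  refine Finset.sum_congr rfl fun q _ => ?_
  rw [ex_eq]
  rfl

theorem jL_SL (t : ℝ) : jL L t = SL L (t : ℂ) 0 := by
  unfold jL SL
  congr 1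
  refine Finset.sum_congr rfl fun q _ => ?_
  rw [ex_eq]
  unfold ch
  simp

/-- the kernels against their limits -/
theorem bb_nat' (n J : ℕ) (t : ℝ) (h : J + n ≤ L) (hJ : 32 * |t| ≤ J) :
    ‖bb L ((n : ℕ) : ZMod L) t‖ ≤ BB n (2 * t) / (2 * Real.pi) + 3 * (1 / 4) ^ J := by
  have hq : (0 : ℝ) < (1 / 4) ^ J := by positivity
  obtain ⟨N, hN⟩ := exists_nat_gt ((4 * Real.pi * |t| + 2 * Real.pi * n) / (1 / 4) ^ J)
  set L' : ℕ := N + L + 1 with hL'
  have h1 := bb_nat (L := L') n t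
  have hLp : (0 : ℝ) < (L' : ℝ) := by rw [hL']; positivity
  have h2 : (4 * Real.pi * |t| + 2 * Real.pi * n) / (L' : ℝ) ≤ (1 / 4) ^ J := by
    rw [div_le_iff₀ hLp]
    rw [div_lt_iff₀ hq] at hN
    have h3 : (N : ℝ) ≤ L' := by rw [hL']; push_cast; linarith [Nat.cast_nonneg (α := ℝ) L]
    calc 4 * Real.pi * |t| + 2 * Real.pi * n ≤ N * (1 / 4) ^ J := hN.le
      _ ≤ L' * (1 / 4) ^ J := by gcongr
      _ = _ := mul_comm _ _
  have h4 := SL_comp (L := L) (L' := L') (t : ℂ) n J h (by omega) (by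
    rw [Complex.norm_real, Real.norm_eq_abs]
    exact hJ)
  rw [← bb_SL, ← bb_SL] at h4
  have h5 := norm_sub_norm_le (bb L ((n : ℕ) : ZMod L) t) (bb L' ((n : ℕ) : ZMod L') t)
  linarith

/-- the kernels outside the light cone -/
theorem bb_out (n : ℕ) (t : ℝ) (h : 2 * n ≤ L) (hJ : 32 * |t| ≤ n) :
    ‖bb L ((n : ℕ) : ZMod L) t‖ ≤ (1 / 4) ^ n := by
  have h1 := SL_taylor (L := L) (t : ℂ) n n (by omega) (by
    rw [Complex.norm_real, Real.norm_eq_abs]
    exact hJ)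
  have h2 : ∑ j ∈ Finset.range n, cc (t : ℂ) n j = 0 := by
    refine Finset.sum_eq_zero fun j hj => ?_
    unfold cc
    rw [Finset.sum_eq_zero, mul_zero]
    intro i _
    rw [if_neg]
    have := Finset.mem_range.1 hj
    omega
  rw [h2, sub_zero, ← bb_SL] at h1
  exact h1

theorem four_pow_le (n : ℕ) (x : ℝ) (hx : 0 < x) (hn : x ≤ n) : 8 * (1 / 4 : ℝ) ^ n ≤ 8 / x := by
  have h1 : (n : ℝ) ≤ 4 ^ n := by
    have := Nat.lt_pow_self (n := n) (a := 4) (by norm_num)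
    exact_mod_cast this.le
  rw [div_pow, one_pow, mul_one_div]
  exact div_le_div_of_nonneg_left (by norm_num) hx (hn.trans h1)

/-- the oscillating averages decay -/
theorem SL_dec (ζ : ℂ) (h : 64 * (1 + ‖ζ‖) ≤ L) : ‖SL L ζ 0‖ ≤ 11 / Real.sqrt (1 + ‖ζ‖) := by
  have hz := norm_nonneg ζ
  obtain ⟨N, hN⟩ := exists_nat_gt ((1 + ‖ζ‖) ^ 3)
  set L' : ℕ := N + L + 1 with hL'
  have h1 := Pool.Agent.W918.BK.Osc.osc L' ζ (by
    have h2 : (N : ℝ) ≤ L' := by rw [hL']; push_cast; linarith [Nat.cast_nonneg (α := ℝ) L]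
    have h3 : (1 : ℝ) ≤ L' := by rw [hL']; push_cast; linarith [Nat.cast_nonneg (α := ℝ) L, Nat.cast_nonneg (α := ℝ) N]
    calc (1 + ‖ζ‖) ^ 3 ≤ L' := hN.le.trans h2
      _ ≤ (L' : ℝ) ^ 2 := by nlinarith)
  have hLp : (0 : ℝ) < (L' : ℝ) := by rw [hL']; positivity
  have h2 : ‖SL L' ζ 0‖ ≤ 10 / Real.sqrt (1 + ‖ζ‖) := by
    unfold SL
    rw [norm_mul, norm_inv, Complex.norm_natCast]
    have h3 : ∑ q : ZMod L', Complex.exp (Complex.I * ((2 * (ζ * ch L' q).re : ℝ) : ℂ)) *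
        ch L' (q * ((0 : ℕ) : ZMod L')) = ∑ k : ZMod L', Complex.exp (Complex.I *
          ((2 * (ζ * ZMod.stdAddChar k).re : ℝ) : ℂ)) := by
      refine Finset.sum_congr rfl fun q _ => ?_
      unfold ch
      simp
    rw [h3]
    calc (L' : ℝ)⁻¹ * ‖∑ k : ZMod L', Complex.exp (Complex.I *
          ((2 * (ζ * ZMod.stdAddChar k).re : ℝ) : ℂ))‖ ≤
          (L' : ℝ)⁻¹ * (10 * L' / Real.sqrt (1 + ‖ζ‖)) :=
          mul_le_mul_of_nonneg_left h1 (by positivity)
      _ = _ := by field_simp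
  have h3 := SL_comp (L := L) (L' := L') ζ 0 L (by omega) (by omega) (by linarith)
  have h4 := four_pow_le L (L : ℝ) (by linarith) le_rfl
  have h5 : 8 / (L : ℝ) ≤ 1 / Real.sqrt (1 + ‖ζ‖) := by
    have h6 : Real.sqrt (1 + ‖ζ‖) ≤ 1 + ‖ζ‖ := by
      rw [Real.sqrt_le_left (by linarith)]
      nlinarith
    have h7 : 0 < Real.sqrt (1 + ‖ζ‖) := Real.sqrt_pos.2 (by linarith)
    rw [div_le_div_iff₀ (by linarith) h7]
    linarith
  have h6 := norm_sub_norm_le (SL L ζ 0) (SL L' ζ 0)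
  have h7 : (0 : ℝ) ≤ (1 / 4) ^ L := by positivity
  have h8 : 11 / Real.sqrt (1 + ‖ζ‖) = 10 / Real.sqrt (1 + ‖ζ‖) + 1 / Real.sqrt (1 + ‖ζ‖) := by
    ring
  linarith

theorem jL_dec' (t : ℝ) (h : 64 * (1 + |t|) ≤ L) : ‖jL L t‖ ≤ 11 / Real.sqrt (1 + |t|) := by
  have h1 := SL_dec (L := L) (t : ℂ) (by rwa [Complex.norm_real, Real.norm_eq_abs])
  rwa [← jL_SL, Complex.norm_real, Real.norm_eq_abs] at h1

theorem jL_J (t : ℝ) (h : 32 * |t| ≤ L) : ‖jL L t - J t‖ ≤ 2 * (1 / 4) ^ L := by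
  have h1 : Tendsto (fun n : ℕ => ‖jL L t - jL (n + 1) t‖) atTop (𝓝 ‖jL L t - J t‖) :=
    ((jL_lim t).const_sub _).norm
  refine le_of_tendsto h1 ?_
  filter_upwards [eventually_ge_atTop L] with n hn
  rw [jL_SL, jL_SL]
  exact SL_comp (t : ℂ) 0 L (by omega) (by omega) (by rwa [Complex.norm_real, Real.norm_eq_abs])

theorem j2_SL (q : ZMod L) (t u : ℝ) : j2 L q t u = SL L (ζz q t u) 0 := by
  unfold j2 SL
  congr 1
  refine Finset.sum_congr rfl fun r _ => ?_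
  have h0 : ch L (r * ((0 : ℕ) : ZMod L)) = 1 := by unfold ch; simp
  rw [h0, mul_one]
  unfold ex
  rw [← Complex.exp_conj, ← Complex.exp_add]
  congr 1
  rw [map_mul, Complex.conj_I, Complex.conj_ofReal]
  have h3 : (ζz q t u * ch L r).re = t * co (r - q) - u * co r := by
    have h4 : (ZMod.stdAddChar (r - q) : ℂ) =
        (starRingEnd ℂ) (ZMod.stdAddChar q : ℂ) * ZMod.stdAddChar r := by
      rw [sub_eq_add_neg, AddChar.map_add_eq_mul, mul_comm]
      congr 1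
      rw [ZMod.stdAddChar_apply, ZMod.stdAddChar_apply, AddChar.map_neg_eq_inv,
        Circle.coe_inv_eq_conj]
    unfold ζz co ch
    rw [h4, sub_mul, mul_assoc, Complex.sub_re, Complex.re_ofReal_mul, Complex.re_ofReal_mul]
  rw [h3]
  push_cast
  ring

theorem j2_dec' (q : ZMod L) (t u : ℝ) (h : 64 * (1 + ‖ζz q t u‖) ≤ L) :
    ‖j2 L q t u‖ ≤ 11 / Real.sqrt (1 + ‖ζz q t u‖) := by
  rw [j2_SL]
  exact SL_dec _ h

end Pool.Agent.Zk11.QE
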