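import Pool.Agent.Zk11.QE.Mc

/-! The Fourier transform of the averaged squared Green function on small tori. -/

set_option autoImplicit false
set_option linter.unusedSectionVars false

open scoped BigOperators Topology ENNReal
open MeasureTheory Filter

namespace Pool.Agent.Zk11.QE

open Pool.Agent.Zk11.QD
open Pool.Agent.W788.MFP.Four (T e NN adj adj_neg e_comm e_add_left e_add e_zero e_neg e_neg_left
  e_normSq sum_e NN_pos card_T e_single)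

variable {d : ℕ}

/-- the smallness of the coupling -/
structure Sm (κ c0 B0 δ1 c C B θ σ : ℝ) : Prop where
  σ0 : 0 < σ
  σ1 : σ ≤ 1
  σδ : σ ≤ δ1
  s4 : c0 * σ ^ 2 ≤ 1 / 10000
  y2 : 10 ^ 25 * B ^ 15 * σ ^ θ ≤ 1
  cσ : 200 * c ^ 3 * σ ≤ 1
  q1 : 4 * C * B * σ ^ (1 - κ) ≤ 1
  q2 : σ ^ κ + C * B * σ ≤ c0 / 2
  l1 : 1 ≤ Real.log (1 / σ)

theorem sm_ev (κ c0 B0 δ1 c C B θ : ℝ) (hκ0 : 0 < κ) (hκ1 : κ < 1 / 2) (hc0 : 0 < c0)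
    (hδ1 : 0 < δ1) (hθ : 0 < θ) :
    ∃ δ : ℝ, 0 < δ ∧ ∀ σ : ℝ, 0 < σ → σ < δ → Sm κ c0 B0 δ1 c C B θ σ := by
  have hid : Tendsto (fun σ : ℝ => σ) (𝓝[>] (0 : ℝ)) (𝓝 0) := tendsto_nhdsWithin_of_tendsto_nhds tendsto_id
  have hpow : ∀ a : ℝ, 0 < a → Tendsto (fun σ : ℝ => σ ^ a) (𝓝[>] (0 : ℝ)) (𝓝 0) := by
    intro a ha
    have h1 := (Real.continuousAt_rpow_const 0 a (Or.inr ha.le)).tendsto.comp hid
    rw [Real.zero_rpow ha.ne'] at h1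
    exact h1
  have h1 : ∀ᶠ σ in 𝓝[>] (0 : ℝ), σ ≤ 1 := hid.eventually_le_const (by norm_num)
  have h2 : ∀ᶠ σ in 𝓝[>] (0 : ℝ), σ ≤ δ1 := hid.eventually_le_const hδ1
  have h3 : ∀ᶠ σ in 𝓝[>] (0 : ℝ), c0 * σ ^ 2 ≤ 1 / 10000 := by
    have := (hid.pow 2).const_mul c0
    norm_num at this
    exact this.eventually_le_const (by norm_num)
  have h4 : ∀ᶠ σ in 𝓝[>] (0 : ℝ), 10 ^ 25 * B ^ 15 * σ ^ θ ≤ 1 := by
    have := (hpow θ hθ).const_mul (10 ^ 25 * B ^ 15)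
    rw [mul_zero] at this
    exact this.eventually_le_const (by norm_num)
  have h5 : ∀ᶠ σ in 𝓝[>] (0 : ℝ), 200 * c ^ 3 * σ ≤ 1 := by
    have := hid.const_mul (200 * c ^ 3)
    rw [mul_zero] at this
    exact this.eventually_le_const (by norm_num)
  have h6 : ∀ᶠ σ in 𝓝[>] (0 : ℝ), 4 * C * B * σ ^ (1 - κ) ≤ 1 := by
    have := (hpow (1 - κ) (by linarith)).const_mul (4 * C * B)
    rw [mul_zero] at this
    exact this.eventually_le_const (by norm_num)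
  have h7 : ∀ᶠ σ in 𝓝[>] (0 : ℝ), σ ^ κ + C * B * σ ≤ c0 / 2 := by
    have := (hpow κ hκ0).add (hid.const_mul (C * B))
    rw [mul_zero, add_zero] at this
    exact this.eventually_le_const (by positivity)
  have h8 : ∀ᶠ σ in 𝓝[>] (0 : ℝ), 1 ≤ Real.log (1 / σ) := by
    have h9 : ∀ᶠ σ in 𝓝[>] (0 : ℝ), σ ≤ Real.exp (-1) := hid.eventually_le_const (Real.exp_pos _)
    filter_upwards [h9, self_mem_nhdsWithin] with σ hσ hσ0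
    have hσ0' : 0 < σ := hσ0
    rw [Real.le_log_iff_exp_le (by positivity), le_div_iff₀ hσ0']
    calc Real.exp 1 * σ ≤ Real.exp 1 * Real.exp (-1) :=
          mul_le_mul_of_nonneg_left hσ (Real.exp_pos _).le
      _ = 1 := by rw [← Real.exp_add]; simp
  have hall := ((((((h1.and h2).and h3).and h4).and h5).and h6).and h7).and h8
  rw [eventually_nhdsWithin_iff, Metric.eventually_nhds_iff] at hall
  obtain ⟨δ, hδ, hall⟩ := hall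
  refine ⟨δ, hδ, fun σ hσ0 hσ => ?_⟩
  obtain ⟨⟨⟨⟨⟨⟨⟨a1, a2⟩, a3⟩, a4⟩, a5⟩, a6⟩, a7⟩, a8⟩ := hall (y := σ)
    (by rw [Real.dist_eq, sub_zero, abs_of_pos hσ0]; exact hσ) hσ0
  exact ⟨hσ0, a1, a2, a3, a4, a5, a6, a7, a8⟩

/-- the constants -/
structure Cst (d : ℕ) (κ c0 B0 δ1 b c C θ cL C4 B K cl : ℝ) : Prop where
  hd : 3 ≤ d
  κ0 : 0 < κ
  κ1 : κ < 1 / 2
  c00 : 0 < c0
  c01 : c0 ≤ 1
  B01 : 1 ≤ B0
  δ10 : 0 < δ1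
  b1 : 1 ≤ b
  hc : c = b * (B0 + 1)
  hC : C = 100 * c ^ 3
  hθ : θ = (1 - 2 * κ) / 10
  hcL : cL = 1 + Real.log (1 / c0) + 2 / θ
  hC4 : C4 = B0 ^ 4 + 10 * d * B0 + d * (8 * 10 ^ 18)
  B1 : 1 ≤ B
  BB : B0 ≤ B
  Bc : 1 / c0 ≤ B
  BC : C ≤ B
  B4 : C4 * cL ^ 3 ≤ B
  Bθ : 1 / θ ≤ B
  hcl : cl = 3 + Real.log (1 / c0)
  hK : K = 7000 * cl / c0

variable {κ c0 B0 δ1 b c C θ cL C4 B K cl : ℝ}

theorem Cst.lc (h : Cst d κ c0 B0 δ1 b c C θ cL C4 B K cl) : 0 ≤ Real.log (1 / c0) :=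
  Real.log_nonneg (by rw [le_div_iff₀ h.c00]; linarith [h.c01])

theorem Cst.θ0 (h : Cst d κ c0 B0 δ1 b c C θ cL C4 B K cl) : 0 < θ := by
  rw [h.hθ]
  linarith [h.κ1]

theorem Cst.c1 (h : Cst d κ c0 B0 δ1 b c C θ cL C4 B K cl) : b ≤ c := by
  rw [h.hc]
  have h1 := h.b1
  have h2 := h.B01
  nlinarith

/-- the data at one coupling -/
structure Pt (d L : ℕ) [NeZero L] (κ c0 B0 δ1 b c C θ cL C4 B K cl σ E : ℝ) (m : ℂ) : Prop where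
  cs : Cst d κ c0 B0 δ1 b c C θ cL C4 B K cl
  sm : Sm κ c0 B0 δ1 c C B θ σ
  hL : K * (1 / σ) ^ 2 * Real.log (1 / σ) ≤ L
  hLσ : (L : ℝ) * σ ^ 3 ≤ 1
  md : MD d L ((E : ℂ) + ((σ ^ (2 + κ) : ℝ) : ℂ) * Complex.I) σ m
  mi : c0 ≤ m.im
  mB : ‖m‖ ≤ B0

/-- the spectral parameter -/
noncomputable def zp (E σ κ : ℝ) : ℂ := (E : ℂ) + ((σ ^ (2 + κ) : ℝ) : ℂ) * Complex.I

theorem zp_im (E σ κ : ℝ) : (zp E σ κ).im = σ ^ (2 + κ) := by simp [zp]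

variable {L : ℕ} [NeZero L] {σ E : ℝ} {m : ℂ}

theorem eta_eq (hσ : 0 < σ) : σ ^ (2 + κ) = σ ^ κ * σ ^ 2 := by
  rw [← Real.rpow_natCast, ← Real.rpow_add hσ]
  congr 1
  push_cast
  ring

theorem eta_le (hσ : 0 < σ) (hσ1 : σ ≤ 1) (hκ : 0 < κ) : σ ^ (2 + κ) ≤ σ ^ 2 := by
  rw [eta_eq hσ]
  exact mul_le_of_le_one_left (by positivity) (Real.rpow_le_one hσ.le hσ1 hκ.le)

theorem sq_le_self (hσ : 0 < σ) (hσ1 : σ ≤ 1) : σ ^ 2 ≤ σ := by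
  calc σ ^ 2 = σ * σ := by ring
    _ ≤ σ * 1 := mul_le_mul_of_nonneg_left hσ1 hσ.le
    _ = σ := mul_one _

/-- the cutoff length -/
noncomputable def Rr (c0 σ : ℝ) : ℝ := 48 * (1 + Real.log (1 / (c0 * σ ^ 2))) / (c0 * σ ^ 2)

theorem log_s (h0 : 0 < c0) (hσ : 0 < σ) : Real.log (1 / (c0 * σ ^ 2)) =
    Real.log (1 / c0) + 2 * Real.log (1 / σ) := by
  have e1 : 1 / (c0 * σ ^ 2) = (1 / c0) * (1 / σ) ^ 2 := by field_simp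
  rw [e1, Real.log_mul (by positivity) (by positivity), Real.log_pow]
  push_cast
  rfl

theorem cut_pt (h : Cst d κ c0 B0 δ1 b c C θ cL C4 B K cl) (hs : Sm κ c0 B0 δ1 c C B θ σ)
    (hL : K * (1 / σ) ^ 2 * Real.log (1 / σ) ≤ L) : Cut (c0 * σ ^ 2) (Rr c0 σ) L := by
  have hσ := hs.σ0
  have h0 := h.c00
  refine cut_ex L _ (by positivity) hs.s4 (le_trans ?_ hL)
  have h1 : 1 + Real.log (1 / (c0 * σ ^ 2)) ≤ cl * Real.log (1 / σ) := by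
    rw [log_s h0 hσ, h.hcl]
    have h2 := h.lc
    have h3 := hs.l1
    nlinarith
  calc 7000 * (1 + Real.log (1 / (c0 * σ ^ 2))) / (c0 * σ ^ 2) ≤
        7000 * (cl * Real.log (1 / σ)) / (c0 * σ ^ 2) := by gcongr
    _ = K * (1 / σ) ^ 2 * Real.log (1 / σ) := by
        rw [h.hK]
        field_simp

theorem Pt.ssd (_h : Pt d L κ c0 B0 δ1 b c C θ cL C4 B K cl σ E m) :
    ss (zp E σ κ) σ m = σ ^ (2 + κ) + σ ^ 2 * m.im := by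
  unfold ss
  rw [zp_im]

theorem Pt.ms (h : Pt d L κ c0 B0 δ1 b c C θ cL C4 B K cl σ E m) : m.im ≤ B0 :=
  ((le_abs_self _).trans (Complex.abs_im_le_norm _)).trans h.mB

/-- the conditions on the site function -/
theorem Pt.tau (h : Pt d L κ c0 B0 δ1 b c C θ cL C4 B K cl σ E m) (τ : ℝ)
    (hτ : |τ ^ 2 - σ ^ 2| ≤ C * σ ^ 3) :
    τ ^ 2 ≤ 2 * σ ^ 2 ∧ σ ^ 2 / 2 ≤ τ ^ 2 ∧
    3 / 4 * (σ ^ (2 + κ) / ss (zp E σ κ) σ m) ≤ 1 - τ ^ 2 * (m.im / ss (zp E σ κ) σ m) ∧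
    1 / 2 ≤ τ ^ 2 * (m.im / ss (zp E σ κ) σ m) := by
  have hσ := h.sm.σ0
  have hC := h.cs.hC
  have hcc := h.sm.cσ
  have hmd : MD d L (zp E σ κ) σ m := h.md
  have hssp := ss_pos hmd
  have hmi0 := hmd.mim
  have hη0 : 0 < σ ^ (2 + κ) := Real.rpow_pos_of_pos hσ _
  have hms := h.ms.trans h.cs.BB
  have hCσ : C * σ ≤ 1 / 2 := by
    rw [hC]
    linarith
  have hC0 : 0 ≤ C := by
    rw [hC]
    have : 0 ≤ c := by linarith [h.cs.c1, h.cs.b1]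
    positivity
  have hτ1 : τ ^ 2 ≤ σ ^ 2 + C * σ ^ 3 := by
    have := (abs_le.1 hτ).2
    linarith
  have hτ2 : σ ^ 2 - C * σ ^ 3 ≤ τ ^ 2 := by
    have := (abs_le.1 hτ).1
    linarith
  have hC3 : C * σ ^ 3 ≤ σ ^ 2 / 2 := by
    calc C * σ ^ 3 = (C * σ) * σ ^ 2 := by ring
      _ ≤ 1 / 2 * σ ^ 2 := mul_le_mul_of_nonneg_right hCσ (by positivity)
      _ = _ := by ring
  have hCB3 : C * σ ^ 3 * m.im ≤ σ ^ (2 + κ) / 4 := by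
    have e1 : σ ^ 3 = σ ^ (1 - κ) * σ ^ (2 + κ) := by
      rw [← Real.rpow_natCast, ← Real.rpow_add hσ]
      congr 1
      push_cast
      ring
    have e2 := h.sm.q1
    have e3 : 0 ≤ σ ^ (1 - κ) := by positivity
    calc C * σ ^ 3 * m.im ≤ C * σ ^ 3 * B := by
          refine mul_le_mul_of_nonneg_left hms (by positivity)
      _ = (4 * C * B * σ ^ (1 - κ)) * (σ ^ (2 + κ) / 4) := by rw [e1]; ring
      _ ≤ 1 * (σ ^ (2 + κ) / 4) := mul_le_mul_of_nonneg_right e2 (by positivity)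
      _ = _ := one_mul _
  refine ⟨by linarith [sq_nonneg σ], by linarith, ?_, ?_⟩
  · have e1 : 1 - τ ^ 2 * (m.im / ss (zp E σ κ) σ m) =
        (ss (zp E σ κ) σ m - τ ^ 2 * m.im) / ss (zp E σ κ) σ m := by
      field_simp
    rw [e1, ← mul_div_assoc]
    refine div_le_div_of_nonneg_right ?_ hssp.le
    rw [h.ssd]
    have e2 := mul_le_mul_of_nonneg_right hτ1 hmi0.le
    linarith
  · rw [← mul_div_assoc, le_div_iff₀ hssp, h.ssd]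
    have e1 := mul_le_mul_of_nonneg_right hτ2 hmi0.le
    have e2 : σ ^ (2 + κ) + C * σ ^ 3 * B ≤ σ ^ 2 * (c0 / 2) := by
      calc σ ^ (2 + κ) + C * σ ^ 3 * B = σ ^ 2 * (σ ^ κ + C * B * σ) := by
            rw [eta_eq hσ]; ring
        _ ≤ σ ^ 2 * (c0 / 2) := mul_le_mul_of_nonneg_left h.sm.q2 (by positivity)
    have e3 : σ ^ 2 * c0 ≤ σ ^ 2 * m.im := mul_le_mul_of_nonneg_left h.mi (by positivity)
    have e4 : C * σ ^ 3 * m.im ≤ C * σ ^ 3 * B :=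
      mul_le_mul_of_nonneg_left hms (by positivity)
    have e5 : 0 ≤ σ ^ 2 * c0 := by
      have := h.cs.c00
      positivity
    linarith

theorem Pt.cut (h : Pt d L κ c0 B0 δ1 b c C θ cL C4 B K cl σ E m) :
    Cut (c0 * σ ^ 2) (Rr c0 σ) L := cut_pt h.cs h.sm h.hL

theorem Pt.sl (h : Pt d L κ c0 B0 δ1 b c C θ cL C4 B K cl σ E m) :
    c0 * σ ^ 2 ≤ ss (zp E σ κ) σ m := by
  rw [h.ssd]
  have hσ := h.sm.σ0
  have hη0 : 0 < σ ^ (2 + κ) := Real.rpow_pos_of_pos hσ _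
  have e3 : σ ^ 2 * c0 ≤ σ ^ 2 * m.im := mul_le_mul_of_nonneg_left h.mi (by positivity)
  linarith

theorem Sm.inv (hs : Sm κ c0 B0 δ1 c C B θ σ) : 1 ≤ 1 / σ := by
  rw [le_div_iff₀ hs.σ0]
  linarith [hs.σ1]

theorem Sm.pw (hs : Sm κ c0 B0 δ1 c C B θ σ) (a : ℝ) (ha : 0 ≤ a) : 1 ≤ σ ^ (-a) := by
  have : σ ^ (-a) = (1 / σ) ^ a := by
    rw [Real.rpow_neg hs.σ0.le, one_div, Real.inv_rpow hs.σ0.le]
  rw [this]
  exact Real.one_le_rpow hs.inv ha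

theorem Pt.lg (h : Pt d L κ c0 B0 δ1 b c C θ cL C4 B K cl σ E m) :
    Real.log (1 / σ) ≤ 1 / θ * σ ^ (-θ) := by
  have hσ := h.sm.σ0
  have h5 := Real.log_le_rpow_div (x := 1 / σ) (by positivity) h.cs.θ0
  have hSp : (σ ^ (-θ)) = (1 / σ) ^ θ := by
    rw [Real.rpow_neg hσ.le, one_div, Real.inv_rpow hσ.le]
  rw [hSp]
  refine h5.trans (le_of_eq ?_)
  ring

theorem Pt.lgB (h : Pt d L κ c0 B0 δ1 b c C θ cL C4 B K cl σ E m) :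
    Real.log (1 / σ) ≤ B * σ ^ (-θ) :=
  h.lg.trans (mul_le_mul_of_nonneg_right h.cs.Bθ (by have := h.sm.σ0; positivity))

theorem g_six (hσ : 0 < σ) : σ = (σ ^ ((1 : ℝ) / 6)) ^ 6 := by
  rw [← Real.rpow_natCast, ← Real.rpow_mul hσ.le]
  norm_num

theorem Pt.pd (h : Pt d L κ c0 B0 δ1 b c C θ cL C4 B K cl σ E m) (τ : ℝ)
    (hτ : |τ ^ 2 - σ ^ 2| ≤ C * σ ^ 3) :
    Pd d L (zp E σ κ) σ m τ B (σ ^ (-θ)) (σ ^ ((1 : ℝ) / 6)) (c0 * σ ^ 2) (Rr c0 σ) where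
  hd := h.cs.hd
  md := h.md
  B1 := h.cs.B1
  S1 := h.sm.pw θ h.cs.θ0.le
  g0 := Real.rpow_pos_of_pos h.sm.σ0 _
  g1 := Real.rpow_le_one h.sm.σ0.le h.sm.σ1 (by norm_num)
  gσ := g_six h.sm.σ0
  mB := h.ms.trans h.cs.BB
  η1 := by
    rw [zp_im]
    exact eta_le h.sm.σ0 h.sm.σ1 h.cs.κ0
  hτ := (h.tau τ hτ).1
  lg := h.lgB
  cut := h.cut
  sw := h.sl
  sB := by
    have hBp : 0 < B := by linarith [h.cs.B1]
    have hσ := h.sm.σ0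
    rw [div_le_iff₀ hBp]
    have e1 : 1 ≤ c0 * B := by
      have := h.cs.Bc
      rw [div_le_iff₀ h.cs.c00] at this
      linarith
    calc σ ^ 2 = σ ^ 2 * 1 := (mul_one _).symm
      _ ≤ σ ^ 2 * (c0 * B) := mul_le_mul_of_nonneg_left e1 (by positivity)
      _ = _ := by ring

theorem Pt.y1 (h : Pt d L κ c0 B0 δ1 b c C θ cL C4 B K cl σ E m) :
    σ ^ (-κ) * (σ ^ ((1 : ℝ) / 6)) ^ 3 * (σ ^ (-θ)) ^ 3 ≤ σ ^ θ := by
  have hσ := h.sm.σ0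
  have e1 : (σ ^ (-κ)) * (σ ^ ((1 : ℝ) / 6)) ^ 3 * (σ ^ (-θ)) ^ 3 =
      σ ^ (1 / 2 - κ - 3 * θ) := by
    rw [← Real.rpow_natCast, ← Real.rpow_natCast, ← Real.rpow_mul hσ.le, ← Real.rpow_mul hσ.le,
      ← Real.rpow_add hσ, ← Real.rpow_add hσ]
    congr 1
    push_cast
    ring
  rw [e1]
  exact Real.rpow_le_rpow_of_exponent_ge hσ h.sm.σ1 (by rw [h.cs.hθ]; linarith [h.cs.κ1])

theorem Pt.gS (h : Pt d L κ c0 B0 δ1 b c C θ cL C4 B K cl σ E m) :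
    (σ ^ ((1 : ℝ) / 6)) ^ 3 * (σ ^ (-θ)) ^ 3 ≤ σ ^ θ := by
  refine le_trans ?_ h.y1
  have hσ := h.sm.σ0
  have h1 := h.sm.pw κ h.cs.κ0.le
  rw [mul_assoc]
  exact le_mul_of_one_le_left (by positivity) h1

theorem Pt.n4 (h : Pt d L κ c0 B0 δ1 b c C θ cL C4 B K cl σ E m) :
    QD.N4 d L (zp E σ κ) σ m ≤ (B * (σ ^ (-θ)) ^ 2) ^ 2 := by
  have hσ := h.sm.σ0
  have hc00 := h.cs.c00
  have hB0 : 0 ≤ B0 := by linarith [h.cs.B01]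
  have hB1 := h.cs.B1
  have hS1 := h.sm.pw θ h.cs.θ0.le
  have hmd : MD d L (zp E σ κ) σ m := h.md
  have hs0 : 0 < c0 * σ ^ 2 := by positivity
  have hk0 : ‖kc (rv (zp E σ κ + (σ : ℂ) ^ 2 * m)) (0 : T d L)‖ ≤ B0 := by
    have h1 := Mk_diag hmd 0
    unfold Mk at h1
    rw [sub_self, Mh_w] at h1
    unfold rv
    rw [h1]
    exact h.mB
  have hk2 : ∑ x : T d L, ‖kc (rv (zp E σ κ + (σ : ℂ) ^ 2 * m)) x‖ ^ 2 ≤ B0 / (c0 * σ ^ 2) := by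
    have h1 := sq_sum hmd
    have h2 := parseval_sq (Mh (zp E σ κ) σ m : T d L → ℂ)
    rw [h1, Mh_w] at h2
    unfold rv
    rw [h2]
    exact div_le_div₀ hB0 h.ms hs0 h.sl
  have h1 := four_bound' h.cs.hd (zp E σ κ + (σ : ℂ) ^ 2 * m) h.cut (by rw [w_im]; exact h.sl) B0
    hB0 hk0 hk2
  have h2 : QD.N4 d L (zp E σ κ) σ m =
      ∑ x : T d L, ‖kc (rv (zp E σ κ + (σ : ℂ) ^ 2 * m)) x‖ ^ 4 := by
    unfold QD.N4 rv
    rw [Mh_w]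
  rw [h2]
  refine h1.trans ?_
  have hΛS : 1 + Real.log (1 / (c0 * σ ^ 2)) ≤ cL * σ ^ (-θ) := by
    rw [log_s hc00 hσ, h.cs.hcL]
    have e1 : 1 + Real.log (1 / c0) ≤ (1 + Real.log (1 / c0)) * σ ^ (-θ) :=
      le_mul_of_one_le_right (by linarith [h.cs.lc]) hS1
    have e2 : 2 * Real.log (1 / σ) ≤ 2 / θ * σ ^ (-θ) := by
      have := h.lg
      calc 2 * Real.log (1 / σ) ≤ 2 * (1 / θ * σ ^ (-θ)) := by linarith
        _ = _ := by ring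
    linarith
  have hΛ1 : 1 ≤ 1 + Real.log (1 / (c0 * σ ^ 2)) := by
    have := h.cut.lg0
    linarith
  have hC4 := h.cs.hC4
  have hB4 := h.cs.B4
  generalize 1 + Real.log (1 / (c0 * σ ^ 2)) = Λ at hΛS hΛ1 ⊢
  generalize σ ^ (-θ) = S at hΛS hS1 ⊢
  have hΛ3 : 1 ≤ Λ ^ 3 := one_le_pow₀ hΛ1
  have h4 : 0 ≤ B0 ^ 4 + 10 * d * B0 := by positivity
  have hC40 : 0 ≤ C4 := by rw [hC4]; positivity
  have hS0 : 0 ≤ S := by linarith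
  calc B0 ^ 4 + 10 * d * B0 + d * (8 * 10 ^ 18 * Λ ^ 3) ≤
        (B0 ^ 4 + 10 * d * B0) * Λ ^ 3 + d * (8 * 10 ^ 18 * Λ ^ 3) := by
        have := le_mul_of_one_le_right h4 hΛ3
        linarith
    _ = C4 * Λ ^ 3 := by rw [hC4]; ring
    _ ≤ C4 * (cL * S) ^ 3 := by gcongr
    _ = C4 * cL ^ 3 * S ^ 3 := by ring
    _ ≤ B * S ^ 4 := by
        have h8 : S ^ 3 ≤ S ^ 4 := pow_le_pow_right₀ hS1 (by norm_num)
        gcongr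
    _ ≤ B ^ 2 * S ^ 4 := by
        have : B ≤ B ^ 2 := by
          calc B = B ^ 1 := (pow_one B).symm
            _ ≤ B ^ 2 := pow_le_pow_right₀ hB1 (by norm_num)
        gcongr
    _ = _ := by ring

theorem Pt.L4 (h : Pt d L κ c0 B0 δ1 b c C θ cL C4 B K cl σ E m) :
    4 ≤ (σ ^ ((1 : ℝ) / 6)) ^ 10 * L := by
  have hσ := h.sm.σ0
  have hc00 := h.cs.c00
  have hK4 : 4 ≤ K := by
    rw [h.cs.hK, le_div_iff₀ hc00, h.cs.hcl]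
    linarith [h.cs.lc, h.cs.c01]
  have e1 : 4 * (1 / σ) ^ 2 ≤ L := by
    refine le_trans ?_ h.hL
    have := h.sm.l1
    calc 4 * (1 / σ) ^ 2 = 4 * (1 / σ) ^ 2 * 1 := (mul_one _).symm
      _ ≤ K * (1 / σ) ^ 2 * Real.log (1 / σ) := by gcongr
  have e2 : σ ^ 2 ≤ (σ ^ ((1 : ℝ) / 6)) ^ 10 := by
    calc σ ^ 2 = ((σ ^ ((1 : ℝ) / 6)) ^ 6) ^ 2 := by rw [← g_six hσ]
      _ = (σ ^ ((1 : ℝ) / 6)) ^ 12 := by ring
      _ ≤ (σ ^ ((1 : ℝ) / 6)) ^ 10 := pow_le_pow_of_le_one (Real.rpow_nonneg hσ.le _)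
          (Real.rpow_le_one hσ.le h.sm.σ1 (by norm_num)) (by norm_num)
  calc (4 : ℝ) = σ ^ 2 * (4 * (1 / σ) ^ 2) := by field_simp
    _ ≤ (σ ^ ((1 : ℝ) / 6)) ^ 10 * L := mul_le_mul e2 e1 (by positivity) (by positivity)

theorem Pt.Lg (h : Pt d L κ c0 B0 δ1 b c C θ cL C4 B K cl σ E m) :
    (L : ℝ) * (σ ^ ((1 : ℝ) / 6)) ^ 18 ≤ 1 := by
  calc (L : ℝ) * (σ ^ ((1 : ℝ) / 6)) ^ 18 = L * ((σ ^ ((1 : ℝ) / 6)) ^ 6) ^ 3 := by ring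
    _ = L * σ ^ 3 := by rw [← g_six h.sm.σ0]
    _ ≤ 1 := h.hLσ

theorem Pt.pq (h : Pt d L κ c0 B0 δ1 b c C θ cL C4 B K cl σ E m) (τ : ℝ)
    (hτ : |τ ^ 2 - σ ^ 2| ≤ C * σ ^ 3) :
    Pq d L (zp E σ κ) σ m τ B (σ ^ (-κ)) (σ ^ (-θ)) (σ ^ ((1 : ℝ) / 6)) (σ ^ θ) where
  hd := h.cs.hd
  md := h.md
  B1 := h.cs.B1
  k1 := h.sm.pw κ h.cs.κ0.le
  S1 := h.sm.pw θ h.cs.θ0.le
  g0 := Real.rpow_pos_of_pos h.sm.σ0 _
  g1 := Real.rpow_le_one h.sm.σ0.le h.sm.σ1 (by norm_num)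
  gσ := g_six h.sm.σ0
  mB := h.ms.trans h.cs.BB
  mi := by
    refine le_trans ?_ h.mi
    have hBp : 0 < B := by linarith [h.cs.B1]
    rw [div_le_iff₀ hBp]
    have := h.cs.Bc
    rw [div_le_iff₀ h.cs.c00] at this
    linarith
  η1 := by
    rw [zp_im]
    exact eta_le h.sm.σ0 h.sm.σ1 h.cs.κ0
  hk := by
    rw [zp_im, eta_eq h.sm.σ0, ← mul_assoc, ← Real.rpow_add h.sm.σ0]
    simp
  N4 := h.n4
  hτ := (h.tau τ hτ).1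
  hq := by
    have := (h.tau τ hτ).2.2.1
    rw [zp_im]
    exact this
  y1 := h.y1
  y2 := h.sm.y2
  lg := h.lgB
  ch := by
    have := (h.tau τ hτ).2.2.1
    exact (h.pd τ hτ).ch (by rw [zp_im]; exact this) h.n4 h.L4

end Pool.Agent.Zk11.QE
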