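import Pool.Agent.Zk11.QE.Un

/-! The Fourier transform of the averaged squared Green function on small tori: conclusion. -/

set_option autoImplicit false
set_option linter.unusedSectionVars false

open scoped BigOperators Topology ENNReal
open MeasureTheory Filter

namespace Pool.Agent.Zk11.QE

open Pool.Agent.Zk11.QD
open Pool.Agent.W788.MFP.Four (T e NN adj adj_neg e_comm e_add_left e_add e_zero e_neg e_neg_left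
  e_normSq sum_e NN_pos card_T e_single)

variable {d : ℕ} {κ c0 B0 δ1 b c C θ cL C4 B K cl : ℝ} {L : ℕ} [NeZero L] {σ E : ℝ} {m : ℂ}

theorem e_zero_left (x : T d L) : e (0 : T d L) x = 1 := by rw [e_comm, e_zero]

/-- the error -/
theorem Pt.err (h : Pt d L κ c0 B0 δ1 b c C θ cL C4 B K cl σ E m) (μ : Measure ℝ)
    [IsProbabilityMeasure μ] (τ : ℝ) (hh : ℝ → ℂ) (hsit : Sit μ σ m C τ hh) (p : T d L) :
    ‖((σ ^ (2 + κ) : ℝ) : ℂ) * ∑ x, e p x *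
      ((∫ V, ‖uu (zp E σ κ) σ V x‖ ^ 2 ∂(PL (T d L) μ) : ℝ) : ℂ) -
      ((σ ^ (2 + κ) : ℝ) : ℂ) * (tt (zp E σ κ) σ m p / (1 - τ ^ 2 * tt (zp E σ κ) σ m p))‖ ≤
      (4 * B + 3 * 10 ^ 26 * B ^ 17) * σ ^ ((1 - 2 * κ) / 20) := by
  have hσ := h.sm.σ0
  have hB1 := h.cs.B1
  have hC0 : 0 ≤ C := by
    rw [h.cs.hC]
    have : 0 ≤ c := by linarith [h.cs.c1, h.cs.b1]
    positivity
  have hη0 : 0 < σ ^ (2 + κ) := Real.rpow_pos_of_pos hσ _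
  have hε0 : 0 < σ ^ ((1 - 2 * κ) / 20) := Real.rpow_pos_of_pos hσ _
  have hε1 : σ ^ ((1 - 2 * κ) / 20) ≤ 1 :=
    Real.rpow_le_one hσ.le h.sm.σ1 (by linarith [h.cs.κ1])
  have hε2 : σ ^ θ = σ ^ ((1 - 2 * κ) / 20) * σ ^ ((1 - 2 * κ) / 20) := by
    rw [← Real.rpow_add hσ, h.cs.hθ]
    congr 1
    ring
  have h1 := err_bound3 (h.pq τ hsit.τσ) μ C hh hsit hC0 h.cs.BC p (uu (zp E σ κ) σ)
    (fun x => uu_meas (zp E σ κ) σ x)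
    (fun V x => uu_eq (zp E σ κ) (by rw [zp_im]; exact hη0) σ V x) (σ ^ ((1 - 2 * κ) / 20)) hε0
  rw [zp_im] at h1
  refine h1.trans ?_
  rw [hε2]
  generalize σ ^ ((1 - 2 * κ) / 20) = ε at hε0 hε1 ⊢
  have e1 : (1 + 1 / ε) * (10 ^ 26 * B ^ 17 * (ε * ε)) = 10 ^ 26 * B ^ 17 * (ε * ε + ε) := by
    field_simp
  have e2 : ε * ε ≤ ε := mul_le_of_le_one_left hε0.le hε1
  have e3 : 10 ^ 26 * B ^ 15 * (ε * ε) ≤ 10 ^ 26 * B ^ 17 * ε := by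
    have : B ^ 15 ≤ B ^ 17 := pow_le_pow_right₀ hB1 (by norm_num)
    have hB0 : 0 ≤ B := by linarith
    gcongr
  have e4 : 10 ^ 26 * B ^ 17 * (ε * ε + ε) ≤ 10 ^ 26 * B ^ 17 * (2 * ε) := by
    have hB0 : 0 ≤ B := by linarith
    refine mul_le_mul_of_nonneg_left (by linarith) (by positivity)
  rw [e1]
  linarith

/-- the main term at non-zero momenta -/
theorem Pt.nz (h : Pt d L κ c0 B0 δ1 b c C θ cL C4 B K cl σ E m) (τ : ℝ)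
    (hτ : |τ ^ 2 - σ ^ 2| ≤ C * σ ^ 3) (p : T d L) (hp : p ≠ 0) :
    ‖((σ ^ (2 + κ) : ℝ) : ℂ) * (tt (zp E σ κ) σ m p / (1 - τ ^ 2 * tt (zp E σ κ) σ m p))‖ ≤
      16 * (10 ^ 11 * B) ^ 2 * cl ^ 6 *
        (σ ^ κ * (1 + Real.log (1 / σ)) ^ 6 * (1 + L * σ ^ 2) ^ 2) := by
  have hσ := h.sm.σ0
  have hB1 := h.cs.B1
  have hBp : 0 < B := by linarith
  have hη0 : 0 < σ ^ (2 + κ) := Real.rpow_pos_of_pos hσ _
  have hPd := h.pd τ hτ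
  obtain ⟨t1, t2, t3, t4⟩ := h.tau τ hτ
  have hy2 := h.sm.y2
  have hgS := h.gS
  have hS1 := h.sm.pw θ h.cs.θ0.le
  have hg0 : 0 < σ ^ ((1 : ℝ) / 6) := Real.rpow_pos_of_pos hσ _
  have hg1 : σ ^ ((1 : ℝ) / 6) ≤ 1 := Real.rpow_le_one hσ.le h.sm.σ1 (by norm_num)
  have hlgs := hPd.lgs
  have hΛ1 : 1 ≤ 1 + Real.log (1 / (c0 * σ ^ 2)) := by
    have := h.cut.lg0
    linarith
  have hΛcl : 1 + Real.log (1 / (c0 * σ ^ 2)) ≤ cl * (1 + Real.log (1 / σ)) := by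
    rw [log_s h.cs.c00 hσ, h.cs.hcl]
    have h2 := h.cs.lc
    have h3 := h.sm.l1
    nlinarith
  have hq1 : τ ^ 2 * (m.im / ss (zp E σ κ) σ m) ≤ 1 := by
    have hss : 0 < ss (zp E σ κ) σ m := ss_pos (show MD d L (zp E σ κ) σ m from h.md)
    have : 0 ≤ σ ^ (2 + κ) / ss (zp E σ κ) σ m := by positivity
    linarith
  have hRs : Rr c0 σ * (c0 * σ ^ 2) ≤ 48 * (1 + Real.log (1 / (c0 * σ ^ 2))) := by
    unfold Rr
    have := h.cs.c00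
    apply le_of_eq
    field_simp
  have hsm10 : 10 ^ 11 * B * (1 + Real.log (1 / (c0 * σ ^ 2))) ^ 3 * (σ ^ ((1 : ℝ) / 6)) ^ 10 ≤ 1 :=
    by
    generalize σ ^ ((1 : ℝ) / 6) = g at hgS hg0 hg1 ⊢
    generalize σ ^ (-θ) = S at hgS hS1 hlgs ⊢
    generalize σ ^ θ = y at hgS hy2
    have e0 : 1 + Real.log (1 / (c0 * σ ^ 2)) ≤ 4 * (B * S) := by
      have h1 : 1 ≤ B * S := one_le_mul_of_one_le_of_one_le hB1 hS1
      linarith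
    generalize 1 + Real.log (1 / (c0 * σ ^ 2)) = Λ at e0 hΛ1 ⊢
    have e1 : g ^ 10 ≤ g ^ 3 := pow_le_pow_of_le_one hg0.le hg1 (by norm_num)
    calc 10 ^ 11 * B * Λ ^ 3 * g ^ 10 ≤ 10 ^ 11 * B * (4 * (B * S)) ^ 3 * g ^ 3 := by gcongr
      _ = 64 * 10 ^ 11 * B ^ 4 * (g ^ 3 * S ^ 3) := by ring
      _ ≤ 64 * 10 ^ 11 * B ^ 4 * y := mul_le_mul_of_nonneg_left hgS (by positivity)
      _ ≤ 10 ^ 25 * B ^ 15 * y := by
          have : B ^ 4 ≤ B ^ 15 := pow_le_pow_right₀ hB1 (by norm_num)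
          have h2 : (64 * 10 ^ 11 : ℝ) ≤ 10 ^ 25 := by norm_num
          have hy : 0 ≤ y := le_trans (by positivity) hgS
          gcongr
      _ ≤ 1 := hy2
  have hbig : 4 * 10 ^ 5 * B ^ 2 * σ ^ (-θ) * σ ^ ((1 : ℝ) / 6) ≤ 1 := by
    generalize σ ^ ((1 : ℝ) / 6) = g at hgS hg0 hg1 ⊢
    generalize σ ^ (-θ) = S at hgS hS1 ⊢
    generalize σ ^ θ = y at hgS hy2
    have e1 : (4 * 10 ^ 5 * B ^ 2 * S * g) ^ 3 ≤ 1 := by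
      calc (4 * 10 ^ 5 * B ^ 2 * S * g) ^ 3 = 64 * 10 ^ 15 * B ^ 6 * (g ^ 3 * S ^ 3) := by ring
        _ ≤ 64 * 10 ^ 15 * B ^ 6 * y := mul_le_mul_of_nonneg_left hgS (by positivity)
        _ ≤ 10 ^ 25 * B ^ 15 * y := by
            have : B ^ 6 ≤ B ^ 15 := pow_le_pow_right₀ hB1 (by norm_num)
            have h2 : (64 * 10 ^ 15 : ℝ) ≤ 10 ^ 25 := by norm_num
            have hy : 0 ≤ y := le_trans (by positivity) hgS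
            gcongr
        _ ≤ 1 := hy2
    by_contra hcon
    push Not at hcon
    have := one_lt_pow₀ hcon (n := 3) (by norm_num)
    linarith
  have hmul := mult hPd hRs h.Lg hsm10 hbig hq1 t4 p hp
  have hX1 : 1 ≤ 1 + (L : ℝ) * σ ^ 2 := by
    have : 0 ≤ (L : ℝ) * σ ^ 2 := by positivity
    linarith
  have hησ := eta_eq (κ := κ) hσ
  have hcl0 : 0 < cl := by
    rw [h.cs.hcl]
    linarith [h.cs.lc]
  have hl1 := h.sm.l1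
  generalize 1 + Real.log (1 / (c0 * σ ^ 2)) = Λ at hΛ1 hΛcl hmul
  generalize 1 + (L : ℝ) * σ ^ 2 = X at hX1 hmul ⊢
  set D : ℝ := 10 ^ 11 * B * Λ ^ 3 * X with hD
  have hD0 : 0 < D := by rw [hD]; positivity
  have hDp : 0 < 1 / (8 * D ^ 2) := by positivity
  have hden : 1 / (8 * D ^ 2) ≤ ‖1 - (τ : ℂ) ^ 2 * tt (zp E σ κ) σ m p‖ := by
    refine hmul.trans ?_
    have := norm_sub_norm_le (1 : ℂ) ((τ : ℂ) ^ 2 * tt (zp E σ κ) σ m p)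
    rw [norm_one] at this
    exact this
  have hτ0 : 0 < τ ^ 2 := lt_of_lt_of_le (by positivity) t2
  have e1 : (τ ^ 2 * ‖tt (zp E σ κ) σ m p‖) ≤ 1 := by
    have h1 : ‖(τ : ℂ) ^ 2 * tt (zp E σ κ) σ m p‖ = τ ^ 2 * ‖tt (zp E σ κ) σ m p‖ := by
      rw [norm_mul, norm_pow, Complex.norm_real, Real.norm_eq_abs, sq_abs]
    rw [← h1]
    linarith
  have e2 : ‖tt (zp E σ κ) σ m p‖ ≤ 2 / σ ^ 2 := by
    rw [le_div_iff₀ (by positivity)]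
    have := mul_le_mul_of_nonneg_right t2 (norm_nonneg (tt (zp E σ κ) σ m p))
    linarith
  rw [norm_mul, norm_div, Complex.norm_real, Real.norm_eq_abs, abs_of_pos hη0]
  have e3 : ‖tt (zp E σ κ) σ m p‖ / ‖1 - (τ : ℂ) ^ 2 * tt (zp E σ κ) σ m p‖ ≤
      2 / σ ^ 2 / (1 / (8 * D ^ 2)) := div_le_div₀ (by positivity) e2 (by positivity) hden
  have hσκ0 : 0 < σ ^ κ := Real.rpow_pos_of_pos hσ _
  calc σ ^ (2 + κ) * (‖tt (zp E σ κ) σ m p‖ / ‖1 - (τ : ℂ) ^ 2 * tt (zp E σ κ) σ m p‖) ≤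
        σ ^ (2 + κ) * (2 / σ ^ 2 / (1 / (8 * D ^ 2))) := mul_le_mul_of_nonneg_left e3 hη0.le
    _ = 16 * σ ^ κ * D ^ 2 := by
        rw [hησ]
        field_simp
        ring
    _ = 16 * (10 ^ 11 * B) ^ 2 * Λ ^ 6 * (σ ^ κ * X ^ 2) := by rw [hD]; ring
    _ ≤ 16 * (10 ^ 11 * B) ^ 2 * (cl * (1 + Real.log (1 / σ))) ^ 6 * (σ ^ κ * X ^ 2) := by gcongr
    _ = _ := by ring

/-- the main term at zero momentum -/
theorem Pt.ze (h : Pt d L κ c0 B0 δ1 b c C θ cL C4 B K cl σ E m) (τ : ℝ)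
    (hτ : |τ ^ 2 - σ ^ 2| ≤ C * σ ^ 3) :
    ‖((σ ^ (2 + κ) : ℝ) : ℂ) * (tt (zp E σ κ) σ m (0 : T d L) /
      (1 - τ ^ 2 * tt (zp E σ κ) σ m (0 : T d L)))‖ ≤ 2 * B := by
  have hσ := h.sm.σ0
  have hB1 := h.cs.B1
  have hη0 : 0 < σ ^ (2 + κ) := Real.rpow_pos_of_pos hσ _
  obtain ⟨t1, t2, t3, t4⟩ := h.tau τ hτ
  have hmd : MD d L (zp E σ κ) σ m := h.md
  have hss : 0 < ss (zp E σ κ) σ m := ss_pos hmd
  have hmi0 := hmd.mim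
  have hms := h.ms.trans h.cs.BB
  have e1 : ‖(τ : ℂ) ^ 2 * tt (zp E σ κ) σ m (0 : T d L)‖ ≤
      τ ^ 2 * (m.im / ss (zp E σ κ) σ m) := by
    rw [← Tn_sum hmd τ, ← Tn_tt]
    refine (norm_sum_le _ _).trans (le_of_eq (Finset.sum_congr rfl fun x _ => ?_))
    rw [e_zero_left, one_mul, Complex.norm_real, Real.norm_eq_abs, abs_of_nonneg (Tn_nonneg x)]
  have hden : 3 / 4 * (σ ^ (2 + κ) / ss (zp E σ κ) σ m) ≤
      ‖1 - (τ : ℂ) ^ 2 * tt (zp E σ κ) σ m (0 : T d L)‖ := by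
    have e2 := norm_sub_norm_le (1 : ℂ) ((τ : ℂ) ^ 2 * tt (zp E σ κ) σ m (0 : T d L))
    rw [norm_one] at e2
    linarith
  have htt : ‖tt (zp E σ κ) σ m (0 : T d L)‖ ≤ m.im / ss (zp E σ κ) σ m := by
    have hτ0 : 0 < τ ^ 2 := lt_of_lt_of_le (by positivity) t2
    rw [norm_mul, norm_pow, Complex.norm_real, Real.norm_eq_abs, sq_abs] at e1
    exact le_of_mul_le_mul_left e1 hτ0
  rw [norm_mul, norm_div, Complex.norm_real, Real.norm_eq_abs, abs_of_pos hη0]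
  have e3 : ‖tt (zp E σ κ) σ m (0 : T d L)‖ / ‖1 - (τ : ℂ) ^ 2 * tt (zp E σ κ) σ m (0 : T d L)‖ ≤
      (m.im / ss (zp E σ κ) σ m) / (3 / 4 * (σ ^ (2 + κ) / ss (zp E σ κ) σ m)) :=
    div_le_div₀ (by positivity) htt (by positivity) hden
  calc σ ^ (2 + κ) * (‖tt (zp E σ κ) σ m (0 : T d L)‖ /
        ‖1 - (τ : ℂ) ^ 2 * tt (zp E σ κ) σ m (0 : T d L)‖) ≤
        σ ^ (2 + κ) * ((m.im / ss (zp E σ κ) σ m) / (3 / 4 * (σ ^ (2 + κ) / ss (zp E σ κ) σ m))) :=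
        mul_le_mul_of_nonneg_left e3 hη0.le
    _ = 4 / 3 * m.im := by
        field_simp
    _ ≤ 2 * B := by linarith

/-- the conclusion at one coupling -/
theorem Pt.fin (h : Pt d L κ c0 B0 δ1 b c C θ cL C4 B K cl σ E m) (μ : Measure ℝ)
    [IsProbabilityMeasure μ] (hμb : ∀ᵐ s ∂μ, |s| ≤ b) (hμ1 : ∫ s, s ∂μ = 0)
    (hμ2 : ∫ s, s ^ 2 ∂μ = 1) :
    (∀ p : T d L, p ≠ 0 → ‖((σ ^ (2 + κ) : ℝ) : ℂ) * ∑ x, e p x *
        ((∫ V, ‖uu (zp E σ κ) σ V x‖ ^ 2 ∂(PL (T d L) μ) : ℝ) : ℂ)‖ ≤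
        (16 * (10 ^ 11 * B) ^ 2 * cl ^ 6 + (4 * B + 3 * 10 ^ 26 * B ^ 17) + 2 * B) *
        (σ ^ κ * (1 + Real.log (1 / σ)) ^ 6 * (1 + L * σ ^ 2) ^ 2 + σ ^ ((1 - 2 * κ) / 20))) ∧
      σ ^ (2 + κ) * ∑ x : T d L, ∫ V, ‖uu (zp E σ κ) σ V x‖ ^ 2 ∂(PL (T d L) μ) ≤
        16 * (10 ^ 11 * B) ^ 2 * cl ^ 6 + (4 * B + 3 * 10 ^ 26 * B ^ 17) + 2 * B := by
  have hσ := h.sm.σ0
  have hη0 : 0 < σ ^ (2 + κ) := Real.rpow_pos_of_pos hσ _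
  have hBp : 0 < B := by linarith [h.cs.B1]
  have hcl0 : 0 < cl := by
    rw [h.cs.hcl]
    linarith [h.cs.lc]
  have hb1 := h.cs.b1
  have hB01 := h.cs.B01
  have hmB := h.mB
  have hcc := h.cs.hc
  obtain ⟨τ, hh, hsit⟩ := site_aux μ b c σ m hb1 h.cs.c1
    (by rw [hcc]; nlinarith [norm_nonneg m])
    (by rw [hcc]; nlinarith [norm_nonneg m]) hσ h.sm.cσ hμb hμ1 hμ2
  rw [← h.cs.hC] at hsit
  have herr := fun p : T d L => h.err μ τ hh hsit p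
  have hl1 := h.sm.l1
  have hε0 : 0 < σ ^ ((1 - 2 * κ) / 20) := Real.rpow_pos_of_pos hσ _
  have hε1 : σ ^ ((1 - 2 * κ) / 20) ≤ 1 :=
    Real.rpow_le_one hσ.le h.sm.σ1 (by linarith [h.cs.κ1])
  constructor
  · intro p hp
    have hmain := h.nz τ hsit.τσ p hp
    have h5 := norm_add_le (((σ ^ (2 + κ) : ℝ) : ℂ) * ∑ x, e p x *
      ((∫ V, ‖uu (zp E σ κ) σ V x‖ ^ 2 ∂(PL (T d L) μ) : ℝ) : ℂ) -
      ((σ ^ (2 + κ) : ℝ) : ℂ) * (tt (zp E σ κ) σ m p / (1 - τ ^ 2 * tt (zp E σ κ) σ m p)))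
      (((σ ^ (2 + κ) : ℝ) : ℂ) * (tt (zp E σ κ) σ m p / (1 - τ ^ 2 * tt (zp E σ κ) σ m p)))
    rw [sub_add_cancel] at h5
    refine h5.trans ((add_le_add (herr p) hmain).trans ?_)
    have hY0 : 0 ≤ σ ^ κ * (1 + Real.log (1 / σ)) ^ 6 * (1 + L * σ ^ 2) ^ 2 := by positivity
    generalize σ ^ κ * (1 + Real.log (1 / σ)) ^ 6 * (1 + L * σ ^ 2) ^ 2 = Y at hY0 ⊢
    generalize σ ^ ((1 - 2 * κ) / 20) = ε at hε0 hε1 ⊢
    have a1 : 0 ≤ 16 * (10 ^ 11 * B) ^ 2 * cl ^ 6 := by positivity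
    have a2 : 0 ≤ 4 * B + 3 * 10 ^ 26 * B ^ 17 := by positivity
    generalize 16 * (10 ^ 11 * B) ^ 2 * cl ^ 6 = P at a1 ⊢
    generalize 4 * B + 3 * 10 ^ 26 * B ^ 17 = Q at a2 ⊢
    have b1 := mul_nonneg a1 hε0.le
    have b2 := mul_nonneg a2 hY0
    have b3 := mul_nonneg hBp.le hY0
    have b4 := mul_nonneg hBp.le hε0.le
    have : (P + Q + 2 * B) * (Y + ε) = Q * ε + P * Y + P * ε + Q * Y + 2 * (B * Y) + 2 * (B * ε) := by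
      ring
    rw [this]
    linarith
  · have h1 := herr 0
    have hmain := h.ze τ hsit.τσ
    simp only [e_zero_left, one_mul] at h1
    have h5 := norm_add_le (((σ ^ (2 + κ) : ℝ) : ℂ) * ∑ x : T d L,
      ((∫ V, ‖uu (zp E σ κ) σ V x‖ ^ 2 ∂(PL (T d L) μ) : ℝ) : ℂ) -
      ((σ ^ (2 + κ) : ℝ) : ℂ) * (tt (zp E σ κ) σ m (0 : T d L) /
        (1 - τ ^ 2 * tt (zp E σ κ) σ m (0 : T d L))))
      (((σ ^ (2 + κ) : ℝ) : ℂ) * (tt (zp E σ κ) σ m (0 : T d L) /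
        (1 - τ ^ 2 * tt (zp E σ κ) σ m (0 : T d L))))
    rw [sub_add_cancel] at h5
    have h6 : ‖((σ ^ (2 + κ) : ℝ) : ℂ) * ∑ x : T d L,
        ((∫ V, ‖uu (zp E σ κ) σ V x‖ ^ 2 ∂(PL (T d L) μ) : ℝ) : ℂ)‖ =
        σ ^ (2 + κ) * ∑ x : T d L, ∫ V, ‖uu (zp E σ κ) σ V x‖ ^ 2 ∂(PL (T d L) μ) := by
      rw [← Complex.ofReal_sum, ← Complex.ofReal_mul, Complex.norm_real, Real.norm_eq_abs,
        abs_of_nonneg]
      refine mul_nonneg hη0.le (Finset.sum_nonneg fun x _ => integral_nonneg fun V => by positivity)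
    rw [h6] at h5
    refine h5.trans ((add_le_add h1 hmain).trans ?_)
    have a1 : 0 ≤ 16 * (10 ^ 11 * B) ^ 2 * cl ^ 6 := by positivity
    have a2 : 0 ≤ 4 * B + 3 * 10 ^ 26 * B ^ 17 := by positivity
    have a3 : (4 * B + 3 * 10 ^ 26 * B ^ 17) * σ ^ ((1 - 2 * κ) / 20) ≤
        (4 * B + 3 * 10 ^ 26 * B ^ 17) * 1 := mul_le_mul_of_nonneg_left hε1 a2
    generalize 16 * (10 ^ 11 * B) ^ 2 * cl ^ 6 = P at a1 ⊢
    generalize 4 * B + 3 * 10 ^ 26 * B ^ 17 = Q at a2 a3 ⊢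
    linarith

/-- **the uniform bound** -/
theorem unif (hd : 3 ≤ d) (E1 E2 : ℝ) (hE1 : 0 < E1) (hE2 : E2 < 4 * d) (b : ℝ) (κ : ℝ)
    (hκ0 : 0 < κ) (hκ1 : κ < 1 / 2) :
    ∃ A K δ : ℝ, 0 < A ∧ 0 < K ∧ 0 < δ ∧ δ ≤ 1 ∧ ∀ (μ : Measure ℝ) [IsProbabilityMeasure μ],
      (∀ᵐ s ∂μ, |s| ≤ b) → ∫ s, s ∂μ = 0 → ∫ s, s ^ 2 ∂μ = 1 → ∀ E : ℝ, E1 ≤ E → E ≤ E2 →
      ∀ σ : ℝ, 0 < σ → σ < δ → ∀ (L : ℕ) [NeZero L], K * (1 / σ) ^ 2 * Real.log (1 / σ) ≤ L →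
      (L : ℝ) * σ ^ 3 ≤ 1 →
      (∀ p : T d L, p ≠ 0 → ‖((σ ^ (2 + κ) : ℝ) : ℂ) * ∑ x, e p x *
        ((∫ V, ‖uu (zp E σ κ) σ V x‖ ^ 2 ∂(PL (T d L) μ) : ℝ) : ℂ)‖ ≤
        A * (σ ^ κ * (1 + Real.log (1 / σ)) ^ 6 * (1 + L * σ ^ 2) ^ 2 + σ ^ ((1 - 2 * κ) / 20))) ∧
      σ ^ (2 + κ) * ∑ x : T d L, ∫ V, ‖uu (zp E σ κ) σ V x‖ ^ 2 ∂(PL (T d L) μ) ≤ A := by
  obtain ⟨c0, B0, δ1, hc0, hc01, hB01, hδ1, hmd⟩ := md_ex hd E1 E2 hE1 hE2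
  obtain ⟨b', hb'⟩ : ∃ b' : ℝ, b' = max b 1 := ⟨_, rfl⟩
  obtain ⟨c, hc⟩ : ∃ c : ℝ, c = b' * (B0 + 1) := ⟨_, rfl⟩
  obtain ⟨C, hC⟩ : ∃ C : ℝ, C = 100 * c ^ 3 := ⟨_, rfl⟩
  obtain ⟨θ, hθ⟩ : ∃ θ : ℝ, θ = (1 - 2 * κ) / 10 := ⟨_, rfl⟩
  obtain ⟨cL, hcL⟩ : ∃ cL : ℝ, cL = 1 + Real.log (1 / c0) + 2 / θ := ⟨_, rfl⟩
  obtain ⟨C4, hC4⟩ : ∃ C4 : ℝ, C4 = B0 ^ 4 + 10 * d * B0 + d * (8 * 10 ^ 18) := ⟨_, rfl⟩
  obtain ⟨B, hB⟩ : ∃ B : ℝ, B = 1 + B0 + 1 / c0 + C + C4 * cL ^ 3 + 1 / θ := ⟨_, rfl⟩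
  obtain ⟨cl, hcl⟩ : ∃ cl : ℝ, cl = 3 + Real.log (1 / c0) := ⟨_, rfl⟩
  obtain ⟨K, hK⟩ : ∃ K : ℝ, K = 7000 * cl / c0 := ⟨_, rfl⟩
  have hb'1 : 1 ≤ b' := by rw [hb']; exact le_max_right _ _
  have hlc0 : 0 ≤ Real.log (1 / c0) := Real.log_nonneg (by rw [le_div_iff₀ hc0]; linarith)
  have hθ0 : 0 < θ := by rw [hθ]; linarith
  have hcL0 : 0 ≤ cL := by
    rw [hcL]
    have : 0 < 2 / θ := by positivity
    linarith
  have hC40 : 0 ≤ C4 := by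
    rw [hC4]
    have : 0 ≤ B0 := by linarith
    positivity
  have hcL3 : 0 ≤ C4 * cL ^ 3 := by positivity
  have h1c0 : 0 < 1 / c0 := by positivity
  have h1θ : 0 < 1 / θ := by positivity
  have hC0 : 0 ≤ C := by
    rw [hC, hc]
    have : 0 ≤ B0 := by linarith
    positivity
  have hcst : Cst d κ c0 B0 δ1 b' c C θ cL C4 B K cl :=
    { hd := hd
      κ0 := hκ0
      κ1 := hκ1
      c00 := hc0
      c01 := hc01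
      B01 := hB01
      δ10 := hδ1
      b1 := hb'1
      hc := hc
      hC := hC
      hθ := hθ
      hcL := hcL
      hC4 := hC4
      B1 := by rw [hB]; linarith
      BB := by rw [hB]; linarith
      Bc := by rw [hB]; linarith
      BC := by rw [hB]; linarith
      B4 := by rw [hB]; linarith
      Bθ := by rw [hB]; linarith
      hcl := hcl
      hK := hK }
  obtain ⟨δ2, hδ2, hsm⟩ := sm_ev κ c0 B0 δ1 c C B θ hκ0 hκ1 hc0 hδ1 hθ0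
  have hBp : 0 < B := by linarith [hcst.B1]
  have hcl0 : 0 < cl := by rw [hcl]; linarith
  refine ⟨16 * (10 ^ 11 * B) ^ 2 * cl ^ 6 + (4 * B + 3 * 10 ^ 26 * B ^ 17) + 2 * B, K, min δ2 1,
    by positivity, by rw [hK]; positivity, lt_min hδ2 one_pos, min_le_right _ _, ?_⟩
  intro μ _ hμb hμ1 hμ2 E ha hb σ hσ0 hσδ L _ hL hLσ
  have hS := hsm σ hσ0 (hσδ.trans_le (min_le_left _ _))
  have hη0 : 0 < σ ^ (2 + κ) := Real.rpow_pos_of_pos hσ0 _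
  have hcut := cut_pt hcst hS hL
  obtain ⟨m, hMD, hmi, hmB0⟩ := hmd L E ha hb (zp E σ κ) (by rw [zp_im]; exact hη0) (by
    have e1 : zp E σ κ - E = ((σ ^ (2 + κ) : ℝ) : ℂ) * Complex.I := by unfold zp; ring
    rw [e1, norm_mul, Complex.norm_I, mul_one, Complex.norm_real, Real.norm_eq_abs,
      abs_of_pos hη0]
    exact ((eta_le hσ0 hS.σ1 hκ0).trans (sq_le_self hσ0 hS.σ1)).trans hS.σδ) σ hσ0 hS.σδ _ hcut
  have hPt : Pt d L κ c0 B0 δ1 b' c C θ cL C4 B K cl σ E m :=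
    { cs := hcst
      sm := hS
      hL := hL
      hLσ := hLσ
      md := hMD
      mi := hmi
      mB := hmB0 }
  exact hPt.fin μ (hμb.mono fun s hs => hs.trans (by rw [hb']; exact le_max_left _ _)) hμ1 hμ2

end Pool.Agent.Zk11.QE
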